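import Mathlib

/-!
# Artin-Schreier extensions: basic algebra
-/

namespace Pool.Agent.Helper32

open Polynomial

section basics

variable {p : ℕ} [hp : Fact p.Prime]

lemma wp_add {E : Type*} [CommRing E] [CharP E p] (a b : E) :
    (a + b) ^ p - (a + b) = (a ^ p - a) + (b ^ p - b) := by
  rw [add_pow_char]; ring

lemma wp_sub {E : Type*} [CommRing E] [CharP E p] (a b : E) :
    (a - b) ^ p - (a - b) = (a ^ p - a) - (b ^ p - b) := by
  rw [sub_pow_char]; ring

lemma natCast_pow_char {E : Type*} [CommRing E] [CharP E p] (n : ℕ) : (n : E) ^ p = n := by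
  have := map_natCast (frobenius E p) n
  rwa [frobenius_def] at this

/-- Data of an Artin-Schreier extension `F = E(w)`, `w ^ p - w = P`. -/
structure ASData (p : ℕ) {E F : Type*} [Field E] [Field F] [Algebra E F] (w : F) (P : E) : Prop where
  eq : w ^ p - w = algebraMap E F P
  np : ∀ y : E, y ^ p - y ≠ P
  gen : Algebra.adjoin E {w} = ⊤

variable {E F : Type*} [Field E] [Field F] [Algebra E F]

lemma AS_monic [CharP E p] (P : E) : (X ^ p - X - C P : E[X]).Monic := by
  have h2 : 2 ≤ p := hp.out.two_le
  have : (X ^ p - X - C P : E[X]) = X ^ p - (X + C P) := by ring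
  rw [this]
  apply monic_X_pow_sub
  rw [degree_X_add_C]
  exact_mod_cast h2

lemma AS_natDegree (P : E) : (X ^ p - X - C P : E[X]).natDegree = p := by
  have h2 : 2 ≤ p := hp.out.two_le
  have : (X ^ p - X - C P : E[X]) = X ^ p - (X + C P) := by ring
  rw [this]
  rw [natDegree_sub_eq_left_of_natDegree_lt]
  · simp
  · rw [natDegree_X_add_C, natDegree_X_pow]; omega

lemma AS_minpoly_natDegree [CharP E p] {w : F} {P : E} (eq : w ^ p - w = algebraMap E F P)
    (np : ∀ y : E, y ^ p - y ≠ P) : (minpoly E w).natDegree = p := by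
  set q : E[X] := X ^ p - X - C P with hq
  have hqm : q.Monic := AS_monic P
  have hroot : aeval w q = 0 := by
    simp [hq, eq]
  have hint : IsIntegral E w := ⟨q, hqm, by simpa [aeval_def] using hroot⟩
  have hdvd : minpoly E w ∣ q := minpoly.dvd E w hroot
  have hle : (minpoly E w).natDegree ≤ p := by
    have := natDegree_le_of_dvd hdvd hqm.ne_zero
    rwa [AS_natDegree] at this
  by_contra hne
  have hlt : (minpoly E w).natDegree < p := lt_of_le_of_ne hle hne
  set m := minpoly E w with hm
  set d := m.natDegree with hd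
  have hdpos : 0 < d := minpoly.natDegree_pos hint
  have hmm : m.Monic := minpoly.monic hint
  -- work in the algebraic closure
  let A := AlgebraicClosure E
  have : CharP A p := charP_of_injective_algebraMap (algebraMap E A).injective p
  have hsp : (m.map (algebraMap E A)).Splits := IsAlgClosed.splits _
  have hmm' : (m.map (algebraMap E A)).Monic := hmm.map _
  have hcard : (m.map (algebraMap E A)).roots.card = d := by
    rw [← Polynomial.Splits.natDegree_eq_card_roots hsp, natDegree_map]
  have hsum : (m.map (algebraMap E A)).roots.sum = algebraMap E A (-m.nextCoeff) := by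
    have := Polynomial.Splits.nextCoeff_eq_neg_sum_roots_of_monic hsp hmm'
    rw [Polynomial.nextCoeff_map (algebraMap E A).injective] at this
    rw [map_neg, this, neg_neg]
  have hroots : ∀ r ∈ (m.map (algebraMap E A)).roots, r ^ p - r = algebraMap E A P := by
    intro r hr
    rw [mem_roots hmm'.ne_zero, IsRoot.def, eval_map] at hr
    obtain ⟨c, hc⟩ := hdvd
    have : eval₂ (algebraMap E A) r q = 0 := by rw [hc, eval₂_mul, hr, zero_mul]
    simp only [hq, eval₂_sub, eval₂_X_pow, eval₂_X, eval₂_C] at this
    exact sub_eq_zero.mp this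
  have hsum2 : ((m.map (algebraMap E A)).roots.sum) ^ p - (m.map (algebraMap E A)).roots.sum
      = d • algebraMap E A P := by
    rw [← hcard]
    generalize (m.map (algebraMap E A)).roots = s at hroots
    induction s using Multiset.induction_on with
    | empty => simp [hp.out.ne_zero]
    | cons a s ih =>
      rw [Multiset.sum_cons, wp_add, hroots a (Multiset.mem_cons_self a s),
        ih (fun r hr => hroots r (Multiset.mem_cons_of_mem hr)), Multiset.card_cons, succ_nsmul,
        add_comm]
  rw [hsum, ← map_pow, ← map_sub, ← map_nsmul] at hsum2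
  have h3 := (algebraMap E A).injective hsum2
  have hd0 : (d : E) ≠ 0 := by
    intro h0
    rw [CharP.cast_eq_zero_iff E p] at h0
    exact absurd (Nat.le_of_dvd hdpos h0) (by omega)
  apply np (-m.nextCoeff / d)
  rw [div_pow, natCast_pow_char, ← sub_div, h3, nsmul_eq_mul]
  field_simp

lemma AS_minpoly [CharP E p] {w : F} {P : E} (eq : w ^ p - w = algebraMap E F P)
    (np : ∀ y : E, y ^ p - y ≠ P) : minpoly E w = X ^ p - X - C P := by
  set q : E[X] := X ^ p - X - C P with hq
  have hqm : q.Monic := AS_monic P
  have hroot : aeval w q = 0 := by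
    simp [hq, eq]
  have hint : IsIntegral E w := ⟨q, hqm, by simpa [aeval_def] using hroot⟩
  have hdvd : minpoly E w ∣ q := minpoly.dvd E w hroot
  have hdeg := AS_minpoly_natDegree eq np
  refine (eq_of_monic_of_dvd_of_natDegree_le (minpoly.monic hint) hqm hdvd ?_).symm
  rw [hdeg, AS_natDegree]

namespace ASData

variable {w : F} {P : E}

lemma minpoly_eq [CharP E p] (h : ASData p w P) : minpoly E w = X ^ p - X - C P :=
  AS_minpoly h.eq h.np

lemma isIntegral [CharP E p] (h : ASData p w P) : IsIntegral E w := by
  refine ⟨X ^ p - X - C P, AS_monic P, ?_⟩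
  have := h.eq
  simp [this]

/-- every element is a polynomial of degree `< p` in `w` -/
lemma exists_rep [CharP E p] (h : ASData p w P) (y : F) :
    ∃ f : E[X], f.natDegree < p ∧ aeval w f = y := by
  have hy : y ∈ Algebra.adjoin E {w} := by rw [h.gen]; trivial
  rw [Algebra.adjoin_singleton_eq_range_aeval] at hy
  obtain ⟨f, rfl⟩ := hy
  refine ⟨f %ₘ (minpoly E w), ?_, ?_⟩
  · have h1 := natDegree_modByMonic_lt f (minpoly.monic h.isIntegral) (by
      rw [h.minpoly_eq]
      intro h1
      have := AS_natDegree (p := p) P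
      rw [h1, natDegree_one] at this
      exact hp.out.ne_zero this.symm)
    rw [h.minpoly_eq, AS_natDegree] at h1
    rw [h.minpoly_eq]; exact h1
  · rw [aeval_modByMonic_eq_self_of_root (minpoly.aeval E w)]
    rfl

lemma eq_zero_of_aeval_eq_zero [CharP E p] (h : ASData p w P) {f : E[X]} (hf : f.natDegree < p)
    (h0 : aeval w f = 0) : f = 0 := by
  by_contra hne
  have h1 := natDegree_le_of_dvd (minpoly.dvd E w h0) hne
  rw [h.minpoly_eq, AS_natDegree] at h1
  omega

lemma rep_unique [CharP E p] (h : ASData p w P) {f g : E[X]} (hf : f.natDegree < p)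
    (hg : g.natDegree < p) (hfg : aeval w f = aeval w g) : f = g := by
  have h1 : f - g = 0 := by
    apply h.eq_zero_of_aeval_eq_zero
    · exact lt_of_le_of_lt (natDegree_sub_le f g) (max_lt hf hg)
    · rw [map_sub, hfg, sub_self]
  exact sub_eq_zero.mp h1

lemma shift [CharP E p] [CharP F p] (h : ASData p w P) (c : E) :
    ASData p (w - algebraMap E F c) (P - (c ^ p - c)) where
  eq := by
    rw [wp_sub, h.eq, map_sub, map_sub, map_pow]
  np := by
    intro y hy
    apply h.np (y + c)
    rw [wp_add, hy]; ring
  gen := by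
    rw [eq_top_iff, ← h.gen]
    apply Algebra.adjoin_le
    intro y hy
    rw [Set.mem_singleton_iff] at hy
    subst hy
    have h1 : y - algebraMap E F c ∈ Algebra.adjoin E {y - algebraMap E F c} :=
      Algebra.subset_adjoin (Set.mem_singleton _)
    have h2 : algebraMap E F c ∈ Algebra.adjoin E {y - algebraMap E F c} :=
      Subalgebra.algebraMap_mem _ c
    have := add_mem h1 h2
    simpa using this

/-- the automorphism `w ↦ w + 1` -/
lemma exists_tau [CharP E p] [CharP F p] (h : ASData p w P) :
    ∃ τ : F →ₐ[E] F, τ w = w + 1 := by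
  have htop : IntermediateField.adjoin E {w} = ⊤ := by
    rw [eq_top_iff]
    intro y _
    have hy : y ∈ Algebra.adjoin E {w} := by rw [h.gen]; trivial
    exact (IntermediateField.algebra_adjoin_le_adjoin E {w}) hy
  have hroot : aeval (w + 1) (minpoly E w) = 0 := by
    rw [h.minpoly_eq]
    have h1 := wp_add (p := p) w (1 : F)
    simp only [one_pow, sub_self, add_zero, h.eq] at h1
    simp [h1]
  let pb := PowerBasis.ofAdjoinEqTop h.isIntegral h.gen
  have hgen : pb.gen = w := PowerBasis.ofAdjoinEqTop_gen h.isIntegral h.gen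
  have hroot' : aeval (w + 1) (minpoly E pb.gen) = 0 := by rw [hgen]; exact hroot
  refine ⟨pb.lift (w + 1) hroot', ?_⟩
  have := pb.lift_gen (w + 1) hroot'
  rwa [hgen] at this

lemma finite [CharP E p] (h : ASData p w P) : Module.Finite E F :=
  (PowerBasis.ofAdjoinEqTop h.isIntegral h.gen).finite

lemma finrank [CharP E p] (h : ASData p w P) : Module.finrank E F = p := by
  have := (PowerBasis.ofAdjoinEqTop h.isIntegral h.gen).finrank
  rw [this, PowerBasis.ofAdjoinEqTop_dim, h.minpoly_eq, AS_natDegree]

end ASData

end basics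

end Pool.Agent.Helper32
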