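import Mathlib
import Pool.Agent.Helper32.AS1

/-!
# Artin-Schreier extensions: extension of a valuation, totally ramified case
-/

namespace Pool.Agent.Helper32

open Polynomial WithZero

set_option linter.unusedSectionVars false

variable {p : ℕ} [hp : Fact p.Prime]
variable {E F : Type*} [Field E] [Field F] [Algebra E F]

/-- The value (with respect to the totally ramified extension) of a polynomial in `w`. -/
noncomputable def polVal (p : ℕ) (v : Valuation E (WithZero (Multiplicative ℤ))) (l : ℤ)
    (f : E[X]) : WithZero (Multiplicative ℤ) :=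
  (Finset.range p).sup fun i => v (f.coeff i) ^ p * exp ((i : ℤ) * l)

section polVal

variable (v : Valuation E (WithZero (Multiplicative ℤ))) (l : ℤ)

lemma term_le_polVal (f : E[X]) {i : ℕ} (hi : i < p) :
    v (f.coeff i) ^ p * exp ((i : ℤ) * l) ≤ polVal p v l f :=
  Finset.le_sup (f := fun i : ℕ => v (f.coeff i) ^ p * exp ((i : ℤ) * l)) (Finset.mem_range.mpr hi)

lemma polVal_le {f : E[X]} {c : WithZero (Multiplicative ℤ)}
    (h : ∀ i < p, v (f.coeff i) ^ p * exp ((i : ℤ) * l) ≤ c) : polVal p v l f ≤ c :=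
  Finset.sup_le fun i hi => h i (Finset.mem_range.mp hi)

lemma polVal_zero : polVal p v l (0 : E[X]) = 0 := by
  refine le_antisymm (polVal_le v l ?_) zero_le
  intro i _
  simp [hp.out.ne_zero]

lemma polVal_neg (f : E[X]) : polVal p v l (-f) = polVal p v l f := by
  unfold polVal
  simp [Valuation.map_neg]

lemma polVal_add_le (f g : E[X]) :
    polVal p v l (f + g) ≤ max (polVal p v l f) (polVal p v l g) := by
  apply polVal_le
  intro i hi
  rw [coeff_add]
  have h1 : v (f.coeff i + g.coeff i) ≤ max (v (f.coeff i)) (v (g.coeff i)) := v.map_add _ _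
  rcases le_max_iff.mp h1 with h | h
  · apply le_max_of_le_left
    refine le_trans ?_ (term_le_polVal v l f hi)
    gcongr
  · apply le_max_of_le_right
    refine le_trans ?_ (term_le_polVal v l g hi)
    gcongr

lemma polVal_monomial {n : ℕ} (hn : n < p) (a : E) :
    polVal p v l (monomial n a) = v a ^ p * exp ((n : ℤ) * l) := by
  apply le_antisymm
  · apply polVal_le
    intro i hi
    rw [coeff_monomial]
    split_ifs with h
    · subst h; exact le_rfl
    · simp [hp.out.ne_zero]
  · have := term_le_polVal v l (monomial n a) hn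
    simpa using this

lemma polVal_eq_zero {f : E[X]} (hf : f.natDegree < p) (h0 : polVal p v l f = 0) : f = 0 := by
  ext i
  by_cases hi : i < p
  · have h1 := term_le_polVal v l f hi
    rw [h0, le_zero_iff, mul_eq_zero] at h1
    rcases h1 with h1 | h1
    · have := eq_zero_of_pow_eq_zero h1
      simpa using this
    · exact absurd h1 exp_ne_zero
  · rw [coeff_eq_zero_of_natDegree_lt (by omega)]; simp

/-- the terms of `polVal` are pairwise distinct -/
lemma terms_ne (hl : ¬ (p : ℤ) ∣ l) {a b : E} (ha : a ≠ 0) {i j : ℕ} (hi : i < p)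
    (hj : j < p) (hij : i ≠ j) :
    v a ^ p * exp ((i : ℤ) * l) ≠ v b ^ p * exp ((j : ℤ) * l) := by
  intro h
  have hva : v a ≠ 0 := (Valuation.ne_zero_iff v).mpr ha
  by_cases hb : b = 0
  · subst hb
    simp only [map_zero, zero_pow hp.out.ne_zero, zero_mul] at h
    have := mul_eq_zero.mp h
    rcases this with h | h
    · exact hva (eq_zero_of_pow_eq_zero h)
    · exact exp_ne_zero h
  have hvb : v b ≠ 0 := (Valuation.ne_zero_iff v).mpr hb
  rw [← exp_log hva, ← exp_log hvb, ← exp_nsmul, ← exp_nsmul, ← exp_add, ← exp_add, exp_inj] at h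
  simp only [nsmul_eq_mul] at h
  have h2 : (p : ℤ) ∣ ((i : ℤ) - j) * l := ⟨log (v b) - log (v a), by linarith⟩
  rcases (Nat.prime_iff_prime_int.mp hp.out).dvd_or_dvd h2 with h3 | h3
  · have h5 := Int.eq_zero_of_abs_lt_dvd h3 (abs_lt.mpr ⟨by omega, by omega⟩)
    omega
  · exact hl h3

/-- leading monomial decomposition -/
lemma exists_leading (hl : ¬ (p : ℤ) ∣ l) {f : E[X]} (hf : f.natDegree < p) (hf0 : f ≠ 0) :
    ∃ i < p, ∃ a : E, ∃ g : E[X], a ≠ 0 ∧ g.natDegree < p ∧ f = monomial i a + g ∧
      polVal p v l g < polVal p v l (monomial i a) ∧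
      polVal p v l f = polVal p v l (monomial i a) := by
  have hne : (Finset.range p).Nonempty := ⟨0, Finset.mem_range.mpr hp.out.pos⟩
  obtain ⟨i, hi, hmax⟩ := Finset.exists_mem_eq_sup (Finset.range p) hne
    (fun i : ℕ => v (f.coeff i) ^ p * exp ((i : ℤ) * l))
  rw [Finset.mem_range] at hi
  have hval : polVal p v l f = v (f.coeff i) ^ p * exp ((i : ℤ) * l) := hmax
  have hpos : polVal p v l f ≠ 0 := fun h0 => hf0 (polVal_eq_zero v l hf h0)
  have ha : f.coeff i ≠ 0 := by
    intro h0
    rw [hval, h0, map_zero, zero_pow hp.out.ne_zero, zero_mul] at hpos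
    exact hpos rfl
  refine ⟨i, hi, f.coeff i, f - monomial i (f.coeff i), ha, ?_, by ring, ?_, ?_⟩
  · refine lt_of_le_of_lt (natDegree_sub_le _ _) (max_lt hf ?_)
    exact lt_of_le_of_lt (natDegree_monomial_le _) hi
  · rw [polVal_monomial v l hi]
    have hpos' : (0 : WithZero (Multiplicative ℤ)) < v (f.coeff i) ^ p * exp ((i : ℤ) * l) := by
      rw [← hval]; exact zero_lt_iff.mpr hpos
    unfold polVal
    rw [Finset.sup_lt_iff (by simpa using hpos')]
    intro j hj
    rw [Finset.mem_range] at hj
    rw [coeff_sub, coeff_monomial]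
    by_cases hij : i = j
    · subst hij
      simpa [hp.out.ne_zero] using hpos'
    · rw [if_neg hij, sub_zero]
      have h1 := term_le_polVal v l f hj
      rw [hval] at h1
      exact lt_of_le_of_ne h1 (terms_ne v l hl ha hi hj hij).symm
  · rw [polVal_monomial v l hi, hval]

end polVal

namespace ASData

variable {w : F} {P : E}

/-- the polynomial of degree `< p` representing an element of the extension -/
noncomputable def rep [CharP E p] (h : ASData p w P) (y : F) : E[X] :=
  Classical.choose (h.exists_rep y)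

variable [CharP E p] (h : ASData p w P)

lemma rep_natDegree (y : F) : (h.rep y).natDegree < p :=
  (Classical.choose_spec (h.exists_rep y)).1

@[simp] lemma aeval_rep (y : F) : aeval w (h.rep y) = y :=
  (Classical.choose_spec (h.exists_rep y)).2

lemma rep_eq {y : F} {f : E[X]} (hf : f.natDegree < p) (hy : aeval w f = y) : h.rep y = f :=
  h.rep_unique (h.rep_natDegree y) hf (by rw [h.aeval_rep, hy])

@[simp] lemma rep_zero : h.rep 0 = 0 := h.rep_eq (by simp [hp.out.pos]) (by simp)

lemma rep_add (x y : F) : h.rep (x + y) = h.rep x + h.rep y :=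
  h.rep_eq (lt_of_le_of_lt (natDegree_add_le _ _) (max_lt (h.rep_natDegree x) (h.rep_natDegree y)))
    (by simp)

lemma rep_neg (x : F) : h.rep (-x) = -h.rep x :=
  h.rep_eq (by simpa using h.rep_natDegree x) (by simp)

lemma rep_eq_zero {y : F} (h0 : h.rep y = 0) : y = 0 := by
  rw [← h.aeval_rep y, h0, map_zero]

/-- the extension of the valuation -/
noncomputable def val (v : Valuation E (WithZero (Multiplicative ℤ))) (l : ℤ) (y : F) :
    WithZero (Multiplicative ℤ) := polVal p v l (h.rep y)

variable (v : Valuation E (WithZero (Multiplicative ℤ))) (l : ℤ)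

lemma val_aeval {f : E[X]} (hf : f.natDegree < p) : h.val v l (aeval w f) = polVal p v l f := by
  unfold val; rw [h.rep_eq hf rfl]

lemma val_add_le (x y : F) : h.val v l (x + y) ≤ max (h.val v l x) (h.val v l y) := by
  unfold val; rw [h.rep_add]; exact polVal_add_le v l _ _

lemma val_zero : h.val v l 0 = 0 := by
  unfold val; rw [h.rep_zero, polVal_zero]

lemma val_neg (x : F) : h.val v l (-x) = h.val v l x := by
  unfold val; rw [h.rep_neg, polVal_neg]

lemma val_eq_zero {y : F} (h0 : h.val v l y = 0) : y = 0 :=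
  h.rep_eq_zero (polVal_eq_zero v l (h.rep_natDegree y) h0)

lemma val_monomial {n : ℕ} (hn : n < p) (a : E) :
    h.val v l (algebraMap E F a * w ^ n) = v a ^ p * exp ((n : ℤ) * l) := by
  rw [← polVal_monomial v l hn a, ← h.val_aeval v l (lt_of_le_of_lt (natDegree_monomial_le _) hn)]
  rw [aeval_monomial]

lemma pow_eq_add (h : ASData p w P) : w ^ p = w + algebraMap E F P := by
  rw [← h.eq]; ring

lemma val_monomial_mul {l : ℤ} (hl0 : 0 < l) (hP : v P = exp l) {i j : ℕ} (hi : i < p) (hj : j < p)
    (a b : E) :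
    h.val v l ((algebraMap E F a * w ^ i) * (algebraMap E F b * w ^ j)) =
      (v a ^ p * exp ((i : ℤ) * l)) * (v b ^ p * exp ((j : ℤ) * l)) := by
  have hrhs : (v a ^ p * exp ((i : ℤ) * l)) * (v b ^ p * exp ((j : ℤ) * l)) =
      v (a * b) ^ p * exp (((i + j : ℕ) : ℤ) * l) := by
    rw [map_mul, mul_pow]
    push_cast
    rw [add_mul, exp_add, mul_mul_mul_comm]
  rw [hrhs]
  by_cases hij : i + j < p
  · rw [← h.val_monomial v l hij (a * b)]
    congr 1
    rw [map_mul, pow_add]; ring
  · push Not at hij
    obtain ⟨m, hm⟩ := Nat.exists_eq_add_of_le hij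
    have hm1 : m + 1 < p := by omega
    have hprod : (algebraMap E F a * w ^ i) * (algebraMap E F b * w ^ j) =
        aeval w (monomial (m + 1) (a * b) + monomial m (a * b * P)) := by
      rw [map_add, aeval_monomial, aeval_monomial]
      have : w ^ i * w ^ j = w ^ m * (w + algebraMap E F P) := by
        rw [← pow_add, hm, pow_add, h.pow_eq_add]; ring
      calc _ = algebraMap E F a * algebraMap E F b * (w ^ i * w ^ j) := by ring
        _ = _ := by rw [this, map_mul, map_mul, map_mul]; ring
    rw [hprod, h.val_aeval v l]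
    · rw [hm]
      have key : v (a * b * P) ^ p * exp ((m : ℤ) * l) = v (a * b) ^ p * exp (((p + m : ℕ) : ℤ) * l) := by
        rw [map_mul, mul_pow, hP, ← exp_nsmul, mul_assoc, ← exp_add]
        congr 2
        push_cast
        rw [nsmul_eq_mul]; ring
      apply le_antisymm
      · refine le_trans (polVal_add_le v l _ _) ?_
        have hm0 : m < p := by omega
        rw [polVal_monomial v l hm1, polVal_monomial v l hm0, key]
        apply max_le _ le_rfl
        gcongr
        · rw [exp_le_exp]
          apply mul_le_mul_of_nonneg_right _ hl0.le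
          have := hp.out.one_le
          omega
      · rw [← key]
        have hm0 : m < p := by omega
        have := term_le_polVal (p := p) v l
          (monomial (m + 1) (a * b) + monomial m (a * b * P)) hm0
        simpa [coeff_monomial] using this
    · refine lt_of_le_of_lt (natDegree_add_le _ _) (max_lt ?_ ?_)
      · exact lt_of_le_of_lt (natDegree_monomial_le _) hm1
      · exact lt_of_le_of_lt (natDegree_monomial_le _) (by omega)

lemma val_sum_le {ι : Type*} (s : Finset ι) (f : ι → F) {c : WithZero (Multiplicative ℤ)}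
    (hc : ∀ i ∈ s, h.val v l (f i) ≤ c) : h.val v l (∑ i ∈ s, f i) ≤ c := by
  classical
  induction s using Finset.induction_on with
  | empty => simp [h.val_zero]
  | insert a s ha ih =>
    rw [Finset.sum_insert ha]
    refine le_trans (h.val_add_le v l _ _) (max_le (hc _ (Finset.mem_insert_self _ _)) ?_)
    exact ih fun i hi => hc i (Finset.mem_insert_of_mem hi)

lemma eq_sum (y : F) :
    y = ∑ i ∈ Finset.range p, algebraMap E F ((h.rep y).coeff i) * w ^ i := by
  conv_lhs => rw [← h.aeval_rep y]
  rw [aeval_eq_sum_range' (h.rep_natDegree y)]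
  simp [Algebra.smul_def]

lemma term_le_val (y : F) {i : ℕ} (hi : i < p) :
    h.val v l (algebraMap E F ((h.rep y).coeff i) * w ^ i) ≤ h.val v l y := by
  rw [h.val_monomial v l hi]
  exact term_le_polVal v l (h.rep y) hi

lemma val_mul_le {l : ℤ} (hl0 : 0 < l) (hP : v P = exp l) (x y : F) :
    h.val v l (x * y) ≤ h.val v l x * h.val v l y := by
  conv_lhs => rw [h.eq_sum x, h.eq_sum y]
  rw [Finset.sum_mul_sum]
  apply h.val_sum_le
  intro i hi
  apply h.val_sum_le
  intro j hj
  rw [Finset.mem_range] at hi hj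
  rw [h.val_monomial_mul v hl0 hP hi hj]
  gcongr
  · exact term_le_polVal v l (h.rep x) hi
  · exact term_le_polVal v l (h.rep y) hj

lemma val_add_eq {x y : F} (hxy : h.val v l y < h.val v l x) : h.val v l (x + y) = h.val v l x := by
  apply le_antisymm
  · exact le_trans (h.val_add_le v l _ _) (max_le le_rfl hxy.le)
  · have h1 := h.val_add_le v l (x + y) (-y)
    rw [add_neg_cancel_right, h.val_neg] at h1
    rcases le_max_iff.mp h1 with h2 | h2
    · exact h2
    · exact absurd h2 (not_le.mpr hxy)

lemma exists_leading_val {l : ℤ} (hl : ¬ (p : ℤ) ∣ l) {y : F} (hy : y ≠ 0) :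
    ∃ i < p, ∃ a : E, a ≠ 0 ∧ ∃ y' : F, y = algebraMap E F a * w ^ i + y' ∧
      h.val v l y' < h.val v l (algebraMap E F a * w ^ i) ∧
      h.val v l y = h.val v l (algebraMap E F a * w ^ i) := by
  have hf0 : h.rep y ≠ 0 := fun h0 => hy (h.rep_eq_zero h0)
  obtain ⟨i, hi, a, g, ha, hg, hfg, hlt, heq⟩ := exists_leading v l hl (h.rep_natDegree y) hf0
  refine ⟨i, hi, a, ha, aeval w g, ?_, ?_, ?_⟩
  · rw [← aeval_monomial, ← map_add, ← hfg, h.aeval_rep]
  · rw [h.val_aeval v l hg, h.val_monomial v l hi, ← polVal_monomial v l hi]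
    exact hlt
  · rw [h.val_monomial v l hi, ← polVal_monomial v l hi]
    exact heq

lemma val_mul {l : ℤ} (hl0 : 0 < l) (hl : ¬ (p : ℤ) ∣ l) (hP : v P = exp l) (x y : F) :
    h.val v l (x * y) = h.val v l x * h.val v l y := by
  by_cases hx : x = 0
  · subst hx; simp [h.val_zero]
  by_cases hy : y = 0
  · subst hy; simp [h.val_zero]
  obtain ⟨i, hi, a, ha, x', hx', hxlt, hxeq⟩ := h.exists_leading_val v hl hx
  obtain ⟨j, hj, b, hb, y', hy', hylt, hyeq⟩ := h.exists_leading_val v hl hy
  set mx := algebraMap E F a * w ^ i with hmx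
  set my := algebraMap E F b * w ^ j with hmy
  have hmxy : h.val v l (mx * my) = h.val v l mx * h.val v l my := by
    rw [hmx, hmy, h.val_monomial_mul v hl0 hP hi hj, h.val_monomial v l hi, h.val_monomial v l hj]
  have hmx0 : 0 < h.val v l mx := lt_of_le_of_lt zero_le hxlt
  have hmy0 : 0 < h.val v l my := lt_of_le_of_lt zero_le hylt
  have hprod : x * y = mx * my + (mx * y' + x' * my + x' * y') := by
    rw [hx', hy']; ring
  rw [hprod, h.val_add_eq v l, hmxy, hxeq, hyeq]
  rw [hmxy]
  have h1 : h.val v l (mx * y') < h.val v l mx * h.val v l my :=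
    lt_of_le_of_lt (h.val_mul_le v hl0 hP _ _) (by gcongr)
  have h2 : h.val v l (x' * my) < h.val v l mx * h.val v l my :=
    lt_of_le_of_lt (h.val_mul_le v hl0 hP _ _) (by gcongr)
  have h3 : h.val v l (x' * y') < h.val v l mx * h.val v l my :=
    lt_of_le_of_lt (h.val_mul_le v hl0 hP _ _) (mul_lt_mul'' hxlt hylt zero_le zero_le)
  refine lt_of_le_of_lt (h.val_add_le v l _ _) (max_lt ?_ h3)
  exact lt_of_le_of_lt (h.val_add_le v l _ _) (max_lt h1 h2)

/-- the extended valuation -/
noncomputable def valuation {l : ℤ} (hl0 : 0 < l) (hl : ¬ (p : ℤ) ∣ l) (hP : v P = exp l) :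
    Valuation F (WithZero (Multiplicative ℤ)) where
  toFun := h.val v l
  map_zero' := h.val_zero v l
  map_one' := by
    have := h.val_monomial v l hp.out.pos 1
    simpa using this
  map_mul' := h.val_mul v hl0 hl hP
  map_add_le_max' := h.val_add_le v l

end ASData

end Pool.Agent.Helper32
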