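import Mathlib
import Pool.Agent.Helper32.AS2

/-!
# Integral elements, difference operator, levels
-/

namespace Pool.Agent.Helper32

open Polynomial WithZero

set_option linter.unusedSectionVars false

/-- `Rint k x`: the elements of `E` that are integral over `k[x]`. -/
def Rint (k : Type*) {E : Type*} [Field k] [Field E] [Algebra k E] (x : E) : Subalgebra k E where
  carrier := {a | (aeval x : k[X] →ₐ[k] E).toRingHom.IsIntegralElem a}
  mul_mem' := fun ha hb => RingHom.IsIntegralElem.mul _ ha hb
  add_mem' := fun ha hb => RingHom.IsIntegralElem.add _ ha hb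
  algebraMap_mem' := fun c => by
    have := (aeval x : k[X] →ₐ[k] E).toRingHom.isIntegralElem_map (x := C c)
    simpa using this

section Rint

variable {k : Type*} {E F : Type*} [Field k] [Field E] [Field F] [Algebra k E] [Algebra k F]
  [Algebra E F] [IsScalarTower k E F]

lemma mem_Rint {x a : E} : a ∈ Rint k x ↔ (aeval x : k[X] →ₐ[k] E).toRingHom.IsIntegralElem a :=
  Iff.rfl

lemma self_mem_Rint (x : E) : x ∈ Rint k x := by
  have h := (aeval x : k[X] →ₐ[k] E).toRingHom.isIntegralElem_map (x := X)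
  have h2 : (aeval x : k[X] →ₐ[k] E).toRingHom X = x := aeval_X x
  rw [h2] at h
  exact h

omit [Algebra E F] [IsScalarTower k E F] in
lemma map_mem_Rint (φ : E →ₐ[k] F) {x a : E} (ha : a ∈ Rint k x) : φ a ∈ Rint k (φ x) := by
  obtain ⟨q, hq, h0⟩ := ha
  refine ⟨q, hq, ?_⟩
  have h1 : ((aeval (φ x) : k[X] →ₐ[k] F)).toRingHom = (φ : E →+* F).comp
      ((aeval x : k[X] →ₐ[k] E)).toRingHom := by
    ext <;> simp
  rw [h1]
  have := congrArg φ h0
  rw [map_zero] at this
  rw [← this]
  exact (hom_eval₂ q _ (φ : E →+* F) a).symm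

omit [Algebra E F] [IsScalarTower k E F] in
lemma mem_Rint_of_map (φ : E →ₐ[k] F) {x a : E} (ha : φ a ∈ Rint k (φ x)) : a ∈ Rint k x := by
  obtain ⟨q, hq, h0⟩ := ha
  refine ⟨q, hq, ?_⟩
  have h1 : ((aeval (φ x) : k[X] →ₐ[k] F)).toRingHom = (φ : E →+* F).comp
      ((aeval x : k[X] →ₐ[k] E)).toRingHom := by
    ext <;> simp
  rw [h1] at h0
  have h2 : (φ : E →+* F) (eval₂ ((aeval x : k[X] →ₐ[k] E)).toRingHom a q) = 0 := by
    rw [hom_eval₂]; exact h0
  exact (map_eq_zero (φ : E →+* F)).mp h2

/-- elements integral over `Rint` are in `Rint` -/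
lemma mem_Rint_of_monic {x a : E} (q : E[X]) (hq : q.Monic) (hc : ∀ i, q.coeff i ∈ Rint k x)
    (h0 : eval a q = 0) : a ∈ Rint k x := by
  let _ : Algebra k[X] E := (aeval x : k[X] →ₐ[k] E).toRingHom.toAlgebra
  have hmem : ∀ b : E, b ∈ Rint k x ↔ IsIntegral k[X] b := fun b => Iff.rfl
  rw [hmem]
  have h1 : ∀ i, q.coeff i ∈ integralClosure k[X] E := fun i => (hmem _).mp (hc i)
  have hlift : q ∈ Polynomial.lifts (algebraMap (integralClosure k[X] E) E) := by
    rw [Polynomial.lifts_iff_coeff_lifts]
    intro i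
    exact ⟨⟨q.coeff i, h1 i⟩, rfl⟩
  obtain ⟨q', hq', -, hq'm⟩ := Polynomial.lifts_and_natDegree_eq_and_monic hlift hq
  have h2 : IsIntegral (integralClosure k[X] E) a := by
    refine ⟨q', hq'm, ?_⟩
    rw [← eval_map, hq', h0]
  exact isIntegral_trans (R := k[X]) (A := integralClosure k[X] E) a h2

lemma mem_Rint_of_wp {p : ℕ} [hp : Fact p.Prime] [CharP E p] {x a : E}
    (h : a ^ p - a ∈ Rint k x) : a ∈ Rint k x := by
  apply mem_Rint_of_monic (X ^ p - X - C (a ^ p - a)) (AS_monic _)
  · intro i
    simp only [coeff_sub, coeff_X_pow, coeff_X, coeff_C]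
    refine sub_mem (sub_mem ?_ ?_) ?_
    · split_ifs
      · exact one_mem _
      · exact zero_mem _
    · split_ifs
      · exact one_mem _
      · exact zero_mem _
    · split_ifs
      · exact h
      · exact zero_mem _
  · simp

/-- a valuation ring containing `k` and `x` contains `Rint k x`. -/
lemma Rint_le_valuationSubring (V : ValuationSubring E) (hk : ∀ c : k, algebraMap k E c ∈ V)
    {x : E} (hx : x ∈ V) {a : E} (ha : a ∈ Rint k x) : a ∈ V := by
  let _ : Algebra k[X] E := (aeval x : k[X] →ₐ[k] E).toRingHom.toAlgebra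
  have hV : ∀ f : k[X], algebraMap k[X] E f ∈ V := by
    intro f
    change aeval x f ∈ V
    rw [aeval_eq_sum_range]
    apply sum_mem
    intro i _
    rw [Algebra.smul_def]
    exact mul_mem (hk _) (pow_mem hx i)
  have ha' : IsIntegral k[X] a := ha
  let ι : k[X] →+* V := (algebraMap k[X] E).codRestrict V.toSubring hV
  obtain ⟨q, hq, h0⟩ := ha'
  have h1 : IsIntegral V a := by
    refine ⟨q.map ι, hq.map ι, ?_⟩
    rw [eval₂_map]
    exact h0
  obtain ⟨b, hb⟩ := IsIntegrallyClosed.isIntegral_iff.mp h1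
  rw [← hb]
  exact b.2

end Rint

section Delta

variable {E : Type*} [Field E]

/-- difference operator on polynomials -/
noncomputable def delta (f : E[X]) : E[X] := taylor 1 f - f

lemma natDegree_delta_le {f : E[X]} {d : ℕ} (hf : f.natDegree ≤ d + 1) :
    (delta f).natDegree ≤ d := by
  rw [natDegree_le_iff_coeff_eq_zero]
  intro n hn
  unfold delta
  rw [coeff_sub]
  rcases lt_or_eq_of_le (Nat.succ_le_of_lt hn) with h | h
  · rw [coeff_eq_zero_of_natDegree_lt (by rw [natDegree_taylor]; omega),
      coeff_eq_zero_of_natDegree_lt (by omega), sub_zero]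
  · have hn' : n = d + 1 := h.symm
    subst hn'
    rcases lt_or_eq_of_le hf with h1 | h1
    · rw [coeff_eq_zero_of_natDegree_lt (by rw [natDegree_taylor]; omega),
        coeff_eq_zero_of_natDegree_lt (by omega), sub_zero]
    · have h2 := coeff_taylor_natDegree (f := f) (r := 1)
      rw [h1] at h2
      rw [h2, leadingCoeff, h1, sub_self]

lemma coeff_delta {f : E[X]} {d : ℕ} (hf : f.natDegree ≤ d + 1) :
    (delta f).coeff d = (d + 1 : ℕ) * f.coeff (d + 1) := by
  unfold delta
  rw [coeff_sub, taylor_coeff]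
  have h1 : (hasseDeriv d f).natDegree ≤ 1 := by
    refine le_trans (natDegree_hasseDeriv_le f d) ?_
    omega
  rw [eq_X_add_C_of_natDegree_le_one h1]
  simp only [hasseDeriv_coeff, eval_add, eval_mul, eval_C, eval_X, mul_one, zero_add]
  rw [add_comm 1 d, Nat.choose_self, Nat.choose_succ_self_right]
  push_cast
  ring

lemma delta_C (a : E) : delta (C a) = 0 := by
  unfold delta; rw [taylor_C, sub_self]

lemma delta_add (f g : E[X]) : delta (f + g) = delta f + delta g := by
  unfold delta; rw [map_add]; ring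

lemma delta_sub (f g : E[X]) : delta (f - g) = delta f - delta g := by
  unfold delta; rw [map_sub]; ring

lemma coeff_delta_mem {k : Type*} [Field k] [Algebra k E] (R : Subalgebra k E) {f : E[X]}
    (hf : ∀ i, f.coeff i ∈ R) (i : ℕ) : (delta f).coeff i ∈ R := by
  unfold delta
  rw [coeff_sub]
  refine sub_mem ?_ (hf i)
  rw [taylor_coeff, eval_eq_sum_range]
  apply sum_mem
  intro j _
  rw [hasseDeriv_coeff, one_pow, mul_one]
  exact mul_mem (natCast_mem R _) (hf _)

/-- the difference operator is surjective in small degree -/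
lemma exists_delta_eq {p : ℕ} [hp : Fact p.Prime] {k : Type*} [Field k] [Algebra k E] [CharP E p]
    (R : Subalgebra k E) (n : ℕ) (hn : n + 1 < p) (g : E[X]) (hg : g.natDegree ≤ n)
    (hR : ∀ i, g.coeff i ∈ R) :
    ∃ f : E[X], f.natDegree ≤ n + 1 ∧ (∀ i, f.coeff i ∈ R) ∧ delta f = g := by
  have hinv : ∀ m : ℕ, 0 < m → m < p → ((m : ℕ) : E)⁻¹ ∈ R := by
    intro m h0 hm
    have : ((m : ℕ) : E)⁻¹ = algebraMap k E ((m : k)⁻¹) := by
      rw [map_inv₀, map_natCast]
    rw [this]
    exact R.algebraMap_mem _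
  have hne : ∀ m : ℕ, 0 < m → m < p → ((m : ℕ) : E) ≠ 0 := by
    intro m h0 hm h1
    rw [CharP.cast_eq_zero_iff E p] at h1
    exact absurd (Nat.le_of_dvd h0 h1) (by omega)
  induction n generalizing g with
  | zero =>
    refine ⟨monomial 1 (g.coeff 0), natDegree_monomial_le _, ?_, ?_⟩
    · intro i
      rw [coeff_monomial]
      split_ifs
      · exact hR 0
      · exact zero_mem _
    · rw [eq_C_of_natDegree_le_zero (natDegree_delta_le (d := 0) (natDegree_monomial_le _)),
        coeff_delta (natDegree_monomial_le _)]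
      conv_rhs => rw [eq_C_of_natDegree_le_zero hg]
      simp
  | succ n ih =>
    set a := g.coeff (n + 1) * ((n + 2 : ℕ) : E)⁻¹ with ha
    have haR : a ∈ R := mul_mem (hR _) (hinv _ (by omega) (by omega))
    set f1 : E[X] := monomial (n + 2) a with hf1
    have hf1R : ∀ i, f1.coeff i ∈ R := by
      intro i
      rw [hf1, coeff_monomial]
      split_ifs
      · exact haR
      · exact zero_mem _
    have hf1d : f1.natDegree ≤ n + 1 + 1 := natDegree_monomial_le _
    have h1 : (g - delta f1).natDegree ≤ n := by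
      rw [natDegree_le_iff_coeff_eq_zero]
      intro N hN
      rcases lt_or_eq_of_le (Nat.succ_le_of_lt hN) with h | h
      · apply coeff_eq_zero_of_natDegree_lt
        refine lt_of_le_of_lt (natDegree_sub_le _ _) ?_
        refine max_lt (lt_of_le_of_lt hg h) ?_
        exact lt_of_le_of_lt (natDegree_delta_le hf1d) h
      · have hN' : N = n + 1 := h.symm
        subst hN'
        rw [coeff_sub, coeff_delta hf1d, hf1, coeff_monomial, if_pos rfl, ha]
        have := hne (n + 2) (by omega) (by omega)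
        push_cast at this ⊢
        field_simp
        ring
    obtain ⟨f2, hf2d, hf2R, hf2⟩ := ih (by omega) (g - delta f1) h1
      (fun i => by rw [coeff_sub]; exact sub_mem (hR i) (coeff_delta_mem R hf1R i))
    refine ⟨f1 + f2, ?_, ?_, ?_⟩
    · exact le_trans (natDegree_add_le _ _) (max_le hf1d (by omega))
    · intro i; rw [coeff_add]; exact add_mem (hf1R i) (hf2R i)
    · rw [delta_add, hf2]; ring

end Delta

end Pool.Agent.Helper32
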