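import Mathlib
import Pool.Agent.Helper32.AS3

/-!
# Levels: one-point covers of the affine line, and reduction of Artin-Schreier data
-/

namespace Pool.Agent.Helper32

open Polynomial WithZero

set_option linter.unusedSectionVars false

/-- `(E, x, v)` is a function field `E` over `k`, with `E / k(x)` of degree `p ^ n` totally ramified
at infinity, `v` the corresponding valuation (pole order), genus at most `g`. -/
structure IsLevel (p : ℕ) (k : Type*) {E : Type*} [Field k] [Field E] [Algebra k E] (x : E)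
    (n g : ℕ) (v : Valuation E (WithZero (Multiplicative ℤ))) : Prop where
  v_const : ∀ c : k, c ≠ 0 → v (algebraMap k E c) = 1
  v_unif : ∃ t : E, v t = exp (-1 : ℤ)
  residue : ∀ a : E, v a ≤ 1 → ∃ c : k, v (a - algebraMap k E c) < 1
  v_x : v x = exp ((p : ℤ) ^ n)
  R_inter : ∀ r ∈ Rint k x, v r ≤ 1 → ∃ c : k, r = algebraMap k E c
  prank : ∀ f ∈ Rint k x, ∀ h m : E, v m < 1 → f = h ^ p - h + m → ∃ h' : E, f = h' ^ p - h'
  unique : ∀ V : ValuationSubring E, (∀ c : k, algebraMap k E c ∈ V) → x ∉ V →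
    V = v.valuationSubring
  dim : ∃ S : Submodule k E, FiniteDimensional k S ∧ Module.finrank k S ≤ g ∧
    ∀ a : E, ∃ r ∈ Rint k x, ∃ s ∈ S, v (a - r - s) ≤ 1

lemma exists_wp_eq {p : ℕ} [hp : Fact p.Prime] {k : Type*} [Field k] [IsAlgClosed k] (c : k) :
    ∃ d : k, d ^ p - d = c := by
  have hdeg : (X ^ p - X - C c : k[X]).degree ≠ 0 := by
    intro h0
    have h1 : (X ^ p - X - C c : k[X]).natDegree = 0 := natDegree_eq_of_degree_eq_some h0
    rw [AS_natDegree] at h1
    exact hp.out.ne_zero h1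
  obtain ⟨d, hd⟩ := IsAlgClosed.exists_root _ hdeg
  refine ⟨d, ?_⟩
  simp only [IsRoot.def, eval_sub, eval_pow, eval_X, eval_C] at hd
  exact sub_eq_zero.mp hd

namespace IsLevel

variable {p : ℕ} [hp : Fact p.Prime] {k E : Type*} [Field k] [Field E] [Algebra k E] {x : E}
  {n g : ℕ} {v : Valuation E (WithZero (Multiplicative ℤ))}

lemma exists_val_eq (L : IsLevel p k x n g v) (m : ℤ) : ∃ b : E, v b = exp m := by
  obtain ⟨t, ht⟩ := L.v_unif
  refine ⟨t ^ (-m), ?_⟩
  rw [map_zpow₀, ht, ← exp_zsmul]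
  simp

lemma v_const_le (L : IsLevel p k x n g v) (c : k) : v (algebraMap k E c) ≤ 1 := by
  by_cases hc : c = 0
  · subst hc; simp
  · exact (L.v_const c hc).le

lemma const_eq_zero (L : IsLevel p k x n g v) {c : k} (hc : v (algebraMap k E c) < 1) : c = 0 := by
  by_contra h
  rw [L.v_const c h] at hc
  exact lt_irrefl _ hc

lemma R_inter_lt (L : IsLevel p k x n g v) {r : E} (hr : r ∈ Rint k x) (hv : v r < 1) : r = 0 := by
  obtain ⟨c, rfl⟩ := L.R_inter r hr hv.le
  rw [L.const_eq_zero hv, map_zero]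

lemma lt_exp_iff {a : WithZero (Multiplicative ℤ)} {m : ℤ} : a < exp m ↔ a ≤ exp (m - 1) := by
  by_cases ha : a = 0
  · subst ha; simp [zero_lt_iff]
  · rw [← exp_log ha, exp_lt_exp, exp_le_exp]; omega

/-- approximate an element by a multiple of a given one with the same valuation -/
lemma approx (L : IsLevel p k x n g v) {a b : E} (hb : b ≠ 0) (hab : v a ≤ v b) :
    ∃ c : k, v (a - algebraMap k E c * b) < v b := by
  have hvb : v b ≠ 0 := (Valuation.ne_zero_iff v).mpr hb
  have hvb' : 0 < v b := zero_lt_iff.mpr hvb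
  obtain ⟨c, hc⟩ := L.residue (a / b) (by
    rw [map_div₀]
    exact div_le_one_of_le₀ hab zero_le)
  refine ⟨c, ?_⟩
  have : a - algebraMap k E c * b = (a / b - algebraMap k E c) * b := by
    field_simp
  rw [this, map_mul]
  calc v (a / b - algebraMap k E c) * v b < 1 * v b := by gcongr
    _ = v b := one_mul _

variable [IsAlgClosed k] [CharP E p]

/-- reduction of an Artin-Schreier class at infinity -/
lemma reduce (L : IsLevel p k x n g v) (m : ℕ) (f : E) (hf : v f ≤ exp (m : ℤ)) :
    ∃ h : E, (v (f - (h ^ p - h)) < 1) ∨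
      (∃ l : ℤ, 0 < l ∧ ¬ (p : ℤ) ∣ l ∧ l ≤ m ∧ v (f - (h ^ p - h)) = exp l) := by
  induction m using Nat.strong_induction_on generalizing f with
  | _ m ih =>
  by_cases h1 : v f ≤ 1
  · obtain ⟨c, hc⟩ := L.residue f h1
    obtain ⟨d, hd⟩ := exists_wp_eq (p := p) c
    refine ⟨algebraMap k E d, Or.inl ?_⟩
    rw [← map_pow, ← map_sub, hd]
    exact hc
  · push Not at h1
    have hf0 : v f ≠ 0 := (lt_trans zero_lt_one h1).ne'
    obtain ⟨j, hj⟩ : ∃ j : ℤ, v f = exp j := ⟨log (v f), (exp_log hf0).symm⟩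
    rw [hj] at hf h1
    have hj0 : 0 < j := by rwa [← exp_zero, exp_lt_exp] at h1
    have hjm : j ≤ m := by rwa [exp_le_exp] at hf
    by_cases hpj : (p : ℤ) ∣ j
    · obtain ⟨i, hi⟩ := hpj
      have hp0 : (0 : ℤ) < p := by exact_mod_cast hp.out.pos
      have hp1 : (1 : ℤ) < p := by exact_mod_cast hp.out.one_lt
      have hi0 : 0 < i := by
        rcases lt_trichotomy i 0 with h | h | h
        · nlinarith
        · subst h; simp at hi; omega
        · exact h
      have hij : i < j := by nlinarith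
      obtain ⟨b, hb⟩ := L.exists_val_eq i
      have hb0 : b ≠ 0 := by
        intro h0; rw [h0, map_zero] at hb; exact exp_ne_zero hb.symm
      have hbp : v (b ^ p) = exp j := by
        rw [map_pow, hb, ← exp_nsmul, hi, nsmul_eq_mul]
      obtain ⟨c, hc⟩ := L.approx (a := f) (b := b ^ p) (pow_ne_zero _ hb0) (by rw [hbp, hj])
      obtain ⟨d, hd⟩ := IsAlgClosed.exists_pow_nat_eq c hp.out.pos
      set h1 := algebraMap k E d * b with hh1
      have hh1p : h1 ^ p = algebraMap k E c * b ^ p := by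
        rw [hh1, mul_pow, ← map_pow, hd]
      have hvh1 : v h1 < exp j := by
        rw [hh1, map_mul, hb]
        calc v (algebraMap k E d) * exp i ≤ 1 * exp i := by
              gcongr; exact L.v_const_le d
          _ = exp i := one_mul _
          _ < exp j := by rw [exp_lt_exp]; exact hij
      have hnew : v (f - (h1 ^ p - h1)) < exp j := by
        have : f - (h1 ^ p - h1) = (f - algebraMap k E c * b ^ p) + h1 := by
          rw [hh1p]; ring
        rw [this]
        refine lt_of_le_of_lt (v.map_add _ _) (max_lt ?_ hvh1)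
        rw [← hbp]; exact hc
      rw [lt_exp_iff] at hnew
      have hjn : (((j - 1).toNat : ℕ) : ℤ) = j - 1 := by omega
      obtain ⟨h2, hh2⟩ := ih (j - 1).toNat (by omega) (f - (h1 ^ p - h1)) (by rw [hjn]; exact hnew)
      refine ⟨h1 + h2, ?_⟩
      have hcomb : f - ((h1 + h2) ^ p - (h1 + h2)) =
          f - (h1 ^ p - h1) - (h2 ^ p - h2) := by
        rw [wp_add]; ring
      rw [hcomb]
      rcases hh2 with hh2 | ⟨l, hl0, hl, hlm, hvl⟩
      · exact Or.inl hh2
      · refine Or.inr ⟨l, hl0, hl, ?_, hvl⟩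
        omega
    · refine ⟨0, Or.inr ⟨j, hj0, hpj, hjm, ?_⟩⟩
      rw [zero_pow hp.out.ne_zero]
      simpa using hj

end IsLevel

end Pool.Agent.Helper32
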