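import Mathlib
import Pool.Agent.Helper32.AS4

/-!
# The Artin-Schreier step: structure of integral elements, valuation, residue field
-/

namespace Pool.Agent.Helper32

open Polynomial WithZero

set_option linter.unusedSectionVars false

section step

variable {p : ℕ} [hp : Fact p.Prime] {k E F : Type*} [Field k] [Field E] [Field F]
  [Algebra k E] [Algebra k F] [Algebra E F] [IsScalarTower k E F] [CharP E p] [CharP F p]
  {x : E}

lemma natCast_ne_zero_of_lt {K : Type*} [Field K] [CharP K p] {m : ℕ} (h0 : 0 < m) (hm : m < p) :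
    ((m : ℕ) : K) ≠ 0 := by
  intro h1
  rw [CharP.cast_eq_zero_iff K p] at h1
  exact absurd (Nat.le_of_dvd h0 h1) (by omega)

namespace ASData

variable {w₀ : F} {P₀ : E} (h₀ : ASData p w₀ P₀)

include h₀ in
lemma gen_mem_Rint (hP₀ : P₀ ∈ Rint k x) : w₀ ∈ Rint k (algebraMap E F x) := by
  apply mem_Rint_of_wp (p := p)
  rw [h₀.eq]
  exact map_mem_Rint (IsScalarTower.toAlgHom k E F) hP₀

lemma rep_tau {τ : F →ₐ[E] F} (hτ : τ w₀ = w₀ + 1) (y : F) :
    h₀.rep (τ y) = taylor 1 (h₀.rep y) := by
  apply h₀.rep_eq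
  · rw [natDegree_taylor]; exact h₀.rep_natDegree y
  · conv_rhs => rw [← h₀.aeval_rep y]
    rw [← Polynomial.aeval_algHom_apply, hτ, taylor_apply, aeval_comp]
    simp

lemma rep_tau_sub {τ : F →ₐ[E] F} (hτ : τ w₀ = w₀ + 1) (y : F) :
    h₀.rep (τ y - y) = delta (h₀.rep y) := by
  rw [sub_eq_add_neg, h₀.rep_add, h₀.rep_neg, h₀.rep_tau hτ, delta, sub_eq_add_neg]

lemma tau_mem_Rint (τ : F →ₐ[E] F) {y : F} (hy : y ∈ Rint k (algebraMap E F x)) :
    τ y ∈ Rint k (algebraMap E F x) := by
  have := map_mem_Rint (τ.restrictScalars k) hy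
  simpa using this

lemma rep_algebraMap (a : E) : h₀.rep (algebraMap E F a) = C a :=
  h₀.rep_eq (by simp [hp.out.pos]) (by simp)

lemma top_coeff_mem {τ : F →ₐ[E] F} (hτ : τ w₀ = w₀ + 1) (d : ℕ) :
    ∀ r ∈ Rint k (algebraMap E F x), (h₀.rep r).natDegree ≤ d → (h₀.rep r).coeff d ∈ Rint k x := by
  induction d with
  | zero =>
    intro r hr hd
    have h1 : r = algebraMap E F ((h₀.rep r).coeff 0) := by
      conv_lhs => rw [← h₀.aeval_rep r, eq_C_of_natDegree_le_zero hd]
      simp
    rw [h1] at hr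
    exact mem_Rint_of_map (IsScalarTower.toAlgHom k E F) hr
  | succ d ih =>
    intro r hr hd
    by_cases hdp : d + 1 < p
    · have h1 := ih (τ r - r) (sub_mem (tau_mem_Rint τ hr) hr)
        (by rw [h₀.rep_tau_sub hτ]; exact natDegree_delta_le hd)
      rw [h₀.rep_tau_sub hτ, coeff_delta hd] at h1
      have h2 : ((d + 1 : ℕ) : E) ≠ 0 := natCast_ne_zero_of_lt (by omega) hdp
      have h3 : ((d + 1 : ℕ) : E)⁻¹ ∈ Rint k x := by
        have : ((d + 1 : ℕ) : E)⁻¹ = algebraMap k E (((d + 1 : ℕ) : k)⁻¹) := by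
          rw [map_inv₀, map_natCast]
        rw [this]
        exact (Rint k x).algebraMap_mem _
      have h4 := mul_mem h3 h1
      rwa [← mul_assoc, inv_mul_cancel₀ h2, one_mul] at h4
    · rw [coeff_eq_zero_of_natDegree_lt (by have := h₀.rep_natDegree r; omega)]
      exact zero_mem _

/-- coefficients of integral elements are integral -/
lemma coeff_mem_Rint (hP₀ : P₀ ∈ Rint k x) {r : F} (hr : r ∈ Rint k (algebraMap E F x)) (i : ℕ) :
    (h₀.rep r).coeff i ∈ Rint k x := by
  obtain ⟨τ, hτ⟩ := h₀.exists_tau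
  have key : ∀ d : ℕ, ∀ r ∈ Rint k (algebraMap E F x), (h₀.rep r).natDegree ≤ d →
      ∀ i, (h₀.rep r).coeff i ∈ Rint k x := by
    intro d
    induction d with
    | zero =>
      intro r hr hd i
      rcases Nat.eq_zero_or_pos i with h | h
      · subst h; exact h₀.top_coeff_mem hτ 0 r hr hd
      · rw [coeff_eq_zero_of_natDegree_lt (by omega)]; exact zero_mem _
    | succ d ih =>
      intro r hr hd i
      by_cases hdp : d + 1 < p
      · set a := (h₀.rep r).coeff (d + 1) with ha
        have haR : a ∈ Rint k x := h₀.top_coeff_mem hτ (d + 1) r hr hd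
        have hw := h₀.gen_mem_Rint hP₀
        have haR' : algebraMap E F a ∈ Rint k (algebraMap E F x) :=
          map_mem_Rint (IsScalarTower.toAlgHom k E F) haR
        have hr' : r - algebraMap E F a * w₀ ^ (d + 1) ∈ Rint k (algebraMap E F x) :=
          sub_mem hr (mul_mem haR' (pow_mem hw _))
        have hrep : h₀.rep (r - algebraMap E F a * w₀ ^ (d + 1)) =
            h₀.rep r - monomial (d + 1) a := by
          apply h₀.rep_eq
          · refine lt_of_le_of_lt (natDegree_sub_le _ _) (max_lt (h₀.rep_natDegree r) ?_)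
            exact lt_of_le_of_lt (natDegree_monomial_le _) hdp
          · rw [map_sub, h₀.aeval_rep, aeval_monomial]
        have hdeg : (h₀.rep r - monomial (d + 1) a).natDegree ≤ d := by
          rw [natDegree_le_iff_coeff_eq_zero]
          intro N hN
          rcases lt_or_eq_of_le (Nat.succ_le_of_lt hN) with h | h
          · apply coeff_eq_zero_of_natDegree_lt
            refine lt_of_le_of_lt (natDegree_sub_le _ _) ?_
            exact max_lt (lt_of_le_of_lt hd h) (lt_of_le_of_lt (natDegree_monomial_le _) h)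
          · have hN' : N = d + 1 := h.symm
            subst hN'
            rw [coeff_sub, coeff_monomial, if_pos rfl, ← ha, sub_self]
        have h1 := ih _ hr' (by rw [hrep]; exact hdeg) i
        rw [hrep, coeff_sub, coeff_monomial] at h1
        split_ifs at h1 with hi
        · subst hi; rwa [← ha]
        · simpa using h1
      · exact ih r hr (by have := h₀.rep_natDegree r; omega) i
  exact key _ r hr le_rfl i

include h₀ in
lemma aeval_mem_Rint (hP₀ : P₀ ∈ Rint k x) {f : E[X]} (hf : ∀ i, f.coeff i ∈ Rint k x) :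
    aeval w₀ f ∈ Rint k (algebraMap E F x) := by
  rw [aeval_eq_sum_range]
  apply sum_mem
  intro i _
  rw [Algebra.smul_def]
  exact mul_mem (map_mem_Rint (IsScalarTower.toAlgHom k E F) (hf i))
    (pow_mem (h₀.gen_mem_Rint hP₀) i)

end ASData

end step

end Pool.Agent.Helper32
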