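import Mathlib
import Pool.Agent.Helper32.AS5

/-!
# The Artin-Schreier step: the extended valuation
-/

namespace Pool.Agent.Helper32

open Polynomial WithZero

set_option linter.unusedSectionVars false

section step

variable {p : ℕ} [hp : Fact p.Prime] {k E F : Type*} [Field k] [Field E] [Field F]
  [Algebra k E] [Algebra k F] [Algebra E F] [IsScalarTower k E F] [CharP E p] [CharP F p]
  {x : E} {n g : ℕ} {v : Valuation E (WithZero (Multiplicative ℤ))}

namespace ASData

variable {w : F} {P : E} (h : ASData p w P) {l : ℤ} (hl0 : 0 < l) (hl : ¬ (p : ℤ) ∣ l)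
  (hP : v P = exp l)

lemma valuation_monomial {i : ℕ} (hi : i < p) (a : E) :
    h.valuation v hl0 hl hP (algebraMap E F a * w ^ i) = v a ^ p * exp ((i : ℤ) * l) :=
  h.val_monomial v l hi a

lemma valuation_algebraMap (a : E) : h.valuation v hl0 hl hP (algebraMap E F a) = v a ^ p := by
  have := h.valuation_monomial hl0 hl hP hp.out.pos a
  simpa using this

lemma valuation_gen : h.valuation v hl0 hl hP w = exp l := by
  have := h.valuation_monomial hl0 hl hP hp.out.one_lt 1
  simpa using this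

lemma valuation_term_le (y : F) {i : ℕ} (hi : i < p) :
    v ((h.rep y).coeff i) ^ p * exp ((i : ℤ) * l) ≤ h.valuation v hl0 hl hP y :=
  term_le_polVal v l (h.rep y) hi

lemma valuation_le {y : F} {B : WithZero (Multiplicative ℤ)}
    (hB : ∀ i < p, v ((h.rep y).coeff i) ^ p * exp ((i : ℤ) * l) ≤ B) :
    h.valuation v hl0 hl hP y ≤ B :=
  polVal_le v l hB

lemma valuation_lt {y : F} {B : WithZero (Multiplicative ℤ)} (hB0 : 0 < B)
    (hB : ∀ i < p, v ((h.rep y).coeff i) ^ p * exp ((i : ℤ) * l) < B) :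
    h.valuation v hl0 hl hP y < B := by
  change polVal p v l (h.rep y) < B
  unfold polVal
  rw [Finset.sup_lt_iff (by simpa using hB0)]
  intro i hi
  exact hB i (Finset.mem_range.mp hi)

/-- if a value `v a ^ p * exp (i l)` with `0 < i < p` is `≤ 1`, then it is `< 1` and `v a < 1` -/
lemma term_lt_one (hl0 : 0 < l) (hl : ¬ (p : ℤ) ∣ l) {a : E} {i : ℕ} (hi0 : 0 < i) (hi : i < p)
    (hle : v a ^ p * exp ((i : ℤ) * l) ≤ 1) :
    v a ^ p * exp ((i : ℤ) * l) < 1 ∧ v a < 1 := by
  by_cases ha : a = 0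
  · subst ha; simp [hp.out.ne_zero]
  have hva : v a ≠ 0 := (Valuation.ne_zero_iff v).mpr ha
  obtain ⟨j, hj⟩ : ∃ j : ℤ, v a = exp j := ⟨log (v a), (exp_log hva).symm⟩
  have h0 : (0 : ℕ) < p := hp.out.pos
  rw [hj, ← exp_nsmul, ← exp_add, nsmul_eq_mul] at hle ⊢
  rw [← exp_zero, exp_le_exp] at hle
  rw [← exp_zero, exp_lt_exp, exp_lt_exp]
  have hne : (p : ℤ) * j + i * l ≠ 0 := by
    intro h1
    have h2 : (p : ℤ) ∣ (i : ℤ) * l := ⟨-j, by linarith⟩
    rcases (Nat.prime_iff_prime_int.mp hp.out).dvd_or_dvd h2 with h3 | h3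
    · have := Int.eq_zero_of_abs_lt_dvd h3 (abs_lt.mpr ⟨by omega, by omega⟩)
      omega
    · exact hl h3
  have h4 : (p : ℤ) * j + i * l < 0 := lt_of_le_of_ne hle hne
  refine ⟨h4, ?_⟩
  have hil : 0 < (i : ℤ) * l := by positivity
  have hpj : (p : ℤ) * j < 0 := by linarith
  by_contra hcon
  push Not at hcon
  have : 0 ≤ (p : ℤ) * j := by positivity
  linarith

include hl0 hl in
lemma valuation_unif {t : E} (ht : v t = exp (-1 : ℤ)) :
    ∃ t' : F, h.valuation v hl0 hl hP t' = exp (-1 : ℤ) := by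
  have hcop : IsCoprime (p : ℤ) l := by
    rw [(Nat.prime_iff_prime_int.mp hp.out).irreducible.coprime_iff_not_dvd]
    exact hl
  obtain ⟨a, b, hab⟩ := hcop
  refine ⟨(algebraMap E F t) ^ a * w ^ (-b), ?_⟩
  rw [map_mul, map_zpow₀, map_zpow₀, h.valuation_algebraMap, h.valuation_gen, ht, ← exp_nsmul,
    ← exp_zsmul, ← exp_zsmul, ← exp_add]
  congr 1
  simp only [nsmul_eq_mul, smul_eq_mul]
  linarith

lemma valuation_residue (L : IsLevel p k x n g v) {a : F}
    (ha : h.valuation v hl0 hl hP a ≤ 1) :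
    ∃ c : k, h.valuation v hl0 hl hP (a - algebraMap k F c) < 1 := by
  have h0 : v ((h.rep a).coeff 0) ≤ 1 := by
    have h1 := le_trans (h.valuation_term_le hl0 hl hP a hp.out.pos) ha
    simp only [Nat.cast_zero, zero_mul, exp_zero, mul_one] at h1
    exact (pow_le_one_iff hp.out.ne_zero).mp h1
  obtain ⟨c, hc⟩ := L.residue _ h0
  refine ⟨c, ?_⟩
  have hrep : h.rep (a - algebraMap k F c) = h.rep a - C (algebraMap k E c) := by
    rw [IsScalarTower.algebraMap_apply k E F, sub_eq_add_neg, h.rep_add, h.rep_neg,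
      h.rep_algebraMap, sub_eq_add_neg]
  apply h.valuation_lt hl0 hl hP zero_lt_one
  intro i hi
  rw [hrep, coeff_sub, coeff_C]
  rcases Nat.eq_zero_or_pos i with hi0 | hi0
  · subst hi0
    simp only [if_true, Nat.cast_zero, zero_mul, exp_zero, mul_one]
    exact pow_lt_one₀ zero_le hc hp.out.ne_zero
  · rw [if_neg (by omega), sub_zero]
    exact (term_lt_one hl0 hl hi0 hi (le_trans (h.valuation_term_le hl0 hl hP a hi) ha)).1

lemma valuation_const (L : IsLevel p k x n g v) (c : k) (hc : c ≠ 0) :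
    h.valuation v hl0 hl hP (algebraMap k F c) = 1 := by
  rw [IsScalarTower.algebraMap_apply k E F, h.valuation_algebraMap, L.v_const c hc, one_pow]

lemma valuation_tau_le {τ : F →ₐ[E] F} (hτ : τ w = w + 1) (y : F) :
    h.valuation v hl0 hl hP (τ y) ≤ h.valuation v hl0 hl hP y := by
  have h1 : τ y = ∑ i ∈ Finset.range p, algebraMap E F ((h.rep y).coeff i) * (w + 1) ^ i := by
    conv_lhs => rw [h.eq_sum y]
    rw [map_sum]
    apply Finset.sum_congr rfl
    intro i _
    rw [map_mul, map_pow, hτ, AlgHom.commutes]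
  rw [h1]
  apply Valuation.map_sum_le
  intro i hi
  rw [Finset.mem_range] at hi
  refine le_trans ?_ (h.valuation_term_le hl0 hl hP y hi)
  rw [map_mul, map_pow, h.valuation_algebraMap]
  have h2 : h.valuation v hl0 hl hP (w + 1) ≤ exp l := by
    refine le_trans (Valuation.map_add _ _ _) ?_
    rw [h.valuation_gen, map_one]
    apply max_le le_rfl
    rw [← exp_zero, exp_le_exp]; exact hl0.le
  calc v ((h.rep y).coeff i) ^ p * h.valuation v hl0 hl hP (w + 1) ^ i
      ≤ v ((h.rep y).coeff i) ^ p * exp l ^ i := by gcongr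
    _ = v ((h.rep y).coeff i) ^ p * exp ((i : ℤ) * l) := by
        rw [← exp_nsmul, nsmul_eq_mul]

end ASData

/-- if `a ^ p - a` is small then `a` is close to an element of the prime field -/
lemma wp_small {K : Type*} [Field K] [Algebra k K] [CharP K p]
    {ν : Valuation K (WithZero (Multiplicative ℤ))}
    (hres : ∀ a : K, ν a ≤ 1 → ∃ c : k, ν (a - algebraMap k K c) < 1)
    (hconst : ∀ c : k, c ≠ 0 → ν (algebraMap k K c) = 1) {a : K} (ha : ν (a ^ p - a) < 1) :
    ∃ c : k, c ^ p = c ∧ ν (a - algebraMap k K c) < 1 ∧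
      ν (a - algebraMap k K c) = ν (a ^ p - a) := by
  have h1 : ν a ≤ 1 := by
    by_contra hcon
    push Not at hcon
    have h2 : ν a < ν (a ^ p) := by
      rw [map_pow]
      exact lt_self_pow₀ hcon hp.out.one_lt
    rw [Valuation.map_sub_eq_of_lt_left _ h2, map_pow] at ha
    have : 1 < ν a ^ p := one_lt_pow₀ hcon hp.out.ne_zero
    exact absurd (lt_trans this ha) (lt_irrefl _)
  obtain ⟨c, hc⟩ := hres a h1
  have hb : ν ((a - algebraMap k K c) ^ p - (a - algebraMap k K c)) =
      ν (a - algebraMap k K c) := by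
    by_cases hz : a - algebraMap k K c = 0
    · rw [hz]; simp [hp.out.ne_zero]
    · rw [Valuation.map_sub_eq_of_lt_right]
      rw [map_pow]
      have hpos : 0 < ν (a - algebraMap k K c) := zero_lt_iff.mpr ((Valuation.ne_zero_iff ν).mpr hz)
      exact pow_lt_self_of_lt_one₀ hpos hc hp.out.one_lt
  have hcc : c ^ p = c := by
    by_contra hne
    have hne' : c ^ p - c ≠ 0 := sub_ne_zero.mpr hne
    have h3 := hconst _ hne'
    have h4 : algebraMap k K (c ^ p - c) = (a ^ p - a) -
        ((a - algebraMap k K c) ^ p - (a - algebraMap k K c)) := by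
      rw [wp_sub, map_sub, map_pow]; ring
    rw [h4] at h3
    have h5 := ν.map_sub (a ^ p - a) ((a - algebraMap k K c) ^ p - (a - algebraMap k K c))
    rw [h3, hb] at h5
    exact absurd (max_lt ha hc) (not_lt.mpr h5)
  refine ⟨c, hcc, hc, ?_⟩
  rw [← hb]
  congr 1
  rw [wp_sub, ← map_pow, hcc, sub_self, sub_zero]

end step

end Pool.Agent.Helper32
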