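import Mathlib
import Pool.Agent.Helper32.AS6

/-!
# The Artin-Schreier step: `p`-rank zero
-/

namespace Pool.Agent.Helper32

open Polynomial WithZero

set_option linter.unusedSectionVars false

section step

variable {p : ℕ} [hp : Fact p.Prime] {k E F : Type*} [Field k] [Field E] [Field F]
  [Algebra k E] [Algebra k F] [Algebra E F] [IsScalarTower k E F] [CharP E p] [CharP F p]
  {x : E} {n g : ℕ} {v : Valuation E (WithZero (Multiplicative ℤ))}

lemma rep_shift {w₀ : F} {P₀ : E} (h₀ : ASData p w₀ P₀) (c : E) (y : F) :
    (h₀.shift c).rep y = taylor c (h₀.rep y) := by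
  apply (h₀.shift c).rep_eq
  · rw [natDegree_taylor]; exact h₀.rep_natDegree y
  · rw [taylor_apply, aeval_comp]
    simp

section

variable {w₀ : F} {P₀ : E} (h₀ : ASData p w₀ P₀) (hP₀ : P₀ ∈ Rint k x) (c : E) {l : ℤ}
  (hl0 : 0 < l) (hl : ¬ (p : ℤ) ∣ l) (hP : v (P₀ - (c ^ p - c)) = exp l)

include hP₀ in
lemma step_R_inter (L : IsLevel p k x n g v) {r : F} (hr : r ∈ Rint k (algebraMap E F x))
    (hv : (h₀.shift c).valuation v hl0 hl hP r ≤ 1) : ∃ c' : k, r = algebraMap k F c' := by
  set f := h₀.rep r with hf
  have hcoef := h₀.coeff_mem_Rint hP₀ hr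
  rcases Nat.eq_zero_or_pos f.natDegree with hd | hd
  · have h1 : r = algebraMap E F (f.coeff 0) := by
      conv_lhs => rw [← h₀.aeval_rep r, ← hf, eq_C_of_natDegree_eq_zero hd]
      simp
    rw [h1, (h₀.shift c).valuation_algebraMap] at hv
    have h2 : v (f.coeff 0) ≤ 1 := (pow_le_one_iff hp.out.ne_zero).mp hv
    obtain ⟨c', hc'⟩ := L.R_inter _ (hcoef 0) h2
    refine ⟨c', ?_⟩
    rw [h1, hc', ← IsScalarTower.algebraMap_apply]
  · exfalso
    have hdp : f.natDegree < p := h₀.rep_natDegree r
    have h1 := (h₀.shift c).valuation_term_le hl0 hl hP r hdp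
    rw [rep_shift h₀ c, ← hf, coeff_taylor_natDegree] at h1
    have h2 := (ASData.term_lt_one hl0 hl hd hdp (le_trans h1 hv)).2
    have h3 : f.leadingCoeff = 0 := L.R_inter_lt (hcoef _) h2
    rw [leadingCoeff_eq_zero] at h3
    rw [h3, natDegree_zero] at hd
    exact lt_irrefl _ hd

include hP₀ in
lemma step_R_inter_lt (L : IsLevel p k x n g v) {r : F} (hr : r ∈ Rint k (algebraMap E F x))
    (hv : (h₀.shift c).valuation v hl0 hl hP r < 1) : r = 0 := by
  obtain ⟨c', rfl⟩ := step_R_inter h₀ hP₀ c hl0 hl hP L hr hv.le
  by_cases hc : c' = 0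
  · rw [hc, map_zero]
  · rw [(h₀.shift c).valuation_const hl0 hl hP L c' hc] at hv
    exact absurd hv (lt_irrefl _)

end

/-- coefficient representation of the `p`-th power -/
lemma rep_pow {w : F} {P : E} (h : ASData p w P) (y : F) :
    h.rep (y ^ p) = taylor P ((h.rep y).map (frobenius E p)) := by
  apply h.rep_eq
  · rw [natDegree_taylor]
    exact lt_of_le_of_lt (natDegree_map_le) (h.rep_natDegree y)
  · rw [taylor_apply, aeval_comp]
    simp only [map_add, aeval_X, aeval_C]
    rw [← h.pow_eq_add]
    conv_rhs => rw [h.eq_sum y, sum_pow_char]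
    rw [aeval_eq_sum_range' (lt_of_le_of_lt (natDegree_map_le) (h.rep_natDegree y))]
    apply Finset.sum_congr rfl
    intro i _
    rw [coeff_map, frobenius_def, Algebra.smul_def, map_pow, mul_pow, ← pow_mul, ← pow_mul, mul_comm p i]

/-- the local lemma: descending an Artin-Schreier class that is trivial at infinity -/
lemma local_descent {w : F} {P : E} (h : ASData p w P) {l : ℤ} (hl0 : 0 < l)
    (hl : ¬ (p : ℤ) ∣ l) (hP : v P = exp l) (L : IsLevel p k x n g v) (f : E) (d : ℕ) :
    ∀ y m : F, (h.rep y).natDegree ≤ d → h.valuation v hl0 hl hP m < 1 →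
      algebraMap E F f = y ^ p - y + m →
      ∃ c : k, c ^ p = c ∧ ∃ u : E, v (f - algebraMap k E c * P - (u ^ p - u)) < 1 := by
  induction d with
  | zero =>
    intro y m hd hm hy
    refine ⟨0, by simp [hp.out.ne_zero], (h.rep y).coeff 0, ?_⟩
    have h1 : y = algebraMap E F ((h.rep y).coeff 0) := by
      conv_lhs => rw [← h.aeval_rep y, eq_C_of_natDegree_le_zero hd]
      simp
    have h2 : m = algebraMap E F (f - ((h.rep y).coeff 0 ^ p - (h.rep y).coeff 0)) := by
      rw [map_sub, map_sub, map_pow, ← h1, hy]; ring
    rw [h2, h.valuation_algebraMap] at hm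
    rw [map_zero, zero_mul, sub_zero]
    exact (pow_lt_one_iff hp.out.ne_zero).mp hm
  | succ d ih =>
    intro y m hd hm hy
    by_cases hdp : d + 1 < p
    swap
    · exact ih y m (by have := h.rep_natDegree y; omega) hm hy
    set φ := h.rep y with hφ
    -- coefficients of `y ^ p - y`
    have hrepeq : taylor P (φ.map (frobenius E p)) - φ = C f - h.rep m := by
      have h1 : h.rep (y ^ p - y) = taylor P (φ.map (frobenius E p)) - φ := by
        rw [sub_eq_add_neg, h.rep_add, h.rep_neg, rep_pow, ← hφ, sub_eq_add_neg]
      rw [← h1]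
      have h2 : y ^ p - y = algebraMap E F f - m := by rw [hy]; ring
      rw [h2, sub_eq_add_neg, h.rep_add, h.rep_neg, h.rep_algebraMap, sub_eq_add_neg]
    set a := φ.coeff (d + 1) with ha
    have hdmap : (φ.map (frobenius E p)).natDegree ≤ d + 1 := le_trans natDegree_map_le hd
    -- top coefficient
    have htop : (taylor P (φ.map (frobenius E p))).coeff (d + 1) = a ^ p := by
      rw [taylor_coeff]
      have hdeg : (hasseDeriv (d + 1) (φ.map (frobenius E p))).natDegree ≤ 0 := by
        refine le_trans (natDegree_hasseDeriv_le _ _) ?_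
        omega
      rw [eq_C_of_natDegree_le_zero hdeg, eval_C, hasseDeriv_coeff, zero_add, Nat.choose_self,
        coeff_map, frobenius_def, Nat.cast_one, one_mul]
    have h1 : a ^ p - a = -((h.rep m).coeff (d + 1)) := by
      have := congrArg (fun q => coeff q (d + 1)) hrepeq
      simp only [coeff_sub, htop, coeff_C_succ] at this
      rw [← ha] at this
      rw [this]; ring
    have hmlt : ∀ i < p, v ((h.rep m).coeff i) ^ p * exp ((i : ℤ) * l) < 1 := fun i hi =>
      lt_of_le_of_lt (h.valuation_term_le hl0 hl hP m hi) hm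
    have hone_le : ∀ i : ℕ, (1 : WithZero (Multiplicative ℤ)) ≤ exp ((i : ℤ) * l) := by
      intro i
      rw [← exp_zero, exp_le_exp]; positivity
    have hsmall : ∀ i < p, v ((h.rep m).coeff i) < 1 := by
      intro i hi
      have h3 : v ((h.rep m).coeff i) ^ p < 1 := by
        refine lt_of_le_of_lt ?_ (hmlt i hi)
        exact le_mul_of_one_le_right zero_le (hone_le i)
      exact (pow_lt_one_iff hp.out.ne_zero).mp h3
    have h2 : v (a ^ p - a) < 1 := by
      rw [h1, Valuation.map_neg]; exact hsmall _ hdp
    obtain ⟨c, hcp, hc1, hc2⟩ := wp_small (k := k) L.residue L.v_const h2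
    set b := a - algebraMap k E c with hb
    have hbsmall : h.valuation v hl0 hl hP (algebraMap E F b * w ^ (d + 1)) < 1 := by
      rw [h.valuation_monomial hl0 hl hP hdp, hc2, h1, Valuation.map_neg]
      exact hmlt _ hdp
    rcases Nat.eq_zero_or_pos d with hd0 | hd0
    · -- d + 1 = 1
      subst hd0
      simp only [zero_add, pow_one] at hbsmall ha hdp hd
      set a0 := φ.coeff 0 with ha0
      have hy2 : y = algebraMap E F a0 + algebraMap E F a * w := by
        conv_lhs => rw [← h.aeval_rep y, ← hφ, eq_X_add_C_of_natDegree_le_one hd]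
        simp [← ha, ← ha0]; ring
      have hy3 : y = algebraMap E F a0 + algebraMap k F c * w + algebraMap E F b * w := by
        rw [hy2, hb, map_sub, ← IsScalarTower.algebraMap_apply]; ring
      refine ⟨c, hcp, a0, ?_⟩
      have h4 : algebraMap E F (f - algebraMap k E c * P - (a0 ^ p - a0)) =
          ((algebraMap E F b * w) ^ p - algebraMap E F b * w) + m := by
        have h5 : (algebraMap k F c * w) ^ p - algebraMap k F c * w =
            algebraMap k F c * algebraMap E F P := by
          rw [mul_pow, ← map_pow, hcp, ← mul_sub, h.eq]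
        have h6 : y ^ p - y = (algebraMap E F a0 ^ p - algebraMap E F a0) +
            ((algebraMap k F c * w) ^ p - algebraMap k F c * w) +
            ((algebraMap E F b * w) ^ p - algebraMap E F b * w) := by
          rw [hy3, wp_add, wp_add]
        rw [map_sub, map_sub, map_mul, ← IsScalarTower.algebraMap_apply k E F, hy, h6, h5,
          map_sub (algebraMap E F) (a0 ^ p) a0, map_pow]
        ring
      have h5 : h.valuation v hl0 hl hP
          (algebraMap E F (f - algebraMap k E c * P - (a0 ^ p - a0))) < 1 := by
        rw [h4]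
        refine lt_of_le_of_lt (Valuation.map_add _ _ _) (max_lt ?_ hm)
        refine lt_of_le_of_lt (Valuation.map_sub _ _ _) (max_lt ?_ hbsmall)
        rw [map_pow]
        exact pow_lt_one₀ zero_le hbsmall hp.out.ne_zero
      rw [h.valuation_algebraMap] at h5
      exact (pow_lt_one_iff hp.out.ne_zero).mp h5
    · -- d + 1 ≥ 2 : the constant `c` must vanish
      have hc0 : c = 0 := by
        by_contra hcne
        have hva : v a = 1 := by
          have : a = algebraMap k E c + b := by rw [hb]; ring
          rw [this, Valuation.map_add_eq_of_lt_left, L.v_const c hcne]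
          rw [L.v_const c hcne]; exact hc1
        have hsub : (taylor P (φ.map (frobenius E p))).coeff d =
            φ.coeff d ^ p + (d + 1 : ℕ) * P * a ^ p := by
          rw [taylor_coeff]
          have hdeg : (hasseDeriv d (φ.map (frobenius E p))).natDegree ≤ 1 := by
            refine le_trans (natDegree_hasseDeriv_le _ _) ?_
            omega
          rw [eq_X_add_C_of_natDegree_le_one hdeg]
          simp only [hasseDeriv_coeff, eval_add, eval_mul, eval_C, eval_X, zero_add, coeff_map,
            frobenius_def]
          rw [add_comm 1 d, Nat.choose_self, Nat.choose_succ_self_right, ← ha]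
          push_cast
          ring
        obtain ⟨d', rfl⟩ : ∃ d', d = d' + 1 := ⟨d - 1, by omega⟩
        have h5 : φ.coeff (d' + 1) ^ p - φ.coeff (d' + 1) =
            -(((d' + 1 + 1 : ℕ) : E) * P * a ^ p) - (h.rep m).coeff (d' + 1) := by
          have := congrArg (fun q => coeff q (d' + 1)) hrepeq
          simp only [coeff_sub, hsub, coeff_C_succ] at this
          linear_combination this
        have hcast : v (((d' + 1 + 1 : ℕ) : E)) = 1 := by
          have : CharP k p := (RingHom.charP_iff (algebraMap k E) (algebraMap k E).injective p).mpr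
            inferInstance
          have h6 := natCast_ne_zero_of_lt (K := k) (p := p) (m := d' + 1 + 1) (by omega) hdp
          have h7 := L.v_const _ h6
          rwa [map_natCast] at h7
        have h6 : v (-(((d' + 1 + 1 : ℕ) : E) * P * a ^ p)) = exp l := by
          rw [Valuation.map_neg, map_mul, map_mul, map_pow, hcast, hva, hP]; simp
        have h7 : v (φ.coeff (d' + 1) ^ p - φ.coeff (d' + 1)) = exp l := by
          rw [h5, Valuation.map_sub_eq_of_lt_left, h6]
          rw [h6]
          refine lt_trans (hsmall _ (by omega)) ?_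
          rw [← exp_zero, exp_lt_exp]; exact hl0
        have h8 : 1 < v (φ.coeff (d' + 1)) := by
          by_contra hcon
          push Not at hcon
          have h9 : v (φ.coeff (d' + 1) ^ p - φ.coeff (d' + 1)) ≤ 1 := by
            refine le_trans (Valuation.map_sub _ _ _) (max_le ?_ hcon)
            rw [map_pow]; exact pow_le_one₀ zero_le hcon
          rw [h7, ← exp_zero, exp_le_exp] at h9
          omega
        have h9 : v (φ.coeff (d' + 1) ^ p - φ.coeff (d' + 1)) = v (φ.coeff (d' + 1)) ^ p := by
          rw [Valuation.map_sub_eq_of_lt_left, map_pow]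
          rw [map_pow]; exact lt_self_pow₀ h8 hp.out.one_lt
        rw [h9] at h7
        have h10 : v (φ.coeff (d' + 1)) ≠ 0 := (lt_trans zero_lt_one h8).ne'
        rw [← exp_log h10, ← exp_nsmul, exp_inj, nsmul_eq_mul] at h7
        exact hl ⟨_, h7.symm⟩
      have hab : b = a := by rw [hb, hc0, map_zero, sub_zero]
      rw [hab] at hbsmall
      set y1 := y - algebraMap E F a * w ^ (d + 1) with hy1
      have hrep1 : h.rep y1 = φ - monomial (d + 1) a := by
        apply h.rep_eq
        · refine lt_of_le_of_lt (natDegree_sub_le _ _) (max_lt (h.rep_natDegree y) ?_)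
          exact lt_of_le_of_lt (natDegree_monomial_le _) hdp
        · rw [map_sub, h.aeval_rep, aeval_monomial]
      have hdeg1 : (h.rep y1).natDegree ≤ d := by
        rw [hrep1, natDegree_le_iff_coeff_eq_zero]
        intro N hN
        rcases lt_or_eq_of_le (Nat.succ_le_of_lt hN) with h' | h'
        · apply coeff_eq_zero_of_natDegree_lt
          refine lt_of_le_of_lt (natDegree_sub_le _ _) ?_
          exact max_lt (lt_of_le_of_lt hd h') (lt_of_le_of_lt (natDegree_monomial_le _) h')
        · have hN' : N = d + 1 := h'.symm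
          subst hN'
          rw [coeff_sub, coeff_monomial, if_pos rfl, ← ha, sub_self]
      set z := algebraMap E F a * w ^ (d + 1) with hz
      refine ih y1 (m + (z ^ p - z)) hdeg1 ?_ ?_
      · refine lt_of_le_of_lt (Valuation.map_add _ _ _) (max_lt hm ?_)
        refine lt_of_le_of_lt (Valuation.map_sub _ _ _) (max_lt ?_ hbsmall)
        rw [map_pow]
        exact pow_lt_one₀ zero_le hbsmall hp.out.ne_zero
      · rw [hy, hy1, wp_sub]; ring

end step

end Pool.Agent.Helper32
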