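import Mathlib
import Pool.Agent.Helper32.AS7

/-!
# The Artin-Schreier step: `p`-rank zero (conclusion) and uniqueness of the place at infinity
-/

namespace Pool.Agent.Helper32

open Polynomial WithZero

set_option linter.unusedSectionVars false

section delta

variable {E : Type*} [Field E]

lemma delta_iter (j : ℕ) : ∀ f : E[X], f.natDegree ≤ j →
    delta^[j] f = C ((j.factorial : E) * f.coeff j) := by
  induction j with
  | zero =>
    intro f hf
    rw [Function.iterate_zero, id, eq_C_of_natDegree_le_zero hf]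
    simp
  | succ j ih =>
    intro f hf
    rw [Function.iterate_succ, Function.comp, ih _ (natDegree_delta_le hf), coeff_delta hf,
      Nat.factorial_succ]
    push_cast
    congr 1
    ring

lemma delta_iter_succ (j : ℕ) (f : E[X]) (hf : f.natDegree ≤ j) : delta^[j + 1] f = 0 := by
  rw [Function.iterate_succ', Function.comp, delta_iter j f hf, delta_C]

end delta

section step

variable {p : ℕ} [hp : Fact p.Prime] {k E F : Type*} [Field k] [Field E] [Field F]
  [Algebra k E] [Algebra k F] [Algebra E F] [IsScalarTower k E F] [CharP E p] [CharP F p]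
  {x : E} {n g : ℕ} {v : Valuation E (WithZero (Multiplicative ℤ))}

variable {w₀ : F} {P₀ : E} (h₀ : ASData p w₀ P₀) (hP₀ : P₀ ∈ Rint k x) (c : E) {l : ℤ}
  (hl0 : 0 < l) (hl : ¬ (p : ℤ) ∣ l) (hP : v (P₀ - (c ^ p - c)) = exp l)

include hP₀ in
lemma step_prank_base (L : IsLevel p k x n g v) {f : F} (hf : f ∈ Rint k (algebraMap E F x))
    (hd : (h₀.rep f).natDegree = 0) {y m : F}
    (hm : (h₀.shift c).valuation v hl0 hl hP m < 1) (hy : f = y ^ p - y + m) :
    ∃ h' : F, f = h' ^ p - h' := by
  set f₀ := (h₀.rep f).coeff 0 with hf₀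
  have hff₀ : f = algebraMap E F f₀ := by
    conv_lhs => rw [← h₀.aeval_rep f, eq_C_of_natDegree_eq_zero hd]
    simp [hf₀]
  have hf₀R : f₀ ∈ Rint k x := h₀.coeff_mem_Rint hP₀ hf 0
  rw [hff₀] at hy
  obtain ⟨c₁, hc₁, u, hu⟩ := local_descent (h₀.shift c) hl0 hl hP L f₀ _ y m le_rfl hm hy
  have h1 : f₀ - algebraMap k E c₁ * P₀ ∈ Rint k x :=
    sub_mem hf₀R (mul_mem ((Rint k x).algebraMap_mem _) hP₀)
  obtain ⟨h', hh'⟩ := L.prank _ h1 (u - algebraMap k E c₁ * c) _ hu (by
    have h2 : (algebraMap k E c₁ * c) ^ p - algebraMap k E c₁ * c =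
        algebraMap k E c₁ * (c ^ p - c) := by
      rw [mul_pow, ← map_pow, hc₁]; ring
    rw [wp_sub, h2]; ring)
  refine ⟨algebraMap E F h' + algebraMap k F c₁ * w₀, ?_⟩
  have h3 : (algebraMap k F c₁ * w₀) ^ p - algebraMap k F c₁ * w₀ =
      algebraMap k F c₁ * algebraMap E F P₀ := by
    rw [mul_pow, ← map_pow, hc₁, ← mul_sub, h₀.eq]
  rw [wp_add, h3, ← map_pow, ← map_sub, ← hh', IsScalarTower.algebraMap_apply k E F, ← map_mul,
    ← map_add, hff₀]
  congr 1
  ring

include hP₀ in
lemma step_prank (L : IsLevel p k x n g v) (d : ℕ) :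
    ∀ f ∈ Rint k (algebraMap E F x), (h₀.rep f).natDegree ≤ d → ∀ y m : F,
      (h₀.shift c).valuation v hl0 hl hP m < 1 → f = y ^ p - y + m →
      ∃ h' : F, f = h' ^ p - h' := by
  obtain ⟨τ, hτ⟩ := h₀.exists_tau
  have hτw : τ (w₀ - algebraMap E F c) = w₀ - algebraMap E F c + 1 := by
    rw [map_sub, hτ, AlgHom.commutes, add_sub_right_comm]
  set V := (h₀.shift c).valuation v hl0 hl hP with hV
  have hτV : ∀ m, V m < 1 → V (τ m - m) < 1 := fun m hm =>
    lt_of_le_of_lt (Valuation.map_sub _ _ _)
      (max_lt (lt_of_le_of_lt ((h₀.shift c).valuation_tau_le hl0 hl hP hτw m) hm) hm)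
  induction d with
  | zero =>
    intro f hf hd y m hm hy
    exact step_prank_base h₀ hP₀ c hl0 hl hP L hf (Nat.le_zero.mp hd) hm hy
  | succ d ih =>
    intro f hf hd y m hm hy
    set T : F → F := fun z => τ z - z with hT
    have hTadd : ∀ a b, T (a + b) = T a + T b := fun a b => by simp only [hT, map_add]; ring
    have hTrep : ∀ z, h₀.rep (T z) = delta (h₀.rep z) := fun z => h₀.rep_tau_sub hτ z
    have hTR : ∀ z ∈ Rint k (algebraMap E F x), T z ∈ Rint k (algebraMap E F x) := fun z hz =>
      sub_mem (ASData.tau_mem_Rint τ hz) hz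
    have hTwp : ∀ z, T (z ^ p - z) = (T z) ^ p - T z := by
      intro z; simp only [hT]; rw [wp_sub, map_sub, map_pow]
    have h1 : T f = (T y) ^ p - T y + T m := by rw [hy, hTadd, hTwp]
    obtain ⟨c', hc'⟩ := ih (T f) (hTR f hf) (by rw [hTrep]; exact natDegree_delta_le hd) (T y)
      (T m) (hτV m hm) h1
    have hc'R : c' ∈ Rint k (algebraMap E F x) := by
      apply mem_Rint_of_wp (p := p); rw [← hc']; exact hTR f hf
    -- comparison of `c'` and `T y`
    have h2 : V ((c' - T y) ^ p - (c' - T y)) < 1 := by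
      have : (c' - T y) ^ p - (c' - T y) = T m := by
        rw [wp_sub, ← hc', h1]; ring
      rw [this]; exact hτV m hm
    obtain ⟨b, hb, hb1, -⟩ := wp_small (k := k) (fun a ha => (h₀.shift c).valuation_residue
      hl0 hl hP L ha) (fun a ha => (h₀.shift c).valuation_const hl0 hl hP L a ha) h2
    set m₁ := c' - T y - algebraMap k F b with hm₁
    have hTb : T (algebraMap k F b) = 0 := by
      simp only [hT]
      rw [IsScalarTower.algebraMap_apply k E F, AlgHom.commutes, sub_self]
    have hp1 : p = (p - 1) + 1 := by have := hp.out.one_le; omega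
    have hiter_add : ∀ j : ℕ, ∀ a b, T^[j] (a + b) = T^[j] a + T^[j] b := by
      intro j
      induction j with
      | zero => intro a b; rfl
      | succ j ihj => intro a b; rw [Function.iterate_succ, Function.comp, hTadd, ihj]; rfl
    have hT0 : T 0 = 0 := by simp [hT]
    have hiter0 : ∀ j : ℕ, T^[j] 0 = 0 := by
      intro j
      induction j with
      | zero => rfl
      | succ j ihj => rw [Function.iterate_succ, Function.comp, hT0, ihj]
    have hiterV : ∀ j : ℕ, ∀ z, V z < 1 → V (T^[j] z) < 1 := by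
      intro j
      induction j with
      | zero => intro z hz; exact hz
      | succ j ihj => intro z hz; rw [Function.iterate_succ, Function.comp]; exact ihj _ (hτV z hz)
    have hiterR : ∀ j : ℕ, ∀ z ∈ Rint k (algebraMap E F x), T^[j] z ∈ Rint k (algebraMap E F x) := by
      intro j
      induction j with
      | zero => intro z hz; exact hz
      | succ j ihj => intro z hz; rw [Function.iterate_succ, Function.comp]; exact ihj _ (hTR z hz)
    have hiterrep : ∀ j : ℕ, ∀ z, h₀.rep (T^[j] z) = delta^[j] (h₀.rep z) := by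
      intro j
      induction j with
      | zero => intro z; rfl
      | succ j ihj =>
        intro z
        rw [Function.iterate_succ, Function.comp, ihj, hTrep]; rfl
    have h3 : T^[p - 1] c' = T^[p - 1] m₁ := by
      have : c' = (T y + algebraMap k F b) + m₁ := by rw [hm₁]; ring
      conv_lhs => rw [this]
      rw [hiter_add, hiter_add]
      have h4 : T^[p - 1] (T y) = 0 := by
        have : T^[p - 1] (T y) = T^[(p - 1) + 1] y := by rw [Function.iterate_succ]; rfl
        rw [this]
        apply h₀.rep_eq_zero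
        rw [hiterrep]
        apply delta_iter_succ
        have := h₀.rep_natDegree y
        omega
      have h5 : T^[p - 1] (algebraMap k F b) = 0 := by
        obtain ⟨q, hq⟩ : ∃ q, p - 1 = q + 1 := ⟨p - 2, by have := hp.out.two_le; omega⟩
        rw [hq, Function.iterate_succ, Function.comp, hTb, hiter0]
      rw [h4, h5]; ring
    have h4 : T^[p - 1] c' = 0 := by
      apply step_R_inter_lt h₀ hP₀ c hl0 hl hP L (hiterR _ _ hc'R)
      rw [h3]; exact hiterV _ _ hb1
    have h5 : (h₀.rep c').coeff (p - 1) = 0 := by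
      have h6 := hiterrep (p - 1) c'
      rw [h4, h₀.rep_zero, delta_iter (p - 1) _ (by have := h₀.rep_natDegree c'; omega)] at h6
      have h7 := C_eq_zero.mp h6.symm
      rcases mul_eq_zero.mp h7 with h8 | h8
      · exfalso
        rw [CharP.cast_eq_zero_iff E p, hp.out.dvd_factorial] at h8
        have := hp.out.one_le
        omega
      · exact h8
    have h6 : (h₀.rep c').natDegree ≤ p - 2 := by
      rw [natDegree_le_iff_coeff_eq_zero]
      intro N hN
      rcases lt_or_ge N p with h | h
      · have : N = p - 1 := by omega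
        rw [this]; exact h5
      · exact coeff_eq_zero_of_natDegree_lt (lt_of_lt_of_le (h₀.rep_natDegree c') h)
    obtain ⟨f', hf'd, hf'R, hf'⟩ := exists_delta_eq (p := p) (Rint k x) (p - 2)
      (by have := hp.out.two_le; omega) (h₀.rep c') h6 (fun i => h₀.coeff_mem_Rint hP₀ hc'R i)
    set c'' := aeval w₀ f' with hc''
    have hc''R : c'' ∈ Rint k (algebraMap E F x) := h₀.aeval_mem_Rint hP₀ hf'R
    have hc''rep : h₀.rep c'' = f' := h₀.rep_eq (by have := hp.out.two_le; omega) rfl
    have hTc'' : T c'' = c' := by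
      rw [← h₀.aeval_rep (T c''), hTrep, hc''rep, hf', h₀.aeval_rep]
    set f₂ := f - (c'' ^ p - c'') with hf₂
    have hf₂R : f₂ ∈ Rint k (algebraMap E F x) :=
      sub_mem hf (sub_mem (pow_mem hc''R p) hc''R)
    have hTf₂ : T f₂ = 0 := by
      have : f = f₂ + (c'' ^ p - c'') := by rw [hf₂]; ring
      have h7 : T f = T f₂ + T (c'' ^ p - c'') := by rw [← hTadd, ← this]
      rw [hTwp, hTc'', hc'] at h7
      exact (add_eq_right.mp h7.symm)
    have hf₂d : (h₀.rep f₂).natDegree = 0 := by
      by_contra hne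
      obtain ⟨e, he⟩ : ∃ e, (h₀.rep f₂).natDegree = e + 1 := ⟨_, (Nat.succ_pred hne).symm⟩
      have h7 := hTrep f₂
      rw [hTf₂, h₀.rep_zero] at h7
      have h8 := coeff_delta (f := h₀.rep f₂) (d := e) he.le
      rw [← h7, coeff_zero] at h8
      rcases mul_eq_zero.mp h8.symm with h9 | h9
      · exact natCast_ne_zero_of_lt (p := p) (by omega) (by have := h₀.rep_natDegree f₂; omega) h9
      · rw [← he, coeff_natDegree, leadingCoeff_eq_zero] at h9
        rw [h9, natDegree_zero] at he
        omega
    obtain ⟨h', hh'⟩ := step_prank_base h₀ hP₀ c hl0 hl hP L hf₂R hf₂d (y := y - c'') (m := m) hm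
      (by rw [hf₂, hy, wp_sub]; ring)
    refine ⟨h' + c'', ?_⟩
    rw [wp_add, ← hh', hf₂]; ring

end step

section unique

variable {p : ℕ} [hp : Fact p.Prime] {k E F : Type*} [Field k] [Field E] [Field F]
  [Algebra k E] [Algebra k F] [Algebra E F] [IsScalarTower k E F] [CharP E p] [CharP F p]
  {x : E} {n g : ℕ} {v : Valuation E (WithZero (Multiplicative ℤ))}

variable {w : F} {P : E} (h : ASData p w P) {l : ℤ} (hl0 : 0 < l) (hl : ¬ (p : ℤ) ∣ l)
  (hP : v P = exp l)

lemma step_unique (L : IsLevel p k x n g v) (V' : ValuationSubring F)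
    (hk : ∀ c : k, algebraMap k F c ∈ V') (hx : algebraMap E F x ∉ V') :
    V' = (h.valuation v hl0 hl hP).valuationSubring := by
  set V := h.valuation v hl0 hl hP with hV
  have hcomap : V'.comap (algebraMap E F) = v.valuationSubring := by
    apply L.unique
    · intro c
      rw [ValuationSubring.mem_comap, ← IsScalarTower.algebraMap_apply]
      exact hk c
    · rw [ValuationSubring.mem_comap]; exact hx
  have hE : ∀ a : E, algebraMap E F a ∈ V' ↔ v a ≤ 1 := by
    intro a
    rw [← ValuationSubring.mem_comap, hcomap, Valuation.mem_valuationSubring_iff]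
  set ν := V'.valuation with hν
  have hνmem : ∀ z : F, ν z ≤ 1 ↔ z ∈ V' := fun z => V'.valuation_le_one_iff z
  have hνP : 1 < ν (algebraMap E F P) := by
    rw [← not_le, hνmem, hE, hP, ← exp_zero, exp_le_exp]
    omega
  have hνw1 : 1 < ν w := by
    by_contra hcon
    push Not at hcon
    have : ν (algebraMap E F P) ≤ 1 := by
      rw [← h.eq]
      refine le_trans (Valuation.map_sub _ _ _) (max_le ?_ hcon)
      rw [map_pow]; exact pow_le_one₀ zero_le hcon
    exact absurd hνP (not_lt.mpr this)
  have hνw : ν w ^ p = ν (algebraMap E F P) := by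
    rw [← h.eq, Valuation.map_sub_eq_of_lt_left, map_pow]
    rw [map_pow]; exact lt_self_pow₀ hνw1 hp.out.one_lt
  -- the valuation ring of `V` is contained in `V'`
  have hle : V.valuationSubring ≤ V' := by
    intro y hy
    rw [Valuation.mem_valuationSubring_iff] at hy
    rw [h.eq_sum y]
    apply sum_mem
    intro i hi
    rw [Finset.mem_range] at hi
    have h1 := le_trans (h.valuation_term_le hl0 hl hP y hi) hy
    set a := (h.rep y).coeff i with ha
    have h2 : v (a ^ p * P ^ i) ≤ 1 := by
      rw [map_mul, map_pow, map_pow, hP, ← exp_nsmul, nsmul_eq_mul]; exact h1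
    rw [← hE, ← hνmem] at h2
    rw [← hνmem]
    rw [map_mul, map_mul, map_pow, map_pow, map_pow, map_pow, ← hνw, ← pow_mul, mul_comm p i,
      pow_mul, ← mul_pow] at h2
    rw [map_mul, map_pow]
    exact (pow_le_one_iff hp.out.ne_zero).mp h2
  apply le_antisymm _ hle
  intro y hy
  rw [Valuation.mem_valuationSubring_iff]
  by_contra hcon
  push Not at hcon
  apply hx
  -- every element lies in `V'`
  have hall : ∀ z : F, z ∈ V' := by
    intro z
    by_cases hz : z = 0
    · subst hz; exact zero_mem _
    have hy0 : y ≠ 0 := by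
      rintro rfl; rw [map_zero] at hcon; exact absurd hcon (not_lt.mpr zero_le)
    have hVz : V z ≠ 0 := (Valuation.ne_zero_iff V).mpr hz
    have hVy : V y ≠ 0 := (Valuation.ne_zero_iff V).mpr hy0
    obtain ⟨j, hj⟩ : ∃ j : ℤ, V y = exp j := ⟨log (V y), (exp_log hVy).symm⟩
    obtain ⟨i, hi⟩ : ∃ i : ℤ, V z = exp i := ⟨log (V z), (exp_log hVz).symm⟩
    rw [hj, ← exp_zero, exp_lt_exp] at hcon
    have h1 : z / y ^ i.natAbs ∈ V.valuationSubring := by
      rw [Valuation.mem_valuationSubring_iff, map_div₀, map_pow, hi, hj, ← exp_nsmul, ← exp_sub,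
        ← exp_zero, exp_le_exp, nsmul_eq_mul]
      have : i ≤ (i.natAbs : ℤ) := Int.le_natAbs
      nlinarith [Int.natCast_nonneg i.natAbs]
    have h2 := mul_mem (hle h1) (pow_mem hy i.natAbs)
    rwa [div_mul_cancel₀ _ (pow_ne_zero _ hy0)] at h2
  exact hall _

end unique

end Pool.Agent.Helper32
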