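import Mathlib
import Pool.Agent.Helper32.AS8

/-!
# The Artin-Schreier step: genus bound, and the step theorem
-/

namespace Pool.Agent.Helper32

open Polynomial WithZero

set_option linter.unusedSectionVars false

section approx

variable {p : ℕ} [hp : Fact p.Prime] {k E : Type*} [Field k] [Field E] [Algebra k E] {x : E}
  {n g : ℕ} {v : Valuation E (WithZero (Multiplicative ℤ))}

/-- span of `t, ..., t ^ N` -/
noncomputable def tailSpan (k : Type*) {E : Type*} [Field k] [Field E] [Algebra k E] (t : E)
    (N : ℕ) : Submodule k E :=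
  Submodule.span k (Set.range (fun j : Fin N => t ^ ((j : ℕ) + 1)))

lemma tailSpan_finite (t : E) (N : ℕ) : FiniteDimensional k (tailSpan k t N) :=
  FiniteDimensional.span_of_finite k (Set.finite_range _)

lemma tailSpan_finrank (t : E) (N : ℕ) : Module.finrank k (tailSpan k t N) ≤ N := by
  have := finrank_range_le_card (R := k) (fun j : Fin N => t ^ ((j : ℕ) + 1))
  rwa [Fintype.card_fin] at this

lemma tailSpan_mono (t : E) {N M : ℕ} (h : N ≤ M) : tailSpan k t N ≤ tailSpan k t M := by
  apply Submodule.span_mono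
  rintro y ⟨j, rfl⟩
  exact ⟨⟨j, by omega⟩, rfl⟩

lemma approx_dim (L : IsLevel p k x n g v) {S : Submodule k E}
    (hS : ∀ a : E, ∃ r ∈ Rint k x, ∃ s ∈ S, v (a - r - s) ≤ 1) {t : E} (ht : v t = exp (-1 : ℤ))
    (N : ℕ) (a : E) :
    ∃ r ∈ Rint k x, ∃ s ∈ S ⊔ tailSpan k t N, v (a - r - s) ≤ exp (-((N : ℤ) + 1)) := by
  have ht0 : t ≠ 0 := by
    intro h0; rw [h0, map_zero] at ht; exact exp_ne_zero ht.symm
  induction N with
  | zero =>
    obtain ⟨r, hr, s, hs, h1⟩ := hS a
    obtain ⟨c, hc⟩ := L.residue _ h1
    refine ⟨r + algebraMap k E c, add_mem hr ((Rint k x).algebraMap_mem c), s,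
      (le_sup_left : S ≤ _) hs, ?_⟩
    have h2 : a - (r + algebraMap k E c) - s = a - r - s - algebraMap k E c := by ring
    rw [h2]
    rw [← exp_zero, IsLevel.lt_exp_iff] at hc
    refine le_trans hc ?_
    rw [exp_le_exp]; simp
  | succ N ih =>
    obtain ⟨r, hr, s, hs, h1⟩ := ih
    have hvt : v (t ^ (N + 1)) = exp (-((N : ℤ) + 1)) := by
      rw [map_pow, ht, ← exp_nsmul]
      congr 1
      simp
    obtain ⟨c, hc⟩ := L.approx (a := a - r - s) (b := t ^ (N + 1)) (pow_ne_zero _ ht0)
      (by rw [hvt]; exact h1)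
    refine ⟨r, hr, s + algebraMap k E c * t ^ (N + 1), ?_, ?_⟩
    · apply add_mem
      · exact (sup_le_sup_left (tailSpan_mono t (Nat.le_succ N)) S) hs
      · apply (le_sup_right : tailSpan k t (N + 1) ≤ _)
        rw [← Algebra.smul_def]
        apply Submodule.smul_mem
        apply Submodule.subset_span
        exact ⟨⟨N, by omega⟩, rfl⟩
    · have h2 : a - r - (s + algebraMap k E c * t ^ (N + 1)) =
          a - r - s - algebraMap k E c * t ^ (N + 1) := by ring
      rw [h2]
      rw [hvt, IsLevel.lt_exp_iff] at hc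
      refine le_trans hc ?_
      rw [exp_le_exp]; push_cast; omega

end approx

section step

variable {p : ℕ} [hp : Fact p.Prime] {k E F : Type*} [Field k] [Field E] [Field F]
  [Algebra k E] [Algebra k F] [Algebra E F] [IsScalarTower k E F] [CharP E p] [CharP F p]
  {x : E} {n g : ℕ} {v : Valuation E (WithZero (Multiplicative ℤ))}

lemma sum_floor_le (hp2 : 2 ≤ p) (l' : ℕ) :
    2 * ∑ i ∈ Finset.range p, (i * l') / p ≤ (p - 1) * l' := by
  have hp0 : 0 < p := by omega
  have h1 : p * (2 * ∑ i ∈ Finset.range p, (i * l') / p) ≤ p * ((p - 1) * l') := by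
    calc p * (2 * ∑ i ∈ Finset.range p, (i * l') / p)
        = 2 * ∑ i ∈ Finset.range p, p * ((i * l') / p) := by
          rw [← Finset.mul_sum]; ring
      _ ≤ 2 * ∑ i ∈ Finset.range p, i * l' := by
          exact Nat.mul_le_mul_left 2 (Finset.sum_le_sum fun i _ => Nat.mul_div_le (i * l') p)
      _ = (∑ i ∈ Finset.range p, i) * 2 * l' := by
          rw [← Finset.sum_mul]; ring
      _ = p * ((p - 1) * l') := by
          rw [Finset.sum_range_id_mul_two]; ring
  exact Nat.le_of_mul_le_mul_left h1 hp0

variable {w₀ : F} {P₀ : E} (h₀ : ASData p w₀ P₀) (hP₀ : P₀ ∈ Rint k x) (c : E) {l : ℤ}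
  (hl0 : 0 < l) (hl : ¬ (p : ℤ) ∣ l) (hP : v (P₀ - (c ^ p - c)) = exp l)

include hP₀ in
lemma step_dim (L : IsLevel p k x n g v) {l' : ℕ} (hl' : (l' : ℤ) = l) :
    ∃ S' : Submodule k F, FiniteDimensional k S' ∧
      Module.finrank k S' ≤ p * g + ∑ i ∈ Finset.range p, (i * l') / p ∧
      ∀ a : F, ∃ r ∈ Rint k (algebraMap E F x), ∃ s ∈ S',
        (h₀.shift c).valuation v hl0 hl hP (a - r - s) ≤ 1 := by
  obtain ⟨S, hSfin, hSrank, hS⟩ := L.dim
  obtain ⟨t, ht⟩ := L.v_unif
  set h := h₀.shift c with hh
  set w := w₀ - algebraMap E F c with hw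
  set V := h.valuation v hl0 hl hP with hV
  let N : ℕ → ℕ := fun i => (i * l') / p
  let T : ℕ → Submodule k E := fun i => S ⊔ tailSpan k t (N i)
  have hTfin : ∀ i, FiniteDimensional k (T i) := fun i => by
    have := tailSpan_finite (k := k) t (N i)
    exact Submodule.finiteDimensional_sup _ _
  have hTrank : ∀ i, Module.finrank k (T i) ≤ g + N i := fun i => by
    have := tailSpan_finite (k := k) t (N i)
    refine le_trans (Submodule.finrank_add_le_finrank_add_finrank S (tailSpan k t (N i))) ?_
    exact Nat.add_le_add hSrank (tailSpan_finrank t (N i))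
  let Φ : ((i : Fin p) → T i) →ₗ[k] F :=
    { toFun := fun s => ∑ i : Fin p, algebraMap E F (s i : E) * w ^ (i : ℕ)
      map_add' := by
        intro s s'
        rw [← Finset.sum_add_distrib]
        apply Finset.sum_congr rfl
        intro i _
        simp only [Pi.add_apply, Submodule.coe_add, map_add]
        ring
      map_smul' := by
        intro b s
        rw [RingHom.id_apply, Finset.smul_sum]
        apply Finset.sum_congr rfl
        intro i _
        simp only [Pi.smul_apply, SetLike.val_smul]
        rw [Algebra.smul_def, map_mul, ← IsScalarTower.algebraMap_apply, Algebra.smul_def]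
        ring }
  refine ⟨LinearMap.range Φ, inferInstance, ?_, ?_⟩
  · refine le_trans (LinearMap.finrank_range_le Φ) ?_
    rw [Module.finrank_pi_fintype]
    calc ∑ i : Fin p, Module.finrank k (T i) ≤ ∑ i : Fin p, (g + N i) :=
          Finset.sum_le_sum fun i _ => hTrank i
      _ = ∑ i ∈ Finset.range p, (g + N i) := Fin.sum_univ_eq_sum_range (fun i => g + N i) p
      _ = p * g + ∑ i ∈ Finset.range p, (i * l') / p := by
          rw [Finset.sum_add_distrib]; simp [N]
  · have key : ∀ d ≤ p, ∀ a : F, (∀ i, d ≤ i → (h.rep a).coeff i = 0) →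
        ∃ r ∈ Rint k (algebraMap E F x), ∃ s ∈ LinearMap.range Φ, V (a - r - s) ≤ 1 := by
      intro d
      induction d with
      | zero =>
        intro _ a ha
        have h1 : a = 0 := by
          apply h.rep_eq_zero
          ext i
          rw [ha i (Nat.zero_le i), coeff_zero]
        exact ⟨0, zero_mem _, 0, zero_mem _, by rw [h1]; simp⟩
      | succ d ih =>
        intro hdp a ha
        have hdp' : d < p := by omega
        obtain ⟨r, hr, s, hs, hrs⟩ := approx_dim L hS ht (N d) ((h.rep a).coeff d)
        set o := (h.rep a).coeff d - r - s with ho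
        set a' := a - algebraMap E F r * w₀ ^ d - algebraMap E F s * w ^ d -
          algebraMap E F o * w ^ d with ha'
        have hmon : ((X + C c : E[X]) ^ d).Monic := (monic_X_add_C c).pow d
        have hmond : ((X + C c : E[X]) ^ d).natDegree = d := by
          rw [(monic_X_add_C c).natDegree_pow, natDegree_X_add_C, mul_one]
        have hrep : h.rep a' = h.rep a - C r * (X + C c) ^ d - monomial d s - monomial d o := by
          apply h.rep_eq
          · have h2 : (C r * (X + C c) ^ d : E[X]).natDegree < p := by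
              refine lt_of_le_of_lt (natDegree_C_mul_le _ _) ?_
              rw [hmond]; exact hdp'
            have h3 : ∀ b : E, (monomial d b : E[X]).natDegree < p := fun b =>
              lt_of_le_of_lt (natDegree_monomial_le _) hdp'
            refine lt_of_le_of_lt (natDegree_sub_le _ _) (max_lt ?_ (h3 _))
            refine lt_of_le_of_lt (natDegree_sub_le _ _) (max_lt ?_ (h3 _))
            exact lt_of_le_of_lt (natDegree_sub_le _ _) (max_lt (h.rep_natDegree a) h2)
          · simp only [map_sub, map_mul, aeval_C, map_pow, map_add, aeval_X, aeval_monomial]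
            rw [h.aeval_rep, ha', hw, sub_add_cancel]
        have hcoef : ∀ i, d ≤ i → (h.rep a').coeff i = 0 := by
          intro i hi
          rw [hrep]
          simp only [coeff_sub, coeff_C_mul, coeff_monomial]
          rcases lt_or_eq_of_le hi with h1 | h1
          · rw [ha i (by omega), coeff_eq_zero_of_natDegree_lt (by rw [hmond]; exact h1),
              if_neg (by omega), if_neg (by omega)]
            ring
          · subst h1
            have h2 : ((X + C c : E[X]) ^ d).coeff d = 1 := by
              have := hmon.coeff_natDegree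
              rwa [hmond] at this
            rw [h2, if_pos rfl, if_pos rfl, ho]
            ring
        obtain ⟨r', hr', s', hs', h1⟩ := ih (by omega) a' hcoef
        refine ⟨algebraMap E F r * w₀ ^ d + r', ?_, algebraMap E F s * w ^ d + s', ?_, ?_⟩
        · exact add_mem (mul_mem (map_mem_Rint (IsScalarTower.toAlgHom k E F) hr)
            (pow_mem (h₀.gen_mem_Rint hP₀) d)) hr'
        · apply add_mem _ hs'
          refine ⟨Pi.single ⟨d, hdp'⟩ ⟨s, hs⟩, ?_⟩
          change ∑ i : Fin p, algebraMap E F ((Pi.single (⟨d, hdp'⟩ : Fin p) (⟨s, hs⟩ : T d) :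
            (i : Fin p) → T i) i : E) * w ^ (i : ℕ) = _
          rw [Finset.sum_eq_single (⟨d, hdp'⟩ : Fin p)]
          · rw [Pi.single_eq_same]
          · intro i _ hne
            rw [Pi.single_eq_of_ne hne]
            simp
          · intro hne; exact absurd (Finset.mem_univ _) hne
        · have h2 : a - (algebraMap E F r * w₀ ^ d + r') - (algebraMap E F s * w ^ d + s') =
              (a' - r' - s') + algebraMap E F o * w ^ d := by rw [ha']; ring
          rw [h2]
          refine le_trans (Valuation.map_add _ _ _) (max_le h1 ?_)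
          rw [hV, h.valuation_monomial hl0 hl hP hdp']
          calc v o ^ p * exp ((d : ℤ) * l) ≤ exp (-((N d : ℤ) + 1)) ^ p * exp ((d : ℤ) * l) := by
                gcongr
            _ ≤ 1 := by
                rw [← exp_nsmul, ← exp_add, ← exp_zero, exp_le_exp, nsmul_eq_mul, ← hl']
                have h3 : d * l' < p * (N d + 1) := by
                  have := Nat.lt_mul_div_succ (d * l') hp.out.pos
                  exact this
                have h4 : (d : ℤ) * (l' : ℤ) < (p : ℤ) * ((N d : ℤ) + 1) := by exact_mod_cast h3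
                linarith
    intro a
    exact key p le_rfl a (fun i hi => coeff_eq_zero_of_natDegree_lt
      (lt_of_lt_of_le (h.rep_natDegree a) hi))

end step

section main

variable {p : ℕ} [hp : Fact p.Prime] {k E F : Type*} [Field k] [IsAlgClosed k] [Field E] [Field F]
  [Algebra k E] [Algebra k F] [Algebra E F] [IsScalarTower k E F] [CharP E p] [CharP F p]
  {x : E} {n g : ℕ} {v : Valuation E (WithZero (Multiplicative ℤ))}

/-- **The Artin-Schreier step**. -/
theorem IsLevel.step (L : IsLevel p k x n g v) {w₀ : F} {P₀ : E} (h₀ : ASData p w₀ P₀)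
    (hP₀ : P₀ ∈ Rint k x) (M : ℕ) (hM : v P₀ ≤ exp (M : ℤ)) :
    ∃ (v' : Valuation F (WithZero (Multiplicative ℤ))) (g' : ℕ),
      2 * g' ≤ 2 * (p * g) + (p - 1) * M ∧ IsLevel p k (algebraMap E F x) (n + 1) g' v' ∧
      ∀ a : E, v' (algebraMap E F a) = v a ^ p := by
  obtain ⟨c, hc⟩ := L.reduce M P₀ hM
  have hred : ∃ l : ℤ, 0 < l ∧ ¬ (p : ℤ) ∣ l ∧ l ≤ M ∧ v (P₀ - (c ^ p - c)) = exp l := by
    rcases hc with hc | hc
    · exfalso
      obtain ⟨h', hh'⟩ := L.prank P₀ hP₀ c _ hc (by ring)
      exact h₀.np h' hh'.symm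
    · exact hc
  obtain ⟨l, hl0, hl, hlM, hP⟩ := hred
  set V := (h₀.shift c).valuation v hl0 hl hP with hV
  obtain ⟨l', hl'⟩ : ∃ l' : ℕ, (l' : ℤ) = l := ⟨l.toNat, Int.toNat_of_nonneg hl0.le⟩
  refine ⟨V, p * g + ∑ i ∈ Finset.range p, (i * l') / p, ?_, ?_, ?_⟩
  · have h1 := sum_floor_le (p := p) hp.out.two_le l'
    have h2 : l' ≤ M := by omega
    have h3 : (p - 1) * l' ≤ (p - 1) * M := Nat.mul_le_mul_left _ h2
    omega
  · refine
      { v_const := fun c' hc' => (h₀.shift c).valuation_const hl0 hl hP L c' hc'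
        v_unif := ?_
        residue := fun a ha => (h₀.shift c).valuation_residue hl0 hl hP L ha
        v_x := ?_
        R_inter := fun r hr hv => step_R_inter h₀ hP₀ c hl0 hl hP L hr hv
        prank := fun f hf y m hm hy => step_prank h₀ hP₀ c hl0 hl hP L _ f hf le_rfl y m hm hy
        unique := fun V' hk hx => step_unique (h₀.shift c) hl0 hl hP L V' hk hx
        dim := step_dim h₀ hP₀ c hl0 hl hP L hl' }
    · obtain ⟨t, ht⟩ := L.v_unif
      exact (h₀.shift c).valuation_unif hl0 hl hP ht
    · rw [hV, (h₀.shift c).valuation_algebraMap, L.v_x, ← exp_nsmul, nsmul_eq_mul, pow_succ,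
        mul_comm]
  · intro a
    exact (h₀.shift c).valuation_algebraMap hl0 hl hP a

end main

end Pool.Agent.Helper32
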