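import Mathlib
import Pool.Agent.Helper32.AS9

/-!
# The base level: the rational function field
-/

namespace Pool.Agent.Helper32

open Polynomial WithZero

set_option linter.unusedSectionVars false

/-- a valuation ring of an integer valued valuation is maximal -/
lemma valuationSubring_maximal {E : Type*} [Field E]
    {v : Valuation E (WithZero (Multiplicative ℤ))} (V' : ValuationSubring E)
    (hle : v.valuationSubring ≤ V') {x : E} (hx : x ∉ V') : V' = v.valuationSubring := by
  apply le_antisymm _ hle
  intro y hy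
  rw [Valuation.mem_valuationSubring_iff]
  by_contra hcon
  push Not at hcon
  apply hx
  have hx0 : x ≠ 0 := by rintro rfl; exact hx (zero_mem _)
  have hy0 : y ≠ 0 := by
    rintro rfl; rw [map_zero] at hcon; exact absurd hcon (not_lt.mpr zero_le)
  have hVz : v x ≠ 0 := (Valuation.ne_zero_iff v).mpr hx0
  have hVy : v y ≠ 0 := (Valuation.ne_zero_iff v).mpr hy0
  obtain ⟨j, hj⟩ : ∃ j : ℤ, v y = exp j := ⟨log (v y), (exp_log hVy).symm⟩
  obtain ⟨i, hi⟩ : ∃ i : ℤ, v x = exp i := ⟨log (v x), (exp_log hVz).symm⟩
  rw [hj, ← exp_zero, exp_lt_exp] at hcon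
  have h1 : x / y ^ i.natAbs ∈ v.valuationSubring := by
    rw [Valuation.mem_valuationSubring_iff, map_div₀, map_pow, hi, hj, ← exp_nsmul, ← exp_sub,
      ← exp_zero, exp_le_exp, nsmul_eq_mul]
    have : i ≤ (i.natAbs : ℤ) := Int.le_natAbs
    nlinarith [Int.natCast_nonneg i.natAbs]
  have h2 := mul_mem (hle h1) (pow_mem hy i.natAbs)
  rwa [div_mul_cancel₀ _ (pow_ne_zero _ hy0)] at h2

section base

variable (k : Type*) [Field k]

open Classical in
/-- the valuation at infinity of the rational function field -/
noncomputable def vInf : Valuation (RatFunc k) (WithZero (Multiplicative ℤ)) :=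
  RatFunc.inftyValuation k

variable {k}

lemma vInf_poly {q : k[X]} (hq : q ≠ 0) :
    vInf k (algebraMap k[X] (RatFunc k) q) = exp (q.natDegree : ℤ) := by
  classical
  exact RatFunc.inftyValuation.polynomial (F := k) hq

lemma vInf_X : vInf k RatFunc.X = exp (1 : ℤ) := by
  classical
  exact RatFunc.inftyValuation.X (F := k)

lemma vInf_C {c : k} (hc : c ≠ 0) : vInf k (algebraMap k (RatFunc k) c) = 1 := by
  classical
  exact RatFunc.inftyValuation.C (F := k) hc

lemma vInf_poly_le {q : k[X]} {m : ℕ} (hq : q.natDegree ≤ m) :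
    vInf k (algebraMap k[X] (RatFunc k) q) ≤ exp (m : ℤ) := by
  by_cases h : q = 0
  · subst h; simp
  · rw [vInf_poly h, exp_le_exp]; exact_mod_cast hq

lemma vInf_poly_lt_one {q : k[X]} (h : vInf k (algebraMap k[X] (RatFunc k) q) < 1) : q = 0 := by
  by_contra h0
  rw [vInf_poly h0, ← exp_zero, exp_lt_exp] at h
  omega

/-- the polynomial part -/
lemma exists_poly_part (a : RatFunc k) :
    ∃ q : k[X], vInf k (a - algebraMap k[X] (RatFunc k) q) < 1 := by
  have hd : a.denom ≠ 0 := a.denom_ne_zero
  have hmonic := RatFunc.monic_denom a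
  refine ⟨a.num /ₘ a.denom, ?_⟩
  have hd' : algebraMap k[X] (RatFunc k) a.denom ≠ 0 := by
    simpa using hd
  have h1 : a - algebraMap k[X] (RatFunc k) (a.num /ₘ a.denom) =
      algebraMap k[X] (RatFunc k) (a.num %ₘ a.denom) / algebraMap k[X] (RatFunc k) a.denom := by
    rw [eq_div_iff hd', sub_mul]
    have h2 : a * algebraMap k[X] (RatFunc k) a.denom = algebraMap k[X] (RatFunc k) a.num := by
      have := RatFunc.num_div_denom a
      rw [div_eq_iff hd'] at this
      exact this.symm
    rw [h2, ← map_mul, ← map_sub]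
    congr 1
    have := modByMonic_add_div a.num a.denom
    rw [sub_eq_iff_eq_add, mul_comm]
    exact this.symm
  rw [h1, map_div₀, vInf_poly hd]
  by_cases h0 : a.num %ₘ a.denom = 0
  · rw [h0]; simp
  · rw [vInf_poly h0]
    have h3 : (a.num %ₘ a.denom).natDegree < a.denom.natDegree := by
      apply natDegree_lt_natDegree h0
      exact degree_modByMonic_lt _ hmonic
    rw [← exp_sub, ← exp_zero, exp_lt_exp]
    omega

lemma mem_Rint_ratFunc {r : RatFunc k} :
    r ∈ Rint k (RatFunc.X : RatFunc k) ↔ ∃ q : k[X], r = algebraMap k[X] (RatFunc k) q := by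
  have h1 : (aeval (RatFunc.X : RatFunc k) : k[X] →ₐ[k] RatFunc k).toRingHom =
      algebraMap k[X] (RatFunc k) := by
    ext <;> simp [RatFunc.algebraMap_eq_C]
  rw [mem_Rint, h1]
  constructor
  · intro h
    have h2 : IsIntegral k[X] r := h
    obtain ⟨q, hq⟩ := IsIntegrallyClosed.isIntegral_iff.mp h2
    exact ⟨q, hq.symm⟩
  · rintro ⟨q, rfl⟩
    exact RingHom.isIntegralElem_map _

lemma base_level (p : ℕ) [hp : Fact p.Prime] [IsAlgClosed k] [CharP k p] :
    IsLevel p k (RatFunc.X : RatFunc k) 0 0 (vInf k) where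
  v_const := fun c hc => vInf_C hc
  v_unif := ⟨RatFunc.X⁻¹, by rw [map_inv₀, vInf_X]; simp [exp_neg]⟩
  residue := by
    intro a ha
    obtain ⟨q, hq⟩ := exists_poly_part a
    have hq1 : vInf k (algebraMap k[X] (RatFunc k) q) ≤ 1 := by
      have : algebraMap k[X] (RatFunc k) q = a - (a - algebraMap k[X] (RatFunc k) q) := by ring
      rw [this]
      exact le_trans (Valuation.map_sub _ _ _) (max_le ha hq.le)
    have hdeg : q.natDegree = 0 := by
      by_cases h0 : q = 0
      · simp [h0]
      · rw [vInf_poly h0, ← exp_zero, exp_le_exp] at hq1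
        omega
    obtain ⟨c, hc⟩ : ∃ c, q = C c := ⟨q.coeff 0, eq_C_of_natDegree_eq_zero hdeg⟩
    refine ⟨c, ?_⟩
    rw [hc] at hq
    simpa [RatFunc.algebraMap_eq_C] using hq
  v_x := by rw [vInf_X]; simp
  R_inter := by
    intro r hr hv
    obtain ⟨q, rfl⟩ := mem_Rint_ratFunc.mp hr
    have hdeg : q.natDegree = 0 := by
      by_cases h0 : q = 0
      · simp [h0]
      · rw [vInf_poly h0, ← exp_zero, exp_le_exp] at hv
        omega
    refine ⟨q.coeff 0, ?_⟩
    rw [eq_C_of_natDegree_eq_zero hdeg]
    simp [RatFunc.algebraMap_eq_C]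
  prank := by
    intro f hf h m hm hfe
    obtain ⟨q, rfl⟩ := mem_Rint_ratFunc.mp hf
    obtain ⟨h0, hh0⟩ := exists_poly_part h
    have hchar : CharP (RatFunc k) p := charP_of_injective_algebraMap
      (algebraMap k (RatFunc k)).injective p
    set H0 := algebraMap k[X] (RatFunc k) h0 with hH0
    set h1 := h - H0 with hh1
    refine ⟨H0, ?_⟩
    have h2 : algebraMap k[X] (RatFunc k) q - (H0 ^ p - H0) = (h1 ^ p - h1) + m := by
      rw [hfe, hh1, sub_pow_char]
      ring
    have h3 : vInf k (algebraMap k[X] (RatFunc k) (q - (h0 ^ p - h0))) < 1 := by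
      have h5 : algebraMap k[X] (RatFunc k) (q - (h0 ^ p - h0)) =
          algebraMap k[X] (RatFunc k) q - (H0 ^ p - H0) := by
        rw [map_sub, map_sub, map_pow]
      rw [h5, h2]
      refine lt_of_le_of_lt (Valuation.map_add _ _ _) (max_lt ?_ hm)
      refine lt_of_le_of_lt (Valuation.map_sub _ _ _) (max_lt ?_ hh0)
      rw [map_pow]
      exact pow_lt_one₀ zero_le hh0 hp.out.ne_zero
    have h4 := vInf_poly_lt_one h3
    rw [sub_eq_zero] at h4
    rw [h4, map_sub, map_pow]
  unique := by
    intro V hk hx
    have hX0 : (RatFunc.X : RatFunc k) ≠ 0 := RatFunc.X_ne_zero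
    set y : RatFunc k := RatFunc.X⁻¹ with hy
    have hyV : y ∈ V := by
      rcases V.mem_or_inv_mem (RatFunc.X : RatFunc k) with h | h
      · exact absurd h hx
      · exact h
    have hνy : V.valuation y < 1 := by
      rw [← not_le]
      intro hcon
      apply hx
      rw [← V.valuation_le_one_iff]
      have : V.valuation (RatFunc.X : RatFunc k) = (V.valuation y)⁻¹ := by
        rw [hy, map_inv₀, inv_inv]
      rw [this]
      have hpos : (0 : V.ValueGroup) < V.valuation y := lt_of_lt_of_le zero_lt_one hcon
      exact inv_le_one_of_one_le₀ hcon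
    -- polynomials in y
    have hpoly : ∀ (q : k[X]) (m : ℕ), q.natDegree ≤ m →
        algebraMap k[X] (RatFunc k) q * y ^ m ∈ V := by
      intro q m hqm
      rw [as_sum_range_C_mul_X_pow q, map_sum, Finset.sum_mul]
      apply sum_mem
      intro i hi
      rw [Finset.mem_range] at hi
      have him : i ≤ m := by omega
      have : algebraMap k[X] (RatFunc k) (C (q.coeff i) * X ^ i) * y ^ m =
          algebraMap k (RatFunc k) (q.coeff i) * y ^ (m - i) := by
        rw [map_mul, map_pow, RatFunc.algebraMap_X, RatFunc.algebraMap_C, RatFunc.algebraMap_eq_C]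
        obtain ⟨j, rfl⟩ := Nat.exists_eq_add_of_le him
        rw [Nat.add_sub_cancel_left, pow_add, hy, inv_pow, inv_pow, mul_assoc, ← mul_assoc (_ ^ i),
          mul_inv_cancel₀ (pow_ne_zero _ hX0), one_mul]
      rw [this]
      exact mul_mem (hk _) (pow_mem hyV _)
    apply valuationSubring_maximal V _ hx
    intro a ha
    rw [Valuation.mem_valuationSubring_iff] at ha
    by_cases ha0 : a = 0
    · subst ha0; exact zero_mem _
    have hnum0 : a.num ≠ 0 := RatFunc.num_ne_zero ha0
    have hd : a.denom ≠ 0 := a.denom_ne_zero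
    have hd' : algebraMap k[X] (RatFunc k) a.denom ≠ 0 := by simpa using hd
    have hae : a = algebraMap k[X] (RatFunc k) a.num / algebraMap k[X] (RatFunc k) a.denom :=
      (RatFunc.num_div_denom a).symm
    have hdeg : a.num.natDegree ≤ a.denom.natDegree := by
      rw [hae, map_div₀, vInf_poly hnum0, vInf_poly hd, ← exp_sub, ← exp_zero, exp_le_exp] at ha
      omega
    set n := a.denom.natDegree with hn
    have h1 := hpoly a.num n hdeg
    -- the denominator times y^n is a unit
    have hy0 : y ≠ 0 := inv_ne_zero hX0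
    have h2 : V.valuation (algebraMap k[X] (RatFunc k) a.denom * y ^ n) = 1 := by
      have hmon := RatFunc.monic_denom a
      have hsplit : a.denom = X ^ n + (a.denom - X ^ n) := by ring
      have hdeg2 : (a.denom - X ^ n) = 0 ∨ (a.denom - X ^ n).natDegree + 1 ≤ n := by
        by_cases hz : a.denom - X ^ n = 0
        · exact Or.inl hz
        · right
          have : (a.denom - X ^ n).degree < a.denom.degree := by
            apply degree_sub_lt_left
            · rw [degree_X_pow, degree_eq_natDegree hd]
            · exact hd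
            · rw [hmon.leadingCoeff, leadingCoeff_X_pow]
          have := natDegree_lt_natDegree hz this
          omega
      have h3 : algebraMap k[X] (RatFunc k) a.denom * y ^ n =
          1 + algebraMap k[X] (RatFunc k) (a.denom - X ^ n) * y ^ n := by
        rw [map_sub, map_pow, RatFunc.algebraMap_X, sub_mul, hy, inv_pow,
          mul_inv_cancel₀ (pow_ne_zero _ hX0)]
        ring
      rw [h3]
      apply Valuation.map_one_add_of_lt
      rcases hdeg2 with hz | hz
      · rw [hz]; simp
      · obtain ⟨j, hj⟩ := Nat.exists_eq_add_of_le hz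
        have h4 := hpoly (a.denom - X ^ n) (n - 1) (by omega)
        have h5 : algebraMap k[X] (RatFunc k) (a.denom - X ^ n) * y ^ n =
            algebraMap k[X] (RatFunc k) (a.denom - X ^ n) * y ^ (n - 1) * y := by
          rw [mul_assoc, ← pow_succ]
          congr 2
          omega
        rw [h5, map_mul]
        rw [← V.valuation_le_one_iff] at h4
        calc _ ≤ 1 * V.valuation y := by gcongr
          _ = V.valuation y := one_mul _
          _ < 1 := hνy
    rw [← V.valuation_le_one_iff] at h1 ⊢
    have h6 : a = (algebraMap k[X] (RatFunc k) a.num * y ^ n) /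
        (algebraMap k[X] (RatFunc k) a.denom * y ^ n) := by
      rw [mul_div_mul_right _ _ (pow_ne_zero _ hy0)]
      exact hae
    rw [h6, map_div₀, h2, div_one]
    exact h1
  dim := by
    refine ⟨⊥, inferInstance, by simp, ?_⟩
    intro a
    obtain ⟨q, hq⟩ := exists_poly_part a
    refine ⟨_, mem_Rint_ratFunc.mpr ⟨q, rfl⟩, 0, zero_mem _, ?_⟩
    rw [sub_zero]
    exact hq.le

end base

end Pool.Agent.Helper32
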