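import Mathlib
import Pool.Agent.Helper32.AS10

/-!
# The Artin-Schreier step: norms
-/

namespace Pool.Agent.Helper32

open Polynomial WithZero

set_option linter.unusedSectionVars false

section step

variable {p : ℕ} [hp : Fact p.Prime] {E F : Type*} [Field E] [Field F]
  [Algebra E F] [CharP E p] [CharP F p]
  {v : Valuation E (WithZero (Multiplicative ℤ))}

/-- `∑_{i<p} X^i = (X-1)^(p-1)` in characteristic `p` -/
lemma geom_sum_char (K : Type*) [Field K] [CharP K p] :
    ∑ i ∈ Finset.range p, (X : K[X]) ^ i = (X - 1) ^ (p - 1) := by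
  have h1 : (X - 1 : K[X]) ≠ 0 := by
    rw [← C_1]; exact X_sub_C_ne_zero 1
  apply mul_right_cancel₀ h1
  rw [geom_sum_mul, ← pow_succ, Nat.sub_add_cancel hp.out.one_lt.le, sub_pow_char, one_pow]

omit hp in
lemma iterate_sum_char [hp : Fact p.Prime] {K V : Type*} [Field K] [CharP K p] [AddCommGroup V]
    [Module K V] (f : V →ₗ[K] V) (y : V) :
    ∑ i ∈ Finset.range p, (f ^ i) y = ((f - 1) ^ (p - 1)) y := by
  have h := congrArg (fun q => aeval f q) (geom_sum_char (p := p) K)
  simp only [map_sum, map_pow, aeval_X, map_sub, map_one] at h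
  rw [← h]
  simp

namespace ASData

variable {w : F} {P : E} (h : ASData p w P) {l : ℤ} (hl0 : 0 < l) (hl : ¬ (p : ℤ) ∣ l)
  (hP : v P = exp l)

include h in
lemma exists_tauEquiv : ∃ τ : F ≃ₐ[E] F, τ w = w + 1 := by
  obtain ⟨τ, hτ⟩ := h.exists_tau
  have : Module.Finite E F := h.finite
  have hb : Function.Bijective τ := Algebra.IsAlgebraic.algHom_bijective τ
  exact ⟨AlgEquiv.ofBijective τ hb, hτ⟩

omit [CharP E p] [CharP F p] in
lemma tau_pow {τ : F ≃ₐ[E] F} (hτ : τ w = w + 1) (i : ℕ) : (τ ^ i) w = w + i := by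
  induction i with
  | zero => simp
  | succ j ih =>
    rw [pow_succ, AlgEquiv.mul_apply, hτ, map_add, ih, map_one]
    push_cast; ring

omit [CharP E p] in
lemma tau_pow_inj {τ : F ≃ₐ[E] F} (hτ : τ w = w + 1) :
    Function.Injective (fun i : Fin p => τ ^ (i : ℕ)) := by
  intro i j hij
  have h1 := congrArg (fun σ : F ≃ₐ[E] F => σ w) hij
  simp only [tau_pow hτ, add_right_inj] at h1
  have h2 := (CharP.natCast_eq_natCast F p).mp h1
  apply Fin.ext
  have := Nat.ModEq.eq_of_lt_of_lt h2 i.2 j.2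
  exact this

include h in
lemma isGalois : IsGalois E F := by
  have : Module.Finite E F := h.finite
  obtain ⟨τ, hτ⟩ := h.exists_tauEquiv
  apply IsGalois.of_card_aut_eq_finrank
  apply le_antisymm
  · rw [Nat.card_eq_fintype_card]
    exact AlgEquiv.card_le
  · rw [h.finrank]
    have := Nat.card_le_card_of_injective _ (tau_pow_inj (p := p) hτ)
    simpa using this

include h in
lemma tau_pow_bij {τ : F ≃ₐ[E] F} (hτ : τ w = w + 1) :
    Function.Bijective (fun i : Fin p => τ ^ (i : ℕ)) := by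
  have : Module.Finite E F := h.finite
  have hG : IsGalois E F := h.isGalois
  rw [Nat.bijective_iff_injective_and_card]
  refine ⟨tau_pow_inj hτ, ?_⟩
  rw [IsGalois.card_aut_eq_finrank, h.finrank]
  simp

include h in
lemma sum_aut {τ : F ≃ₐ[E] F} (hτ : τ w = w + 1) [Fintype (F ≃ₐ[E] F)] {A : Type*} [AddCommMonoid A]
    (f : (F ≃ₐ[E] F) → A) : ∑ σ : F ≃ₐ[E] F, f σ = ∑ i ∈ Finset.range p, f (τ ^ i) := by
  rw [Finset.sum_range]
  exact (Function.Bijective.sum_comp (h.tau_pow_bij hτ) f).symm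

lemma valuation_add_one_pow_sub (i : ℕ) :
    h.valuation v hl0 hl hP ((w + 1) ^ i - w ^ i) ≤ exp ((i : ℤ) * l - 1) := by
  set V := h.valuation v hl0 hl hP with hV
  have hw : V w = exp l := h.valuation_gen hl0 hl hP
  have h2 : V (w + 1) ≤ exp l := by
    refine le_trans (Valuation.map_add _ _ _) ?_
    rw [hw, map_one]
    apply max_le le_rfl
    rw [← exp_zero, exp_le_exp]; exact hl0.le
  induction i with
  | zero => simp
  | succ j ih =>
    have : (w + 1) ^ (j + 1) - w ^ (j + 1) = (w + 1) * ((w + 1) ^ j - w ^ j) + w ^ j := by ring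
    rw [this]
    refine le_trans (Valuation.map_add _ _ _) (max_le ?_ ?_)
    · rw [map_mul]
      calc V (w + 1) * V ((w + 1) ^ j - w ^ j) ≤ exp l * exp ((j : ℤ) * l - 1) := by gcongr
        _ = exp (((j + 1 : ℕ) : ℤ) * l - 1) := by
          rw [← exp_add]; congr 1; push_cast; ring
    · rw [map_pow, hw, ← exp_nsmul, exp_le_exp, nsmul_eq_mul]
      push_cast
      nlinarith

lemma valuation_tau_sub_le {τ : F ≃ₐ[E] F} (hτ : τ w = w + 1) (y : F) :
    h.valuation v hl0 hl hP (τ y - y) ≤ h.valuation v hl0 hl hP y * exp (-1 : ℤ) := by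
  set V := h.valuation v hl0 hl hP with hV
  have h1 : τ y - y = ∑ i ∈ Finset.range p,
      algebraMap E F ((h.rep y).coeff i) * ((w + 1) ^ i - w ^ i) := by
    have h0 : τ y = ∑ i ∈ Finset.range p, algebraMap E F ((h.rep y).coeff i) * (w + 1) ^ i := by
      conv_lhs => rw [h.eq_sum y]
      rw [map_sum]
      apply Finset.sum_congr rfl
      intro i _
      rw [map_mul, map_pow, hτ, AlgEquiv.commutes]
    rw [h0]
    conv_lhs => rw [h.eq_sum y]
    rw [← Finset.sum_sub_distrib]
    apply Finset.sum_congr rfl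
    intro i _
    rw [mul_sub, ← h.eq_sum y]
  rw [h1]
  apply Valuation.map_sum_le
  intro i hi
  rw [Finset.mem_range] at hi
  rw [map_mul, hV, h.valuation_algebraMap]
  calc v ((h.rep y).coeff i) ^ p * h.valuation v hl0 hl hP ((w + 1) ^ i - w ^ i)
      ≤ v ((h.rep y).coeff i) ^ p * exp ((i : ℤ) * l - 1) := by
        gcongr; exact h.valuation_add_one_pow_sub hl0 hl hP i
    _ = (v ((h.rep y).coeff i) ^ p * exp ((i : ℤ) * l)) * exp (-1 : ℤ) := by
        rw [mul_assoc, ← exp_add]; congr 2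
    _ ≤ _ := by
        gcongr; exact h.valuation_term_le hl0 hl hP y hi

lemma valuation_tau_iter_le {τ : F ≃ₐ[E] F} (hτ : τ w = w + 1) (m : ℕ) (y : F) :
    h.valuation v hl0 hl hP (((τ.toLinearMap - 1) ^ m) y) ≤
      h.valuation v hl0 hl hP y * exp (-(m : ℤ)) := by
  induction m with
  | zero => simp
  | succ j ih =>
    rw [pow_succ', Module.End.mul_apply]
    refine le_trans (h.valuation_tau_sub_le hl0 hl hP hτ _) ?_
    calc _ ≤ (h.valuation v hl0 hl hP y * exp (-(j : ℤ))) * exp (-1 : ℤ) := by gcongr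
      _ = _ := by
        rw [mul_assoc, ← exp_add]; congr 2; push_cast; ring

lemma valuation_tau_le' {τ : F ≃ₐ[E] F} (hτ : τ w = w + 1) (y : F) :
    h.valuation v hl0 hl hP (τ y) ≤ h.valuation v hl0 hl hP y :=
  h.valuation_tau_le hl0 hl hP (τ := (τ : F →ₐ[E] F)) hτ y

lemma valuation_tau_pow_le {τ : F ≃ₐ[E] F} (hτ : τ w = w + 1) (m : ℕ) (y : F) :
    h.valuation v hl0 hl hP ((τ ^ m) y) ≤ h.valuation v hl0 hl hP y := by
  induction m with
  | zero => simp
  | succ j ih =>
    rw [pow_succ', AlgEquiv.mul_apply]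
    exact le_trans (h.valuation_tau_le' hl0 hl hP hτ _) ih

/-- the extended valuation is invariant under all automorphisms -/
lemma valuation_aut (σ : F ≃ₐ[E] F) (y : F) :
    h.valuation v hl0 hl hP (σ y) = h.valuation v hl0 hl hP y := by
  obtain ⟨τ, hτ⟩ := h.exists_tauEquiv
  have hle : ∀ (σ : F ≃ₐ[E] F) (y : F),
      h.valuation v hl0 hl hP (σ y) ≤ h.valuation v hl0 hl hP y := by
    intro σ y
    obtain ⟨i, rfl⟩ := (h.tau_pow_bij hτ).2 σ
    exact h.valuation_tau_pow_le hl0 hl hP hτ i y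
  apply le_antisymm (hle σ y)
  have := hle σ.symm (σ y)
  rwa [AlgEquiv.symm_apply_apply] at this

include h in
lemma trace_eq {τ : F ≃ₐ[E] F} (hτ : τ w = w + 1) (y : F) :
    algebraMap E F (Algebra.trace E F y) = ((τ.toLinearMap - 1) ^ (p - 1)) y := by
  have : Module.Finite E F := h.finite
  have hG : IsGalois E F := h.isGalois
  rw [trace_eq_sum_automorphisms, h.sum_aut hτ, ← iterate_sum_char (p := p)]
  apply Finset.sum_congr rfl
  intro i hi
  clear hi
  induction i generalizing y with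
  | zero => simp
  | succ j ih => rw [pow_succ, pow_succ, AlgEquiv.mul_apply, Module.End.mul_apply, ih]; rfl

lemma valuation_trace_le (y : F) :
    h.valuation v hl0 hl hP (algebraMap E F (Algebra.trace E F y)) ≤
      h.valuation v hl0 hl hP y * exp (-((p : ℤ) - 1)) := by
  obtain ⟨τ, hτ⟩ := h.exists_tauEquiv
  rw [h.trace_eq hτ]
  have h1 := h.valuation_tau_iter_le hl0 hl hP hτ (p - 1) y
  rwa [Nat.cast_sub hp.out.one_lt.le, Nat.cast_one] at h1

/-- the norm preserves valuations -/
lemma valuation_norm (y : F) : v (Algebra.norm E y) = h.valuation v hl0 hl hP y := by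
  have : Module.Finite E F := h.finite
  have hG : IsGalois E F := h.isGalois
  have h1 := Algebra.norm_eq_prod_automorphisms E y
  have h2 := congrArg (h.valuation v hl0 hl hP) h1
  rw [h.valuation_algebraMap, map_prod] at h2
  simp only [h.valuation_aut] at h2
  rw [Finset.prod_const, Finset.card_univ, ← Nat.card_eq_fintype_card,
    IsGalois.card_aut_eq_finrank, h.finrank] at h2
  exact (pow_left_inj₀ zero_le zero_le hp.out.ne_zero).mp h2

open MvPolynomial in
lemma valuation_esymm_le [hfin : Module.Finite E F] {u : F}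
    (hu : h.valuation v hl0 hl hP u ≤ exp (-2 : ℤ)) (j : ℕ) (hj0 : 0 < j) (hj : j < p) :
    h.valuation v hl0 hl hP (MvPolynomial.aeval (fun σ : F ≃ₐ[E] F => σ u)
      (esymm (F ≃ₐ[E] F) ℤ j)) ≤
      exp (-((p : ℤ) + 1)) := by
  have hG : IsGalois E F := h.isGalois
  set V := h.valuation v hl0 hl hP with hV
  have hV1 : ∀ m : ℕ, V (m : F) ≤ 1 := by
    intro m
    induction m with
    | zero => simp
    | succ m ih =>
      push_cast
      exact le_trans (Valuation.map_add _ _ _) (max_le ih (by simp))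
  have hps : ∀ m : ℕ, 0 < m → V (MvPolynomial.aeval (fun σ : F ≃ₐ[E] F => σ u) (psum (F ≃ₐ[E] F) ℤ m)) ≤
      exp (-((p : ℤ) + 1)) := by
    intro m hm
    have h1 : MvPolynomial.aeval (fun σ : F ≃ₐ[E] F => σ u) (psum (F ≃ₐ[E] F) ℤ m) =
        algebraMap E F (Algebra.trace E F (u ^ m)) := by
      rw [trace_eq_sum_automorphisms, psum, map_sum]
      apply Finset.sum_congr rfl
      intro σ _
      rw [map_pow, MvPolynomial.aeval_X, map_pow]
    rw [h1]
    refine le_trans (h.valuation_trace_le hl0 hl hP _) ?_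
    have h2 : V (u ^ m) ≤ exp (-2 : ℤ) := by
      rw [map_pow]
      have h3 : V u ≤ 1 := le_trans hu (by rw [← exp_zero, exp_le_exp]; omega)
      obtain ⟨m', rfl⟩ : ∃ m', m = m' + 1 := ⟨m - 1, by omega⟩
      rw [pow_succ]
      calc V u ^ m' * V u ≤ 1 * exp (-2 : ℤ) := by
            gcongr
            exact pow_le_one₀ zero_le h3
        _ = _ := one_mul _
    calc V (u ^ m) * exp (-((p : ℤ) - 1)) ≤ exp (-2 : ℤ) * exp (-((p : ℤ) - 1)) := by gcongr
      _ = _ := by rw [← exp_add]; congr 1; ring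
  induction j using Nat.strong_induction_on with
  | _ j ih =>
  have hne : ((j : ℕ) : F) ≠ 0 := by
    intro h0
    rw [CharP.cast_eq_zero_iff F p] at h0
    exact absurd (Nat.le_of_dvd hj0 h0) (by omega)
  have hVj : V ((j : ℕ) : F) = 1 := by
    apply le_antisymm (hV1 j)
    -- inverse of j is a natural number
    have h1 : ((j : ℕ) : F) ^ (p - 1) = 1 := by
      have h2 := natCast_pow_char (p := p) (E := F) j
      have h3 : ((j : ℕ) : F) ^ (p - 1) * j = 1 * j := by
        rw [← pow_succ, Nat.sub_add_cancel hp.out.one_lt.le, h2, one_mul]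
      exact mul_right_cancel₀ hne h3
    by_contra hcon
    push Not at hcon
    have h4 := congrArg V h1
    rw [map_pow, map_one] at h4
    have h5 : V ((j : ℕ) : F) ^ (p - 1) < 1 := by
      apply pow_lt_one₀ zero_le hcon
      have := hp.out.two_le
      omega
    rw [h4] at h5
    exact lt_irrefl _ h5
  have hN := congrArg (MvPolynomial.aeval (fun σ : F ≃ₐ[E] F => σ u)) (mul_esymm_eq_sum (F ≃ₐ[E] F) ℤ j)
  rw [map_mul, map_natCast] at hN
  have h6 : V (MvPolynomial.aeval (fun σ : F ≃ₐ[E] F => σ u) (esymm (F ≃ₐ[E] F) ℤ j)) =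
      V ((j : F) * MvPolynomial.aeval (fun σ : F ≃ₐ[E] F => σ u) (esymm (F ≃ₐ[E] F) ℤ j)) := by
    rw [map_mul, hVj, one_mul]
  rw [h6, hN, map_mul, map_mul]
  have hsgn : ∀ m : ℕ, V (MvPolynomial.aeval (fun σ : F ≃ₐ[E] F => σ u)
      ((-1 : MvPolynomial (F ≃ₐ[E] F) ℤ) ^ m)) = 1 := by
    intro m
    rw [map_pow, map_neg, map_one, map_pow, Valuation.map_neg, map_one, one_pow]
  rw [hsgn, one_mul, map_sum]
  apply Valuation.map_sum_le
  intro a ha
  rw [Finset.mem_filter, Finset.HasAntidiagonal.mem_antidiagonal] at ha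
  rw [map_mul, map_mul, map_mul, map_mul, hsgn, one_mul]
  have h7 := hps a.2 (by omega)
  rcases Nat.eq_zero_or_pos a.1 with h0 | h0
  · rw [h0, esymm_zero, map_one, map_one, one_mul]
    exact h7
  · have h8 := ih a.1 ha.2 h0 (by omega)
    have h9 : exp (-((p : ℤ) + 1)) ≤ (1 : WithZero (Multiplicative ℤ)) := by
      rw [← exp_zero, exp_le_exp]; omega
    calc _ ≤ (1 : WithZero (Multiplicative ℤ)) * exp (-((p : ℤ) + 1)) := by
          gcongr
          exact le_trans h8 h9
      _ = _ := one_mul _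

/-- the norm maps `1 + m^2` to `1 + m^2` -/
lemma valuation_norm_one_add {u : F} (hu : h.valuation v hl0 hl hP u ≤ exp (-2 : ℤ)) :
    v (Algebra.norm E (1 + u) - 1) ≤ exp (-2 : ℤ) := by
  have hfin : Module.Finite E F := h.finite
  have hG : IsGalois E F := h.isGalois
  set V := h.valuation v hl0 hl hP with hV
  have h1 := Algebra.norm_eq_prod_automorphisms E (1 + u)
  have hcard : (Finset.univ : Finset (F ≃ₐ[E] F)).card = p := by
    rw [Finset.card_univ, ← Nat.card_eq_fintype_card, IsGalois.card_aut_eq_finrank, h.finrank]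
  have h2 : algebraMap E F (Algebra.norm E (1 + u)) =
      ∑ j ∈ Finset.range (p + 1), MvPolynomial.aeval (fun σ : F ≃ₐ[E] F => σ u)
        (MvPolynomial.esymm (F ≃ₐ[E] F) ℤ j) := by
    rw [h1]
    simp only [map_add, map_one]
    rw [Finset.prod_one_add, Finset.sum_powerset, hcard]
    apply Finset.sum_congr rfl
    intro j _
    rw [MvPolynomial.esymm, map_sum]
    apply Finset.sum_congr rfl
    intro t _
    rw [map_prod]
    simp
  have h3 : algebraMap E F (Algebra.norm E (1 + u) - 1) =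
      ∑ j ∈ Finset.range p, MvPolynomial.aeval (fun σ : F ≃ₐ[E] F => σ u)
        (MvPolynomial.esymm (F ≃ₐ[E] F) ℤ (j + 1)) := by
    rw [map_sub, h2, Finset.sum_range_succ', MvPolynomial.esymm_zero]
    simp
  have h4 : V (algebraMap E F (Algebra.norm E (1 + u) - 1)) ≤ exp (-((p : ℤ) + 1)) := by
    rw [h3]
    apply Valuation.map_sum_le
    intro j hj
    rw [Finset.mem_range] at hj
    rcases Nat.lt_or_ge (j + 1) p with h5 | h5
    · exact h.valuation_esymm_le hl0 hl hP hu (j + 1) (by omega) h5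
    · have h6 : j + 1 = p := by omega
      have h7 : MvPolynomial.aeval (fun σ : F ≃ₐ[E] F => σ u)
          (MvPolynomial.esymm (F ≃ₐ[E] F) ℤ (j + 1)) = ∏ σ : F ≃ₐ[E] F, σ u := by
        rw [h6, ← hcard, MvPolynomial.esymm, map_sum, Finset.powersetCard_self,
          Finset.sum_singleton, map_prod]
        simp
      rw [h7, map_prod]
      simp only [hV, h.valuation_aut]
      rw [Finset.prod_const, hcard]
      calc V u ^ p ≤ exp (-2 : ℤ) ^ p := by gcongr
        _ = exp (-2 * (p : ℤ)) := by rw [← exp_nsmul, nsmul_eq_mul]; congr 1; ring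
        _ ≤ _ := by
          rw [exp_le_exp]
          have := hp.out.one_lt
          omega
  rw [hV, h.valuation_algebraMap] at h4
  by_contra hcon
  push Not at hcon
  have h8 : exp (-1 : ℤ) ≤ v (Algebra.norm E (1 + u) - 1) := by
    by_contra hc2
    push Not at hc2
    rw [IsLevel.lt_exp_iff] at hc2
    exact absurd (lt_of_lt_of_le hcon hc2) (by norm_num)
  have h9 : exp (-1 : ℤ) ^ p ≤ v (Algebra.norm E (1 + u) - 1) ^ p := by gcongr
  have h10 := le_trans h9 h4
  rw [← exp_nsmul, exp_le_exp, nsmul_eq_mul] at h10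
  omega

end ASData

end step

end Pool.Agent.Helper32
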