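import Mathlib
import Pool.Agent.Helper32.AS11

/-!
# Towers of levels over the rational function field
-/

namespace Pool.Agent.Helper32

open Polynomial WithZero

set_option linter.unusedSectionVars false

section transport

variable {p : ℕ} {k E E' : Type*} [Field k] [Field E] [Field E'] [Algebra k E] [Algebra k E']
  {x : E} {n g : ℕ} {v : Valuation E (WithZero (Multiplicative ℤ))}

/-- transport of levels along isomorphisms -/
lemma IsLevel.transport (L : IsLevel p k x n g v) (φ : E ≃ₐ[k] E') :
    IsLevel p k (φ x) n g (v.comap (φ.symm : E' →+* E)) where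
  v_const := fun c hc => by simpa using L.v_const c hc
  v_unif := by
    obtain ⟨t, ht⟩ := L.v_unif
    exact ⟨φ t, by simpa using ht⟩
  residue := by
    intro a ha
    obtain ⟨c, hc⟩ := L.residue (φ.symm a) ha
    exact ⟨c, by simpa using hc⟩
  v_x := by simpa using L.v_x
  R_inter := by
    intro r hr hv
    have h1 : φ.symm r ∈ Rint k x := by
      have := map_mem_Rint (φ.symm : E' →ₐ[k] E) hr
      simpa using this
    obtain ⟨c, hc⟩ := L.R_inter _ h1 hv
    refine ⟨c, ?_⟩
    have := congrArg φ hc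
    simpa using this
  prank := by
    intro f hf h m hm hfe
    have h1 : φ.symm f ∈ Rint k x := by
      have := map_mem_Rint (φ.symm : E' →ₐ[k] E) hf
      simpa using this
    obtain ⟨h', hh'⟩ := L.prank _ h1 (φ.symm h) (φ.symm m) hm (by rw [hfe]; simp)
    refine ⟨φ h', ?_⟩
    have := congrArg φ hh'
    simpa using this
  unique := by
    intro V hk hx
    have h1 := L.unique (V.comap (φ : E →+* E')) (fun c => by
      rw [ValuationSubring.mem_comap]; simpa using hk c) (by
      rw [ValuationSubring.mem_comap]; simpa using hx)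
    ext a
    rw [Valuation.mem_valuationSubring_iff, Valuation.comap_apply]
    have h2 : φ.symm a ∈ V.comap (φ : E →+* E') ↔ φ.symm a ∈ v.valuationSubring := by rw [h1]
    rw [ValuationSubring.mem_comap, Valuation.mem_valuationSubring_iff] at h2
    simpa using h2
  dim := by
    obtain ⟨S, hfin, hS, hd⟩ := L.dim
    refine ⟨S.map (φ.toLinearMap), inferInstance, ?_, ?_⟩
    · exact le_trans (Submodule.finrank_map_le _ _) hS
    · intro a
      obtain ⟨r, hr, s, hs, hrs⟩ := hd (φ.symm a)
      refine ⟨φ r, map_mem_Rint (φ : E →ₐ[k] E') hr, φ s, ⟨s, hs, rfl⟩, ?_⟩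
      simpa using hrs

end transport

section step

variable {p : ℕ} [hp : Fact p.Prime] {k E F : Type*} [Field k] [IsAlgClosed k] [Field E] [Field F]
  [Algebra k E] [Algebra k F] [Algebra E F] [IsScalarTower k E F] [CharP E p] [CharP F p]
  {x : E} {n g : ℕ} {v : Valuation E (WithZero (Multiplicative ℤ))}

/-- **The Artin-Schreier step**, with norms. -/
theorem IsLevel.step_norm (L : IsLevel p k x n g v) {w₀ : F} {P₀ : E} (h₀ : ASData p w₀ P₀)
    (hP₀ : P₀ ∈ Rint k x) (M : ℕ) (hM : v P₀ ≤ exp (M : ℤ)) :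
    ∃ (v' : Valuation F (WithZero (Multiplicative ℤ))) (g' : ℕ),
      2 * g' ≤ 2 * (p * g) + (p - 1) * M ∧ IsLevel p k (algebraMap E F x) (n + 1) g' v' ∧
      (∀ a : E, v' (algebraMap E F a) = v a ^ p) ∧
      (∀ u : F, v (Algebra.norm E u) = v' u) ∧
      (∀ u : F, v' u ≤ exp (-2 : ℤ) → v (Algebra.norm E (1 + u) - 1) ≤ exp (-2 : ℤ)) := by
  obtain ⟨c, hc⟩ := L.reduce M P₀ hM
  have hred : ∃ l : ℤ, 0 < l ∧ ¬ (p : ℤ) ∣ l ∧ l ≤ M ∧ v (P₀ - (c ^ p - c)) = exp l := by
    rcases hc with hc | hc
    · exfalso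
      obtain ⟨h', hh'⟩ := L.prank P₀ hP₀ c _ hc (by ring)
      exact h₀.np h' hh'.symm
    · exact hc
  obtain ⟨l, hl0, hl, hlM, hP⟩ := hred
  set V := (h₀.shift c).valuation v hl0 hl hP with hV
  obtain ⟨l', hl'⟩ : ∃ l' : ℕ, (l' : ℤ) = l := ⟨l.toNat, Int.toNat_of_nonneg hl0.le⟩
  refine ⟨V, p * g + ∑ i ∈ Finset.range p, (i * l') / p, ?_, ?_, ?_, ?_, ?_⟩
  · have h1 := sum_floor_le (p := p) hp.out.two_le l'
    have h2 : l' ≤ M := by omega
    have h3 : (p - 1) * l' ≤ (p - 1) * M := Nat.mul_le_mul_left _ h2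
    omega
  · refine
      { v_const := fun c' hc' => (h₀.shift c).valuation_const hl0 hl hP L c' hc'
        v_unif := ?_
        residue := fun a ha => (h₀.shift c).valuation_residue hl0 hl hP L ha
        v_x := ?_
        R_inter := fun r hr hv => step_R_inter h₀ hP₀ c hl0 hl hP L hr hv
        prank := fun f hf y m hm hy => step_prank h₀ hP₀ c hl0 hl hP L _ f hf le_rfl y m hm hy
        unique := fun V' hk hx => step_unique (h₀.shift c) hl0 hl hP L V' hk hx
        dim := step_dim h₀ hP₀ c hl0 hl hP L hl' }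
    · obtain ⟨t, ht⟩ := L.v_unif
      exact (h₀.shift c).valuation_unif hl0 hl hP ht
    · rw [hV, (h₀.shift c).valuation_algebraMap, L.v_x, ← exp_nsmul, nsmul_eq_mul, pow_succ,
        mul_comm]
  · intro a
    exact (h₀.shift c).valuation_algebraMap hl0 hl hP a
  · intro u
    exact (h₀.shift c).valuation_norm hl0 hl hP u
  · intro u hu
    exact (h₀.shift c).valuation_norm_one_add hl0 hl hP hu

end step

/-- A tower over the base `(K, vK)`. -/
structure Tow (p : ℕ) (k K : Type*) {E : Type*} [Field k] [Field K] [Field E] [Algebra k K]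
    [Algebra k E] [Algebra K E] (x : K) (vK : Valuation K (WithZero (Multiplicative ℤ)))
    (n g : ℕ) (v : Valuation E (WithZero (Multiplicative ℤ))) : Prop where
  lev : IsLevel p k (algebraMap K E x) n g v
  fr : Module.finrank K E = p ^ n
  fin : Module.Finite K E
  sep : Algebra.IsSeparable K E
  nv : ∀ u : E, vK (Algebra.norm K u) = v u
  nu : ∀ u : E, v u ≤ exp (-2 : ℤ) → vK (Algebra.norm K (1 + u) - 1) ≤ exp (-2 : ℤ)

section tow

variable {p : ℕ} [hp : Fact p.Prime] {k K E E' F : Type*} [Field k] [IsAlgClosed k] [Field K]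
  [Field E] [Field E'] [Field F] [Algebra k K] [Algebra k E] [Algebra k E'] [Algebra k F]
  [Algebra K E] [Algebra K E'] [Algebra K F] [IsScalarTower k K E] [IsScalarTower k K E']
  {x : K} {vK : Valuation K (WithZero (Multiplicative ℤ))}
  {n g : ℕ} {v : Valuation E (WithZero (Multiplicative ℤ))}

omit hp [IsAlgClosed k] in
lemma Tow.transport (T : Tow p k K x vK n g v) (φ : E ≃ₐ[K] E') :
    Tow p k K x vK n g (v.comap (φ.symm : E' →+* E)) where
  lev := by
    have h := T.lev.transport (φ.restrictScalars k)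
    have h1 : (φ.restrictScalars k) (algebraMap K E x) = algebraMap K E' x := by
      simp
    rw [h1] at h
    exact h
  fr := by rw [← T.fr]; exact φ.symm.toLinearEquiv.finrank_eq
  fin := by
    have := T.fin
    exact Module.Finite.equiv φ.toLinearEquiv
  sep := by
    have := T.sep
    exact Algebra.IsSeparable.of_equiv_equiv (RingEquiv.refl K) (φ : E ≃+* E') (by ext; simp)
  nv := by
    intro u
    rw [Valuation.comap_apply]
    have h1 : Algebra.norm K (φ.symm u) = Algebra.norm K u := Algebra.norm_eq_of_algEquiv φ.symm u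
    rw [← h1]
    exact T.nv _
  nu := by
    intro u hu
    rw [Valuation.comap_apply] at hu
    have h1 : Algebra.norm K (φ.symm (1 + u)) = Algebra.norm K (1 + u) :=
      Algebra.norm_eq_of_algEquiv φ.symm _
    rw [← h1, map_add, map_one]
    exact T.nu _ hu

lemma Tow.step [Algebra E F] [IsScalarTower K E F] [IsScalarTower k E F] [CharP E p] [CharP F p]
    (T : Tow p k K x vK n g v) {w₀ : F} {P₀ : E}
    (h₀ : ASData p w₀ P₀) (hP₀ : P₀ ∈ Rint k (algebraMap K E x)) (M : ℕ) (hM : v P₀ ≤ exp (M : ℤ)) :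
    ∃ (v' : Valuation F (WithZero (Multiplicative ℤ))) (g' : ℕ),
      2 * g' ≤ 2 * (p * g) + (p - 1) * M ∧ Tow p k K x vK (n + 1) g' v' ∧
      (∀ a : E, v' (algebraMap E F a) = v a ^ p) := by
  obtain ⟨v', g', h1, h2, h3, h4, h5⟩ := T.lev.step_norm h₀ hP₀ M hM
  have := T.fin
  have := T.sep
  have hfin : Module.Finite E F := h₀.finite
  have hgal : IsGalois E F := h₀.isGalois
  refine ⟨v', g', h1, ?_, h3⟩
  have hfinK : Module.Finite K F := Module.Finite.trans E F
  refine
    { lev := ?_
      fr := ?_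
      fin := hfinK
      sep := Algebra.IsSeparable.trans K E F
      nv := ?_
      nu := ?_ }
  · rw [IsScalarTower.algebraMap_apply K E F]
    exact h2
  · rw [← Module.finrank_mul_finrank K E F, T.fr, h₀.finrank, pow_succ]
  · intro u
    rw [← Algebra.norm_norm (S := E), T.nv, h4]
  · intro u hu
    rw [← Algebra.norm_norm (S := E)]
    have h6 := h5 u hu
    have h7 := T.nu _ h6
    rwa [add_sub_cancel] at h7

end tow

end Pool.Agent.Helper32
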