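import Mathlib
import Pool.Agent.Helper32.AS12

/-!
# Towers inside an algebraic closure
-/

namespace Pool.Agent.Helper32

open Polynomial WithZero IntermediateField

set_option linter.unusedSectionVars false

section tow

variable {p : ℕ} [hp : Fact p.Prime] {k K Ω : Type*} [Field k] [IsAlgClosed k] [Field K]
  [Field Ω] [Algebra k K] [Algebra K Ω] [Algebra k Ω] [IsScalarTower k K Ω]
  [CharP K p] [CharP Ω p]
  {x : K} {vK : Valuation K (WithZero (Multiplicative ℤ))}
  {n g : ℕ}

/-- the identification of two forms of an intermediate field -/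
noncomputable def adjEquiv (E : IntermediateField K Ω) (w : Ω) :
    ↥(IntermediateField.adjoin E {w}) ≃ₐ[K] ↥(E ⊔ IntermediateField.adjoin K {w}) :=
  let h : ∀ z : Ω, z ∈ IntermediateField.adjoin E {w} ↔ z ∈ E ⊔ IntermediateField.adjoin K {w} := by
    intro z
    rw [← restrictScalars_adjoin_eq_sup, mem_restrictScalars]
  { toFun := fun z => ⟨z.1, (h _).mp z.2⟩
    invFun := fun z => ⟨z.1, (h _).mpr z.2⟩
    left_inv := fun z => rfl
    right_inv := fun z => rfl
    map_mul' := fun _ _ => rfl
    map_add' := fun _ _ => rfl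
    commutes' := fun _ => rfl }

omit hp in
lemma exists_zmod_of_pow_eq [hp : Fact p.Prime] {L : Type*} [Field L] [CharP L p] {a : L}
    (ha : a ^ p = a) : ∃ i : ZMod p, a = ZMod.castHom (dvd_refl p) L i := by
  have h1 := (_root_.Subfield.mem_bot_iff_pow_eq_self L p).mpr ha
  rw [← _root_.ZMod.fieldRange_castHom_eq_bot p] at h1
  obtain ⟨i, hi⟩ := h1
  exact ⟨i, hi.symm⟩

lemma asData_adjoin {E : IntermediateField K Ω} {w : Ω} {f : E} (hw : w ^ p - w = f) (hwE : w ∉ E) :
    ASData p (⟨w, mem_adjoin_simple_self E w⟩ : ↥(IntermediateField.adjoin E {w})) f where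
  eq := by
    apply Subtype.ext
    exact hw
  np := by
    intro y hy
    apply hwE
    have h1 : (w - (y : Ω)) ^ p - (w - (y : Ω)) = 0 := by
      rw [wp_sub, hw, ← hy]
      push_cast
      ring
    -- then `w - y` is in the prime field
    have h2 : (w - (y : Ω)) ∈ E := by
      obtain ⟨i, hi⟩ := exists_zmod_of_pow_eq (p := p) (sub_eq_zero.mp h1)
      rw [hi, ← ZMod.natCast_zmod_val i, map_natCast]
      exact _root_.natCast_mem E _
    have := add_mem h2 y.2
    simpa using this
  gen := by
    rw [eq_top_iff]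
    intro z _
    have hc1 : CharP E p := charP_of_injective_algebraMap (algebraMap K E).injective p
    have hint : IsIntegral E w := by
      refine ⟨X ^ p - X - C f, AS_monic f, ?_⟩
      simp [hw]
    have h1 := adjoin_simple_toSubalgebra_of_isAlgebraic hint.isAlgebraic
    have h2 : (z : Ω) ∈ Algebra.adjoin E {w} := by
      rw [← h1]; exact z.2
    rw [Algebra.adjoin_singleton_eq_range_aeval] at h2 ⊢
    obtain ⟨q, hq⟩ := h2
    refine ⟨q, ?_⟩
    apply Subtype.ext
    rw [← hq]
    change (IntermediateField.adjoin E {w}).val (aeval (⟨w, mem_adjoin_simple_self E w⟩ :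
          ↥(IntermediateField.adjoin E {w})) q) = aeval w q
    rw [← aeval_algHom_apply]
    rfl

omit hp [IsAlgClosed k] [CharP K p] [CharP Ω p] in
lemma isScalarTower_kE (E : IntermediateField K Ω) : IsScalarTower k E Ω :=
  IsScalarTower.of_algebraMap_eq (fun _ => rfl)

lemma tow_step_in {E : IntermediateField K Ω} {v : Valuation E (WithZero (Multiplicative ℤ))}
    (T : Tow p k K x vK n g v) {w : Ω} {f : E} (hw : w ^ p - w = f)
    (hf : f ∈ Rint k (algebraMap K E x)) (M : ℕ) (hM : v f ≤ exp (M : ℤ)) (hwE : w ∉ E) :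
    ∃ (v' : Valuation ↥(E ⊔ IntermediateField.adjoin K {w}) (WithZero (Multiplicative ℤ)))
      (g' : ℕ), 2 * g' ≤ 2 * (p * g) + (p - 1) * M ∧ Tow p k K x vK (n + 1) g' v' ∧
      ∀ a : E, v' (inclusion (le_sup_left : E ≤ E ⊔ IntermediateField.adjoin K {w}) a) =
        v a ^ p := by
  have hc1 : CharP E p := charP_of_injective_algebraMap (algebraMap K E).injective p
  have hc2 : CharP ↥(IntermediateField.adjoin E {w}) p :=
    charP_of_injective_algebraMap (algebraMap E ↥(IntermediateField.adjoin E {w})).injective p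
  have hs : IsScalarTower k E Ω := isScalarTower_kE E
  have hs2 : IsScalarTower k K ↥(IntermediateField.adjoin E {w}) :=
    IsScalarTower.of_algebraMap_eq (fun c => by
      apply Subtype.ext
      exact IsScalarTower.algebraMap_apply k K Ω c)
  obtain ⟨v', g', h1, h2, h3⟩ := T.step (asData_adjoin hw hwE) hf M hM
  refine ⟨v'.comap ((adjEquiv E w).symm : _ →+* _), g', h1, h2.transport (adjEquiv E w), ?_⟩
  intro a
  rw [Valuation.comap_apply, ← h3]
  rfl

end tow

end Pool.Agent.Helper32
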