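import Mathlib
import Pool.Agent.Helper32.AS13

/-!
# Towers inside an algebraic closure: iteration
-/

namespace Pool.Agent.Helper32

open Polynomial WithZero IntermediateField

set_option linter.unusedSectionVars false

section bd

variable {k K Ω : Type*} [Field k] [Field K] [Field Ω] [Algebra k K] [Algebra K Ω] [Algebra k Ω]
  [IsScalarTower k K Ω]

/-- elements of `E` that are integral over `k[x]` with pole order at most `B` -/
def Bd (k : Type*) {K Ω : Type*} [Field k] [Field K] [Field Ω] [Algebra k K] [Algebra K Ω]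
    [Algebra k Ω] [IsScalarTower k K Ω] (x : K) (E : IntermediateField K Ω)
    (v : Valuation E (WithZero (Multiplicative ℤ))) (B : ℕ) : AddSubgroup Ω where
  carrier := {z | ∃ h : z ∈ E, (⟨z, h⟩ : E) ∈ Rint k (algebraMap K E x) ∧
    v ⟨z, h⟩ ≤ exp (B : ℤ)}
  zero_mem' := ⟨zero_mem _, zero_mem (Rint k _), by
    have : v (⟨0, zero_mem _⟩ : E) = 0 := map_zero v
    rw [this]; exact zero_le⟩
  add_mem' := by
    rintro a b ⟨ha, ha1, ha2⟩ ⟨hb, hb1, hb2⟩
    exact ⟨add_mem ha hb, add_mem ha1 hb1, (v.map_add _ _).trans (max_le ha2 hb2)⟩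
  neg_mem' := by
    rintro a ⟨ha, ha1, ha2⟩
    refine ⟨neg_mem ha, neg_mem ha1, ?_⟩
    have : (⟨-a, neg_mem ha⟩ : E) = -⟨a, ha⟩ := rfl
    rw [this, Valuation.map_neg]
    exact ha2

variable {x : K} {E : IntermediateField K Ω}
  {v : Valuation E (WithZero (Multiplicative ℤ))} {B B' : ℕ}

lemma mem_Bd {z : Ω} : z ∈ Bd k x E v B ↔ ∃ h : z ∈ E, (⟨z, h⟩ : E) ∈ Rint k (algebraMap K E x) ∧
    v ⟨z, h⟩ ≤ exp (B : ℤ) := Iff.rfl

lemma Bd_mono (h : B ≤ B') {z : Ω} (hz : z ∈ Bd k x E v B) : z ∈ Bd k x E v B' := by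
  obtain ⟨h1, h2, h3⟩ := hz
  refine ⟨h1, h2, h3.trans ?_⟩
  rw [exp_le_exp]; exact_mod_cast h

lemma Bd_one : (1 : Ω) ∈ Bd k x E v B := by
  refine ⟨one_mem _, one_mem (Rint k _), ?_⟩
  have : v (⟨1, one_mem _⟩ : E) = 1 := map_one v
  rw [this, ← exp_zero, exp_le_exp]
  exact_mod_cast Nat.zero_le _

lemma Bd_mul {y z : Ω} (hy : y ∈ Bd k x E v B) (hz : z ∈ Bd k x E v B') :
    y * z ∈ Bd k x E v (B + B') := by
  obtain ⟨h1, h2, h3⟩ := hy
  obtain ⟨h1', h2', h3'⟩ := hz
  refine ⟨mul_mem h1 h1', mul_mem h2 h2', ?_⟩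
  have : (⟨y * z, mul_mem h1 h1'⟩ : E) = ⟨y, h1⟩ * ⟨z, h1'⟩ := rfl
  rw [this, map_mul]
  push_cast
  rw [exp_add]
  exact mul_le_mul' h3 h3'

lemma zmod_smul_mem {p : ℕ} [NeZero p] [Algebra (ZMod p) Ω] (H : AddSubgroup Ω) (c : ZMod p) {z : Ω}
    (hz : z ∈ H) : c • z ∈ H := by
  have : c • z = c.val • z := by
    rw [Algebra.smul_def, ← ZMod.natCast_zmod_val c, map_natCast, nsmul_eq_mul,
      ZMod.natCast_zmod_val]
  rw [this]
  exact nsmul_mem hz _

lemma span_le_addSubgroup {p : ℕ} [NeZero p] [Algebra (ZMod p) Ω] (H : AddSubgroup Ω) {S : Set Ω}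
    (hS : S ⊆ H) {z : Ω} (hz : z ∈ Submodule.span (ZMod p) S) : z ∈ H := by
  induction hz using Submodule.span_induction with
  | mem x h => exact hS h
  | zero => exact zero_mem _
  | add x y _ _ hx hy => exact add_mem hx hy
  | smul a x _ hx => exact zmod_smul_mem H a hx

lemma pow_le_Bd {p : ℕ} [NeZero p] [Algebra (ZMod p) Ω] (M : Submodule (ZMod p) Ω)
    (hM : ∀ z ∈ M, z ∈ Bd k x E v B) (m : ℕ) : ∀ z ∈ M ^ m, z ∈ Bd k x E v (m * B) := by
  induction m with
  | zero =>
    intro z hz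
    rw [pow_zero, Submodule.one_eq_span] at hz
    apply span_le_addSubgroup _ _ hz
    intro y hy
    rw [Set.mem_singleton_iff] at hy
    rw [hy]
    exact Bd_one
  | succ m ih =>
    intro z hz
    rw [pow_succ] at hz
    induction hz using Submodule.mul_induction_on' with
    | mem_mul_mem a ha b hb =>
      have := Bd_mul (ih a ha) (hM b hb)
      convert this using 2
      ring
    | add a _ b _ ha hb => exact add_mem ha hb

lemma Bd_transport {E' : IntermediateField K Ω} (hE : E ≤ E')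
    {v' : Valuation E' (WithZero (Multiplicative ℤ))} {m : ℕ}
    (hv : ∀ a : E, v' (inclusion hE a) = v a ^ m) {z : Ω} (hz : z ∈ Bd k x E v B) :
    z ∈ Bd k x E' v' (B * m) := by
  obtain ⟨h1, h2, h3⟩ := hz
  refine ⟨hE h1, ?_, ?_⟩
  · exact map_mem_Rint ((inclusion hE).restrictScalars k) h2
  · have h4 := hv ⟨z, h1⟩
    have : inclusion hE ⟨z, h1⟩ = ⟨z, hE h1⟩ := rfl
    rw [← this, h4]
    push_cast
    rw [mul_comm, ← nsmul_eq_mul, exp_nsmul]
    exact pow_le_pow_left' h3 m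

end bd

section step

variable {p : ℕ} [hp : Fact p.Prime] {k K Ω : Type*} [Field k] [IsAlgClosed k] [Field K]
  [Field Ω] [Algebra k K] [Algebra K Ω] [Algebra k Ω] [IsScalarTower k K Ω]
  [CharP K p] [CharP Ω p]
  {x : K} {vK : Valuation K (WithZero (Multiplicative ℤ))}
  {n g C : ℕ}

/-- invariant of the construction -/
structure Inv (p : ℕ) (k : Type*) {K Ω : Type*} [Field k] [Field K] [Field Ω] [Algebra k K]
    [Algebra K Ω] [Algebra k Ω] [IsScalarTower k K Ω] (x : K)
    (vK : Valuation K (WithZero (Multiplicative ℤ))) (C : ℕ)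
    (E : IntermediateField K Ω) (n g : ℕ) (v : Valuation E (WithZero (Multiplicative ℤ))) :
    Prop where
  tow : Tow p k K x vK n g v
  bound : g ≤ n * C * (p - 1) * p ^ n

lemma val_le_of_wp {E : Type*} [Field E] {v : Valuation E (WithZero (Multiplicative ℤ))}
    {w : E} {M : ℕ} (h : v (w ^ p - w) ≤ exp (M : ℤ) ^ p) : v w ≤ exp (M : ℤ) := by
  by_contra hlt
  rw [not_le] at hlt
  have h1 : (1 : WithZero (Multiplicative ℤ)) < v w := by
    refine lt_of_le_of_lt ?_ hlt
    rw [← exp_zero, exp_le_exp]; exact_mod_cast Nat.zero_le _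
  have h2 : v w < v (w ^ p) := by
    rw [map_pow]
    exact lt_self_pow₀ h1 hp.out.one_lt
  rw [Valuation.map_sub_eq_of_lt_left v h2, map_pow] at h
  have h3 : exp (M : ℤ) ^ p < v w ^ p := pow_lt_pow_left₀ hlt zero_le hp.out.ne_zero
  exact absurd h (not_le.mpr h3)

lemma Inv.step {E : IntermediateField K Ω} {v : Valuation E (WithZero (Multiplicative ℤ))}
    (I : Inv p k x vK C E n g v) {w : Ω} {c : ℕ} (hc : c ≤ C)
    (hw : w ^ p - w ∈ Bd k x E v (2 * p * (c * p ^ n))) :
    ∃ (E' : IntermediateField K Ω) (n' g' : ℕ)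
      (v' : Valuation E' (WithZero (Multiplicative ℤ))), E' = E ⊔ IntermediateField.adjoin K {w} ∧
      n' ≤ n + 1 ∧ Inv p k x vK C E' n' g' v' ∧
      (∀ B z, z ∈ Bd k x E v (B * p ^ n) → z ∈ Bd k x E' v' (B * p ^ n')) ∧
      w ∈ Bd k x E' v' (2 * c * p ^ n') := by
  obtain ⟨h1, h2, h3⟩ := hw
  by_cases hwE : w ∈ E
  · refine ⟨E, n, g, v, ?_, Nat.le_succ _, I, fun B z hz => hz, hwE, ?_, ?_⟩
    · symm
      rw [sup_eq_left, adjoin_simple_le_iff]
      exact hwE
    · have : CharP E p := charP_of_injective_algebraMap (algebraMap K E).injective p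
      exact mem_Rint_of_wp (p := p) h2
    · apply val_le_of_wp (p := p)
      have h4 : (⟨w, hwE⟩ : E) ^ p - ⟨w, hwE⟩ = ⟨w ^ p - w, h1⟩ := rfl
      rw [h4]
      refine h3.trans (le_of_eq ?_)
      rw [← exp_nsmul]
      congr 1
      push_cast
      simp only [nsmul_eq_mul]
      ring
  · obtain ⟨v', g', h5, h6, h7⟩ := tow_step_in (f := ⟨w ^ p - w, h1⟩) I.tow rfl h2 _ h3 hwE
    refine ⟨_, n + 1, g', v', rfl, le_rfl, ⟨h6, ?_⟩, ?_, ?_⟩
    · have h8 := I.bound
      have h9 : p * g ≤ p * (n * C * (p - 1) * p ^ n) := Nat.mul_le_mul_left _ h8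
      have h10 : (p - 1) * (2 * p * (c * p ^ n)) ≤ (p - 1) * (2 * p * (C * p ^ n)) := by
        gcongr
      have h11 : 2 * g' ≤ 2 * ((n + 1) * C * (p - 1) * p ^ (n + 1)) := by
        calc 2 * g' ≤ 2 * (p * (n * C * (p - 1) * p ^ n)) + (p - 1) * (2 * p * (C * p ^ n)) := by
              omega
          _ = 2 * ((n + 1) * C * (p - 1) * p ^ (n + 1)) := by ring
      omega
    · intro B z hz
      have := Bd_transport (le_sup_left : E ≤ E ⊔ IntermediateField.adjoin K {w}) h7 hz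
      convert this using 2
      ring
    · have hwm : w ∈ E ⊔ IntermediateField.adjoin K {w} :=
        (le_sup_right : _ ≤ E ⊔ IntermediateField.adjoin K {w}) (mem_adjoin_simple_self K w)
      have h12 := Bd_transport (le_sup_left : E ≤ E ⊔ IntermediateField.adjoin K {w}) h7
        (⟨h1, h2, h3⟩ : w ^ p - w ∈ Bd k x E v (2 * p * (c * p ^ n)))
      obtain ⟨h1', h2', h3'⟩ := h12
      refine ⟨hwm, ?_, ?_⟩
      · have : CharP ↥(E ⊔ IntermediateField.adjoin K {w}) p :=
          charP_of_injective_algebraMap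
            (algebraMap K ↥(E ⊔ IntermediateField.adjoin K {w})).injective p
        exact mem_Rint_of_wp (p := p) h2'
      · apply val_le_of_wp (p := p)
        have h4 : (⟨w, hwm⟩ : ↥(E ⊔ IntermediateField.adjoin K {w})) ^ p - ⟨w, hwm⟩ =
          ⟨w ^ p - w, h1'⟩ := rfl
        rw [h4]
        refine h3'.trans (le_of_eq ?_)
        rw [← exp_nsmul]
        congr 1
        push_cast
        simp only [nsmul_eq_mul]
        ring

lemma Inv.list {E : IntermediateField K Ω} {v : Valuation E (WithZero (Multiplicative ℤ))}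
    (I : Inv p k x vK C E n g v) {c : ℕ} (hc : c ≤ C) (S : Finset Ω)
    (hS : ∀ w ∈ S, w ^ p - w ∈ Bd k x E v (2 * p * c * p ^ n)) :
    ∃ (E' : IntermediateField K Ω) (n' g' : ℕ)
      (v' : Valuation E' (WithZero (Multiplicative ℤ))),
      E' = E ⊔ IntermediateField.adjoin K (S : Set Ω) ∧
      n' ≤ n + S.card ∧ Inv p k x vK C E' n' g' v' ∧
      (∀ B z, z ∈ Bd k x E v (B * p ^ n) → z ∈ Bd k x E' v' (B * p ^ n')) ∧
      ∀ w ∈ S, w ∈ Bd k x E' v' (2 * c * p ^ n') := by
  classical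
  induction S using Finset.induction_on with
  | empty =>
    exact ⟨E, n, g, v, by simp, by simp, I, fun B z hz => hz, by simp⟩
  | insert a S ha ih =>
    obtain ⟨E', n', g', v', h1, h2, h3, h4, h5⟩ := ih (fun w hw => hS w (Finset.mem_insert_of_mem hw))
    have h6 := h4 _ _ (hS a (Finset.mem_insert_self _ _))
    obtain ⟨E'', n'', g'', v'', h1', h2', h3', h4', h5'⟩ := h3.step (w := a) hc (by
      convert h6 using 2; ring)
    refine ⟨E'', n'', g'', v'', ?_, ?_, h3', fun B z hz => h4' B z (h4 B z hz), ?_⟩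
    · rw [h1', h1, sup_assoc, Finset.coe_insert, Set.insert_eq, adjoin_union, sup_comm
        (IntermediateField.adjoin K (S : Set Ω))]
    · rw [Finset.card_insert_of_notMem ha]; omega
    · intro w hw
      rw [Finset.mem_insert] at hw
      rcases hw with rfl | hw
      · exact h5'
      · exact h4' _ _ (h5 w hw)

end step

end Pool.Agent.Helper32
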