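import Mathlib
import Pool.Agent.Helper32.AS14

/-!
# The finite spaces `Mj`
-/

namespace Pool.Agent.Helper32

open Polynomial WithZero
open scoped Pointwise

set_option linter.unusedSectionVars false

section Mj

variable (p : ℕ) [hp : Fact p.Prime] {Ω : Type*} [Field Ω] [CharP Ω p] [Algebra (ZMod p) Ω]

variable (Ω) in
/-- Artin-Schreier operator -/
noncomputable def wpL : Ω →ₗ[ZMod p] Ω :=
  (((frobenius Ω p : Ω →+* Ω) : Ω →+ Ω) - AddMonoidHom.id Ω).toZModLinearMap p

@[simp] lemma wpL_apply (w : Ω) : wpL p Ω w = w ^ p - w := by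
  simp [wpL, frobenius_def]

variable (Ω) in
/-- the elements with `a ^ (p ^ e) = a` -/
def Vq (e : ℕ) : Submodule (ZMod p) Ω :=
  AddSubgroup.toZModSubmodule p
    { carrier := {a : Ω | a ^ p ^ e = a}
      zero_mem' := by
        simp [hp.out.ne_zero]
      add_mem' := by
        intro a b ha hb
        simp only [Set.mem_ofPred_eq] at *
        rw [add_pow_char_pow, ha, hb]
      neg_mem' := by
        intro a ha
        simp only [Set.mem_ofPred_eq] at *
        have h1 := add_pow_char_pow (R := Ω) p (n := e) (x := -a) (y := a)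
        rw [neg_add_cancel, zero_pow (pow_ne_zero _ hp.out.ne_zero), ha] at h1
        exact (neg_eq_of_add_eq_zero_left h1.symm).symm }

@[simp] lemma mem_Vq {e : ℕ} {a : Ω} : a ∈ Vq p Ω e ↔ a ^ p ^ e = a := Iff.rfl

/-- the chain of finite spaces -/
noncomputable def Mj (x : Ω) (e : ℕ) : ℕ → Submodule (ZMod p) Ω
  | 0 => Vq p Ω e ⊔ Submodule.span (ZMod p) {x}
  | j + 1 => ((Mj x e j) ^ (2 * p)).comap (wpL p Ω)

variable {p} {x : Ω} {e : ℕ}

lemma mem_Mj_succ {j : ℕ} {w : Ω} : w ∈ Mj p x e (j + 1) ↔ w ^ p - w ∈ (Mj p x e j) ^ (2 * p) := by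
  rw [Mj, Submodule.mem_comap, wpL_apply]

lemma one_mem_Mj (j : ℕ) : (1 : Ω) ∈ Mj p x e j := by
  cases j with
  | zero => exact Submodule.mem_sup_left (by simp)
  | succ j =>
    rw [mem_Mj_succ]; simp

lemma Vq_le_Mj_zero : Vq p Ω e ≤ Mj p x e 0 := le_sup_left

lemma x_mem_Mj_zero : x ∈ Mj p x e 0 :=
  Submodule.mem_sup_right (Submodule.mem_span_singleton_self x)

lemma pow_le_pow_of_one_mem {M : Submodule (ZMod p) Ω} (h1 : (1 : Ω) ∈ M) {a b : ℕ} (hab : a ≤ b) :
    M ^ a ≤ M ^ b := by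
  obtain ⟨c, rfl⟩ := Nat.exists_eq_add_of_le hab
  rw [pow_add]
  intro z hz
  have := Submodule.mul_mem_mul hz (Submodule.pow_mem_pow M h1 c)
  simpa using this

lemma mem_pow_of_mem {M : Submodule (ZMod p) Ω} (h1 : (1 : Ω) ∈ M) {b : ℕ} (hb : 1 ≤ b) {z : Ω}
    (hz : z ∈ M) : z ∈ M ^ b :=
  pow_le_pow_of_one_mem h1 hb (by simpa using hz)

lemma root_mem_Mj {j : ℕ} {w : Ω} (hw : w ^ p - w ∈ Mj p x e j) : w ∈ Mj p x e (j + 1) := by
  rw [mem_Mj_succ]
  exact mem_pow_of_mem (one_mem_Mj j) (by have := hp.out.pos; omega) hw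

lemma Mj_le_succ (j : ℕ) : Mj p x e j ≤ Mj p x e (j + 1) := by
  intro w hw
  rw [mem_Mj_succ]
  refine Submodule.sub_mem _ ?_ ?_
  · exact pow_le_pow_of_one_mem (one_mem_Mj j) (by omega) (Submodule.pow_mem_pow _ hw p)
  · exact mem_pow_of_mem (one_mem_Mj j) (by have := hp.out.pos; omega) hw

lemma Mj_mono {j j' : ℕ} (h : j ≤ j') : Mj p x e j ≤ Mj p x e j' :=
  monotone_nat_of_le_succ (fun j => Mj_le_succ (p := p) (x := x) (e := e) j) h

lemma mul_mem_Mj {j : ℕ} {y z : Ω} (hy : y ∈ Mj p x e j) (hz : z ∈ Mj p x e j) :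
    y * z ∈ Mj p x e (j + 1) := by
  rw [mem_Mj_succ]
  refine Submodule.sub_mem _ ?_ ?_
  · rw [mul_pow, two_mul, pow_add]
    exact Submodule.mul_mem_mul (Submodule.pow_mem_pow _ hy p) (Submodule.pow_mem_pow _ hz p)
  · have h1 : y * z ∈ Mj p x e j ^ 2 := by
      rw [pow_two]; exact Submodule.mul_mem_mul hy hz
    exact pow_le_pow_of_one_mem (one_mem_Mj j) (by have := hp.out.pos; omega) h1

lemma Vq_mono {e e' : ℕ} (h : e ∣ e') : Vq p Ω e ≤ Vq p Ω e' := by
  obtain ⟨m, rfl⟩ := h
  intro a ha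
  rw [mem_Vq] at *
  induction m with
  | zero => simp
  | succ m ih => rw [mul_add, pow_add, pow_mul, ih, mul_one, ha]

lemma Mj_mono_e {e e' : ℕ} (h : e ∣ e') (j : ℕ) : Mj p x e j ≤ Mj p x e' j := by
  induction j with
  | zero => exact sup_le_sup (Vq_mono h) le_rfl
  | succ j ih =>
    intro w hw
    rw [mem_Mj_succ] at *
    exact (pow_le_pow_left' ih (2 * p)) hw

/-- bound on the number of generators -/
def Nj (p e : ℕ) : ℕ → ℕ
  | 0 => e + 1
  | j + 1 => (Nj p e j) ^ (2 * p) + 1

lemma finite_Vq (e : ℕ) (he : 0 < e) : Finite (Vq p Ω e) ∧ Nat.card (Vq p Ω e) ≤ p ^ e := by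
  classical
  have h1 : 1 < p ^ e := Nat.one_lt_pow he.ne' hp.out.one_lt
  have h0 : (X ^ p ^ e - X : Polynomial Ω) ≠ 0 := FiniteField.X_pow_card_sub_X_ne_zero Ω h1
  let f : Vq p Ω e → (X ^ p ^ e - X : Polynomial Ω).roots.toFinset := fun a =>
    ⟨a, by
      rw [Multiset.mem_toFinset, mem_roots h0]
      have := a.2
      rw [mem_Vq] at this
      simp [this]⟩
  have hf : Function.Injective f := by
    intro a b h
    apply Subtype.ext
    exact congrArg (fun y : (X ^ p ^ e - X : Polynomial Ω).roots.toFinset => (y : Ω)) h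
  have hfin : Finite (Vq p Ω e) := Finite.of_injective f hf
  refine ⟨hfin, ?_⟩
  refine (Nat.card_le_card_of_injective f hf).trans ?_
  rw [Nat.card_eq_fintype_card, Fintype.card_coe]
  refine (Multiset.toFinset_card_le _).trans ?_
  refine (card_roots' _).trans ?_
  rw [FiniteField.X_pow_card_sub_X_natDegree_eq Ω h1]

lemma exists_gen_Vq (e : ℕ) (he : 0 < e) :
    ∃ S : Finset Ω, Vq p Ω e = Submodule.span (ZMod p) (S : Set Ω) ∧ S.card ≤ e := by
  classical
  obtain ⟨hfin, hcard⟩ := finite_Vq (p := p) (Ω := Ω) e he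
  have hfd : Module.Finite (ZMod p) (Vq p Ω e) := Module.Finite.of_finite
  have h1 : Nat.card (Vq p Ω e) = p ^ Module.finrank (ZMod p) (Vq p Ω e) := by
    rw [Module.natCard_eq_pow_finrank (K := ZMod p), Nat.card_zmod]
  have h2 : Module.finrank (ZMod p) (Vq p Ω e) ≤ e := by
    rw [h1] at hcard
    exact (Nat.pow_le_pow_iff_right hp.out.one_lt).mp hcard
  let b := Module.finBasis (ZMod p) (Vq p Ω e)
  refine ⟨Finset.univ.image (fun i => (b i : Ω)), ?_, ?_⟩
  · have h3 := congrArg (Submodule.map (Vq p Ω e).subtype) b.span_eq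
    rw [Submodule.map_top, Submodule.range_subtype, Submodule.map_span] at h3
    refine h3.symm.trans ?_
    congr 1
    ext z
    simp
  · refine (Finset.card_image_le).trans ?_
    simpa using h2

lemma exists_gen_Mj [IsAlgClosed Ω] (he : 0 < e) (j : ℕ) :
    ∃ S : Finset Ω, Mj p x e j = Submodule.span (ZMod p) (S : Set Ω) ∧ S.card ≤ Nj p e j := by
  classical
  induction j with
  | zero =>
    obtain ⟨S, hS, hc⟩ := exists_gen_Vq (p := p) (Ω := Ω) e he
    refine ⟨insert x S, ?_, ?_⟩
    · rw [Mj, hS, Finset.coe_insert, Set.insert_eq, Submodule.span_union, sup_comm]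
    · refine (Finset.card_insert_le _ _).trans ?_
      rw [Nj]; omega
  | succ j ih =>
    obtain ⟨S, hS, hc⟩ := ih
    -- choose roots
    have hroot : ∀ z : Ω, ∃ w : Ω, w ^ p - w = z := fun z => exists_wp_eq z
    choose r hr using hroot
    refine ⟨insert 1 ((S ^ (2 * p)).image r), ?_, ?_⟩
    · apply le_antisymm
      · intro w hw
        rw [mem_Mj_succ, hS, Submodule.span_pow] at hw
        -- lift the span of `S ^ (2p)` to the span of roots
        have key : ∀ z ∈ Submodule.span (ZMod p) ((S : Set Ω) ^ (2 * p)),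
            ∃ y ∈ Submodule.span (ZMod p) (r '' ((S : Set Ω) ^ (2 * p))), y ^ p - y = z := by
          intro z hz
          have h1 : Submodule.map (wpL p Ω) (Submodule.span (ZMod p) (r '' ((S : Set Ω) ^ (2 * p))))
              = Submodule.span (ZMod p) ((S : Set Ω) ^ (2 * p)) := by
            rw [Submodule.map_span, ← Set.image_comp]
            congr 1
            convert Set.image_id _ using 2
            funext z
            simp [hr]
          rw [← h1] at hz
          obtain ⟨y, hy, hyz⟩ := hz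
          exact ⟨y, hy, by rw [← hyz, wpL_apply]⟩
        obtain ⟨y, hy, hyz⟩ := key _ hw
        have h2 : (w - y) ^ p - (w - y) = 0 := by
          rw [wp_sub, hyz, sub_self]
        obtain ⟨i, hi⟩ := exists_zmod_of_pow_eq (p := p) (sub_eq_zero.mp h2)
        have h3 : w = i • (1 : Ω) + y := by
          rw [Algebra.smul_def, mul_one]
          have : algebraMap (ZMod p) Ω i = ZMod.castHom (dvd_refl p) Ω i := by
            congr 1
            exact Subsingleton.elim _ _
          rw [this, ← hi]; ring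
        rw [h3, Finset.coe_insert, Set.insert_eq, Submodule.span_union]
        refine Submodule.add_mem _ (Submodule.mem_sup_left ?_) (Submodule.mem_sup_right ?_)
        · exact Submodule.smul_mem _ _ (Submodule.mem_span_singleton_self _)
        · rw [Finset.coe_image, Finset.coe_pow]
          exact hy
      · rw [Submodule.span_le]
        intro w hw
        rw [Finset.coe_insert, Set.mem_insert_iff, Finset.coe_image, Finset.coe_pow] at hw
        rcases hw with rfl | ⟨z, hz, rfl⟩
        · exact one_mem_Mj _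
        · rw [SetLike.mem_coe, mem_Mj_succ, hr, hS, Submodule.span_pow]
          exact Submodule.subset_span hz
    · refine (Finset.card_insert_le _ _).trans ?_
      rw [Nj]
      have h1 : ((S ^ (2 * p)).image r).card ≤ S.card ^ (2 * p) :=
        Finset.card_image_le.trans Finset.card_pow_le
      have h2 : S.card ^ (2 * p) ≤ Nj p e j ^ (2 * p) := Nat.pow_le_pow_left hc _
      omega

lemma ringHom_mem_Mj (σ : Ω →+* Ω) (hV : ∀ a ∈ Vq p Ω e, σ a = a) (hx : σ x - x ∈ Vq p Ω e)
    (j : ℕ) : ∀ z ∈ Mj p x e j, σ z ∈ Mj p x e j := by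
  have hlin : ∀ (M N : Submodule (ZMod p) Ω), (∀ z ∈ M, σ z ∈ N) ↔
      M ≤ N.comap ((σ : Ω →+ Ω).toZModLinearMap p) := fun M N => Iff.rfl
  induction j with
  | zero =>
    rw [hlin, Mj, sup_le_iff]
    constructor
    · intro a ha
      change σ a ∈ Vq p Ω e ⊔ Submodule.span (ZMod p) {x}
      rw [hV a ha]
      exact Submodule.mem_sup_left ha
    · rw [Submodule.span_le, Set.singleton_subset_iff]
      change σ x ∈ Vq p Ω e ⊔ Submodule.span (ZMod p) {x}
      have : σ x = (σ x - x) + x := by ring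
      rw [this]
      exact Submodule.add_mem _ (Submodule.mem_sup_left hx)
        (Submodule.mem_sup_right (Submodule.mem_span_singleton_self x))
  | succ j ih =>
    have hpow : ∀ m : ℕ, ∀ z ∈ (Mj p x e j) ^ m, σ z ∈ (Mj p x e j) ^ m := by
      intro m
      induction m with
      | zero =>
        intro z hz
        rw [pow_zero, Submodule.mem_one] at *
        obtain ⟨c, rfl⟩ := hz
        refine ⟨c, ?_⟩
        rw [← ZMod.natCast_zmod_val c, map_natCast, map_natCast]
      | succ m ihm =>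
        intro z hz
        rw [pow_succ] at *
        induction hz using Submodule.mul_induction_on' with
        | mem_mul_mem a ha b hb =>
          rw [map_mul]
          exact Submodule.mul_mem_mul (ihm a ha) (ih b hb)
        | add a _ b _ ha hb =>
          rw [map_add]
          exact Submodule.add_mem _ ha hb
    intro z hz
    rw [mem_Mj_succ] at *
    rw [← map_pow, ← map_sub]
    exact hpow _ _ hz

variable (p x) in
/-- the good elements -/
def Good : Subring Ω where
  carrier := {z | ∃ e j : ℕ, 0 < e ∧ z ∈ Mj p x e j}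
  zero_mem' := ⟨1, 0, one_pos, zero_mem _⟩
  one_mem' := ⟨1, 0, one_pos, one_mem_Mj _⟩
  add_mem' := by
    rintro a b ⟨e, j, he, ha⟩ ⟨e', j', he', hb⟩
    exact ⟨e * e', max j j', Nat.mul_pos he he',
      Submodule.add_mem _ (Mj_mono (le_max_left _ _) (Mj_mono_e (dvd_mul_right _ _) _ ha))
        (Mj_mono (le_max_right _ _) (Mj_mono_e (dvd_mul_left _ _) _ hb))⟩
  neg_mem' := by
    rintro a ⟨e, j, he, ha⟩
    exact ⟨e, j, he, Submodule.neg_mem _ ha⟩
  mul_mem' := by
    rintro a b ⟨e, j, he, ha⟩ ⟨e', j', he', hb⟩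
    exact ⟨e * e', max j j' + 1, Nat.mul_pos he he',
      mul_mem_Mj (Mj_mono (le_max_left _ _) (Mj_mono_e (dvd_mul_right _ _) _ ha))
        (Mj_mono (le_max_right _ _) (Mj_mono_e (dvd_mul_left _ _) _ hb))⟩

lemma mem_Good {z : Ω} : z ∈ Good p x ↔ ∃ e j : ℕ, 0 < e ∧ z ∈ Mj p x e j := Iff.rfl

lemma Good_root {w : Ω} (hw : w ^ p - w ∈ Good p x) : w ∈ Good p x := by
  obtain ⟨e, j, he, h⟩ := hw
  exact ⟨e, j + 1, he, root_mem_Mj h⟩

lemma Good_x : x ∈ Good p x := ⟨1, 0, one_pos, x_mem_Mj_zero⟩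

lemma Good_Vq {e : ℕ} (he : 0 < e) {a : Ω} (ha : a ∈ Vq p Ω e) : a ∈ Good p x :=
  ⟨e, 0, he, Vq_le_Mj_zero ha⟩

/-- finitely many good elements are in a common space -/
lemma Good_finset (T : Finset Ω) (hT : ∀ z ∈ T, z ∈ Good p x) :
    ∃ e j : ℕ, 0 < e ∧ ∀ z ∈ T, z ∈ Mj p x e j := by
  classical
  induction T using Finset.induction_on with
  | empty => exact ⟨1, 0, one_pos, by simp⟩
  | insert a T _ ih =>
    obtain ⟨e, j, he, h⟩ := ih (fun z hz => hT z (Finset.mem_insert_of_mem hz))
    obtain ⟨e', j', he', h'⟩ := hT a (Finset.mem_insert_self _ _)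
    refine ⟨e * e', max j j', Nat.mul_pos he he', ?_⟩
    intro z hz
    rw [Finset.mem_insert] at hz
    rcases hz with rfl | hz
    · exact Mj_mono (le_max_right _ _) (Mj_mono_e (dvd_mul_left _ _) _ h')
    · exact Mj_mono (le_max_left _ _) (Mj_mono_e (dvd_mul_right _ _) _ (h z hz))

end Mj

end Pool.Agent.Helper32
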