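import Mathlib
import Pool.Agent.Helper32.AS15

/-!
# The tower of the fields `K(Mj)`
-/

namespace Pool.Agent.Helper32

open Polynomial WithZero IntermediateField

set_option linter.unusedSectionVars false

section tower

variable {p : ℕ} [hp : Fact p.Prime] {k K Ω : Type*} [Field k] [IsAlgClosed k] [Field K]
  [Field Ω] [Algebra k K] [Algebra K Ω] [Algebra k Ω] [IsScalarTower k K Ω]
  [CharP k p] [CharP K p] [CharP Ω p] [Algebra (ZMod p) Ω]
  {x : K} {vK : Valuation K (WithZero (Multiplicative ℤ))}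

lemma Tow.base (h : IsLevel p k x 0 0 vK) : Tow p k K (E := K) x vK 0 0 vK where
  lev := h
  fr := by simp
  fin := inferInstance
  sep := inferInstance
  nv := by intro u; rw [Algebra.norm_self]; rfl
  nu := by intro u hu; rw [Algebra.norm_self]; simpa using hu

lemma exists_const_of_pow_eq {e : ℕ} (he : 0 < e) {a : Ω} (ha : a ^ p ^ e = a) :
    ∃ c : k, a = algebraMap k Ω c ∧ c ^ p ^ e = c := by
  have h1 : 1 < p ^ e := Nat.one_lt_pow he.ne' hp.out.one_lt
  have h0 : (X ^ p ^ e - X : Polynomial k) ≠ 0 := FiniteField.X_pow_card_sub_X_ne_zero k h1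
  have hs : (X ^ p ^ e - X : Polynomial k).Splits := IsAlgClosed.splits _
  have hs2 := hs.roots_map (algebraMap k Ω)
  have hm : a ∈ ((X ^ p ^ e - X : Polynomial k).map (algebraMap k Ω)).roots := by
    rw [mem_roots (Polynomial.map_ne_zero h0)]
    simp [ha]
  rw [hs2, Multiset.mem_map] at hm
  obtain ⟨c, hc, rfl⟩ := hm
  refine ⟨c, rfl, ?_⟩
  rw [mem_roots h0] at hc
  simpa [sub_eq_zero] using hc

lemma tower_base (h : IsLevel p k x 0 0 vK) (C : ℕ) {e : ℕ} (he : 0 < e) :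
    ∃ v : Valuation (⊥ : IntermediateField K Ω) (WithZero (Multiplicative ℤ)),
      Inv p k x vK C (⊥ : IntermediateField K Ω) 0 0 v ∧
      ∀ z ∈ Mj p (algebraMap K Ω x) e 0, z ∈ Bd k x (⊥ : IntermediateField K Ω) v 1 := by
  have T := (Tow.base h).transport (botEquiv K Ω).symm
  refine ⟨_, ⟨T, by simp⟩, ?_⟩
  intro z hz
  have hle : Mj p (algebraMap K Ω x) e 0 ≤ Submodule.span (ZMod p)
      ((Vq p Ω e : Set Ω) ∪ {algebraMap K Ω x}) := by
    rw [Mj, Submodule.span_union, Submodule.span_eq]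
  refine span_le_addSubgroup _ ?_ (hle hz)
  intro y hy
  rcases hy with hy | hy
  · obtain ⟨c, rfl, -⟩ := exists_const_of_pow_eq (k := k) he hy
    rw [SetLike.mem_coe, mem_Bd]
    refine ⟨?_, ?_, ?_⟩
    · rw [IsScalarTower.algebraMap_apply k K Ω]
      exact IntermediateField.algebraMap_mem _ _
    · exact (Rint k _).algebraMap_mem c
    · refine (T.lev.v_const_le c).trans ?_
      rw [← exp_zero, exp_le_exp]; simp
  · rw [Set.mem_singleton_iff] at hy
    subst hy
    rw [SetLike.mem_coe, mem_Bd]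
    refine ⟨IntermediateField.algebraMap_mem _ _, self_mem_Rint _, ?_⟩
    have h1 := T.lev.v_x
    refine le_of_eq ?_
    rw [pow_zero] at h1
    exact_mod_cast h1

lemma tower [IsAlgClosed Ω] (h : IsLevel p k x 0 0 vK) (J : ℕ) {e : ℕ} (he : 0 < e) (j : ℕ)
    (hj : j ≤ J) :
    ∃ (E : IntermediateField K Ω) (n g : ℕ) (v : Valuation E (WithZero (Multiplicative ℤ))),
      E = IntermediateField.adjoin K (Mj p (algebraMap K Ω x) e j : Set Ω) ∧
      n ≤ ∑ i ∈ Finset.range j, Nj p e (i + 1) ∧ Inv p k x vK (2 ^ J) E n g v ∧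
      ∀ z ∈ Mj p (algebraMap K Ω x) e j, z ∈ Bd k x E v (2 ^ j * p ^ n) := by
  induction j with
  | zero =>
    obtain ⟨v, hv, hz⟩ := tower_base (Ω := Ω) h (2 ^ J) he
    refine ⟨⊥, 0, 0, v, ?_, by simp, hv, ?_⟩
    · symm
      rw [eq_bot_iff, adjoin_le_iff]
      intro z hz'
      obtain ⟨h1, -⟩ := hz z hz'
      exact h1
    · simpa using hz
  | succ j ih =>
    obtain ⟨E, n, g, v, hE, hn, I, hB⟩ := ih (Nat.le_of_succ_le hj)
    obtain ⟨S, hS, hcard⟩ := exists_gen_Mj (p := p) (x := algebraMap K Ω x) he (j + 1)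
    have hSB : ∀ w ∈ S, w ^ p - w ∈ Bd k x E v (2 * p * 2 ^ j * p ^ n) := by
      intro w hw
      have h1 : w ∈ Mj p (algebraMap K Ω x) e (j + 1) := by
        rw [hS]; exact Submodule.subset_span hw
      rw [mem_Mj_succ] at h1
      have := pow_le_Bd _ hB _ _ h1
      rwa [← mul_assoc] at this
    have hc : 2 ^ j ≤ 2 ^ J := Nat.pow_le_pow_right (by norm_num) (Nat.le_of_succ_le hj)
    obtain ⟨E', n', g', v', h1, h2, h3, h4, h5⟩ := I.list hc S hSB
    refine ⟨E', n', g', v', ?_, ?_, h3, ?_⟩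
    · rw [h1, hE, ← adjoin_union]
      apply le_antisymm
      · apply adjoin.mono
        apply Set.union_subset
        · exact fun z hz => Mj_le_succ j hz
        · rw [hS]; exact Submodule.subset_span
      · rw [adjoin_le_iff]
        intro z hz
        have hz' : z ∈ Mj p (algebraMap K Ω x) e (j + 1) := hz
        rw [hS] at hz'
        refine span_le_addSubgroup
          (IntermediateField.adjoin K ((Mj p (algebraMap K Ω x) e j : Set Ω) ∪ S)).toSubfield.toAddSubgroup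
          ?_ hz'
        intro y hy
        exact subset_adjoin K _ (Or.inr hy)
    · rw [Finset.sum_range_succ]; omega
    · intro z hz
      rw [hS] at hz
      refine span_le_addSubgroup _ ?_ hz
      intro w hw
      have := h5 w hw
      rwa [pow_succ, mul_comm (2 ^ j) 2]

end tower

section numeric

variable (p : ℕ) [hp : Fact p.Prime]

lemma Nj_le (j : ℕ) : ∃ D : ℕ, ∀ e : ℕ, Nj p e j ≤ (e + 2) ^ D := by
  induction j with
  | zero => exact ⟨1, fun e => by simp [Nj]⟩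
  | succ j ih =>
    obtain ⟨D, hD⟩ := ih
    refine ⟨D * (2 * p) + 1, fun e => ?_⟩
    rw [Nj]
    have h1 : Nj p e j ^ (2 * p) ≤ (e + 2) ^ (D * (2 * p)) := by
      rw [pow_mul (e + 2) D (2 * p)]; exact Nat.pow_le_pow_left (hD e) _
    have h2 : 1 ≤ (e + 2) ^ (D * (2 * p)) := Nat.one_le_pow _ _ (by omega)
    calc Nj p e j ^ (2 * p) + 1 ≤ (e + 2) ^ (D * (2 * p)) + (e + 2) ^ (D * (2 * p)) := by omega
      _ = (e + 2) ^ (D * (2 * p)) * 2 := by ring
      _ ≤ (e + 2) ^ (D * (2 * p)) * (e + 2) := by gcongr; omega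
      _ = (e + 2) ^ (D * (2 * p) + 1) := by rw [pow_succ]

lemma sum_Nj_le (j : ℕ) : ∃ D : ℕ, ∀ e : ℕ, ∑ i ∈ Finset.range j, Nj p e (i + 1) ≤ (e + 2) ^ D := by
  induction j with
  | zero => exact ⟨0, fun e => by simp⟩
  | succ j ih =>
    obtain ⟨D, hD⟩ := ih
    obtain ⟨D', hD'⟩ := Nj_le p (j + 1)
    refine ⟨D + D' + 1, fun e => ?_⟩
    rw [Finset.sum_range_succ]
    have h1 : (e + 2) ^ D ≤ (e + 2) ^ (D + D') := Nat.pow_le_pow_right (by omega) (by omega)
    have h2 : (e + 2) ^ D' ≤ (e + 2) ^ (D + D') := Nat.pow_le_pow_right (by omega) (by omega)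
    calc _ ≤ (e + 2) ^ (D + D') + (e + 2) ^ (D + D') := by
            have := hD e; have := hD' e; omega
      _ = (e + 2) ^ (D + D') * 2 := by ring
      _ ≤ (e + 2) ^ (D + D') * (e + 2) := by gcongr; omega
      _ = (e + 2) ^ (D + D' + 1) := by rw [pow_succ]

/-- exponentials beat polynomials -/
lemma exists_large (C D e₀ : ℕ) (he₀ : 0 < e₀) :
    ∃ e : ℕ, 0 < e ∧ e₀ ∣ e ∧ C * (e + 2) ^ D < p ^ e := by
  have h1 : (1 : ℝ) < (p : ℝ) := by exact_mod_cast hp.out.one_lt
  have h2 := isLittleO_pow_const_const_pow_of_one_lt (R := ℝ) D h1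
  have h3 : ∀ᶠ m : ℕ in Filter.atTop, ‖((m : ℝ)) ^ D‖ ≤ (1 / ((C + 1) * p ^ 2)) * ‖(p : ℝ) ^ m‖ :=
    h2.bound (by positivity)
  rw [Filter.eventually_atTop] at h3
  obtain ⟨M, hM⟩ := h3
  refine ⟨e₀ * (M + 1), Nat.mul_pos he₀ (Nat.succ_pos _), dvd_mul_right _ _, ?_⟩
  set e := e₀ * (M + 1) with he
  have h4 : M ≤ e + 2 := by nlinarith
  have h5 := hM (e + 2) h4
  rw [Real.norm_of_nonneg (by positivity), Real.norm_of_nonneg (by positivity)] at h5
  have h6 : (1 / (((C : ℝ) + 1) * p ^ 2)) * (p : ℝ) ^ (e + 2) = (p : ℝ) ^ e / (C + 1) := by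
    have : (p : ℝ) ≠ 0 := by positivity
    rw [pow_add]
    field_simp
  rw [h6, le_div_iff₀ (by positivity)] at h5
  have h7 : (0 : ℝ) < (p : ℝ) ^ e := by positivity
  have h8 : ((C * (e + 2) ^ D : ℕ) : ℝ) < ((p ^ e : ℕ) : ℝ) := by
    push_cast
    push_cast at h5
    have h9 : (0 : ℝ) < ((e : ℝ) + 2) ^ D := by positivity
    nlinarith
  exact_mod_cast h8

end numeric

end Pool.Agent.Helper32
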