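import Mathlib
import Pool.Agent.Helper32.AS16

/-!
# Automorphisms
-/

namespace Pool.Agent.Helper32

open Polynomial WithZero IntermediateField

set_option linter.unusedSectionVars false

section grp

variable (p : ℕ) [hp : Fact p.Prime] (k : Type*) {E : Type*} [Field k] [Field E] [Algebra k E]
  [CharP k p]

/-- automorphisms acting on `x` as translation by an element of the field with `p ^ e` elements -/
def transG (x : E) (e : ℕ) : Subgroup (E ≃ₐ[k] E) where
  carrier := {σ | ∃ a : k, a ^ p ^ e = a ∧ σ x = x + algebraMap k E a}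
  mul_mem' := by
    rintro σ τ ⟨a, ha, hσ⟩ ⟨b, hb, hτ⟩
    refine ⟨a + b, ?_, ?_⟩
    · rw [add_pow_char_pow, ha, hb]
    · rw [AlgEquiv.mul_apply, hτ, map_add, hσ, AlgEquiv.commutes, map_add]; ring
  one_mem' := ⟨0, by simp [hp.out.ne_zero], by simp⟩
  inv_mem' := by
    rintro σ ⟨a, ha, hσ⟩
    refine ⟨-a, ?_, ?_⟩
    · have h1 := add_pow_char_pow (R := k) p (n := e) (x := -a) (y := a)
      rw [neg_add_cancel, zero_pow (pow_ne_zero _ hp.out.ne_zero), ha] at h1
      exact (neg_eq_of_add_eq_zero_left h1.symm).symm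
    · apply σ.injective
      rw [← AlgEquiv.mul_apply, mul_inv_cancel, map_add, hσ, AlgEquiv.commutes, map_neg]
      simp

variable {p k}

lemma mem_transG {x : E} {e : ℕ} {σ : E ≃ₐ[k] E} : σ ∈ transG p k x e ↔
    ∃ a : k, a ^ p ^ e = a ∧ σ x = x + algebraMap k E a := Iff.rfl

variable (k) in
/-- automorphisms fixing `x` -/
def fixG (x : E) : Subgroup (E ≃ₐ[k] E) where
  carrier := {σ | σ x = x}
  mul_mem' := by
    intro σ τ hσ hτ
    change σ (τ x) = x
    rw [show τ x = x from hτ, show σ x = x from hσ]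
  one_mem' := rfl
  inv_mem' := by
    intro σ hσ
    apply σ.injective
    rw [← AlgEquiv.mul_apply, mul_inv_cancel, show σ x = x from hσ]; rfl

lemma mem_fixG {x : E} {σ : E ≃ₐ[k] E} : σ ∈ fixG k x ↔ σ x = x := Iff.rfl

lemma fixG_le_transG (x : E) (e : ℕ) : fixG k x ≤ transG p k x e := by
  intro σ hσ
  exact ⟨0, by simp [hp.out.ne_zero], by rw [mem_fixG.mp hσ]; simp⟩

lemma transG_mono (x : E) {e e' : ℕ} (h : e ∣ e') : transG p k x e ≤ transG p k x e' := by
  rintro σ ⟨a, ha, hσ⟩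
  refine ⟨a, ?_, hσ⟩
  obtain ⟨m, rfl⟩ := h
  induction m with
  | zero => simp
  | succ m ih => rw [mul_add, pow_add, pow_mul, ih, mul_one, ha]

lemma commutator_transG_le (x : E) (e : ℕ) : ⁅transG p k x e, transG p k x e⁆ ≤ fixG k x := by
  rw [Subgroup.commutator_le]
  rintro σ ⟨a, ha, hσ⟩ τ ⟨b, hb, hτ⟩
  rw [mem_fixG, commutatorElement_def]
  have hσ' : σ⁻¹ x = x - algebraMap k E a := by
    apply σ.injective
    rw [← AlgEquiv.mul_apply, mul_inv_cancel, map_sub, hσ, AlgEquiv.commutes]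
    simp
  have hτ' : τ⁻¹ x = x - algebraMap k E b := by
    apply τ.injective
    rw [← AlgEquiv.mul_apply, mul_inv_cancel, map_sub, hτ, AlgEquiv.commutes]
    simp
  rw [AlgEquiv.mul_apply, AlgEquiv.mul_apply, AlgEquiv.mul_apply, hτ', map_sub, hσ',
    AlgEquiv.commutes]
  simp only [map_sub, hτ, AlgEquiv.commutes, map_add, hσ]
  ring

end grp

section field

variable {p : ℕ} [hp : Fact p.Prime] {k K Ω : Type*} [Field k] [IsAlgClosed k] [Field K]
  [Field Ω] [Algebra k K] [Algebra K Ω] [Algebra k Ω] [IsScalarTower k K Ω]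
  [CharP k p] [CharP K p] [CharP Ω p] [Algebra (ZMod p) Ω]
  {x : K}

lemma algEquiv_Vq {e : ℕ} (he : 0 < e) (σ : Ω ≃ₐ[k] Ω) {a : Ω} (ha : a ∈ Vq p Ω e) : σ a = a := by
  obtain ⟨c, rfl, -⟩ := exists_const_of_pow_eq (k := k) he ha
  exact σ.commutes c

lemma transG_mem_Mj {e : ℕ} (he : 0 < e) {X : Ω} {σ : Ω ≃ₐ[k] Ω} (hσ : σ ∈ transG p k X e) (j : ℕ)
    {z : Ω} (hz : z ∈ Mj p X e j) : σ z ∈ Mj p X e j := by
  refine ringHom_mem_Mj (σ : Ω →+* Ω) (fun a ha => algEquiv_Vq he σ ha) ?_ j z hz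
  obtain ⟨a, ha, h⟩ := hσ
  change σ X - X ∈ _
  rw [h, add_sub_cancel_left, mem_Vq, ← map_pow, ha]

/-- `K` is generated by `x`, in the form that we use -/
def Gen (k : Type*) {K : Type*} (Ω : Type*) [Field k] [Field K] [Field Ω] [Algebra k K]
    [Algebra k Ω] (x : K) : Prop :=
  ∀ f g : K →ₐ[k] Ω, f x = g x → f = g

/-- translations are automorphisms -/
def Trans (k : Type*) {K : Type*} [Field k] [Field K] [Algebra k K] (x : K) : Prop :=
  ∀ a : k, ∃ τ : K ≃ₐ[k] K, τ x = x + algebraMap k K a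

lemma transG_algebraMap (hgen : Gen k Ω x) (htr : Trans k x) {e : ℕ} {σ : Ω ≃ₐ[k] Ω}
    (hσ : σ ∈ transG p k (algebraMap K Ω x) e) (y : K) : ∃ y' : K, σ (algebraMap K Ω y) =
    algebraMap K Ω y' := by
  obtain ⟨a, ha, h⟩ := hσ
  obtain ⟨τ, hτ⟩ := htr a
  have h1 : (σ : Ω →ₐ[k] Ω).comp (IsScalarTower.toAlgHom k K Ω) =
      (IsScalarTower.toAlgHom k K Ω).comp (τ : K →ₐ[k] K) := by
    apply hgen
    simp [h, hτ, ← IsScalarTower.algebraMap_apply]
  refine ⟨τ y, ?_⟩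
  have := DFunLike.congr_fun h1 y
  simpa using this

variable (p K) in
/-- the field generated by `Mj` -/
def Fj (X : Ω) (e j : ℕ) : IntermediateField K Ω := IntermediateField.adjoin K (Mj p X e j : Set Ω)

lemma transG_mem_Fj (hgen : Gen k Ω x) (htr : Trans k x) {e : ℕ} (he : 0 < e) {σ : Ω ≃ₐ[k] Ω}
    (hσ : σ ∈ transG p k (algebraMap K Ω x) e) (j : ℕ) {z : Ω}
    (hz : z ∈ Fj p K (algebraMap K Ω x) e j) : σ z ∈ Fj p K (algebraMap K Ω x) e j := by
  unfold Fj at *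
  induction hz using adjoin_induction with
  | mem z hz => exact subset_adjoin K _ (transG_mem_Mj he hσ j hz)
  | algebraMap y =>
    obtain ⟨y', hy'⟩ := transG_algebraMap hgen htr hσ y
    rw [hy']
    exact IntermediateField.algebraMap_mem _ _
  | add y z _ _ hy hz => rw [map_add]; exact add_mem hy hz
  | inv y _ hy => rw [map_inv₀]; exact inv_mem hy
  | mul y z _ _ hy hz => rw [map_mul]; exact mul_mem hy hz

/-- restriction -/
lemma exists_restrict (hgen : Gen k Ω x) (htr : Trans k x) {e : ℕ} (he : 0 < e) {σ : Ω ≃ₐ[k] Ω}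
    (hσ : σ ∈ transG p k (algebraMap K Ω x) e) (j : ℕ) :
    ∃ τ : ↥(Fj p K (algebraMap K Ω x) e j) ≃ₐ[k] ↥(Fj p K (algebraMap K Ω x) e j),
      ∀ z, (τ z : Ω) = σ z := by
  have hσ' := (transG p k (algebraMap K Ω x) e).inv_mem hσ
  refine ⟨{ toFun := fun z => ⟨σ z, transG_mem_Fj hgen htr he hσ j z.2⟩
            invFun := fun z => ⟨σ⁻¹ z, transG_mem_Fj hgen htr he hσ' j z.2⟩
            left_inv := fun z => Subtype.ext (by simp [AlgEquiv.aut_inv])
            right_inv := fun z => Subtype.ext (by simp [AlgEquiv.aut_inv])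
            map_mul' := fun a b => Subtype.ext (by simp)
            map_add' := fun a b => Subtype.ext (by simp)
            commutes' := fun c => Subtype.ext (σ.commutes c) }, fun z => rfl⟩

/-- extension -/
lemma exists_extend [IsAlgClosure K Ω] (F : IntermediateField K Ω) (τ : F ≃ₐ[k] F) :
    ∃ σ : Ω ≃ₐ[k] Ω, ∀ z : F, (τ z : Ω) = σ z := by
  have h1 : Algebra.IsAlgebraic K Ω := IsAlgClosure.isAlgebraic
  have h2 : Algebra.IsAlgebraic F Ω := Algebra.IsAlgebraic.tower_top (K := K) F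
  have h3 : IsAlgClosed Ω := IsAlgClosure.isAlgClosed K
  have h4 : IsAlgClosure F Ω := ⟨h3, h2⟩
  let σ := IsAlgClosure.equivOfEquiv Ω Ω (τ : F ≃+* F)
  have hσ : ∀ z : F, σ z = τ z := fun z => IsAlgClosure.equivOfEquiv_algebraMap Ω Ω (τ : F ≃+* F) z
  refine ⟨AlgEquiv.ofRingEquiv (f := σ) ?_, fun z => (hσ z).symm⟩
  intro c
  have := hσ (algebraMap k F c)
  rw [AlgEquiv.commutes] at this
  exact this

/-- translations lift -/
lemma exists_lift_trans [IsAlgClosure K Ω] (htr : Trans k x) {e : ℕ} {a : k} (ha : a ^ p ^ e = a) :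
    ∃ σ : Ω ≃ₐ[k] Ω, σ ∈ transG p k (algebraMap K Ω x) e ∧
      σ (algebraMap K Ω x) = algebraMap K Ω x + algebraMap k Ω a := by
  obtain ⟨τ, hτ⟩ := htr a
  let σ := IsAlgClosure.equivOfEquiv Ω Ω (τ : K ≃+* K)
  have hσ : ∀ z : K, σ (algebraMap K Ω z) = algebraMap K Ω (τ z) :=
    fun z => IsAlgClosure.equivOfEquiv_algebraMap Ω Ω (τ : K ≃+* K) z
  have h1 : σ (algebraMap K Ω x) = algebraMap K Ω x + algebraMap k Ω a := by
    rw [hσ, hτ, map_add, ← IsScalarTower.algebraMap_apply]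
  refine ⟨AlgEquiv.ofRingEquiv (f := σ) ?_, ⟨a, ha, h1⟩, h1⟩
  intro c
  have := hσ (algebraMap k K c)
  rw [AlgEquiv.commutes, ← IsScalarTower.algebraMap_apply] at this
  exact this

end field

end Pool.Agent.Helper32
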