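import Mathlib
import Pool.Agent.Helper32.AS17

/-!
# The order of the group
-/

namespace Pool.Agent.Helper32

open Polynomial WithZero IntermediateField

set_option linter.unusedSectionVars false

section field

variable {p : ℕ} [hp : Fact p.Prime] {k K Ω : Type*} [Field k] [IsAlgClosed k] [Field K]
  [Field Ω] [Algebra k K] [Algebra K Ω] [Algebra k Ω] [IsScalarTower k K Ω]
  [CharP k p] [CharP K p] [CharP Ω p] [Algebra (ZMod p) Ω]
  {x : K}

lemma Fj_normal [IsAlgClosure K Ω] (hgen : Gen k Ω x) (htr : Trans k x) {e : ℕ} (he : 0 < e)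
    (j : ℕ) : Normal K ↥(Fj p K (algebraMap K Ω x) e j) := by
  have h3 : IsAlgClosed Ω := IsAlgClosure.isAlgClosed K
  have h1 : Algebra.IsAlgebraic K Ω := IsAlgClosure.isAlgebraic
  have h4 : Normal K Ω := IsAlgClosure.normal K Ω
  rw [normal_iff_forall_map_le' (L := Ω)]
  rintro σ _ ⟨z, hz, rfl⟩
  have h5 : (σ.restrictScalars k) ∈ transG p k (algebraMap K Ω x) e :=
    fixG_le_transG _ _ (σ.commutes x)
  exact transG_mem_Fj hgen htr he h5 j hz

/-- `K`-linear automorphisms are the automorphisms fixing `x` -/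
lemma exists_linear (hgen : Gen k Ω x) (F : IntermediateField K Ω) (σ : F ≃ₐ[k] F)
    (hσ : σ (algebraMap K F x) = algebraMap K F x) : ∃ τ : F ≃ₐ[K] F, τ.restrictScalars k = σ := by
  have h1 : ∀ y : K, σ (algebraMap K F y) = algebraMap K F y := by
    intro y
    have hs : IsScalarTower k F Ω := isScalarTower_kE F
    have h2 : ((IsScalarTower.toAlgHom k F Ω).comp (σ : F →ₐ[k] F)).comp
        (IsScalarTower.toAlgHom k K F) = (IsScalarTower.toAlgHom k F Ω).comp
        (IsScalarTower.toAlgHom k K F) := by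
      apply hgen
      simp [hσ]
    apply Subtype.ext
    exact DFunLike.congr_fun h2 y
  exact ⟨AlgEquiv.ofRingEquiv (f := (σ : F ≃+* F)) h1, by ext; rfl⟩

lemma card_fixG (hgen : Gen k Ω x) (F : IntermediateField K Ω) [FiniteDimensional K F]
    [IsGalois K F] : Nat.card (fixG k (algebraMap K F x)) = Module.finrank K F := by
  rw [← IsGalois.card_aut_eq_finrank]
  symm
  apply Nat.card_congr
  refine Equiv.ofBijective (fun τ => ⟨τ.restrictScalars k, τ.commutes x⟩) ⟨?_, ?_⟩
  · intro τ τ' h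
    have h1 := congrArg Subtype.val h
    ext z
    have := DFunLike.congr_fun h1 z
    exact congrArg Subtype.val this
  · rintro ⟨σ, hσ⟩
    obtain ⟨τ, hτ⟩ := exists_linear hgen F σ hσ
    exact ⟨τ, Subtype.ext hτ⟩

lemma card_roots_k {e : ℕ} (he : 0 < e) : Nat.card {a : k // a ^ p ^ e = a} = p ^ e := by
  classical
  have h1 : 1 < p ^ e := Nat.one_lt_pow he.ne' hp.out.one_lt
  have h0 : (X ^ p ^ e - X : Polynomial k) ≠ 0 := FiniteField.X_pow_card_sub_X_ne_zero k h1
  have h2 : (X ^ p ^ e - X : Polynomial k).Separable :=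
    galois_poly_separable p (p ^ e) (dvd_pow_self p he.ne')
  have h3 := card_rootSet_eq_natDegree (K := k) h2 (IsAlgClosed.splits _)
  rw [FiniteField.X_pow_card_sub_X_natDegree_eq k h1, ← Nat.card_eq_fintype_card] at h3
  refine Eq.trans ?_ h3
  apply Nat.card_congr
  refine Equiv.subtypeEquivRight fun a => ?_
  rw [mem_rootSet]
  simp [h0, sub_eq_zero]

/-- the homomorphism `σ ↦ σ x - x` -/
lemma exists_transHom {E : Type*} [Field E] [Algebra k E] (x : E) (e : ℕ) :
    ∃ φ : transG p k x e →* Multiplicative k, ∀ σ : transG p k x e,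
      (Multiplicative.toAdd (φ σ)) ^ p ^ e = Multiplicative.toAdd (φ σ) ∧
      (σ : E ≃ₐ[k] E) x = x + algebraMap k E (Multiplicative.toAdd (φ σ)) := by
  choose f hf1 hf2 using fun σ : transG p k x e => σ.2
  refine ⟨{ toFun := fun σ => Multiplicative.ofAdd (f σ), map_one' := ?_, map_mul' := ?_ }, ?_⟩
  · have h1 := hf2 1
    have h2 : f 1 = 0 := by
      apply (algebraMap k E).injective
      rw [map_zero]
      simpa using h1
    rw [h2]; rfl
  · intro σ τ
    have h1 := hf2 (σ * τ)
    have h2 : f (σ * τ) = f σ + f τ := by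
      apply (algebraMap k E).injective
      rw [Subgroup.coe_mul, AlgEquiv.mul_apply, hf2, map_add, hf2, AlgEquiv.commutes] at h1
      rw [map_add]
      linear_combination -h1
    rw [h2]; rfl
  · intro σ
    exact ⟨hf1 σ, hf2 σ⟩

lemma card_transG [IsAlgClosure K Ω] (hgen : Gen k Ω x) (htr : Trans k x) {e : ℕ} (he : 0 < e)
    (j : ℕ) [FiniteDimensional K ↥(Fj p K (algebraMap K Ω x) e j)]
    [Algebra.IsSeparable K ↥(Fj p K (algebraMap K Ω x) e j)] :
    Nat.card (transG p k (algebraMap K ↥(Fj p K (algebraMap K Ω x) e j) x) e) =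
      p ^ e * Module.finrank K ↥(Fj p K (algebraMap K Ω x) e j) := by
  set F := Fj p K (algebraMap K Ω x) e j with hF
  have hn : Normal K F := Fj_normal hgen htr he j
  have hg : IsGalois K F := ⟨⟩
  obtain ⟨φ, hφ⟩ := exists_transHom (p := p) (k := k) (algebraMap K F x) e
  rw [← Subgroup.card_mul_index φ.ker, Subgroup.index_ker, mul_comm]
  congr 1
  · rw [← card_roots_k (k := k) (p := p) he]
    apply Nat.card_congr
    refine Equiv.ofBijective (fun a => ⟨Multiplicative.toAdd a.1, ?_⟩) ⟨?_, ?_⟩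
    · obtain ⟨σ, hσ⟩ := a.2
      rw [← hσ]; exact (hφ σ).1
    · intro a b h
      apply Subtype.ext
      exact congrArg (fun z : {a : k // a ^ p ^ e = a} => Multiplicative.ofAdd z.1) h
    · rintro ⟨a, ha⟩
      obtain ⟨σ, hσ, hσ2⟩ := exists_lift_trans (Ω := Ω) htr ha
      obtain ⟨τ, hτ⟩ := exists_restrict hgen htr he hσ j
      have hτ2 : τ (algebraMap K F x) = algebraMap K F x + algebraMap k F a := by
        apply Subtype.ext
        rw [hτ]
        exact hσ2
      refine ⟨⟨φ ⟨τ, a, ha, hτ2⟩, ⟨_, rfl⟩⟩, ?_⟩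
      apply Subtype.ext
      have h1 := (hφ ⟨τ, a, ha, hτ2⟩).2
      have h1 := hτ2.symm.trans h1
      exact ((algebraMap k F).injective (add_left_cancel h1)).symm
  · rw [← card_fixG hgen F]
    apply Nat.card_congr
    refine Equiv.ofBijective (fun σ => ⟨σ.1.1, ?_⟩) ⟨?_, ?_⟩
    · have h1 := (hφ σ.1).2
      have h2 : φ σ.1 = 1 := σ.2
      rw [h2] at h1
      rw [mem_fixG]
      simpa using h1
    · intro σ τ h
      apply Subtype.ext
      apply Subtype.ext
      exact congrArg (fun z : fixG k (algebraMap K F x) => z.1) h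
    · rintro ⟨σ, hσ⟩
      have hσ' := fixG_le_transG (p := p) (algebraMap K F x) e hσ
      refine ⟨⟨⟨σ, hσ'⟩, ?_⟩, rfl⟩
      have h1 := (hφ ⟨σ, hσ'⟩).2
      rw [mem_fixG] at hσ
      change φ ⟨σ, hσ'⟩ = 1
      have h2 : Multiplicative.toAdd (φ ⟨σ, hσ'⟩) = 0 := by
        apply (algebraMap k F).injective
        rw [map_zero]
        simpa [hσ] using h1
      exact h2

end field

end Pool.Agent.Helper32
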