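import Mathlib
import Pool.Agent.Helper32.AS18

/-!
# Action on the local ring at infinity
-/

namespace Pool.Agent.Helper32

open Polynomial WithZero

set_option linter.unusedSectionVars false

section loc

variable {p : ℕ} [hp : Fact p.Prime] {k E : Type*} [Field k] [Field E] [Algebra k E] [CharP k p]
  {x : E} {n g : ℕ} {v : Valuation E (WithZero (Multiplicative ℤ))}

lemma exp_pos' (i : ℤ) : (0 : WithZero (Multiplicative ℤ)) < exp i := zero_lt_iff.mpr exp_ne_zero

lemma le_exp_pred {a : WithZero (Multiplicative ℤ)} {m : ℤ} (h : a < exp m) : a ≤ exp (m - 1) :=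
  IsLevel.lt_exp_iff.mp h

lemma lt_one_iff' {a : WithZero (Multiplicative ℤ)} : a < 1 ↔ a ≤ exp (-1 : ℤ) := by
  rw [← exp_zero, IsLevel.lt_exp_iff]; simp

/-- automorphisms translating `x` fix the place at infinity -/
lemma IsLevel.aut_mem (L : IsLevel p k x n g v) {σ : E ≃ₐ[k] E} {a : k}
    (hσ : σ x = x + algebraMap k E a) (z : E) : v (σ z) ≤ 1 ↔ v z ≤ 1 := by
  have hx : ¬ v x ≤ 1 := by
    rw [L.v_x, ← exp_zero, exp_le_exp, not_le]
    exact pow_pos (by exact_mod_cast hp.out.pos) n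
  have h1 := L.unique (v.valuationSubring.comap (σ : E →+* E)) (fun c => by
    rw [ValuationSubring.mem_comap, Valuation.mem_valuationSubring_iff]
    simpa using L.v_const_le c) (by
    rw [ValuationSubring.mem_comap, Valuation.mem_valuationSubring_iff]
    intro h
    apply hx
    have h2 : v (σ x) ≤ 1 := h
    rw [hσ] at h2
    have h3 : x = (x + algebraMap k E a) - algebraMap k E a := by ring
    rw [h3]
    exact (v.map_sub _ _).trans (max_le h2 (L.v_const_le a)))
  have h2 : z ∈ v.valuationSubring.comap (σ : E →+* E) ↔ z ∈ v.valuationSubring := by rw [h1]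
  rw [ValuationSubring.mem_comap, Valuation.mem_valuationSubring_iff,
    Valuation.mem_valuationSubring_iff] at h2
  exact h2

lemma aut_lt_one {σ : E ≃ₐ[k] E} (h : ∀ z, v (σ z) ≤ 1 ↔ v z ≤ 1) (z : E) :
    v (σ z) < 1 ↔ v z < 1 := by
  by_cases hz : z = 0
  · subst hz; simp
  · have hz' : σ z ≠ 0 := by simpa using hz
    have h1 := h z⁻¹
    rw [map_inv₀, map_inv₀, map_inv₀] at h1
    have h2 : ∀ y : E, y ≠ 0 → ((v y)⁻¹ ≤ 1 ↔ 1 ≤ v y) := by
      intro y hy
      have : 0 < v y := zero_lt_iff.mpr ((Valuation.ne_zero_iff v).mpr hy)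
      rw [inv_le_one₀ this]
    rw [h2 _ hz', h2 _ hz] at h1
    rw [← not_le, ← not_le, h1]

lemma aut_val {σ : E ≃ₐ[k] E} (h : ∀ z, v (σ z) ≤ 1 ↔ v z ≤ 1) {t : E} (ht : v t = exp (-1 : ℤ))
    (z : E) : v (σ z) = v z := by
  have ht0 : t ≠ 0 := by
    intro h0
    rw [h0, map_zero] at ht
    exact exp_ne_zero ht.symm
  have hσt0 : σ t ≠ 0 := by simpa using ht0
  have h1 : v (σ t) ≤ exp (-1 : ℤ) := by
    rw [← lt_one_iff', aut_lt_one h, ht, lt_one_iff']
  have h2 : exp (-1 : ℤ) ≤ v (σ t) := by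
    set u := σ.symm t with hu
    have hut : σ u = t := by simp [hu]
    have h3 : v u < 1 := by
      rw [← aut_lt_one h, hut, ht, lt_one_iff']
    have h4 : v (u / t) ≤ 1 := by
      rw [map_div₀, ht, div_le_one₀ (exp_pos' _), ← lt_one_iff']
      exact h3
    rw [← h, map_div₀, hut, map_div₀, ht, div_le_one₀] at h4
    · exact h4
    · exact zero_lt_iff.mpr ((Valuation.ne_zero_iff v).mpr hσt0)
  have h3 : v (σ t) = exp (-1 : ℤ) := le_antisymm h1 h2
  by_cases hz : z = 0
  · subst hz; simp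
  · have hvz : v z ≠ 0 := (Valuation.ne_zero_iff v).mpr hz
    obtain ⟨i, hi⟩ : ∃ i : ℤ, v z = exp i := ⟨log (v z), (exp_log hvz).symm⟩
    have h4 : v (z * t ^ i) = 1 := by
      rw [map_mul, map_zpow₀, hi, ht, ← exp_zsmul, ← exp_add]
      simp
    have h5 : v (σ (z * t ^ i)) = 1 := by
      apply le_antisymm
      · rw [h]; exact h4.le
      · rw [← not_lt, aut_lt_one h, not_lt]; exact h4.ge
    rw [map_mul, map_zpow₀, map_mul, map_zpow₀, h3, ← exp_zsmul] at h5
    have h6 : v (σ z) * exp (-i) * exp i = exp i := by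
      have : i • (-1 : ℤ) = -i := by simp
      rw [this] at h5
      rw [h5, one_mul]
    rw [mul_assoc, ← exp_add, neg_add_cancel, exp_zero, mul_one] at h6
    rw [h6, hi]

/-- congruence on a uniformizer controls everything -/
lemma IsLevel.ram_of_unif (L : IsLevel p k x n g v) {σ : E ≃ₐ[k] E} (h : ∀ z, v (σ z) = v z)
    {t : E} (ht : v t = exp (-1 : ℤ)) {i : ℕ} (hi : v (σ t - t) ≤ exp (-(i : ℤ))) {z : E}
    (hz : v z ≤ 1) : v (σ z - z) ≤ exp (-(i : ℤ)) := by
  have key : ∀ N : ℕ, ∀ z : E, v z ≤ 1 → v (σ z - z) ≤ max (exp (-(i : ℤ))) (exp (-(N : ℤ))) := by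
    intro N
    induction N with
    | zero =>
      intro z hz
      refine le_max_of_le_right ?_
      refine (v.map_sub _ _).trans (max_le ?_ ?_)
      · rw [h]; simpa using hz
      · simpa using hz
    | succ N ih =>
      intro z hz
      obtain ⟨c, hc⟩ := L.residue z hz
      have ht0 : t ≠ 0 := by
        intro h0
        rw [h0, map_zero] at ht
        exact exp_ne_zero ht.symm
      set y := (z - algebraMap k E c) / t with hy
      have hzy : z = algebraMap k E c + t * y := by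
        rw [hy]; field_simp; ring
      have hvy : v y ≤ 1 := by
        rw [hy, map_div₀, ht, div_le_one₀ (exp_pos' _), ← lt_one_iff']
        exact hc
      have h1 : σ z - z = (σ t - t) * σ y + t * (σ y - y) := by
        rw [hzy, map_add, map_mul, AlgEquiv.commutes]; ring
      rw [h1]
      refine (v.map_add _ _).trans (max_le ?_ ?_)
      · refine le_max_of_le_left ?_
        rw [map_mul, h]
        calc v (σ t - t) * v y ≤ exp (-(i : ℤ)) * 1 := by gcongr
          _ = _ := mul_one _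
      · rw [map_mul, ht]
        have h2 := ih y hvy
        rcases le_max_iff.mp h2 with h2 | h2
        · refine le_max_of_le_left ?_
          calc exp (-1 : ℤ) * v (σ y - y) ≤ 1 * exp (-(i : ℤ)) := by
                gcongr
                rw [← exp_zero, exp_le_exp]; norm_num
            _ = _ := one_mul _
        · refine le_max_of_le_right ?_
          calc exp (-1 : ℤ) * v (σ y - y) ≤ exp (-1 : ℤ) * exp (-(N : ℤ)) := by gcongr
            _ = exp (-((N + 1 : ℕ) : ℤ)) := by
              rw [← exp_add]; congr 1; push_cast; ring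
  have h3 := key i z hz
  rwa [max_self] at h3

/-- `p`-power order automorphisms act wildly -/
lemma IsLevel.wild (L : IsLevel p k x n g v) {σ : E ≃ₐ[k] E} (h : ∀ z, v (σ z) = v z)
    {m : ℕ} (hm : σ ^ p ^ m = 1) {t : E} (ht : v t = exp (-1 : ℤ)) :
    v (σ t - t) ≤ exp (-2 : ℤ) := by
  have ht0 : t ≠ 0 := by
    intro h0
    rw [h0, map_zero] at ht
    exact exp_ne_zero ht.symm
  obtain ⟨c, hc⟩ := L.approx ht0 (a := σ t) (h t).le
  have key : ∀ i : ℕ, v ((σ ^ i) t - algebraMap k E (c ^ i) * t) < v t := by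
    intro i
    induction i with
    | zero => simp [ht]
    | succ i ih =>
      have h1 : (σ ^ (i + 1)) t - algebraMap k E (c ^ (i + 1)) * t =
          σ ((σ ^ i) t - algebraMap k E (c ^ i) * t) +
          algebraMap k E (c ^ i) * (σ t - algebraMap k E c * t) := by
        rw [pow_succ', AlgEquiv.mul_apply, map_sub, map_mul, AlgEquiv.commutes]
        rw [pow_succ c, map_mul]
        ring
      rw [h1]
      refine lt_of_le_of_lt (v.map_add _ _) (max_lt ?_ ?_)
      · rw [h]; exact ih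
      · rw [map_mul]
        calc v (algebraMap k E (c ^ i)) * v (σ t - algebraMap k E c * t)
            ≤ 1 * v (σ t - algebraMap k E c * t) := by
              gcongr
              exact L.v_const_le _
          _ = v (σ t - algebraMap k E c * t) := one_mul _
          _ < v t := hc
  have h2 := key (p ^ m)
  rw [hm] at h2
  have h3 : (1 : E ≃ₐ[k] E) t - algebraMap k E (c ^ p ^ m) * t =
      algebraMap k E (1 - c ^ p ^ m) * t := by
    rw [map_sub, map_one, AlgEquiv.one_apply]; ring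
  rw [h3, map_mul] at h2
  have h4 : v (algebraMap k E (1 - c ^ p ^ m)) < 1 := by
    by_contra hcon
    rw [not_lt] at hcon
    have : v t ≤ v (algebraMap k E (1 - c ^ p ^ m)) * v t := by
      calc v t = 1 * v t := (one_mul _).symm
        _ ≤ _ := by gcongr
    exact absurd h2 (not_lt.mpr this)
  have h5 := L.const_eq_zero h4
  have h6 : c = 1 := by
    have h7 : (1 - c) ^ p ^ m = 0 := by
      rw [sub_pow_char_pow, one_pow, h5]
    have h8 := pow_eq_zero_iff (pow_ne_zero m hp.out.ne_zero) |>.mp h7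
    exact (sub_eq_zero.mp h8).symm
  rw [h6, map_one, one_mul, ht] at hc
  have := le_exp_pred hc
  simpa using this

/-- commutators are in the second ramification group -/
lemma IsLevel.comm_ram (L : IsLevel p k x n g v) {σ τ : E ≃ₐ[k] E} (h : ∀ z, v (σ z) = v z)
    (h' : ∀ z, v (τ z) = v z) (hσ : ∀ s, v s = exp (-1 : ℤ) → v (σ s - s) ≤ exp (-2 : ℤ))
    (hτ : ∀ s, v s = exp (-1 : ℤ) → v (τ s - s) ≤ exp (-2 : ℤ)) {s : E} (hs : v s = exp (-1 : ℤ)) :
    v (σ (τ s) - τ (σ s)) ≤ exp (-3 : ℤ) := by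
  have hs0 : s ≠ 0 := by
    intro h0
    rw [h0, map_zero] at hs
    exact exp_ne_zero hs.symm
  have hs2 : v (s ^ 2) = exp (-2 : ℤ) := by
    rw [map_pow, hs, ← exp_nsmul]; rfl
  have hs20 : s ^ 2 ≠ 0 := pow_ne_zero _ hs0
  obtain ⟨a, ha⟩ := L.approx hs20 (a := σ s - s) (by rw [hs2]; exact hσ s hs)
  obtain ⟨b, hb⟩ := L.approx hs20 (a := τ s - s) (by rw [hs2]; exact hτ s hs)
  rw [hs2] at ha hb
  have ha' := le_exp_pred ha
  have hb' := le_exp_pred hb
  norm_num at ha' hb'
  have hsq : ∀ ρ : E ≃ₐ[k] E, (∀ z, v (ρ z) = v z) → (v (ρ s - s) ≤ exp (-2 : ℤ)) →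
      v ((ρ s) ^ 2 - s ^ 2) ≤ exp (-3 : ℤ) := by
    intro ρ h1 h2
    have h3 : (ρ s) ^ 2 - s ^ 2 = (ρ s - s) * (ρ s + s) := by ring
    rw [h3, map_mul]
    have h4 : v (ρ s + s) ≤ exp (-1 : ℤ) := by
      refine (v.map_add _ _).trans (max_le ?_ ?_)
      · rw [h1, hs]
      · rw [hs]
    calc v (ρ s - s) * v (ρ s + s) ≤ exp (-2 : ℤ) * exp (-1 : ℤ) := by gcongr
      _ = exp (-3 : ℤ) := by rw [← exp_add]; rfl
  have hc : ∀ (c : k) {y : E}, v y ≤ exp (-3 : ℤ) → v (algebraMap k E c * y) ≤ exp (-3 : ℤ) := by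
    intro c y hy
    rw [map_mul]
    calc v (algebraMap k E c) * v y ≤ 1 * exp (-3 : ℤ) := by
          gcongr
          exact L.v_const_le _
      _ = _ := one_mul _
  have e1 : σ (τ s) - τ (σ s) =
      (σ (τ s - s - algebraMap k E b * s ^ 2) + algebraMap k E b * ((σ s) ^ 2 - s ^ 2)
        + (σ s - s - algebraMap k E a * s ^ 2)) -
      (τ (σ s - s - algebraMap k E a * s ^ 2) + algebraMap k E a * ((τ s) ^ 2 - s ^ 2)
        + (τ s - s - algebraMap k E b * s ^ 2)) := by
    simp only [map_sub, map_mul, map_pow, AlgEquiv.commutes]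
    ring
  rw [e1]
  refine (v.map_sub _ _).trans (max_le ?_ ?_)
  · refine (v.map_add _ _).trans (max_le ((v.map_add _ _).trans (max_le ?_ ?_)) ?_)
    · rw [h]; exact hb'
    · exact hc _ (hsq σ h (hσ s hs))
    · exact ha'
  · refine (v.map_add _ _).trans (max_le ((v.map_add _ _).trans (max_le ?_ ?_)) ?_)
    · rw [h']; exact ha'
    · exact hc _ (hsq τ h' (hτ s hs))
    · exact hb'

end loc

section norm

variable {p : ℕ} [hp : Fact p.Prime] {k K F : Type*} [Field k] [Field K]
  [Field F] [Algebra k K] [Algebra k F] [Algebra K F] [IsScalarTower k K F] [CharP k p]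
  {x : K} {vK : Valuation K (WithZero (Multiplicative ℤ))}
  {n g : ℕ} {v : Valuation F (WithZero (Multiplicative ℤ))}

/-- elements of the second ramification group fix `x` -/
lemma Tow.ram_two_fix (hbase : IsLevel p k x 0 0 vK) (T : Tow p k K x vK n g v)
    {σ : F ≃ₐ[k] F} {τ : K ≃ₐ[k] K} (hστ : ∀ y, σ (algebraMap K F y) = algebraMap K F (τ y))
    {a : k} (hτ : τ x = x + algebraMap k K a)
    (hσ : ∀ z, v z ≤ 1 → v (σ z - z) ≤ exp (-3 : ℤ)) : a = 0 := by
  by_contra ha
  obtain ⟨t, ht⟩ := T.lev.v_unif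
  have ht0 : t ≠ 0 := by
    intro h0
    rw [h0, map_zero] at ht
    exact exp_ne_zero ht.symm
  set r := Algebra.norm K t with hr
  have hvr : vK r = exp (-1 : ℤ) := by rw [hr, T.nv, ht]
  have h1 : σ t = t * (1 + (σ t - t) / t) := by field_simp; ring
  have h2 : v ((σ t - t) / t) ≤ exp (-2 : ℤ) := by
    rw [map_div₀, ht, div_le_iff₀ (exp_pos' _), ← exp_add]
    have := hσ t (by rw [ht, ← exp_zero, exp_le_exp]; norm_num)
    simpa using this
  have h3 := T.nu _ h2
  have h4 : Algebra.norm K (σ t) = τ r := by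
    have h5 := Algebra.norm_eq_of_equiv_equiv (τ : K ≃+* K) (σ : F ≃+* F) (by
      ext y
      simpa using (hστ y).symm) t
    rw [hr, h5]
    simp
  rw [h1, map_mul] at h4
  have h6 : τ r - r = r * (Algebra.norm K (1 + (σ t - t) / t) - 1) := by
    rw [← h4, ← hr]; ring
  have h7 : vK (τ r - r) ≤ exp (-3 : ℤ) := by
    rw [h6, map_mul, hvr]
    calc exp (-1 : ℤ) * vK (Algebra.norm K (1 + (σ t - t) / t) - 1)
        ≤ exp (-1 : ℤ) * exp (-2 : ℤ) := by gcongr
      _ = exp (-3 : ℤ) := by rw [← exp_add]; rfl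
  have h8 : ∀ z, vK (τ z) = vK z := aut_val (hbase.aut_mem hτ) hvr
  have hvx : vK x = exp (1 : ℤ) := by simpa using hbase.v_x
  have hx0 : x ≠ 0 := by
    intro h0
    rw [h0, map_zero] at hvx
    exact exp_ne_zero hvx.symm
  have hvx1 : vK (x + algebraMap k K a) = exp (1 : ℤ) := by rw [← hτ, h8, hvx]
  have hx1 : x + algebraMap k K a ≠ 0 := by
    intro h0
    rw [h0, map_zero] at hvx1
    exact exp_ne_zero hvx1.symm
  have h9 := hbase.ram_of_unif h8 hvr (i := 3) (by simpa using h7) (z := x⁻¹) (by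
    rw [map_inv₀, hvx, ← exp_neg, ← exp_zero, exp_le_exp]; norm_num)
  have h10 : τ x⁻¹ - x⁻¹ = -(algebraMap k K a) / (x * (x + algebraMap k K a)) := by
    rw [map_inv₀, hτ]
    field_simp
    ring
  rw [h10, map_div₀, Valuation.map_neg, hbase.v_const a ha, map_mul, hvx, hvx1, ← exp_add,
    one_div, ← exp_neg, exp_le_exp] at h9
  norm_num at h9

end norm

end Pool.Agent.Helper32
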