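import Mathlib

/-!
# Function fields of one variable: places, genus, ramification groups

The definitions below are the standard ones (Chevalley, Weil).
-/

namespace Pool.Agent.Helper32

variable (k F : Type*) [Field k] [Field F] [Algebra k F]

/-- `F` is a function field in one variable over `k`: a finite extension of `k(x)` for some `x`
transcendental over `k`. -/
def IsFunctionField : Prop :=
  ∃ x : F, Transcendental k x ∧ FiniteDimensional (IntermediateField.adjoin k {x}) F

/-- A place of `F / k`: a valuation ring of `F` that contains `k` and is not `F`. -/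
def Place : Type _ :=
  {V : ValuationSubring F // (∀ c : k, algebraMap k F c ∈ V) ∧ V ≠ ⊤}

/-- The repartitions (adeles) of `F / k`: families `(r P)` of elements of `F`, indexed by the
places, with `r P` in the valuation ring of `P` for all but finitely many `P`. -/
def repartitions : Submodule k (Place k F → F) where
  carrier := {r | {P : Place k F | r P ∉ P.1}.Finite}
  zero_mem' := by
    have : {P : Place k F | (0 : Place k F → F) P ∉ P.1} = ∅ := by
      ext P; simp [zero_mem]
    rw [Set.mem_ofPred_eq, this]
    exact Set.finite_empty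
  add_mem' := by
    intro r s hr hs
    refine (hr.union hs).subset ?_
    intro P hP
    by_contra hcon
    simp only [Set.mem_union, not_or, Set.mem_ofPred_eq, not_not] at hcon
    exact hP (add_mem hcon.1 hcon.2)
  smul_mem' := by
    intro c r hr
    refine Set.Finite.subset hr ?_
    intro P hP hcon
    apply hP
    rw [Pi.smul_apply, Algebra.smul_def]
    exact mul_mem (P.2.1 c) hcon

/-- The families `(r P)` with `r P` in the valuation ring of `P` for every place `P`. -/
def integralFamilies : Submodule k (Place k F → F) where
  carrier := {r | ∀ P : Place k F, r P ∈ P.1}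
  zero_mem' := fun P => zero_mem _
  add_mem' := fun hr hs P => add_mem (hr P) (hs P)
  smul_mem' := by
    intro c r hr P
    rw [Pi.smul_apply, Algebra.smul_def]
    exact mul_mem (P.2.1 c) (hr P)

/-- The constant families, a copy of `F`. -/
def constantFamilies : Submodule k (Place k F → F) where
  carrier := {r | ∃ f : F, ∀ P : Place k F, r P = f}
  zero_mem' := ⟨0, fun _ => rfl⟩
  add_mem' := by
    rintro r s ⟨f, hf⟩ ⟨h, hh⟩
    exact ⟨f + h, fun P => by rw [Pi.add_apply, hf, hh]⟩
  smul_mem' := by
    rintro c r ⟨f, hf⟩
    exact ⟨c • f, fun P => by rw [Pi.smul_apply, hf]⟩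

/-- The repartitions that are the sum of a family with `r P` integral at every `P` and a constant
family. -/
def trivialRepartitions : Submodule k (repartitions k F) :=
  (integralFamilies k F ⊔ constantFamilies k F).comap (repartitions k F).subtype

/-- The genus of `F / k` (Weil): the dimension over `k` of the space of all repartitions modulo
those that are the sum of an integral one and a constant one. -/
noncomputable def genus : ℕ := Module.finrank k (repartitions k F ⧸ trivialRepartitions k F)

variable {k F}

/-- The automorphism `σ` of `F / k` fixes the place `P`. -/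
def FixesPlace (σ : F ≃ₐ[k] F) (P : Place k F) : Prop := ∀ a : F, σ a ∈ P.1 ↔ a ∈ P.1

/-- The `n`-th power of the maximal ideal `m_P` of the valuation ring `O_P` of the place `P`. -/
def maxIdealPow (P : Place k F) (n : ℕ) : Ideal P.1 := IsLocalRing.maximalIdeal P.1 ^ n

/-- The automorphism `σ` of `F / k` changes every element of the valuation ring of `P` by an
element of the `n`-th power of the maximal ideal. -/
def TrivialMod (n : ℕ) (P : Place k F) (σ : F ≃ₐ[k] F) : Prop :=
  ∀ a : P.1, ∃ b ∈ maxIdealPow P n, σ (a : F) = (a : F) + (b : F)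

/-- The `i`-th ramification group, in the lower numbering, of `G` at the place `P`: the elements
of `G` that fix `P` and act trivially on `O_P / m_P ^ (i + 1)`. -/
def ramGroup (G : Subgroup (F ≃ₐ[k] F)) (P : Place k F) (i : ℕ) : Subgroup (F ≃ₐ[k] F) where
  carrier := {σ | σ ∈ G ∧ FixesPlace σ P ∧ TrivialMod (i + 1) P σ}
  mul_mem' := by
    rintro σ τ ⟨hσ, hσP, hσi⟩ ⟨hτ, hτP, hτi⟩
    refine ⟨mul_mem hσ hτ, fun a => ?_, fun a => ?_⟩
    · rw [AlgEquiv.mul_apply, hσP, hτP]
    · obtain ⟨b, hb, h1⟩ := hτi a
      obtain ⟨c, hc, h2⟩ := hσi (a + b)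
      refine ⟨b + c, add_mem hb hc, ?_⟩
      rw [AlgEquiv.mul_apply, h1]
      refine h2.trans ?_
      push_cast
      ring
  one_mem' := ⟨one_mem _, fun a => Iff.rfl, fun a => ⟨0, zero_mem _, by simp⟩⟩
  inv_mem' := by
    rintro σ ⟨hσ, hσP, hσi⟩
    have h0 : ∀ a, σ (σ⁻¹ a) = a := fun a => by
      rw [← AlgEquiv.mul_apply, mul_inv_cancel]; rfl
    refine ⟨inv_mem hσ, fun a => ?_, fun a => ?_⟩
    · rw [← hσP, h0]
    · have h1 : σ⁻¹ (a : F) ∈ P.1 := by rw [← hσP, h0]; exact a.2
      obtain ⟨b, hb, h2⟩ := hσi ⟨_, h1⟩
      refine ⟨-b, neg_mem hb, ?_⟩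
      have h3 : (a : F) = σ⁻¹ (a : F) + (b : F) := by
        refine Eq.trans ?_ h2
        exact (h0 _).symm
      push_cast
      linear_combination -h3

/-- The group `G` of automorphisms of `F / k` is a big action at the place `P`, in
characteristic `p`: `F / k` is a function field in one variable of genus at least `2`, `G` is a
finite `p`-group that fixes `P`, and condition (N) holds: `|G| > 2 p g / (p - 1)`. -/
structure IsBigAction (p : ℕ) (G : Subgroup (F ≃ₐ[k] F)) (P : Place k F) : Prop where
  isFunctionField : IsFunctionField k F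
  two_le_genus : 2 ≤ genus k F
  finite : Finite G
  isPGroup : IsPGroup p G
  fixesPlace : ∀ σ ∈ G, FixesPlace σ P
  conditionN : 2 * p * genus k F < (p - 1) * Nat.card G

/-- The non-trivial elements of `G` fix no place other than `P`. -/
def FreeOutside (G : Subgroup (F ≃ₐ[k] F)) (P : Place k F) : Prop :=
  ∀ σ ∈ G, σ ≠ 1 → ∀ P' : Place k F, FixesPlace σ P' → P' = P

/-- `H` is a subdirect power of `Q`: it is isomorphic to a subgroup of `Q ^ m`, for some `m > 0`,
that projects onto each of the `m` factors. -/
def IsSubdirectPower (H Q : Type*) [Group H] [Group Q] : Prop :=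
  ∃ (m : ℕ) (Φ : H →* (Fin m → Q)), 0 < m ∧ Function.Injective Φ ∧
    ∀ i, Function.Surjective (fun h => Φ h i)

variable (k F)

/-- There are a group `G` of automorphisms of `F / k` and a place `P` of `F / k` such that `G` is
a big action at `P` in characteristic `p`, `|G| > M * genus`, no non-trivial element of `G` fixes a
place other than `P`, and the second ramification group `G_2` at `P` is a subdirect power of
`Q`. -/
def HasBigAction (p M : ℕ) (Q : Type*) [Group Q] : Prop :=
  ∃ (G : Subgroup (F ≃ₐ[k] F)) (P : Place k F), IsBigAction p G P ∧ M * genus k F < Nat.card G ∧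
    FreeOutside G P ∧ IsSubdirectPower (ramGroup G P 2) Q

end Pool.Agent.Helper32
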