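import Mathlib
import Pool.Agent.Helper32.AS19
import Pool.Agent.Helper32.Curve

/-!
# Places and ramification groups
-/

namespace Pool.Agent.Helper32

open Polynomial WithZero
open scoped commutatorElement

set_option linter.unusedSectionVars false

section maxideal

variable {F : Type*} [Field F] {v : Valuation F (WithZero (Multiplicative ℤ))}

lemma mem_maximalIdeal_pow {t : F} (ht : v t = exp (-1 : ℤ)) (i : ℕ) (b : v.valuationSubring) :
    b ∈ IsLocalRing.maximalIdeal v.valuationSubring ^ i ↔ v (b : F) ≤ exp (-(i : ℤ)) := by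
  have ht0 : t ≠ 0 := by
    intro h0
    rw [h0, map_zero] at ht
    exact exp_ne_zero ht.symm
  have htV : t ∈ v.valuationSubring := by
    rw [Valuation.mem_valuationSubring_iff, ht, ← exp_zero, exp_le_exp]; norm_num
  have hdiv : ∀ (j : ℕ) (c : v.valuationSubring), (⟨t, htV⟩ : v.valuationSubring) ^ j ∣ c ↔
      v (c : F) ≤ exp (-(j : ℤ)) := by
    intro j c
    have hvt : v (t ^ j) = exp (-(j : ℤ)) := by
      rw [map_pow, ht, ← exp_nsmul]; congr 1; simp
    constructor
    · rintro ⟨d, hd⟩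
      have h1 : (c : F) = t ^ j * d := by rw [hd]; rfl
      rw [h1, map_mul, hvt]
      calc exp (-(j : ℤ)) * v (d : F) ≤ exp (-(j : ℤ)) * 1 := by gcongr; exact d.2
        _ = _ := mul_one _
    · intro h
      refine ⟨⟨c / t ^ j, ?_⟩, ?_⟩
      · rw [Valuation.mem_valuationSubring_iff, map_div₀, hvt, div_le_one₀ (exp_pos' _)]
        exact h
      · apply Subtype.ext
        change (c : F) = t ^ j * (c / t ^ j)
        field_simp
  have hm : IsLocalRing.maximalIdeal v.valuationSubring = Ideal.span {⟨t, htV⟩} := by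
    ext c
    rw [Ideal.mem_span_singleton]
    have h1 := hdiv 1 c
    rw [pow_one] at h1
    rw [h1]
    push_cast
    rw [← lt_one_iff', IsLocalRing.mem_maximalIdeal, mem_nonunits_iff]
    constructor
    · intro hu
      by_contra hcon
      rw [not_lt] at hcon
      apply hu
      have hc1 : v (c : F) = 1 := le_antisymm c.2 hcon
      have hc0 : (c : F) ≠ 0 := by
        intro h0; rw [h0, map_zero] at hc1; exact zero_ne_one hc1
      refine ⟨⟨c, ⟨(c : F)⁻¹, ?_⟩, ?_, ?_⟩, rfl⟩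
      · rw [Valuation.mem_valuationSubring_iff, map_inv₀, hc1, inv_one]
      · apply Subtype.ext
        exact mul_inv_cancel₀ hc0
      · apply Subtype.ext
        exact inv_mul_cancel₀ hc0
    · rintro hlt ⟨u, hu⟩
      have h2 : (c : F) * ((u⁻¹ : v.valuationSubringˣ) : v.valuationSubring) = 1 := by
        rw [← hu]
        have := u.mul_inv
        exact congrArg Subtype.val this
      have h3 := congrArg v h2
      rw [map_mul, map_one] at h3
      have h4 : v (((u⁻¹ : v.valuationSubringˣ) : v.valuationSubring) : F) ≤ 1 :=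
        ((u⁻¹ : v.valuationSubringˣ) : v.valuationSubring).2
      have h5 : v (c : F) * v (((u⁻¹ : v.valuationSubringˣ) : v.valuationSubring) : F) < 1 :=
        mul_lt_one_of_lt_of_le hlt h4
      exact absurd h3 h5.ne
  rw [hm, Ideal.span_singleton_pow, Ideal.mem_span_singleton, hdiv]

end maxideal

section place

variable {p : ℕ} [hp : Fact p.Prime] {k F : Type*} [Field k] [Field F] [Algebra k F] [CharP k p]
  {x : F} {n g : ℕ} {v : Valuation F (WithZero (Multiplicative ℤ))}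

lemma IsLevel.x_notMem (L : IsLevel p k x n g v) : x ∉ v.valuationSubring := by
  rw [Valuation.mem_valuationSubring_iff, L.v_x, ← exp_zero, exp_le_exp, not_le]
  exact pow_pos (by exact_mod_cast hp.out.pos) n

/-- the place at infinity -/
def IsLevel.place (L : IsLevel p k x n g v) : Place k F :=
  ⟨v.valuationSubring, L.v_const_le, fun h => L.x_notMem (by rw [h]; trivial)⟩

lemma IsLevel.mem_ramGroup (L : IsLevel p k x n g v) {G : Subgroup (F ≃ₐ[k] F)} {i : ℕ}
    {σ : F ≃ₐ[k] F} : σ ∈ ramGroup G L.place i ↔ σ ∈ G ∧ (∀ z, v (σ z) ≤ 1 ↔ v z ≤ 1) ∧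
      ∀ z, v z ≤ 1 → v (σ z - z) ≤ exp (-((i : ℤ) + 1)) := by
  obtain ⟨t, ht⟩ := L.v_unif
  constructor
  · rintro ⟨h1, h2, h3⟩
    refine ⟨h1, h2, fun z hz => ?_⟩
    obtain ⟨b, hb, h4⟩ := h3 ⟨z, hz⟩
    have h5 := (mem_maximalIdeal_pow ht (i + 1) b).mp hb
    have h6 : σ z - z = b := by
      have : σ z = z + b := h4
      rw [this]; ring
    rw [h6]
    exact_mod_cast h5
  · rintro ⟨h1, h2, h3⟩
    refine ⟨h1, h2, fun a => ?_⟩
    have h4 := h3 a a.2
    have h5 : v (σ (a : F) - a) ≤ 1 := h4.trans (by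
      rw [← exp_zero, exp_le_exp]; omega)
    refine ⟨⟨σ (a : F) - a, h5⟩, ?_, ?_⟩
    · exact (mem_maximalIdeal_pow ht (i + 1) _).mpr (by push_cast; exact h4)
    · change σ (a : F) = a + (σ (a : F) - a)
      ring

/-- the derived group is in the second ramification group -/
lemma IsLevel.commutator_le (L : IsLevel p k x n g v) {G : Subgroup (F ≃ₐ[k] F)}
    (hG : ∀ σ ∈ G, ∃ a : k, σ x = x + algebraMap k F a)
    (hGp : ∀ σ ∈ G, ∃ m : ℕ, σ ^ p ^ m = 1) : ⁅G, G⁆ ≤ ramGroup G L.place 2 := by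
  obtain ⟨t, ht⟩ := L.v_unif
  rw [Subgroup.commutator_le]
  intro σ hσ τ hτ
  have hmem : ∀ σ ∈ G, ∀ z, v (σ z) ≤ 1 ↔ v z ≤ 1 := by
    intro σ hσ z
    obtain ⟨a, ha⟩ := hG σ hσ
    exact L.aut_mem ha z
  have hval : ∀ σ ∈ G, ∀ z, v (σ z) = v z := fun σ hσ => aut_val (hmem σ hσ) ht
  have hwild : ∀ σ ∈ G, ∀ s, v s = exp (-1 : ℤ) → v (σ s - s) ≤ exp (-2 : ℤ) := by
    intro σ hσ s hs
    obtain ⟨m, hm⟩ := hGp σ hσ
    exact L.wild (hval σ hσ) hm hs
  have hc : ⁅σ, τ⁆ ∈ G := by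
    rw [commutatorElement_def]
    exact mul_mem (mul_mem (mul_mem hσ hτ) (inv_mem hσ)) (inv_mem hτ)
  rw [L.mem_ramGroup]
  refine ⟨hc, hmem _ hc, fun z hz => ?_⟩
  have h1 : v (⁅σ, τ⁆ t - t) ≤ exp (-((3 : ℕ) : ℤ)) := by
    set s := (τ * σ)⁻¹ t with hs
    have hts : t = (τ * σ) s := by
      rw [hs, ← AlgEquiv.mul_apply, mul_inv_cancel]; rfl
    have h2 : ⁅σ, τ⁆ t = σ (τ s) := by
      rw [commutatorElement_def, hs, ← AlgEquiv.mul_apply, ← AlgEquiv.mul_apply, mul_inv_rev,
        ← mul_assoc]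
    have hvs : v s = exp (-1 : ℤ) := by
      rw [← ht, hts, AlgEquiv.mul_apply, hval τ hτ, hval σ hσ]
    rw [h2, show t = τ (σ s) from hts]
    exact L.comm_ram (hval σ hσ) (hval τ hτ) (hwild σ hσ) (hwild τ hτ) hvs
  have h3 := L.ram_of_unif (hval _ hc) ht h1 hz
  exact_mod_cast h3

end place

end Pool.Agent.Helper32
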