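import Mathlib
import Pool.Agent.Helper32.AS20

/-!
# Other places are moved
-/

namespace Pool.Agent.Helper32

open Polynomial WithZero

set_option linter.unusedSectionVars false

section DP

variable {p : ℕ} [hp : Fact p.Prime] {k F : Type*} [Field k] [Field F] [Algebra k F] [CharP k p]

/-- the elements of `P` with residue in `k` -/
def DP (P : ValuationSubring F) (hP : ∀ c : k, algebraMap k F c ∈ P) : Subring F where
  carrier := {z | ∃ c : k, P.valuation (z - algebraMap k F c) < 1}
  zero_mem' := ⟨0, by simp⟩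
  one_mem' := ⟨1, by simp⟩
  add_mem' := by
    rintro a b ⟨c, hc⟩ ⟨d, hd⟩
    refine ⟨c + d, ?_⟩
    have : a + b - algebraMap k F (c + d) = (a - algebraMap k F c) + (b - algebraMap k F d) := by
      rw [map_add]; ring
    rw [this]
    exact lt_of_le_of_lt (P.valuation.map_add _ _) (max_lt hc hd)
  neg_mem' := by
    rintro a ⟨c, hc⟩
    refine ⟨-c, ?_⟩
    have : -a - algebraMap k F (-c) = -(a - algebraMap k F c) := by
      rw [map_neg]; ring
    rw [this, Valuation.map_neg]
    exact hc
  mul_mem' := by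
    rintro a b ⟨c, hc⟩ ⟨d, hd⟩
    refine ⟨c * d, ?_⟩
    have hk : ∀ c : k, P.valuation (algebraMap k F c) ≤ 1 := fun c => by
      rw [ValuationSubring.valuation_le_one_iff]; exact hP c
    have hb : P.valuation b ≤ 1 := by
      have : b = (b - algebraMap k F d) + algebraMap k F d := by ring
      rw [this]
      exact (P.valuation.map_add _ _).trans (max_le hd.le (hk d))
    have : a * b - algebraMap k F (c * d) =
        (a - algebraMap k F c) * b + algebraMap k F c * (b - algebraMap k F d) := by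
      rw [map_mul]; ring
    rw [this]
    refine lt_of_le_of_lt (P.valuation.map_add _ _) (max_lt ?_ ?_)
    · rw [map_mul]; exact mul_lt_one_of_lt_of_le hc hb
    · rw [map_mul, mul_comm]; exact mul_lt_one_of_lt_of_le hd (hk c)

variable {P : ValuationSubring F} {hP : ∀ c : k, algebraMap k F c ∈ P}

lemma mem_DP {z : F} : z ∈ DP P hP ↔ ∃ c : k, P.valuation (z - algebraMap k F c) < 1 := Iff.rfl

lemma algebraMap_mem_DP (c : k) : algebraMap k F c ∈ DP P hP := ⟨c, by simp⟩

include hP in
lemma wp_lt_one [CharP F p] {u : F} (hu : P.valuation (u ^ p - u) < 1) :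
    ∃ i : ℕ, P.valuation (u - i) < 1 := by
  have huP : u ∈ P := by
    rw [← ValuationSubring.valuation_le_one_iff]
    by_contra hcon
    rw [not_le] at hcon
    have h1 : P.valuation u < P.valuation (u ^ p) := by
      rw [map_pow]
      exact lt_self_pow₀ hcon hp.out.one_lt
    rw [Valuation.map_sub_eq_of_lt_left _ h1, map_pow] at hu
    exact absurd hu (not_lt.mpr (one_le_pow₀ hcon.le))
  let ι : k →+* P := (algebraMap k F).codRestrict P.toSubring hP
  let π : P →+* IsLocalRing.ResidueField P := IsLocalRing.residue P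
  have hchar : CharP (IsLocalRing.ResidueField P) p :=
    charP_of_injective_ringHom (π.comp ι).injective p
  set ub : IsLocalRing.ResidueField P := π ⟨u, huP⟩ with hub
  have h1 : ub ^ p = ub := by
    have h2 : (⟨u, huP⟩ ^ p - ⟨u, huP⟩ : P) ∈ IsLocalRing.maximalIdeal P := by
      rw [ValuationSubring.valuation_lt_one_iff]
      exact hu
    have h3 : π (⟨u, huP⟩ ^ p - ⟨u, huP⟩ : P) = 0 := (IsLocalRing.residue_eq_zero_iff _).mpr h2
    rw [map_sub, map_pow] at h3
    exact sub_eq_zero.mp h3
  obtain ⟨i, hi⟩ := exists_zmod_of_pow_eq (p := p) h1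
  refine ⟨i.val, ?_⟩
  have h4 : π (⟨u, huP⟩ - (i.val : P)) = 0 := by
    rw [map_sub, map_natCast, ← hub, hi]
    rw [← ZMod.natCast_zmod_val i, map_natCast, ZMod.natCast_zmod_val]
    simp
  have h5 := (IsLocalRing.residue_eq_zero_iff _).mp h4
  rw [ValuationSubring.valuation_lt_one_iff] at h5
  exact h5

lemma root_mem_DP [IsAlgClosed k] [CharP F p] {z : F} (hz : z ^ p - z ∈ DP P hP) :
    z ∈ DP P hP := by
  obtain ⟨c, hc⟩ := hz
  obtain ⟨d, hd⟩ := exists_wp_eq (p := p) c
  have h1 : (z - algebraMap k F d) ^ p - (z - algebraMap k F d) = z ^ p - z - algebraMap k F c := by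
    rw [wp_sub, ← hd, map_sub, map_pow]
  rw [← h1] at hc
  obtain ⟨i, hi⟩ := wp_lt_one (hP := hP) hc
  refine ⟨d + i, ?_⟩
  rw [map_add, map_natCast, ← sub_sub]
  exact hi

lemma const_eq_zero_of_lt {c : k} (hP : ∀ c : k, algebraMap k F c ∈ P)
    (hc : P.valuation (algebraMap k F c) < 1) : c = 0 := by
  by_contra h
  have h1 := hP c⁻¹
  rw [← ValuationSubring.valuation_le_one_iff, map_inv₀, map_inv₀] at h1
  have h2 : P.valuation (algebraMap k F c) ≠ 0 := by
    rw [Valuation.ne_zero_iff]; simpa using h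
  have h3 : 1 ≤ P.valuation (algebraMap k F c) := by
    have h4 : 0 < P.valuation (algebraMap k F c) := zero_lt_iff.mpr h2
    rwa [inv_le_one₀ h4] at h1
  exact absurd hc (not_lt.mpr h3)

lemma aut_lt_one' {Γ₀ : Type*} [LinearOrderedCommGroupWithZero Γ₀] {v : Valuation F Γ₀}
    {σ : F ≃ₐ[k] F} (h : ∀ z, v (σ z) ≤ 1 ↔ v z ≤ 1) (z : F) :
    v (σ z) < 1 ↔ v z < 1 := by
  by_cases hz : z = 0
  · subst hz; simp
  · have hz' : σ z ≠ 0 := by simpa using hz
    have h1 := h z⁻¹
    rw [map_inv₀, map_inv₀, map_inv₀] at h1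
    have h2 : ∀ y : F, y ≠ 0 → ((v y)⁻¹ ≤ 1 ↔ 1 ≤ v y) := by
      intro y hy
      have : 0 < v y := zero_lt_iff.mpr ((Valuation.ne_zero_iff v).mpr hy)
      rw [inv_le_one₀ this]
    rw [h2 _ hz', h2 _ hz] at h1
    rw [← not_le, ← not_le, h1]

lemma fixes_lt_one {σ : F ≃ₐ[k] F} (hσ : ∀ a : F, σ a ∈ P ↔ a ∈ P) (z : F) :
    P.valuation (σ z) < 1 ↔ P.valuation z < 1 := by
  apply aut_lt_one'
  intro z
  rw [ValuationSubring.valuation_le_one_iff, ValuationSubring.valuation_le_one_iff]
  exact hσ z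

lemma fixes_sub_lt {σ : F ≃ₐ[k] F} (hσ : ∀ a : F, σ a ∈ P ↔ a ∈ P) {z : F} (hz : z ∈ DP P hP) :
    P.valuation (σ z - z) < 1 := by
  obtain ⟨c, hc⟩ := hz
  have h1 := (fixes_lt_one hσ _).mpr hc
  have h2 : σ z - z = σ (z - algebraMap k F c) - (z - algebraMap k F c) := by
    rw [map_sub, AlgEquiv.commutes]; ring
  rw [h2]
  exact lt_of_le_of_lt (P.valuation.map_sub _ _) (max_lt h1 hc)

end DP

section moved

variable {p : ℕ} [hp : Fact p.Prime] {k K Ω : Type*} [Field k] [IsAlgClosed k] [Field K]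
  [Field Ω] [Algebra k K] [Algebra K Ω] [Algebra k Ω] [IsScalarTower k K Ω]
  [CharP k p] [CharP K p] [CharP Ω p] [Algebra (ZMod p) Ω]
  {x : K}

/-- the only valuation ring of `K` containing `k` and all `1 / (x - c)` is `K` -/
def Lin (k : Type*) {K : Type*} [Field k] [Field K] [Algebra k K] (x : K) : Prop :=
  ∀ V : ValuationSubring K, (∀ c : k, algebraMap k K c ∈ V) → x ∈ V →
    (∀ c : k, (x - algebraMap k K c)⁻¹ ∈ V) → V = ⊤

lemma eq_top_of_K {F : IntermediateField K Ω} [Algebra.IsAlgebraic K F] {P : ValuationSubring F}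
    (h : ∀ y : K, algebraMap K F y ∈ P) : P = ⊤ := by
  rw [eq_top_iff]
  intro z _
  have hz : IsIntegral K z := Algebra.IsIntegral.isIntegral z
  let ι : K →+* P := (algebraMap K F).codRestrict P.toSubring h
  obtain ⟨q, hq, h0⟩ := hz
  have h1 : IsIntegral P z := by
    refine ⟨q.map ι, hq.map ι, ?_⟩
    rw [eval₂_map]
    exact h0
  obtain ⟨b, hb⟩ := IsIntegrallyClosed.isIntegral_iff.mp h1
  rw [← hb]
  exact b.2

lemma x_mem_DP (hlin : Lin k x) {F : IntermediateField K Ω} [Algebra.IsAlgebraic K F]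
    {P : ValuationSubring F} (hP : ∀ c : k, algebraMap k F c ∈ P) (htop : P ≠ ⊤)
    (hx : algebraMap K F x ∈ P) : algebraMap K F x ∈ DP P hP := by
  by_contra hcon
  rw [mem_DP, not_exists] at hcon
  apply htop
  apply eq_top_of_K
  have h1 := hlin (P.comap (algebraMap K F)) (fun c => by
    rw [ValuationSubring.mem_comap, ← IsScalarTower.algebraMap_apply]; exact hP c) (by
    rw [ValuationSubring.mem_comap]; exact hx) (fun c => by
    rw [ValuationSubring.mem_comap, map_inv₀, map_sub, ← IsScalarTower.algebraMap_apply,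
      ← ValuationSubring.valuation_le_one_iff, map_inv₀]
    have h2 := hcon c
    rw [not_lt] at h2
    exact inv_le_one_of_one_le₀ h2)
  intro y
  have h2 : y ∈ P.comap (algebraMap K F) := by rw [h1]; trivial
  exact h2

lemma pow_le_subring (S : Subring Ω) (M : Submodule (ZMod p) Ω) (hM : ∀ z ∈ M, z ∈ S) (m : ℕ) :
    ∀ z ∈ M ^ m, z ∈ S := by
  induction m with
  | zero =>
    intro z hz
    rw [pow_zero, Submodule.one_eq_span] at hz
    refine span_le_addSubgroup S.toAddSubgroup ?_ hz
    intro y hy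
    rw [Set.mem_singleton_iff] at hy
    rw [hy]
    exact one_mem S
  | succ m ih =>
    intro z hz
    rw [pow_succ] at hz
    induction hz using Submodule.mul_induction_on' with
    | mem_mul_mem a ha b hb => exact mul_mem (ih a ha) (hM b hb)
    | add a _ b _ ha hb => exact add_mem ha hb

/-- an automorphism fixing a place other than infinity is trivial -/
lemma moved (hgen : Gen k Ω x) (hlin : Lin k x) {e J : ℕ} (he : 0 < e)
    {F : IntermediateField K Ω} (hF : F = Fj p K (algebraMap K Ω x) e J)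
    [Algebra.IsAlgebraic K F] {P : ValuationSubring F}
    (hP : ∀ c : k, algebraMap k F c ∈ P) (htop : P ≠ ⊤)
    (hx : algebraMap K F x ∈ P) {σ : F ≃ₐ[k] F}
    (hσ : σ ∈ transG p k (algebraMap K F x) e)
    (hσP : ∀ a, σ a ∈ P ↔ a ∈ P) : σ = 1 := by
  have hCF : CharP F p := charP_of_injective_algebraMap (algebraMap K F).injective p
  have hxD := x_mem_DP hlin hP htop hx
  -- `σ` fixes `x`
  have hσx : σ (algebraMap K F x) = algebraMap K F x := by
    obtain ⟨a, -, ha⟩ := hσ
    have h1 := fixes_sub_lt hσP hxD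
    rw [ha, add_sub_cancel_left] at h1
    rw [ha, const_eq_zero_of_lt hP h1, map_zero, add_zero]
  -- fixed elements with residue in `k`
  let Fx : Subring F :=
    { carrier := {z | σ z = z}
      zero_mem' := map_zero σ
      one_mem' := map_one σ
      add_mem' := by
        intro a b ha hb
        change σ (a + b) = a + b
        rw [map_add, show σ a = a from ha, show σ b = b from hb]
      neg_mem' := by
        intro a ha
        change σ (-a) = -a
        rw [map_neg, show σ a = a from ha]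
      mul_mem' := by
        intro a b ha hb
        change σ (a * b) = a * b
        rw [map_mul, show σ a = a from ha, show σ b = b from hb] }
  let S : Subring Ω := (DP P hP ⊓ Fx).map (algebraMap F Ω)
  have hS : ∀ z : Ω, z ∈ S ↔ ∃ h : z ∈ F, (⟨z, h⟩ : F) ∈ DP P hP ∧ σ ⟨z, h⟩ = ⟨z, h⟩ := by
    intro z
    constructor
    · rintro ⟨y, ⟨hy1, hy2⟩, rfl⟩
      exact ⟨y.2, hy1, hy2⟩
    · rintro ⟨h, h1, h2⟩
      exact ⟨⟨z, h⟩, ⟨h1, h2⟩, rfl⟩
  have key : ∀ j ≤ J, ∀ z ∈ Mj p (algebraMap K Ω x) e j, z ∈ S := by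
    intro j
    induction j with
    | zero =>
      intro _ z hz
      have hle : Mj p (algebraMap K Ω x) e 0 ≤ Submodule.span (ZMod p)
          ((Vq p Ω e : Set Ω) ∪ {algebraMap K Ω x}) := by
        rw [Mj, Submodule.span_union, Submodule.span_eq]
      refine span_le_addSubgroup S.toAddSubgroup ?_ (hle hz)
      intro y hy
      change y ∈ S
      rw [hS]
      rcases hy with hy | hy
      · obtain ⟨c, rfl, -⟩ := exists_const_of_pow_eq (k := k) he hy
        have h1 : algebraMap k Ω c ∈ F := by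
          rw [IsScalarTower.algebraMap_apply k K Ω]
          exact IntermediateField.algebraMap_mem _ _
        exact ⟨h1, algebraMap_mem_DP c, σ.commutes c⟩
      · rw [Set.mem_singleton_iff] at hy
        subst hy
        exact ⟨IntermediateField.algebraMap_mem _ _, hxD, hσx⟩
    | succ j ih =>
      intro hj z hz
      have hzF : z ∈ F := by
        rw [hF]
        exact IntermediateField.subset_adjoin K _ (Mj_mono hj hz)
      rw [mem_Mj_succ] at hz
      have h1 := pow_le_subring S _ (ih (Nat.le_of_succ_le hj)) _ _ hz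
      rw [hS] at h1
      obtain ⟨h2, h3, h4⟩ := h1
      set w : F := ⟨z, hzF⟩ with hw
      have hww : w ^ p - w = ⟨z ^ p - z, h2⟩ := rfl
      have hwD : w ∈ DP P hP := by
        apply root_mem_DP (p := p)
        rw [hww]; exact h3
      rw [hS]
      refine ⟨hzF, hwD, ?_⟩
      -- `σ w - w` is in the prime field
      have h5 : (σ w - w) ^ p = σ w - w := by
        have h6 : σ (w ^ p - w) = w ^ p - w := by rw [hww]; exact h4
        rw [map_sub, map_pow] at h6
        have h7 := wp_sub (p := p) (σ w) w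
        rw [h6, sub_self] at h7
        exact sub_eq_zero.mp h7
      obtain ⟨i, hi⟩ := exists_zmod_of_pow_eq (p := p) h5
      have h6 : σ w - w = algebraMap k F (i.val : k) := by
        rw [hi, map_natCast]
        conv_lhs => rw [← ZMod.natCast_zmod_val i, map_natCast]
      have h7 := fixes_sub_lt hσP hwD
      rw [h6] at h7
      have h8 := const_eq_zero_of_lt hP h7
      rw [h8, map_zero] at h6
      exact sub_eq_zero.mp h6
  -- conclusion
  obtain ⟨τ, hτ⟩ := exists_linear hgen F σ hσx
  have h1 : ∀ z : Ω, ∀ hz : z ∈ F, σ ⟨z, hz⟩ = ⟨z, hz⟩ := by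
    intro z hz
    have hz' := hz
    rw [hF] at hz'
    unfold Fj at hz'
    induction hz' using IntermediateField.adjoin_induction with
    | mem z hz' =>
      have := key J le_rfl z hz'
      rw [hS] at this
      exact this.2.2
    | algebraMap y =>
      rw [← hτ]
      exact τ.commutes y
    | add y z hy' hz' hy hz'' =>
      have hyF : y ∈ F := by rw [hF]; exact hy'
      have hzF : z ∈ F := by rw [hF]; exact hz'
      have e1 : (⟨y + z, hz⟩ : F) = ⟨y, hyF⟩ + ⟨z, hzF⟩ := rfl
      rw [e1, map_add, hy, hz'']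
    | inv y hy' hy =>
      have hyF : y ∈ F := by rw [hF]; exact hy'
      have e1 : (⟨y⁻¹, hz⟩ : F) = (⟨y, hyF⟩)⁻¹ := rfl
      rw [e1, map_inv₀, hy]
    | mul y z hy' hz' hy hz'' =>
      have hyF : y ∈ F := by rw [hF]; exact hy'
      have hzF : z ∈ F := by rw [hF]; exact hz'
      have e1 : (⟨y * z, hz⟩ : F) = ⟨y, hyF⟩ * ⟨z, hzF⟩ := rfl
      rw [e1, map_mul, hy, hz'']
  ext z
  exact congrArg Subtype.val (h1 z.1 z.2)

end moved

end Pool.Agent.Helper32
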