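import Mathlib
import Pool.Agent.Helper32.AS21
import Pool.Agent.Helper32.AS10

/-!
# The rational function field
-/

namespace Pool.Agent.Helper32

open Polynomial WithZero

set_option linter.unusedSectionVars false

section ratfunc

variable {k : Type*} [Field k]

lemma gen_ratFunc (Ω : Type*) [Field Ω] [Algebra k Ω] :
    Gen (K := RatFunc k) k Ω (RatFunc.X : RatFunc k) := by
  intro f g h
  have h1 : (f : RatFunc k →+* Ω) = (g : RatFunc k →+* Ω) := by
    apply IsLocalization.ringHom_ext (nonZeroDivisors (Polynomial k))
    have h2 : f.comp (IsScalarTower.toAlgHom k (Polynomial k) (RatFunc k)) =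
        g.comp (IsScalarTower.toAlgHom k (Polynomial k) (RatFunc k)) := by
      apply Polynomial.algHom_ext
      change f (algebraMap (Polynomial k) (RatFunc k) X) = g (algebraMap (Polynomial k) (RatFunc k) X)
      rw [RatFunc.algebraMap_X]
      exact h
    have h3 : ∀ q : Polynomial k, f (algebraMap (Polynomial k) (RatFunc k) q) =
        g (algebraMap (Polynomial k) (RatFunc k) q) := fun q => DFunLike.congr_fun h2 q
    exact RingHom.ext h3
  ext z
  exact DFunLike.congr_fun h1 z

lemma trans_ratFunc : Trans (K := RatFunc k) k (RatFunc.X : RatFunc k) := by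
  intro a
  refine ⟨IsFractionRing.algEquivOfAlgEquiv (Polynomial.algEquivAevalXAddC a), ?_⟩
  rw [← RatFunc.algebraMap_X, IsFractionRing.algEquivOfAlgEquiv_algebraMap]
  simp [Polynomial.algEquivAevalXAddC, RatFunc.algebraMap_C]

lemma lin_ratFunc [IsAlgClosed k] : Lin (K := RatFunc k) k (RatFunc.X : RatFunc k) := by
  intro V hk hX hc
  have hpoly : ∀ q : Polynomial k, algebraMap (Polynomial k) (RatFunc k) q ∈ V := by
    intro q
    induction q using Polynomial.induction_on' with
    | add a b ha hb => rw [map_add]; exact add_mem ha hb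
    | monomial m c =>
      rw [← C_mul_X_pow_eq_monomial, map_mul, map_pow, RatFunc.algebraMap_X]
      refine mul_mem ?_ (pow_mem hX m)
      rw [RatFunc.algebraMap_C]
      exact hk c
  have hinv : ∀ q : Polynomial k, q ≠ 0 → (algebraMap (Polynomial k) (RatFunc k) q)⁻¹ ∈ V := by
    intro q hq
    have hs := (IsAlgClosed.splits q).eq_prod_roots
    have h1 : ∀ s : Multiset k, ((algebraMap (Polynomial k) (RatFunc k)
        (s.map (fun a => X - C a)).prod))⁻¹ ∈ V := by
      intro s
      induction s using Multiset.induction_on with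
      | empty => simp [one_mem]
      | cons a s ih =>
        rw [Multiset.map_cons, Multiset.prod_cons, map_mul, mul_inv]
        refine mul_mem ?_ ih
        have := hc a
        rw [map_sub, RatFunc.algebraMap_X, RatFunc.algebraMap_C]
        exact this
    rw [hs, map_mul, mul_inv]
    refine mul_mem ?_ (h1 _)
    rw [RatFunc.algebraMap_C, ← map_inv₀]
    exact hk _
  rw [eq_top_iff]
  intro z _
  obtain ⟨a, b, hb, rfl⟩ := IsFractionRing.div_surjective (A := Polynomial k) z
  rw [div_eq_mul_inv]
  exact mul_mem (hpoly a) (hinv b (nonZeroDivisors.ne_zero hb))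

end ratfunc

end Pool.Agent.Helper32
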