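import Mathlib
import Pool.Agent.Helper32.AS22

/-!
# Partial fractions in Dedekind domains
-/

namespace Pool.Agent.Helper32

open Polynomial WithZero IsDedekindDomain

set_option linter.unusedSectionVars false

section dedekind

variable {R F : Type*} [CommRing R] [IsDedekindDomain R] [Field F] [Algebra R F]
  [IsFractionRing R F]

lemma val_ne_top (w : HeightOneSpectrum R) : (w.valuation F).valuationSubring ≠ ⊤ := by
  intro h
  obtain ⟨π, hπ⟩ := w.valuation_exists_uniformizer F
  have h1 : π⁻¹ ∈ (w.valuation F).valuationSubring := by rw [h]; trivial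
  rw [Valuation.mem_valuationSubring_iff, map_inv₀, hπ, ← exp_neg, ← exp_zero, exp_le_exp] at h1
  norm_num at h1

lemma algebraMap_mem_val (w : HeightOneSpectrum R) (r : R) :
    algebraMap R F r ∈ (w.valuation F).valuationSubring := w.valuation_le_one r

/-- an element in all valuation rings over `R` is in `R` -/
lemma mem_range_of_forall {f : F} (hf : ∀ V : ValuationSubring F, (∀ r : R, algebraMap R F r ∈ V) →
    V ≠ ⊤ → f ∈ V) : f ∈ (algebraMap R F).range := by
  apply HeightOneSpectrum.mem_integers_of_valuation_le_one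
  intro w
  exact hf _ (algebraMap_mem_val w) (val_ne_top w)

/-- a valuation ring over `R` is the ring of a prime -/
lemma exists_prime_of_valuationSubring {V : ValuationSubring F} (hV : ∀ r : R, algebraMap R F r ∈ V)
    (htop : V ≠ ⊤) : ∃ w : HeightOneSpectrum R, V = (w.valuation F).valuationSubring := by
  let ι : R →+* V := (algebraMap R F).codRestrict V.toSubring hV
  let 𝔭 : Ideal R := (IsLocalRing.maximalIdeal V).comap ι
  have hprime : 𝔭.IsPrime := Ideal.IsPrime.comap ι
  have hmem : ∀ r : R, r ∈ 𝔭 ↔ V.valuation (algebraMap R F r) < 1 := by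
    intro r
    exact ValuationSubring.valuation_lt_one_iff V (ι r)
  have hinv : ∀ r : R, r ∉ 𝔭 → (algebraMap R F r)⁻¹ ∈ V := by
    intro r hr
    rw [hmem, not_lt] at hr
    rw [← ValuationSubring.valuation_le_one_iff, map_inv₀]
    exact inv_le_one_of_one_le₀ hr
  have hne : 𝔭 ≠ ⊥ := by
    intro h0
    apply htop
    rw [eq_top_iff]
    intro z _
    obtain ⟨a, b, hb, rfl⟩ := IsFractionRing.div_surjective (A := R) z
    rw [div_eq_mul_inv]
    refine mul_mem (hV a) (hinv b ?_)
    rw [h0]
    exact nonZeroDivisors.ne_zero hb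
  let w : HeightOneSpectrum R := ⟨𝔭, hprime, hne⟩
  refine ⟨w, ?_⟩
  obtain ⟨x, hx⟩ : ∃ x : F, x ∉ V := by
    by_contra hcon
    push Not at hcon
    apply htop
    rw [eq_top_iff]
    intro z _
    exact hcon z
  apply valuationSubring_maximal V _ hx
  intro z hz
  obtain ⟨n, d, hnd⟩ := w.exists_primeCompl_mul_eq_of_integer z hz
  have hd0 : algebraMap R F d ≠ 0 := by
    intro h0
    have h1 : (d : R) = 0 := (IsFractionRing.to_map_eq_zero_iff (K := F)).mp h0
    apply d.2
    rw [h1]
    exact zero_mem _
  have h1 : z = algebraMap R F n * (algebraMap R F d)⁻¹ := by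
    rw [← hnd]; field_simp
  rw [h1]
  exact mul_mem (hV n) (hinv d d.2)

/-- decomposition into simple fractions -/
lemma exists_partial_fraction (w : HeightOneSpectrum R) (c : F) :
    ∃ h : F, w.valuation F (c - h) ≤ 1 ∧
      ∀ w' : HeightOneSpectrum R, w' ≠ w → w'.valuation F h ≤ 1 := by
  classical
  obtain ⟨a, b, hb, rfl⟩ := IsFractionRing.div_surjective (A := R) c
  have hb0 : b ≠ 0 := nonZeroDivisors.ne_zero hb
  have hbF : algebraMap R F b ≠ 0 := by
    intro h0
    exact hb0 ((IsFractionRing.to_map_eq_zero_iff (K := F)).mp h0)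
  have hI : Ideal.span {b} ≠ 0 := by
    rw [ne_eq, Ideal.zero_eq_bot, Ideal.span_singleton_eq_bot]; exact hb0
  have hfin : {v : HeightOneSpectrum R | v.asIdeal ∣ Ideal.span {b}}.Finite :=
    Ideal.finite_factors hI
  let s : Finset (HeightOneSpectrum R) := insert w hfin.toFinset
  have hval : ∀ v : HeightOneSpectrum R, ∃ m : ℕ, v.intValuation b = exp (-(m : ℤ)) := by
    intro v
    rw [v.intValuation_if_neg hb0]
    exact ⟨_, rfl⟩
  choose e he using hval
  obtain ⟨y, hy⟩ := IsDedekindDomain.exists_forall_sub_mem_ideal (s := s)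
    (fun v : HeightOneSpectrum R => v.asIdeal) e (fun v _ => v.prime)
    (fun i _ j _ hij h => hij (HeightOneSpectrum.ext h)) (fun v => if (v : HeightOneSpectrum R) = w
      then 1 else 0)
  refine ⟨algebraMap R F (a * y) / algebraMap R F b, ?_, ?_⟩
  · have h1 : algebraMap R F a / algebraMap R F b - algebraMap R F (a * y) / algebraMap R F b =
        algebraMap R F (a * (1 - y)) / algebraMap R F b := by
      rw [map_mul, map_mul, map_sub, map_one]; field_simp
    rw [h1, map_div₀, w.valuation_of_algebraMap, w.valuation_of_algebraMap, he w,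
      div_le_one₀ (exp_pos' _), map_mul]
    have h2 := hy w (Finset.mem_insert_self _ _)
    rw [if_pos rfl, ← w.intValuation_le_pow_iff_mem] at h2
    have h3 : w.intValuation (1 - y) ≤ exp (-(e w : ℤ)) := by
      have : (1 : R) - y = -(y - 1) := by ring
      rw [this, Valuation.map_neg]; exact h2
    calc w.intValuation a * w.intValuation (1 - y) ≤ 1 * exp (-(e w : ℤ)) := by
          gcongr
          exact w.intValuation_le_one a
      _ = _ := one_mul _
  · intro w' hw'
    rw [map_div₀, w'.valuation_of_algebraMap, w'.valuation_of_algebraMap, he w',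
      div_le_one₀ (exp_pos' _), map_mul]
    have h3 : w'.intValuation y ≤ exp (-(e w' : ℤ)) := by
      by_cases hs : w' ∈ s
      · have h2 := hy w' hs
        rw [if_neg hw', sub_zero, ← w'.intValuation_le_pow_iff_mem] at h2
        exact h2
      · have h2 : ¬ w'.asIdeal ∣ Ideal.span {b} := by
          intro h
          apply hs
          exact Finset.mem_insert_of_mem (by simpa using h)
        rw [← w'.intValuation_lt_one_iff_dvd, not_lt] at h2
        rw [← he w']
        exact (w'.intValuation_le_one y).trans h2
    calc w'.intValuation a * w'.intValuation y ≤ 1 * exp (-(e w' : ℤ)) := by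
          gcongr
          exact w'.intValuation_le_one a
      _ = _ := one_mul _

end dedekind

end Pool.Agent.Helper32
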