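import Mathlib
import Pool.Agent.Helper32.AS23

/-!
# The genus through repartitions
-/

namespace Pool.Agent.Helper32

open Polynomial WithZero IsDedekindDomain

set_option linter.unusedSectionVars false

section fins

variable {k K F : Type*} [Field k] [Field K] [Field F] [Algebra k K] [Algebra k F] [Algebra K F]
  [IsScalarTower k K F] [Algebra (Polynomial k) K] [IsFractionRing (Polynomial k) K]
  [IsScalarTower k (Polynomial k) K] [FiniteDimensional K F] [Algebra.IsSeparable K F]
  {x : F}

/-- finite valuation rings -/
def FinVal (k : Type*) {F : Type*} [Field k] [Field F] [Algebra k F] (x : F)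
    (V : ValuationSubring F) : Prop :=
  (∀ c : k, algebraMap k F c ∈ V) ∧ x ∈ V ∧ V ≠ ⊤

lemma Rint_and_partial_fractions
    (hx : x = algebraMap K F (algebraMap (Polynomial k) K X)) :
    (∀ f : F, (∀ V : ValuationSubring F, FinVal k x V → f ∈ V) → f ∈ Rint k x) ∧
    (∀ (V : ValuationSubring F), FinVal k x V → ∀ c : F, ∃ h : F, c - h ∈ V ∧
      ∀ V' : ValuationSubring F, FinVal k x V' → V' ≠ V → h ∈ V') := by
  let _ : Algebra (Polynomial k) F := (aeval x : Polynomial k →ₐ[k] F).toRingHom.toAlgebra
  have hmem : ∀ b : F, b ∈ Rint k x ↔ IsIntegral (Polynomial k) b := fun b => Iff.rfl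
  have hst : IsScalarTower (Polynomial k) K F := by
    apply IsScalarTower.of_algebraMap_eq
    intro q
    change aeval x q = _
    have h1 : (aeval x : Polynomial k →ₐ[k] F) = (IsScalarTower.toAlgHom k K F).comp
        (IsScalarTower.toAlgHom k (Polynomial k) K) := by
      apply Polynomial.algHom_ext
      rw [aeval_X, hx]
      rfl
    rw [h1]
    rfl
  let R := integralClosure (Polynomial k) F
  have hD : IsDedekindDomain R := integralClosure.isDedekindDomain (Polynomial k) K F
  have hFr : IsFractionRing R F :=
    integralClosure.isFractionRing_of_finite_extension (A := Polynomial k) K F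
  have hRV : ∀ V : ValuationSubring F, (∀ c : k, algebraMap k F c ∈ V) → x ∈ V →
      ∀ r : R, algebraMap R F r ∈ V := by
    intro V hk hxV r
    exact Rint_le_valuationSubring V hk hxV r.2
  have hVR : ∀ V : ValuationSubring F, (∀ r : R, algebraMap R F r ∈ V) →
      (∀ c : k, algebraMap k F c ∈ V) ∧ x ∈ V := by
    intro V hr
    refine ⟨fun c => ?_, ?_⟩
    · exact hr ⟨algebraMap k F c, (Rint k x).algebraMap_mem c⟩
    · exact hr ⟨x, self_mem_Rint x⟩
  have hw : ∀ w : HeightOneSpectrum R, FinVal k x (w.valuation F).valuationSubring := by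
    intro w
    obtain ⟨h1, h2⟩ := hVR _ (algebraMap_mem_val w)
    exact ⟨h1, h2, val_ne_top w⟩
  constructor
  · intro f hf
    rw [hmem]
    obtain ⟨r, hr⟩ := mem_range_of_forall (R := R) (f := f) (fun V hV htop =>
      hf V ⟨(hVR V hV).1, (hVR V hV).2, htop⟩)
    rw [← hr]
    exact r.2
  · intro V hV c
    obtain ⟨w, hwV⟩ := exists_prime_of_valuationSubring (R := R) (hRV V hV.1 hV.2.1) hV.2.2
    obtain ⟨h, h1, h2⟩ := exists_partial_fraction w c
    refine ⟨h, ?_, ?_⟩
    · rw [hwV]; exact h1
    · intro V' hV' hne
      obtain ⟨w', hwV'⟩ := exists_prime_of_valuationSubring (R := R) (hRV V' hV'.1 hV'.2.1) hV'.2.2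
      rw [hwV']
      refine h2 w' ?_
      rintro rfl
      exact hne (hwV'.trans hwV.symm)

end fins

section genus

variable {p : ℕ} [hp : Fact p.Prime] {k F : Type*} [Field k] [Field F] [Algebra k F] [CharP k p]
  {x : F} {n g : ℕ} {v : Valuation F (WithZero (Multiplicative ℤ))}

/-- the elements with pole order at most `0` -/
def Oint (k : Type*) {F : Type*} [Field k] [Field F] [Algebra k F]
    (v : Valuation F (WithZero (Multiplicative ℤ))) (hv : ∀ c : k, v (algebraMap k F c) ≤ 1) :
    Submodule k F where
  carrier := {f | v f ≤ 1}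
  zero_mem' := by simp
  add_mem' := fun ha hb => (v.map_add _ _).trans (max_le ha hb)
  smul_mem' := by
    intro c f hf
    change v (c • f) ≤ 1
    rw [Algebra.smul_def, map_mul]
    exact mul_le_one' (hv c) hf

lemma genus_eq (L : IsLevel p k x n g v)
    (h1 : ∀ f : F, (∀ V : ValuationSubring F, FinVal k x V → f ∈ V) → f ∈ Rint k x)
    (h2 : ∀ (V : ValuationSubring F), FinVal k x V → ∀ c : F, ∃ h : F, c - h ∈ V ∧
      ∀ V' : ValuationSubring F, FinVal k x V' → V' ≠ V → h ∈ V') :
    genus k F = Module.finrank k
      (F ⧸ (Subalgebra.toSubmodule (Rint k x) ⊔ Oint k v L.v_const_le)) := by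
  classical
  set W := Subalgebra.toSubmodule (Rint k x) ⊔ Oint k v L.v_const_le with hW
  set N := (integralFamilies k F ⊔ constantFamilies k F).comap (repartitions k F).subtype with hN
  have hfin : ∀ P : Place k F, P ≠ L.place → FinVal k x P.1 := by
    intro P hP
    refine ⟨P.2.1, ?_, P.2.2⟩
    by_contra hx
    apply hP
    apply Subtype.ext
    exact L.unique P.1 P.2.1 hx
  have hplace : ∀ V : ValuationSubring F, ∀ hV : FinVal k x V,
      (⟨V, hV.1, hV.2.2⟩ : Place k F) ≠ L.place := by
    intro V hV h
    apply L.x_notMem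
    have h3 : V = v.valuationSubring := congrArg (fun P : Place k F => P.1) h
    rw [← h3]; exact hV.2.1
  -- the map
  let φ₀ : F →ₗ[k] (Place k F → F) :=
    { toFun := fun f P => if P = L.place then f else 0
      map_add' := by
        intro a b
        funext P
        by_cases hP : P = L.place <;> simp [hP]
      map_smul' := by
        intro c a
        funext P
        by_cases hP : P = L.place <;> simp [hP] }
  have hφs : ∀ f, φ₀ f L.place = f := fun f => if_pos rfl
  have hφn : ∀ f P, P ≠ L.place → φ₀ f P = 0 := fun f P hP => if_neg hP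
  have hφ₀ : ∀ f, φ₀ f ∈ repartitions k F := by
    intro f
    refine (Set.finite_singleton L.place).subset ?_
    intro P hP
    by_contra hne
    apply hP
    have : φ₀ f P = 0 := hφn f P hne
    rw [this]
    exact zero_mem _
  let φ : F →ₗ[k] repartitions k F := φ₀.codRestrict (repartitions k F) hφ₀
  let ψ : F →ₗ[k] (repartitions k F ⧸ N) := N.mkQ.comp φ
  have hker : LinearMap.ker ψ = W := by
    ext f
    rw [LinearMap.mem_ker, LinearMap.comp_apply, Submodule.mkQ_apply, Submodule.Quotient.mk_eq_zero,
      hN, Submodule.mem_comap, hW]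
    change φ₀ f ∈ _ ↔ _
    rw [Submodule.mem_sup, Submodule.mem_sup]
    constructor
    · rintro ⟨r, hr, s, ⟨h, hs⟩, hrs⟩
      refine ⟨h, ?_, f - h, ?_, by ring⟩
      · apply h1
        intro V hV
        have h3 := congrFun hrs ⟨V, hV.1, hV.2.2⟩
        have h4 : φ₀ f ⟨V, hV.1, hV.2.2⟩ = 0 := hφn f _ (hplace V hV)
        rw [h4, Pi.add_apply, hs] at h3
        have h5 : h = -r ⟨V, hV.1, hV.2.2⟩ := by linear_combination h3
        rw [h5]
        exact neg_mem (hr ⟨V, hV.1, hV.2.2⟩)
      · have h3 := congrFun hrs L.place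
        have h4 : φ₀ f L.place = f := hφs f
        rw [h4, Pi.add_apply, hs] at h3
        have h5 : f - h = r L.place := by linear_combination -h3
        change v (f - h) ≤ 1
        rw [h5]
        exact hr L.place
    · rintro ⟨r, hr, o, ho, hro⟩
      refine ⟨fun P => φ₀ f P - r, ?_, fun _ => r, ⟨r, fun _ => rfl⟩, ?_⟩
      · intro P
        by_cases hP : P = L.place
        · subst hP
          have h4 : φ₀ f L.place = f := hφs f
          change φ₀ f L.place - r ∈ L.place.1
          rw [h4, ← hro, add_sub_cancel_left]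
          exact ho
        · have h4 : φ₀ f P = 0 := hφn f P hP
          change φ₀ f P - r ∈ P.1
          rw [h4, zero_sub]
          exact neg_mem (Rint_le_valuationSubring P.1 P.2.1 (hfin P hP).2.1 hr)
      · funext P
        simp
  -- strong approximation
  have happ : ∀ (s : Finset (Place k F)) (r : Place k F → F), (∀ P ∈ s, P ≠ L.place) →
      ∃ h : F, (∀ P ∈ s, r P - h ∈ P.1) ∧ ∀ P : Place k F, P ≠ L.place → P ∉ s → h ∈ P.1 := by
    intro s
    induction s using Finset.induction_on with
    | empty => intro r _; exact ⟨0, by simp, fun P _ _ => zero_mem _⟩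
    | insert P₀ s hP₀ ih =>
      intro r hr
      obtain ⟨h, hh1, hh2⟩ := ih r (fun P hP => hr P (Finset.mem_insert_of_mem hP))
      obtain ⟨h', hh1', hh2'⟩ := h2 P₀.1 (hfin P₀ (hr P₀ (Finset.mem_insert_self _ _)))
        (r P₀ - h)
      have hother : ∀ P : Place k F, P ≠ L.place → P ≠ P₀ → h' ∈ P.1 := by
        intro P hP hPP
        exact hh2' P.1 (hfin P hP) (fun heq => hPP (Subtype.ext heq))
      refine ⟨h + h', ?_, ?_⟩
      · intro P hP
        rw [Finset.mem_insert] at hP
        rcases hP with rfl | hP
        · have : r P - (h + h') = r P - h - h' := by ring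
          rw [this]; exact hh1'
        · have hPP : P ≠ P₀ := by rintro rfl; exact hP₀ hP
          have : r P - (h + h') = (r P - h) - h' := by ring
          rw [this]
          exact sub_mem (hh1 P hP) (hother P (hr P (Finset.mem_insert_of_mem hP)) hPP)
      · intro P hP hPs
        rw [Finset.mem_insert, not_or] at hPs
        exact add_mem (hh2 P hP hPs.2) (hother P hP hPs.1)
  have hsurj : Function.Surjective ψ := by
    intro y
    obtain ⟨⟨r, hr⟩, rfl⟩ := N.mkQ_surjective y
    have hr' : {P : Place k F | r P ∉ P.1}.Finite := hr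
    obtain ⟨h, hh1, hh2⟩ := happ (hr'.toFinset.erase L.place) r (fun P hP =>
      Finset.ne_of_mem_erase hP)
    refine ⟨r L.place - h, ?_⟩
    rw [LinearMap.comp_apply, Submodule.mkQ_apply, Submodule.mkQ_apply, Submodule.Quotient.eq, hN,
      Submodule.mem_comap]
    change φ₀ (r L.place - h) - r ∈ _
    rw [Submodule.mem_sup]
    refine ⟨fun P => φ₀ (r L.place - h) P - r P + h, ?_, fun _ => -h, ⟨-h, fun _ => rfl⟩, ?_⟩
    · intro P
      by_cases hP : P = L.place
      · subst hP
        have h4 : φ₀ (r L.place - h) L.place = r L.place - h := hφs _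
        change φ₀ (r L.place - h) L.place - r L.place + h ∈ _
        rw [h4]
        have : r L.place - h - r L.place + h = 0 := by ring
        rw [this]
        exact zero_mem _
      · have h4 : φ₀ (r L.place - h) P = 0 := hφn _ P hP
        change φ₀ (r L.place - h) P - r P + h ∈ _
        rw [h4]
        by_cases hPs : P ∈ hr'.toFinset.erase L.place
        · have := neg_mem (hh1 P hPs)
          have h5 : 0 - r P + h = -(r P - h) := by ring
          rw [h5]; exact this
        · have h6 : r P ∈ P.1 := by
            by_contra hcon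
            apply hPs
            rw [Finset.mem_erase]
            exact ⟨hP, by simpa using hcon⟩
          have h5 : 0 - r P + h = h - r P := by ring
          rw [h5]
          exact sub_mem (hh2 P hP hPs) h6
    · funext P
      simp only [Pi.add_apply, Pi.sub_apply]
      ring
  have e := ψ.quotKerEquivOfSurjective hsurj
  rw [hker] at e
  exact e.finrank_eq.symm

end genus

end Pool.Agent.Helper32
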