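import Mathlib
import Pool.Agent.Helper32.AS24

/-!
# Bounds for the genus
-/

namespace Pool.Agent.Helper32

open Polynomial WithZero
open scoped commutatorElement

set_option linter.unusedSectionVars false

section bounds

variable {p : ℕ} [hp : Fact p.Prime] {k F : Type*} [Field k] [Field F] [Algebra k F] [CharP k p]
  {x : F} {n g : ℕ} {v : Valuation F (WithZero (Multiplicative ℤ))}

/-- the subspace `R + O` -/
def Wsub (L : IsLevel p k x n g v) : Submodule k F :=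
  Subalgebra.toSubmodule (Rint k x) ⊔ Oint k v L.v_const_le

lemma mem_Wsub {L : IsLevel p k x n g v} {f : F} :
    f ∈ Wsub L ↔ ∃ r ∈ Rint k x, v (f - r) ≤ 1 := by
  rw [Wsub, Submodule.mem_sup]
  constructor
  · rintro ⟨r, hr, o, ho, rfl⟩
    refine ⟨r, hr, ?_⟩
    rw [add_sub_cancel_left]
    exact ho
  · rintro ⟨r, hr, h⟩
    exact ⟨r, hr, f - r, h, by ring⟩

lemma quot_finite_le (L : IsLevel p k x n g v) :
    Module.Finite k (F ⧸ Wsub L) ∧ Module.finrank k (F ⧸ Wsub L) ≤ g := by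
  obtain ⟨S, hS, hSg, hd⟩ := L.dim
  have hsurj : Function.Surjective ((Wsub L).mkQ.comp S.subtype) := by
    intro y
    obtain ⟨a, rfl⟩ := (Wsub L).mkQ_surjective y
    obtain ⟨r, hr, s, hs, h⟩ := hd a
    refine ⟨⟨s, hs⟩, ?_⟩
    rw [LinearMap.comp_apply, Submodule.subtype_apply, Submodule.mkQ_apply, Submodule.mkQ_apply,
      Submodule.Quotient.eq, mem_Wsub]
    refine ⟨-r, neg_mem hr, ?_⟩
    have : s - a - -r = -(a - r - s) := by ring
    rw [this, Valuation.map_neg]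
    exact h
  exact ⟨Module.Finite.of_surjective _ hsurj,
    (LinearMap.finrank_le_finrank_of_surjective hsurj).trans hSg⟩

lemma mem_Rint_trans {x' y : F} (hx' : x' ∈ Rint k x) (hy : y ∈ Rint k x') : y ∈ Rint k x := by
  obtain ⟨q, hq, h0⟩ := hy
  refine mem_Rint_of_monic (q.map (aeval x' : Polynomial k →ₐ[k] F).toRingHom) (hq.map _) ?_ ?_
  · intro i
    rw [coeff_map]
    change aeval x' (q.coeff i) ∈ Rint k x
    rw [aeval_eq_sum_range]
    refine sum_mem fun j _ => ?_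
    exact (Rint k x).smul_mem (pow_mem hx' j) _
  · rw [eval_map]; exact h0

lemma aut_mem_Rint {σ : F ≃ₐ[k] F} {a : k} (hσ : σ x = x + algebraMap k F a) {y : F}
    (hy : y ∈ Rint k x) : σ y ∈ Rint k x := by
  have h1 := map_mem_Rint (σ : F →ₐ[k] F) hy
  refine mem_Rint_trans ?_ h1
  change σ x ∈ Rint k x
  rw [hσ]
  exact add_mem (self_mem_Rint x) ((Rint k x).algebraMap_mem a)

/-- an automorphism fixing a uniformizer is trivial -/
lemma IsLevel.eq_one_of_unif (L : IsLevel p k x n g v) {σ : F ≃ₐ[k] F} (h : ∀ z, v (σ z) = v z)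
    {t : F} (ht : v t = exp (-1 : ℤ)) (hfix : σ t = t) : σ = 1 := by
  have key : ∀ z, v z ≤ 1 → σ z = z := by
    intro z hz
    rw [← sub_eq_zero]
    by_contra hne
    have h1 : v (σ z - z) ≠ 0 := (Valuation.ne_zero_iff v).mpr hne
    obtain ⟨i, hi⟩ : ∃ i : ℤ, v (σ z - z) = exp i := ⟨log _, (exp_log h1).symm⟩
    have h2 := L.ram_of_unif h ht (i := i.natAbs + 1) (by rw [hfix, sub_self, map_zero]; exact zero_le)
      hz
    rw [hi, exp_le_exp] at h2
    push_cast at h2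
    have := neg_abs_le i
    omega
  ext z
  rw [AlgEquiv.one_apply]
  rcases le_or_gt (v z) 1 with hz | hz
  · exact key z hz
  · have h1 := key z⁻¹ (by rw [map_inv₀]; exact inv_le_one_of_one_le₀ hz.le)
    rw [map_inv₀] at h1
    exact inv_injective h1

/-- wild action in multiplicative form -/
lemma IsLevel.wild_mul (L : IsLevel p k x n g v) {σ : F ≃ₐ[k] F} (h : ∀ z, v (σ z) = v z)
    (hw : ∀ s, v s = exp (-1 : ℤ) → v (σ s - s) ≤ exp (-2 : ℤ)) {f : F} (hf : f ≠ 0) :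
    v (σ f - f) ≤ exp (-1 : ℤ) * v f := by
  obtain ⟨t, ht⟩ := L.v_unif
  have ht0 : t ≠ 0 := by
    intro h0
    rw [h0, map_zero] at ht
    exact exp_ne_zero ht.symm
  -- the good elements are closed under product and inverse
  have hmul : ∀ a b : F, v (σ a - a) ≤ exp (-1 : ℤ) * v a → v (σ b - b) ≤ exp (-1 : ℤ) * v b →
      v (σ (a * b) - a * b) ≤ exp (-1 : ℤ) * v (a * b) := by
    intro a b ha hb
    have h1 : σ (a * b) - a * b = (σ a - a) * σ b + a * (σ b - b) := by rw [map_mul]; ring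
    rw [h1]
    refine (v.map_add _ _).trans (max_le ?_ ?_)
    · rw [map_mul, map_mul, h, ← mul_assoc]
      exact mul_le_mul_left ha _
    · rw [map_mul, map_mul]
      calc v a * v (σ b - b) ≤ v a * (exp (-1 : ℤ) * v b) := by gcongr
        _ = exp (-1 : ℤ) * (v a * v b) := mul_left_comm _ _ _
  have hinv : ∀ a : F, a ≠ 0 → v (σ a - a) ≤ exp (-1 : ℤ) * v a →
      v (σ a⁻¹ - a⁻¹) ≤ exp (-1 : ℤ) * v a⁻¹ := by
    intro a ha0 ha
    have hσ0 : σ a ≠ 0 := by simpa using ha0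
    have h1 : σ a⁻¹ - a⁻¹ = -(σ a - a) * (σ a)⁻¹ * a⁻¹ := by
      rw [map_inv₀]; field_simp; ring
    rw [h1, map_mul, map_mul, Valuation.map_neg, map_inv₀, h]
    have hva : v a ≠ 0 := (Valuation.ne_zero_iff v).mpr ha0
    calc v (σ a - a) * (v a)⁻¹ * v a⁻¹ ≤ exp (-1 : ℤ) * v a * (v a)⁻¹ * v a⁻¹ := by gcongr
      _ = exp (-1 : ℤ) * v a⁻¹ := by rw [mul_assoc (exp (-1 : ℤ)), mul_inv_cancel₀ hva, mul_one]
  have hs : ∀ s, v s = exp (-1 : ℤ) → v (σ s - s) ≤ exp (-1 : ℤ) * v s := by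
    intro s hs
    rw [hs, ← exp_add]
    exact hw s hs
  have hunit : ∀ u : F, v u = 1 → v (σ u - u) ≤ exp (-1 : ℤ) * v u := by
    intro u hu
    have h1 : u = (u * t) * t⁻¹ := by field_simp
    rw [h1]
    refine hmul _ _ (hs _ (by rw [map_mul, hu, one_mul, ht])) (hinv t ht0 (hs t ht))
  have hpow : ∀ i : ℕ, v (σ (t ^ i) - t ^ i) ≤ exp (-1 : ℤ) * v (t ^ i) := by
    intro i
    induction i with
    | zero => exact hunit _ (by simp)
    | succ i ih => rw [pow_succ]; exact hmul _ _ ih (hs t ht)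
  have hzpow : ∀ i : ℤ, v (σ (t ^ i) - t ^ i) ≤ exp (-1 : ℤ) * v (t ^ i) := by
    intro i
    obtain ⟨m, rfl | rfl⟩ := i.eq_nat_or_neg
    · rw [zpow_natCast]; exact hpow m
    · rw [zpow_neg, zpow_natCast]; exact hinv _ (pow_ne_zero _ ht0) (hpow m)
  have hvf : v f ≠ 0 := (Valuation.ne_zero_iff v).mpr hf
  obtain ⟨i, hi⟩ : ∃ i : ℤ, v f = exp i := ⟨log _, (exp_log hvf).symm⟩
  have h1 : f = (f * t ^ i) * t ^ (-i) := by
    rw [mul_assoc, ← zpow_add₀ ht0]; simp
  rw [h1]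
  refine hmul _ _ (hunit _ ?_) (hzpow _)
  rw [map_mul, map_zpow₀, hi, ht, ← exp_zsmul, ← exp_add]
  simp

/-- in genus at most one, the derived group is central -/
lemma IsLevel.central_of_finrank_le_one (L : IsLevel p k x n g v) {G : Subgroup (F ≃ₐ[k] F)}
    (hG : ∀ σ ∈ G, ∃ a : k, σ x = x + algebraMap k F a)
    (hGp : ∀ σ ∈ G, ∃ m : ℕ, σ ^ p ^ m = 1) (hfr : Module.finrank k (F ⧸ Wsub L) ≤ 1) :
    ∀ σ ∈ G, ∀ τ ∈ ⁅G, G⁆, σ * τ = τ * σ := by
  obtain ⟨t, ht⟩ := L.v_unif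
  have ht0 : t ≠ 0 := by
    intro h0
    rw [h0, map_zero] at ht
    exact exp_ne_zero ht.symm
  have hval : ∀ σ ∈ G, ∀ z, v (σ z) = v z := by
    intro σ hσ
    obtain ⟨a, ha⟩ := hG σ hσ
    exact aut_val (L.aut_mem ha) ht
  have hwild : ∀ σ ∈ G, ∀ s, v s = exp (-1 : ℤ) → v (σ s - s) ≤ exp (-2 : ℤ) := by
    intro σ hσ s hs
    obtain ⟨m, hm⟩ := hGp σ hσ
    exact L.wild (hval σ hσ) hm hs
  have hR : ∀ σ ∈ G, ∀ y ∈ Rint k x, σ y ∈ Rint k x := by
    intro σ hσ y hy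
    obtain ⟨a, ha⟩ := hG σ hσ
    exact aut_mem_Rint ha hy
  have hle : ⁅G, G⁆ ≤ G := by
    rw [Subgroup.commutator_le]
    intro σ hσ τ hτ
    rw [commutatorElement_def]
    exact mul_mem (mul_mem (mul_mem hσ hτ) (inv_mem hσ)) (inv_mem hτ)
  by_cases hA : ∃ r ∈ Rint k x, v r = exp (1 : ℤ)
  · -- there is a function with a simple pole
    obtain ⟨r, hr, hvr⟩ := hA
    have hr0 : r ≠ 0 := by
      intro h0
      rw [h0, map_zero] at hvr
      exact exp_ne_zero hvr.symm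
    have h1 : ∀ σ ∈ G, ∃ d : k, σ r = r + algebraMap k F d := by
      intro σ hσ
      have h2 := L.wild_mul (hval σ hσ) (hwild σ hσ) hr0
      rw [hvr, ← exp_add] at h2
      obtain ⟨d, hd⟩ := L.R_inter _ (sub_mem (hR σ hσ r hr) hr) (by simpa using h2)
      exact ⟨d, by rw [← hd]; ring⟩
    have h3 : ⁅G, G⁆ = ⊥ := by
      rw [eq_bot_iff, Subgroup.commutator_le]
      intro σ hσ τ hτ
      rw [Subgroup.mem_bot, commutatorElement_eq_one_iff_mul_comm]
      obtain ⟨d, hd⟩ := h1 σ hσ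
      obtain ⟨e, he⟩ := h1 τ hτ
      have hστ := mul_mem hσ hτ
      have hτσ := mul_mem hτ hσ
      have h4 : ((τ * σ)⁻¹ * (σ * τ)) = 1 := by
        have hvr' : v r⁻¹ = exp (-1 : ℤ) := by rw [map_inv₀, hvr, exp_neg]
        refine L.eq_one_of_unif (hval _ (mul_mem (inv_mem hτσ) hστ)) hvr' ?_
        have h5 : (σ * τ) r = (τ * σ) r := by
          rw [AlgEquiv.mul_apply, AlgEquiv.mul_apply, hd, he, map_add, map_add, hd, he,
            AlgEquiv.commutes, AlgEquiv.commutes]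
          ring
        have h6 : ((τ * σ)⁻¹ * (σ * τ)) r = r := by
          rw [AlgEquiv.mul_apply, h5, ← AlgEquiv.mul_apply, inv_mul_cancel]; rfl
        rw [map_inv₀, h6]
      exact (inv_mul_eq_one.mp h4).symm
    intro σ _ τ hτ
    rw [h3, Subgroup.mem_bot] at hτ
    rw [hτ, mul_one, one_mul]
  · -- functions with poles of order two and three
    have hfin := (quot_finite_le L).1
    rw [finrank_le_one_iff] at hfr
    obtain ⟨w₀, hw₀⟩ := hfr
    obtain ⟨c₁, hc₁⟩ := hw₀ (Submodule.Quotient.mk t⁻¹)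
    have hvt : v t⁻¹ = exp (1 : ℤ) := by rw [map_inv₀, ht, ← exp_neg]; rfl
    have hdiff : ∀ {i : ℤ} {f r : F}, 0 < i → v f = exp i → v (f - r) ≤ 1 → v r = exp i := by
      intro i f r hi hf hfr
      have h1 : v (f - r) < v f := by
        refine lt_of_le_of_lt hfr ?_
        rw [hf, ← exp_zero, exp_lt_exp]; exact hi
      have h2 : r = f - (f - r) := by ring
      rw [h2, Valuation.map_sub_eq_of_lt_left _ h1, hf]
    have hc₁0 : c₁ ≠ 0 := by
      rintro rfl
      rw [zero_smul] at hc₁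
      have h1 : t⁻¹ ∈ Wsub L := (Submodule.Quotient.mk_eq_zero _).mp hc₁.symm
      rw [mem_Wsub] at h1
      obtain ⟨r, hr, h2⟩ := h1
      exact hA ⟨r, hr, hdiff one_pos hvt h2⟩
    have hex : ∀ i : ℤ, 1 < i → ∃ r ∈ Rint k x, v r = exp i := by
      intro i hi
      obtain ⟨c, hc⟩ := hw₀ (Submodule.Quotient.mk (t ^ (-i)))
      have hvti : v (t ^ (-i)) = exp i := by
        rw [map_zpow₀, ht, ← exp_zsmul]; simp
      have h1 : t ^ (-i) - (c / c₁) • t⁻¹ ∈ Wsub L := by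
        rw [← Submodule.Quotient.mk_eq_zero, Submodule.Quotient.mk_sub, Submodule.Quotient.mk_smul,
          ← hc, ← hc₁, smul_smul, div_mul_cancel₀ _ hc₁0, sub_self]
      rw [mem_Wsub] at h1
      obtain ⟨r, hr, h2⟩ := h1
      refine ⟨r, hr, ?_⟩
      have h3 : v (t ^ (-i) - (c / c₁) • t⁻¹) = exp i := by
        rw [Valuation.map_sub_eq_of_lt_left, hvti]
        rw [hvti, Algebra.smul_def, map_mul, hvt]
        calc v (algebraMap k F (c / c₁)) * exp (1 : ℤ) ≤ 1 * exp (1 : ℤ) := by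
              gcongr
              exact L.v_const_le _
          _ = exp (1 : ℤ) := one_mul _
          _ < exp i := by rw [exp_lt_exp]; exact hi
      exact hdiff (by omega) h3 h2
    obtain ⟨r₂, hr₂, hv₂⟩ := hex 2 (by norm_num)
    obtain ⟨r₃, hr₃, hv₃⟩ := hex 3 (by norm_num)
    have hne : ∀ {r : F} {i : ℤ}, v r = exp i → r ≠ 0 := by
      intro r i h h0
      rw [h0, map_zero] at h
      exact exp_ne_zero h.symm
    have hsmall : ∀ y ∈ Rint k x, v y ≤ exp (1 : ℤ) → ∃ c : k, y = algebraMap k F c := by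
      intro y hy h
      apply L.R_inter y hy
      have h1 : v y < exp (1 : ℤ) := lt_of_le_of_ne h (fun h2 => hA ⟨y, hy, h2⟩)
      have := le_exp_pred h1
      simpa using this
    have h2 : ∀ σ ∈ G, ∃ d : k, σ r₂ = r₂ + algebraMap k F d := by
      intro σ hσ
      have h3 := L.wild_mul (hval σ hσ) (hwild σ hσ) (hne hv₂)
      rw [hv₂, ← exp_add] at h3
      obtain ⟨d, hd⟩ := hsmall _ (sub_mem (hR σ hσ _ hr₂) hr₂) h3
      exact ⟨d, by rw [← hd]; ring⟩
    have h3 : ∀ σ ∈ G, ∃ e f : k, σ r₃ = r₃ + algebraMap k F e * r₂ + algebraMap k F f := by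
      intro σ hσ
      have h4 := L.wild_mul (hval σ hσ) (hwild σ hσ) (hne hv₃)
      rw [hv₃, ← exp_add] at h4
      obtain ⟨e, he⟩ := L.approx (hne hv₂) (a := σ r₃ - r₃) (by rw [hv₂]; exact h4)
      rw [hv₂] at he
      have h5 : σ r₃ - r₃ - algebraMap k F e * r₂ ∈ Rint k x :=
        sub_mem (sub_mem (hR σ hσ _ hr₃) hr₃) (mul_mem ((Rint k x).algebraMap_mem e) hr₂)
      obtain ⟨f, hf⟩ := hsmall _ h5 (by simpa using le_exp_pred he)
      exact ⟨e, f, by rw [← hf]; ring⟩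
    -- the subgroup
    let N : Subgroup (F ≃ₐ[k] F) :=
      { carrier := {c | c r₂ = r₂ ∧ ∃ κ : k, c r₃ = r₃ + algebraMap k F κ}
        mul_mem' := by
          rintro a b ⟨ha, κ, hκ⟩ ⟨hb, μ, hμ⟩
          refine ⟨by rw [AlgEquiv.mul_apply, hb, ha], κ + μ, ?_⟩
          rw [AlgEquiv.mul_apply, hμ, map_add, hκ, AlgEquiv.commutes, map_add]; ring
        one_mem' := ⟨rfl, 0, by simp⟩
        inv_mem' := by
          rintro a ⟨ha, κ, hκ⟩
          refine ⟨?_, -κ, ?_⟩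
          · apply a.injective
            rw [← AlgEquiv.mul_apply, mul_inv_cancel, ha]; rfl
          · apply a.injective
            rw [← AlgEquiv.mul_apply, mul_inv_cancel, map_add, hκ, AlgEquiv.commutes, map_neg]
            simp }
    have hN : ⁅G, G⁆ ≤ N := by
      rw [Subgroup.commutator_le]
      intro σ hσ τ hτ
      obtain ⟨d, hd⟩ := h2 σ hσ
      obtain ⟨d', hd'⟩ := h2 τ hτ
      obtain ⟨e, f, hef⟩ := h3 σ hσ
      obtain ⟨e', f', hef'⟩ := h3 τ hτ
      have hc : ⁅σ, τ⁆ * (τ * σ) = σ * τ := by rw [commutatorElement_def]; group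
      have e1 : ∀ y, ⁅σ, τ⁆ (τ (σ y)) = σ (τ y) := fun y => DFunLike.congr_fun hc y
      have e2 : ⁅σ, τ⁆ r₂ = r₂ := by
        have := e1 r₂
        simp only [map_add, AlgEquiv.commutes, hd, hd'] at this
        linear_combination this
      refine ⟨e2, e' * d - e * d', ?_⟩
      have := e1 r₃
      rw [hef, hef'] at this
      simp only [map_add, map_mul, AlgEquiv.commutes, hd, hd', hef, hef', e2] at this
      rw [map_sub, map_mul, map_mul]
      linear_combination this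
    intro σ hσ τ hτ
    obtain ⟨hτ2, κ, hτ3⟩ := hN hτ
    obtain ⟨d, hd⟩ := h2 σ hσ
    obtain ⟨e, f, hef⟩ := h3 σ hσ
    have hτG := hle hτ
    have e1 : ((τ * σ)⁻¹ * (σ * τ)) = 1 := by
      have hvs : v (r₂ / r₃) = exp (-1 : ℤ) := by
        rw [map_div₀, hv₂, hv₃, ← exp_sub]; rfl
      refine L.eq_one_of_unif (hval _ (mul_mem (inv_mem (mul_mem hτG hσ)) (mul_mem hσ hτG))) hvs ?_
      have e2 : (σ * τ) r₂ = (τ * σ) r₂ := by
        rw [AlgEquiv.mul_apply, AlgEquiv.mul_apply, hτ2, hd, map_add, hτ2, AlgEquiv.commutes]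
      have e3 : (σ * τ) r₃ = (τ * σ) r₃ := by
        rw [AlgEquiv.mul_apply, AlgEquiv.mul_apply, hτ3, map_add, hef, AlgEquiv.commutes, map_add,
          map_add, map_mul, hτ3, AlgEquiv.commutes, AlgEquiv.commutes, hτ2]
        ring
      have e4 : ∀ y, (σ * τ) y = (τ * σ) y → ((τ * σ)⁻¹ * (σ * τ)) y = y := by
        intro y hy
        rw [AlgEquiv.mul_apply, hy, ← AlgEquiv.mul_apply, inv_mul_cancel]; rfl
      rw [map_div₀, e4 _ e2, e4 _ e3]
    exact (inv_mul_eq_one.mp e1).symm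

end bounds

end Pool.Agent.Helper32
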