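import Mathlib
import Pool.Agent.Helper32.AS22

/-!
# Non-triviality of the Artin-Schreier characters on commutators
-/

namespace Pool.Agent.Helper32

open Polynomial WithZero
open scoped commutatorElement

set_option linter.unusedSectionVars false

section D

variable {p : ℕ} [hp : Fact p.Prime] {k Ω : Type*} [Field k] [Field Ω] [Algebra k Ω] [CharP k p]

/-- the automorphisms translating `X` by an algebraic element -/
def transInf (p : ℕ) [hp : Fact p.Prime] (k : Type*) {Ω : Type*} [Field k] [Field Ω] [Algebra k Ω]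
    [CharP k p] (X : Ω) : Subgroup (Ω ≃ₐ[k] Ω) where
  carrier := {σ | ∃ e, 0 < e ∧ σ ∈ transG p k X e}
  mul_mem' := by
    rintro σ τ ⟨e, he, hσ⟩ ⟨e', he', hτ⟩
    exact ⟨e * e', Nat.mul_pos he he', mul_mem (transG_mono X (dvd_mul_right _ _) hσ)
      (transG_mono X (dvd_mul_left _ _) hτ)⟩
  one_mem' := ⟨1, one_pos, one_mem _⟩
  inv_mem' := by
    rintro σ ⟨e, he, hσ⟩
    exact ⟨e, he, inv_mem hσ⟩

lemma fixG_le_transInf (X : Ω) : fixG k X ≤ transInf p k X :=
  fun _ hσ => ⟨1, one_pos, fixG_le_transG X 1 hσ⟩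

/-- the derived group -/
def Dgrp (p : ℕ) [hp : Fact p.Prime] (k : Type*) {Ω : Type*} [Field k] [Field Ω] [Algebra k Ω]
    [CharP k p] (X : Ω) : Subgroup (Ω ≃ₐ[k] Ω) := ⁅transInf p k X, transInf p k X⁆

lemma Dgrp_le_fixG (X : Ω) : Dgrp p k X ≤ fixG k X := by
  rw [Dgrp, Subgroup.commutator_le]
  rintro σ ⟨e, he, hσ⟩ τ ⟨e', he', hτ⟩
  exact commutator_transG_le X (e * e') (Subgroup.commutator_mem_commutator
    (transG_mono X (dvd_mul_right _ _) hσ) (transG_mono X (dvd_mul_left _ _) hτ))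

lemma Dgrp_exists (X : Ω) {d : Ω ≃ₐ[k] Ω} (hd : d ∈ Dgrp p k X) :
    ∃ e, 0 < e ∧ d ∈ ⁅transG p k X e, transG p k X e⁆ := by
  have hmono : ∀ {e e' : ℕ}, e ∣ e' → ⁅transG p k X e, transG p k X e⁆ ≤
      ⁅transG p k X e', transG p k X e'⁆ := fun h =>
    Subgroup.commutator_mono (transG_mono X h) (transG_mono X h)
  rw [Dgrp, Subgroup.commutator_def] at hd
  induction hd using Subgroup.closure_induction with
  | mem x hx =>
    obtain ⟨σ, ⟨e, he, hσ⟩, τ, ⟨e', he', hτ⟩, rfl⟩ := hx
    exact ⟨e * e', Nat.mul_pos he he', Subgroup.commutator_mem_commutator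
      (transG_mono X (dvd_mul_right _ _) hσ) (transG_mono X (dvd_mul_left _ _) hτ)⟩
  | one => exact ⟨1, one_pos, one_mem _⟩
  | mul x y _ _ hx hy =>
    obtain ⟨e, he, hx⟩ := hx
    obtain ⟨e', he', hy⟩ := hy
    exact ⟨e * e', Nat.mul_pos he he', mul_mem (hmono (dvd_mul_right _ _) hx)
      (hmono (dvd_mul_left _ _) hy)⟩
  | inv x _ hx =>
    obtain ⟨e, he, hx⟩ := hx
    exact ⟨e, he, inv_mem hx⟩

end D

section nontriv

variable {p : ℕ} [hp : Fact p.Prime] {k K Ω : Type*} [Field k] [IsAlgClosed k] [Field K]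
  [Field Ω] [Algebra k K] [Algebra K Ω] [Algebra k Ω] [IsScalarTower k K Ω]
  [CharP k p] [CharP K p] [CharP Ω p]
  {x : K} {vK : Valuation K (WithZero (Multiplicative ℤ))}

/-- an Artin-Schreier root fixed by the Galois group is rational -/
lemma exists_root_of_fixed [IsAlgClosure K Ω] {y : Ω} {c : K} (hy : y ^ p - y = algebraMap K Ω c)
    (hfix : ∀ τ : Ω ≃ₐ[K] Ω, τ y = y) : ∃ y₀ : K, y₀ ^ p - y₀ = c := by
  by_contra hcon
  push Not at hcon
  have hmin := AS_minpoly hy hcon
  have h1 : Algebra.IsAlgebraic K Ω := IsAlgClosure.isAlgebraic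
  have h3 : Normal K Ω := IsAlgClosure.normal K Ω
  have h4 : aeval (y + 1) (minpoly K y) = 0 := by
    rw [hmin]
    simp only [map_sub, map_pow, aeval_X, aeval_C]
    rw [add_pow_char, one_pow, ← hy]
    ring
  obtain ⟨τ, hτ⟩ := minpoly.exists_algEquiv_of_root' (Algebra.IsAlgebraic.isAlgebraic y) h4
  rw [hfix] at hτ
  exact one_ne_zero (left_eq_add.mp hτ)

/-- the relevant Artin-Schreier equation has no rational solution for all translations -/
lemma coeff_compare (hbase : IsLevel p k x 0 0 vK) {γ a : k} {y₀ : K}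
    (hy : y₀ ^ p - y₀ = algebraMap k K γ * ((x + algebraMap k K a) ^ (p + 1) - x ^ (p + 1))) :
    (-(γ * a ^ p)) ^ p = γ * a := by
  have hp2 := hp.out.two_le
  have hvx : vK x = exp (1 : ℤ) := by simpa using hbase.v_x
  have hx0 : x ≠ 0 := by
    intro h0
    rw [h0, map_zero] at hvx
    exact exp_ne_zero hvx.symm
  have hexp : (x + algebraMap k K a) ^ (p + 1) - x ^ (p + 1) =
      algebraMap k K a * x ^ p + algebraMap k K (a ^ p) * x + algebraMap k K (a ^ (p + 1)) := by
    rw [pow_succ, add_pow_char, pow_succ, map_pow, map_pow]; ring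
  have hc : ∀ c : k, vK (algebraMap k K c) ≤ 1 := hbase.v_const_le
  have hvpow : vK (x ^ p) = exp (p : ℤ) := by
    rw [map_pow, hvx, ← exp_nsmul]; simp
  -- size of linear polynomials
  have hlin : ∀ b c : k, vK (algebraMap k K b * x + algebraMap k K c) ≤ exp (1 : ℤ) := by
    intro b c
    refine (vK.map_add _ _).trans (max_le ?_ ?_)
    · rw [map_mul, hvx]
      calc vK (algebraMap k K b) * exp (1 : ℤ) ≤ 1 * exp (1 : ℤ) := by gcongr; exact hc b
        _ = _ := one_mul _
    · refine (hc c).trans ?_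
      rw [← exp_zero, exp_le_exp]; norm_num
  have hzero : ∀ A B C : k, algebraMap k K A * x ^ p + algebraMap k K B * x + algebraMap k K C = 0 →
      A = 0 ∧ B = 0 := by
    intro A B C h0
    have hA : A = 0 := by
      by_contra hA
      have h1 : vK (algebraMap k K A * x ^ p) = exp (p : ℤ) := by
        rw [map_mul, hbase.v_const A hA, one_mul, hvpow]
      have h2 : algebraMap k K A * x ^ p = -(algebraMap k K B * x + algebraMap k K C) := by
        linear_combination h0
      rw [h2, Valuation.map_neg] at h1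
      have h3 := hlin B C
      rw [h1, exp_le_exp] at h3
      omega
    refine ⟨hA, ?_⟩
    by_contra hB
    subst hA
    rw [map_zero, zero_mul, zero_add] at h0
    have h1 : vK (algebraMap k K B * x) = exp (1 : ℤ) := by
      rw [map_mul, hbase.v_const B hB, one_mul, hvx]
    have h2 : algebraMap k K B * x = -(algebraMap k K C) := by linear_combination h0
    rw [h2, Valuation.map_neg] at h1
    have h3 := hc C
    rw [h1, ← exp_zero, exp_le_exp] at h3
    omega
  -- `y₀` is integral
  have hR : y₀ ∈ Rint k x := by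
    apply mem_Rint_of_wp (p := p)
    rw [hy]
    refine mul_mem ((Rint k x).algebraMap_mem γ) (sub_mem (pow_mem ?_ _) (pow_mem ?_ _))
    · exact add_mem (self_mem_Rint x) ((Rint k x).algebraMap_mem a)
    · exact self_mem_Rint x
  -- pole order at most one
  have hv : vK y₀ ≤ exp (1 : ℤ) := by
    have h1 : vK (y₀ ^ p - y₀) ≤ exp ((1 : ℕ) : ℤ) ^ p := by
      rw [hy, hexp, map_mul]
      have h2 : vK (algebraMap k K a * x ^ p + algebraMap k K (a ^ p) * x +
          algebraMap k K (a ^ (p + 1))) ≤ exp (p : ℤ) := by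
        rw [add_assoc]
        refine (vK.map_add _ _).trans (max_le ?_ ?_)
        · rw [map_mul, hvpow]
          calc vK (algebraMap k K a) * exp (p : ℤ) ≤ 1 * exp (p : ℤ) := by gcongr; exact hc a
            _ = _ := one_mul _
        · refine (hlin _ _).trans ?_
          rw [exp_le_exp]; omega
      calc _ ≤ 1 * exp (p : ℤ) := by gcongr; exact hc γ
        _ = exp ((1 : ℕ) : ℤ) ^ p := by rw [one_mul, ← exp_nsmul]; simp
    exact_mod_cast val_le_of_wp h1
  obtain ⟨s, hs⟩ := hbase.approx hx0 (a := y₀) (by rw [hvx]; exact hv)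
  rw [hvx] at hs
  have hs' := le_exp_pred hs
  rw [sub_self, exp_zero] at hs'
  obtain ⟨t, ht⟩ := hbase.R_inter _ (sub_mem hR (mul_mem ((Rint k x).algebraMap_mem s)
    (self_mem_Rint x))) hs'
  have hy0 : y₀ = algebraMap k K s * x + algebraMap k K t := by rw [← ht]; ring
  rw [hexp, hy0, add_pow_char, mul_pow] at hy
  have h0 : algebraMap k K (s ^ p - γ * a) * x ^ p + algebraMap k K (-s - γ * a ^ p) * x +
      algebraMap k K (t ^ p - t - γ * a ^ (p + 1)) = 0 := by
    simp only [map_sub, map_mul, map_pow, map_neg] at hy ⊢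
    linear_combination hy
  obtain ⟨h1, h2⟩ := hzero _ _ _ h0
  have h3 : s = -(γ * a ^ p) := by linear_combination -h2
  rw [h3] at h1
  exact sub_eq_zero.mp h1

lemma exists_not_fixed [Algebra (ZMod p) Ω] [IsAlgClosure K Ω] (hbase : IsLevel p k x 0 0 vK) (hgen : Gen k Ω x)
    (htr : Trans k x) {γ : k} (hγ : γ ≠ 0) {u : Ω}
    (hu : u ^ p - u = algebraMap k Ω γ * algebraMap K Ω x ^ (p + 1)) :
    ∃ d ∈ Dgrp p k (algebraMap K Ω x), d u ≠ u := by
  by_contra hcon
  push Not at hcon
  set X := algebraMap K Ω x with hX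
  -- for each algebraic `a`
  have key : ∀ e, 0 < e → ∀ a : k, a ^ p ^ e = a → (-(γ * a ^ p)) ^ p = γ * a := by
    intro e he a ha
    obtain ⟨σ, hσ, hσX⟩ := exists_lift_trans (Ω := Ω) htr ha
    set y := σ u - u with hy
    have h1 : y ^ p - y = algebraMap K Ω (algebraMap k K γ *
        ((x + algebraMap k K a) ^ (p + 1) - x ^ (p + 1))) := by
      rw [hy, wp_sub, ← map_pow, ← map_sub, hu, map_mul, AlgEquiv.commutes, map_pow, hσX]
      simp only [map_mul, map_sub, map_pow, map_add, ← IsScalarTower.algebraMap_apply]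
      ring
    have h2 : ∀ τ : Ω ≃ₐ[K] Ω, τ y = y := by
      intro τ₀
      set τ : Ω ≃ₐ[k] Ω := τ₀.restrictScalars k with hτ
      have hτX : τ ∈ fixG k X := τ₀.commutes x
      have h3 := hcon _ (Subgroup.commutator_mem_commutator
        (inv_mem (⟨e, he, hσ⟩ : σ ∈ transInf p k X)) (inv_mem (fixG_le_transInf (p := p) X hτX)))
      have h4 : σ (τ u) = τ (σ u) := by
        have h5 : (τ * σ) * ⁅σ⁻¹, τ⁻¹⁆ = σ * τ := by rw [commutatorElement_def]; group
        have h6 := DFunLike.congr_fun h5 u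
        rw [AlgEquiv.mul_apply, h3] at h6
        exact h6.symm
      have h5 : (τ u - u) ^ p = τ u - u := by
        have h6 : τ (u ^ p - u) = u ^ p - u := by
          rw [hu, map_mul, AlgEquiv.commutes, map_pow, mem_fixG.mp hτX]
        rw [map_sub, map_pow] at h6
        have h7 := wp_sub (p := p) (τ u) u
        rw [h6, sub_self] at h7
        exact sub_eq_zero.mp h7
      obtain ⟨i, hi⟩ := exists_zmod_of_pow_eq (p := p) h5
      have h6 : τ u - u = algebraMap k Ω (i.val : k) := by
        rw [hi, map_natCast]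
        conv_lhs => rw [← ZMod.natCast_zmod_val i, map_natCast]
      change τ y = y
      rw [hy, map_sub, ← h4]
      have h7 : τ u = u + algebraMap k Ω (i.val : k) := by rw [← h6]; ring
      rw [h7, map_add, AlgEquiv.commutes]
      ring
    obtain ⟨y₀, hy₀⟩ := exists_root_of_fixed h1 h2
    exact coeff_compare hbase hy₀
  -- apply with `a = 1`
  have h1 := key 1 one_pos 1 (one_pow _)
  rw [one_pow, mul_one] at h1
  have h2 : ∀ a : k, a ^ p ^ 3 = a → a ^ p ^ 2 = a := by
    intro a ha
    have h3 := key 3 (by norm_num) a ha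
    have h4 : (-(γ * a ^ p)) ^ p = (-γ) ^ p * a ^ p ^ 2 := by
      rw [← neg_mul, mul_pow, ← pow_mul, pow_two]
    rw [h4, h1] at h3
    exact mul_left_cancel₀ hγ h3
  have h3 := card_roots_k (k := k) (p := p) (e := 3) (by norm_num)
  have h4 := card_roots_k (k := k) (p := p) (e := 2) (by norm_num)
  have hfin : Finite {a : k // a ^ p ^ 2 = a} := by
    apply Nat.finite_of_card_ne_zero
    rw [h4]; exact pow_ne_zero _ hp.out.ne_zero
  have h5 : Nat.card {a : k // a ^ p ^ 3 = a} ≤ Nat.card {a : k // a ^ p ^ 2 = a} :=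
    Nat.card_le_card_of_injective (fun a => ⟨a.1, h2 a.1 a.2⟩) (by
      intro a b h
      apply Subtype.ext
      exact congrArg (fun z : {a : k // a ^ p ^ 2 = a} => z.1) h)
  rw [h3, h4] at h5
  have h6 : p ^ 2 < p ^ 3 := Nat.pow_lt_pow_right hp.out.one_lt (by norm_num)
  omega

end nontriv

end Pool.Agent.Helper32
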