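import Mathlib
import Pool.Agent.Helper32.AS27

/-!
# All finite p-groups
-/

namespace Pool.Agent.Helper32

open Polynomial WithZero
open scoped commutatorElement

set_option linter.unusedSectionVars false

section ext

variable {p : ℕ} [hp : Fact p.Prime]

/-- a central element of order `p` gives a central extension -/
lemma cext_of_central {Q : Type*} [Group Q] [Finite Q] {z : Q} (hz : ∀ q, z * q = q * z)
    (ho : orderOf z = p) [hn : (Subgroup.zpowers z).Normal] :
    CExt p (QuotientGroup.mk' (Subgroup.zpowers z)) (fun i : ZMod p => z ^ i.val) where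
  surj := QuotientGroup.mk'_surjective _
  add := by
    intro i j
    have h := pow_mod_orderOf z (i.val + j.val)
    rw [ho] at h
    rw [← pow_add, ZMod.val_add]
    exact h
  inj := by
    intro i j h
    have h1 : i.val < orderOf z := by rw [ho]; exact ZMod.val_lt i
    have h2 : j.val < orderOf z := by rw [ho]; exact ZMod.val_lt j
    exact ZMod.val_injective p (pow_injOn_Iio_orderOf h1 h2 h)
  comm := by
    intro i q
    have : Commute z q := hz q
    exact this.pow_left _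
  ker := by
    classical
    intro q hq
    have h1 : q ∈ Subgroup.zpowers z := (QuotientGroup.eq_one_iff q).mp hq
    rw [mem_zpowers_iff_mem_range_orderOf, Finset.mem_image] at h1
    obtain ⟨m, hm, rfl⟩ := h1
    rw [Finset.mem_range, ho] at hm
    refine ⟨(m : ZMod p), ?_⟩
    rw [ZMod.val_natCast_of_lt hm]
  one := by
    intro i
    exact (QuotientGroup.eq_one_iff _).mpr (Subgroup.pow_mem _ (Subgroup.mem_zpowers z) _)

end ext

section ind

variable {p : ℕ} [hp : Fact p.Prime] {k Ω : Type*} [Field k] [IsAlgClosed k]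
  [Field Ω] [IsAlgClosed Ω] [Algebra k Ω]
  [CharP k p] [CharP Ω p] [Algebra (ZMod p) Ω] {X : Ω}

theorem exists_lifted (hN : ∀ (γ : k) (u : Ω), γ ≠ 0 → u ^ p - u = algebraMap k Ω γ * X ^ (p + 1) →
      ∃ d ∈ Dgrp p k X, d u ≠ u) (m : ℕ) :
    ∀ (Q : Type*) [Group Q] [Fintype Q], Fintype.card Q = p ^ m →
      ∃ (ρ : fixG k X →* Q) (t : Q → Ω), Lifted p X ρ t := by
  induction m with
  | zero =>
    intro Q _ _ hcard
    rw [pow_zero] at hcard
    have hs : Subsingleton Q := Fintype.card_le_one_iff_subsingleton.mp hcard.le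
    refine ⟨1, fun _ => 1, ⟨fun _ => one_mem _, fun σ q => map_one _, ?_, ⟨∅, by simp, fun σ _ => rfl⟩,
      fun q => ⟨1, one_mem _, Subsingleton.elim _ _⟩⟩⟩
    rw [Finset.sum_const, Finset.card_univ, hcard, one_smul]
  | succ m ih =>
    intro Q _ _ hcard
    classical
    have hnat : Nat.card Q = p ^ (m + 1) := by rw [Nat.card_eq_fintype_card, hcard]
    have hP : IsPGroup p Q := IsPGroup.of_card hnat
    have hnt : Nontrivial Q := by
      rw [← Finite.one_lt_card_iff_nontrivial, hnat]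
      exact Nat.one_lt_pow (Nat.succ_ne_zero m) hp.out.one_lt
    have hc := hP.center_nontrivial
    have hPc : IsPGroup p (Subgroup.center Q) := hP.to_subgroup _
    obtain ⟨j, hj⟩ := hPc.exists_card_eq
    have hj0 : j ≠ 0 := by
      rintro rfl
      rw [pow_zero] at hj
      have := Finite.one_lt_card_iff_nontrivial.mpr hc
      omega
    have hdvd : p ∣ Nat.card (Subgroup.center Q) := by rw [hj]; exact dvd_pow_self p hj0
    obtain ⟨z, hz⟩ := exists_prime_orderOf_dvd_card' p hdvd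
    set z' : Q := (z : Q) with hz'
    have hzo : orderOf z' = p := by rw [hz', Subgroup.orderOf_coe, hz]
    have hzc : ∀ q, z' * q = q * z' := fun q => (Subgroup.mem_center_iff.mp z.2 q).symm
    have hnorm : (Subgroup.zpowers z').Normal := by
      constructor
      intro n hn g
      have h1 : Subgroup.zpowers z' ≤ Subgroup.center Q := by
        rw [Subgroup.zpowers_le]; exact z.2
      have h2 : g * n * g⁻¹ = n := by
        have := Subgroup.mem_center_iff.mp (h1 hn) g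
        rw [this, mul_assoc, mul_inv_cancel, mul_one]
      rw [h2]; exact hn
    have E := cext_of_central (p := p) hzc hzo
    have hq : Fintype.card (Q ⧸ Subgroup.zpowers z') = p ^ m := by
      have h1 := Subgroup.card_eq_card_quotient_mul_card_subgroup (Subgroup.zpowers z')
      rw [Nat.card_zpowers, hzo, hnat, pow_succ] at h1
      rw [← Nat.card_eq_fintype_card]
      exact (Nat.eq_of_mul_eq_mul_right hp.out.pos h1).symm
    obtain ⟨ρ₁, t, L⟩ := ih (Q ⧸ Subgroup.zpowers z') hq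
    exact L.step E hN

end ind

section descend

variable {p : ℕ} [hp : Fact p.Prime] {k K Ω : Type*} [Field k] [IsAlgClosed k] [Field K]
  [Field Ω] [Algebra k K] [Algebra K Ω] [Algebra k Ω] [IsScalarTower k K Ω]
  [CharP k p] [CharP K p] [CharP Ω p] [Algebra (ZMod p) Ω]
  {x : K}

/-- homomorphisms descend to `F` -/
lemma exists_descend [IsAlgClosure K Ω] (F : IntermediateField K Ω) {Q : Type*} [Group Q]
    (ρ : fixG k (algebraMap K Ω x) →* Q)
    (hρ : ∀ σ : fixG k (algebraMap K Ω x), (∀ z ∈ F, (σ : Ω ≃ₐ[k] Ω) z = z) → ρ σ = 1) :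
    ∃ ρF : fixG k (algebraMap K F x) →* Q, ∀ (σ : fixG k (algebraMap K Ω x))
      (h : fixG k (algebraMap K F x)), (∀ z : F, (((h : F ≃ₐ[k] F) z : F) : Ω) =
        (σ : Ω ≃ₐ[k] Ω) z) → ρF h = ρ σ := by
  have hex : ∀ h : fixG k (algebraMap K F x), ∃ σ : fixG k (algebraMap K Ω x),
      ∀ z : F, (((h : F ≃ₐ[k] F) z : F) : Ω) = (σ : Ω ≃ₐ[k] Ω) z := by
    intro h
    obtain ⟨σ, hσ⟩ := exists_extend F (h : F ≃ₐ[k] F)
    refine ⟨⟨σ, ?_⟩, hσ⟩
    rw [mem_fixG]
    have h1 := hσ (algebraMap K F x)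
    rw [mem_fixG.mp h.2] at h1
    exact h1.symm
  choose l hl using hex
  have huniq : ∀ σ σ' : fixG k (algebraMap K Ω x),
      (∀ z ∈ F, (σ : Ω ≃ₐ[k] Ω) z = (σ' : Ω ≃ₐ[k] Ω) z) → ρ σ = ρ σ' := by
    intro σ σ' h
    have h1 : ρ (σ⁻¹ * σ') = 1 := by
      apply hρ
      intro z hz
      rw [Subgroup.coe_mul, Subgroup.coe_inv, AlgEquiv.mul_apply, ← h z hz, ← AlgEquiv.mul_apply,
        inv_mul_cancel]
      rfl
    rw [map_mul, map_inv] at h1
    exact inv_mul_eq_one.mp h1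
  refine ⟨MonoidHom.mk' (fun h => ρ (l h)) ?_, ?_⟩
  · intro a b
    rw [← map_mul]
    apply huniq
    intro z hz
    have h1 := hl (a * b) ⟨z, hz⟩
    rw [← h1, Subgroup.coe_mul, Subgroup.coe_mul, AlgEquiv.mul_apply, AlgEquiv.mul_apply]
    have h2 := hl b ⟨z, hz⟩
    rw [← h2, ← hl a]
  · intro σ h hσ
    apply huniq
    intro z hz
    rw [← hl h ⟨z, hz⟩, ← hσ ⟨z, hz⟩]

/-- commutators restrict to commutators -/
lemma commutator_restrict (hgen : Gen k Ω x) (htr : Trans k x) {e : ℕ} (he : 0 < e) (j : ℕ)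
    {d : Ω ≃ₐ[k] Ω}
    (hd : d ∈ ⁅transG p k (algebraMap K Ω x) e, transG p k (algebraMap K Ω x) e⁆) :
    ∃ h ∈ ⁅transG p k (algebraMap K ↥(Fj p K (algebraMap K Ω x) e j) x) e,
      transG p k (algebraMap K ↥(Fj p K (algebraMap K Ω x) e j) x) e⁆,
      ∀ z, (h z : Ω) = d z := by
  have hres : ∀ σ ∈ transG p k (algebraMap K Ω x) e,
      ∃ τ ∈ transG p k (algebraMap K ↥(Fj p K (algebraMap K Ω x) e j) x) e,
        ∀ z, (τ z : Ω) = σ z := by
    intro σ hσ
    obtain ⟨τ, hτ⟩ := exists_restrict hgen htr he hσ j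
    obtain ⟨a, ha, h1⟩ := hσ
    refine ⟨τ, ⟨a, ha, ?_⟩, hτ⟩
    apply Subtype.ext
    rw [hτ]
    exact h1
  have hinv : ∀ {σ : Ω ≃ₐ[k] Ω} {τ : ↥(Fj p K (algebraMap K Ω x) e j) ≃ₐ[k]
      ↥(Fj p K (algebraMap K Ω x) e j)}, (∀ z, (τ z : Ω) = σ z) → ∀ z, (τ⁻¹ z : Ω) = σ⁻¹ z := by
    intro σ τ h z
    apply σ.injective
    rw [← h, ← AlgEquiv.mul_apply, mul_inv_cancel, ← AlgEquiv.mul_apply, mul_inv_cancel]
    rfl
  have hmul : ∀ {σ σ' : Ω ≃ₐ[k] Ω} {τ τ' : ↥(Fj p K (algebraMap K Ω x) e j) ≃ₐ[k]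
      ↥(Fj p K (algebraMap K Ω x) e j)}, (∀ z, (τ z : Ω) = σ z) → (∀ z, (τ' z : Ω) = σ' z) →
      ∀ z, ((τ * τ') z : Ω) = (σ * σ') z := by
    intro σ σ' τ τ' h h' z
    rw [AlgEquiv.mul_apply, AlgEquiv.mul_apply, h, h']
  rw [Subgroup.commutator_def] at hd
  induction hd using Subgroup.closure_induction with
  | mem d hd =>
    obtain ⟨σ, hσ, σ', hσ', rfl⟩ := hd
    obtain ⟨τ, hτ, h⟩ := hres σ hσ
    obtain ⟨τ', hτ', h'⟩ := hres σ' hσ'
    refine ⟨⁅τ, τ'⁆, Subgroup.commutator_mem_commutator hτ hτ', ?_⟩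
    rw [commutatorElement_def, commutatorElement_def]
    exact hmul (hmul (hmul h h') (hinv h)) (hinv h')
  | one => exact ⟨1, one_mem _, fun z => rfl⟩
  | mul a b _ _ ha hb =>
    obtain ⟨τ, hτ, h⟩ := ha
    obtain ⟨τ', hτ', h'⟩ := hb
    exact ⟨τ * τ', mul_mem hτ hτ', hmul h h'⟩
  | inv a _ ha =>
    obtain ⟨τ, hτ, h⟩ := ha
    exact ⟨τ⁻¹, inv_mem hτ, hinv h⟩

end descend

end Pool.Agent.Helper32
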