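import Mathlib
import Pool.Agent.Helper32.AS28

/-!
# Fields stable under translations
-/

namespace Pool.Agent.Helper32

open Polynomial WithZero IntermediateField
open scoped commutatorElement

set_option linter.unusedSectionVars false

section stab

variable {p : ℕ} [hp : Fact p.Prime] {k K Ω : Type*} [Field k] [IsAlgClosed k] [Field K]
  [Field Ω] [Algebra k K] [Algebra K Ω] [Algebra k Ω] [IsScalarTower k K Ω]
  [CharP k p] [CharP K p] [CharP Ω p] [Algebra (ZMod p) Ω]
  {x : K}

/-- `F` is stable under the automorphisms translating `x` -/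
def Stab (p : ℕ) [hp : Fact p.Prime] (k : Type*) {K Ω : Type*} [Field k] [Field K]
    [Field Ω] [Algebra K Ω] [Algebra k Ω] [CharP k p]
    (x : K) (e : ℕ) (F : IntermediateField K Ω) : Prop :=
  ∀ σ ∈ transG p k (algebraMap K Ω x) e, ∀ z ∈ F, σ z ∈ F

variable {F : IntermediateField K Ω} {e : ℕ}

/-- restriction -/
lemma Stab.exists_restrict (hF : Stab p k x e F) {σ : Ω ≃ₐ[k] Ω}
    (hσ : σ ∈ transG p k (algebraMap K Ω x) e) :
    ∃ τ ∈ transG p k (algebraMap K F x) e, ∀ z, ((τ z : F) : Ω) = σ z := by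
  have hσ' := (transG p k (algebraMap K Ω x) e).inv_mem hσ
  obtain ⟨a, ha, h1⟩ := id hσ
  refine ⟨{ toFun := fun z => ⟨σ z, hF σ hσ z z.2⟩
            invFun := fun z => ⟨σ⁻¹ z, hF σ⁻¹ hσ' z z.2⟩
            left_inv := fun z => Subtype.ext (by simp [AlgEquiv.aut_inv])
            right_inv := fun z => Subtype.ext (by simp [AlgEquiv.aut_inv])
            map_mul' := fun a b => Subtype.ext (by simp)
            map_add' := fun a b => Subtype.ext (by simp)
            commutes' := fun c => Subtype.ext (σ.commutes c) }, ⟨a, ha, ?_⟩, fun z => rfl⟩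
  apply Subtype.ext
  exact h1

lemma Stab.normal [IsAlgClosure K Ω] (hF : Stab p k x e F) : Normal K F := by
  have h3 : IsAlgClosed Ω := IsAlgClosure.isAlgClosed K
  have h1 : Algebra.IsAlgebraic K Ω := IsAlgClosure.isAlgebraic
  have h4 : Normal K Ω := IsAlgClosure.normal K Ω
  rw [normal_iff_forall_map_le' (L := Ω)]
  rintro σ _ ⟨z, hz, rfl⟩
  have h5 : (σ.restrictScalars k) ∈ transG p k (algebraMap K Ω x) e :=
    fixG_le_transG _ _ (σ.commutes x)
  exact hF _ h5 z hz

lemma Stab.card [IsAlgClosure K Ω] (hgen : Gen k Ω x) (htr : Trans k x) (he : 0 < e)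
    (hF : Stab p k x e F) [FiniteDimensional K F] [Algebra.IsSeparable K F] :
    Nat.card (transG p k (algebraMap K F x) e) = p ^ e * Module.finrank K F := by
  have hn : Normal K F := hF.normal
  have hg : IsGalois K F := ⟨⟩
  obtain ⟨φ, hφ⟩ := exists_transHom (p := p) (k := k) (algebraMap K F x) e
  rw [← Subgroup.card_mul_index φ.ker, Subgroup.index_ker, mul_comm]
  congr 1
  · rw [← card_roots_k (k := k) (p := p) he]
    apply Nat.card_congr
    refine Equiv.ofBijective (fun a => ⟨Multiplicative.toAdd a.1, ?_⟩) ⟨?_, ?_⟩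
    · obtain ⟨σ, hσ⟩ := a.2
      rw [← hσ]; exact (hφ σ).1
    · intro a b h
      apply Subtype.ext
      exact congrArg (fun z : {a : k // a ^ p ^ e = a} => Multiplicative.ofAdd z.1) h
    · rintro ⟨a, ha⟩
      obtain ⟨σ, hσ, hσ2⟩ := exists_lift_trans (Ω := Ω) htr ha
      obtain ⟨τ, hτ0, hτ⟩ := hF.exists_restrict hσ
      have hτ2 : τ (algebraMap K F x) = algebraMap K F x + algebraMap k F a := by
        apply Subtype.ext
        rw [hτ]
        exact hσ2
      refine ⟨⟨φ ⟨τ, hτ0⟩, ⟨_, rfl⟩⟩, ?_⟩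
      apply Subtype.ext
      have h1 := (hφ ⟨τ, hτ0⟩).2
      have h1 := hτ2.symm.trans h1
      exact ((algebraMap k F).injective (add_left_cancel h1)).symm
  · rw [← card_fixG hgen F]
    apply Nat.card_congr
    refine Equiv.ofBijective (fun σ => ⟨σ.1.1, ?_⟩) ⟨?_, ?_⟩
    · have h1 := (hφ σ.1).2
      have h2 : φ σ.1 = 1 := σ.2
      rw [h2] at h1
      rw [mem_fixG]
      simpa using h1
    · intro σ τ h
      apply Subtype.ext
      apply Subtype.ext
      exact congrArg (fun z : fixG k (algebraMap K F x) => z.1) h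
    · rintro ⟨σ, hσ⟩
      have hσ' := fixG_le_transG (p := p) (algebraMap K F x) e hσ
      refine ⟨⟨⟨σ, hσ'⟩, ?_⟩, rfl⟩
      have h1 := (hφ ⟨σ, hσ'⟩).2
      rw [mem_fixG] at hσ
      change φ ⟨σ, hσ'⟩ = 1
      have h2 : Multiplicative.toAdd (φ ⟨σ, hσ'⟩) = 0 := by
        apply (algebraMap k F).injective
        rw [map_zero]
        simpa [hσ] using h1
      exact h2

/-- commutators restrict to commutators -/
lemma Stab.commutator_restrict (hF : Stab p k x e F) {d : Ω ≃ₐ[k] Ω}
    (hd : d ∈ ⁅transG p k (algebraMap K Ω x) e, transG p k (algebraMap K Ω x) e⁆) :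
    ∃ h ∈ ⁅transG p k (algebraMap K F x) e, transG p k (algebraMap K F x) e⁆,
      ∀ z, ((h z : F) : Ω) = d z := by
  have hinv : ∀ {σ : Ω ≃ₐ[k] Ω} {τ : F ≃ₐ[k] F}, (∀ z, (τ z : Ω) = σ z) →
      ∀ z, (τ⁻¹ z : Ω) = σ⁻¹ z := by
    intro σ τ h z
    apply σ.injective
    rw [← h, ← AlgEquiv.mul_apply, mul_inv_cancel, ← AlgEquiv.mul_apply, mul_inv_cancel]
    rfl
  have hmul : ∀ {σ σ' : Ω ≃ₐ[k] Ω} {τ τ' : F ≃ₐ[k] F}, (∀ z, (τ z : Ω) = σ z) →
      (∀ z, (τ' z : Ω) = σ' z) → ∀ z, ((τ * τ') z : Ω) = (σ * σ') z := by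
    intro σ σ' τ τ' h h' z
    rw [AlgEquiv.mul_apply, AlgEquiv.mul_apply, h, h']
  rw [Subgroup.commutator_def] at hd
  induction hd using Subgroup.closure_induction with
  | mem d hd =>
    obtain ⟨σ, hσ, σ', hσ', rfl⟩ := hd
    obtain ⟨τ, hτ, h⟩ := hF.exists_restrict hσ
    obtain ⟨τ', hτ', h'⟩ := hF.exists_restrict hσ'
    refine ⟨⁅τ, τ'⁆, Subgroup.commutator_mem_commutator hτ hτ', ?_⟩
    rw [commutatorElement_def, commutatorElement_def]
    exact hmul (hmul (hmul h h') (hinv h)) (hinv h')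
  | one => exact ⟨1, one_mem _, fun z => rfl⟩
  | mul a b _ _ ha hb =>
    obtain ⟨τ, hτ, h⟩ := ha
    obtain ⟨τ', hτ', h'⟩ := hb
    exact ⟨τ * τ', mul_mem hτ hτ', hmul h h'⟩
  | inv a _ ha =>
    obtain ⟨τ, hτ, h⟩ := ha
    exact ⟨τ⁻¹, inv_mem hτ, hinv h⟩

end stab

section residue

variable {p : ℕ} [hp : Fact p.Prime] {k K Ω : Type*} [Field k] [IsAlgClosed k] [Field K]
  [Field Ω] [Algebra k K] [Algebra K Ω] [Algebra k Ω] [IsScalarTower k K Ω]
  [CharP k p] [CharP K p] [CharP Ω p] {x : K}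

/-- all elements of a finite valuation ring have residue in `k` -/
lemma mem_DP_of_mem {F : IntermediateField K Ω}
    {P : ValuationSubring F} (hP : ∀ c : k, algebraMap k F c ∈ P)
    (hK : ∀ y : K, algebraMap K F y ∈ P → algebraMap K F y ∈ DP P hP)
    {z : F} (hz : z ∈ P) (halg : IsAlgebraic K z) : z ∈ DP P hP := by
  obtain ⟨q, hq0, hq⟩ := halg
  -- divide by the coefficient of largest value
  obtain ⟨i₀, hi₀, hmax⟩ := Finset.exists_max_image q.support
    (fun i => P.valuation (algebraMap K F (q.coeff i))) (by simpa using hq0)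
  have hc0 : q.coeff i₀ ≠ 0 := mem_support_iff.mp hi₀
  have hcF : algebraMap K F (q.coeff i₀) ≠ 0 := by simpa using hc0
  set r : Polynomial K := C (q.coeff i₀)⁻¹ * q with hr
  have hr0 : aeval z r = 0 := by rw [hr, map_mul, hq, mul_zero]
  have hrc : ∀ i, r.coeff i = (q.coeff i₀)⁻¹ * q.coeff i := fun i => by rw [hr, coeff_C_mul]
  have hrP : ∀ i, algebraMap K F (r.coeff i) ∈ P := by
    intro i
    rw [← ValuationSubring.valuation_le_one_iff, hrc, map_mul, map_mul, map_inv₀, map_inv₀]
    have h0 : 0 < P.valuation (algebraMap K F (q.coeff i₀)) :=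
      zero_lt_iff.mpr ((Valuation.ne_zero_iff _).mpr hcF)
    rw [inv_mul_le_iff₀ h0, mul_one]
    by_cases hi : i ∈ q.support
    · exact hmax i hi
    · rw [notMem_support_iff.mp hi]; simp
  have hrD : ∀ i, ∃ c : k, P.valuation (algebraMap K F (r.coeff i) - algebraMap k F c) < 1 :=
    fun i => hK _ (hrP i)
  choose c hc using hrD
  -- the reduced polynomial
  let s : Polynomial k := ∑ i ∈ Finset.range (r.natDegree + 1), monomial i (c i)
  have hscoeff : ∀ i ∈ Finset.range (r.natDegree + 1), s.coeff i = c i := by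
    intro i hi
    simp only [s, finsetSum_coeff, coeff_monomial]
    rw [Finset.sum_ite_eq' (Finset.range (r.natDegree + 1)) i, if_pos hi]
  have hi₀r : r.coeff i₀ = 1 := by rw [hrc, inv_mul_cancel₀ hc0]
  have hi₀m : i₀ ∈ Finset.range (r.natDegree + 1) := by
    rw [Finset.mem_range, Nat.lt_succ_iff]
    exact le_natDegree_of_ne_zero (by rw [hi₀r]; exact one_ne_zero)
  have hs0 : s ≠ 0 := by
    intro h0
    have h1 := hscoeff i₀ hi₀m
    rw [h0, coeff_zero] at h1
    have h2 := hc i₀
    rw [← h1, hi₀r] at h2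
    simp at h2
  -- `s(z)` is in the maximal ideal
  have hzv : P.valuation z ≤ 1 := (ValuationSubring.valuation_le_one_iff _ _).mpr hz
  have hsz : P.valuation (aeval z s) < 1 := by
    have h1 : aeval z s = aeval z s - aeval z r := by rw [hr0, sub_zero]
    have h2 : aeval z s = ∑ i ∈ Finset.range (r.natDegree + 1), algebraMap k F (c i) * z ^ i := by
      simp only [s, map_sum, aeval_monomial]
    rw [h1, h2, aeval_eq_sum_range, ← Finset.sum_sub_distrib]
    apply Valuation.map_sum_lt _ one_ne_zero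
    intro i _
    have h3 : algebraMap k F (c i) * z ^ i - r.coeff i • z ^ i =
        -(algebraMap K F (r.coeff i) - algebraMap k F (c i)) * z ^ i := by
      rw [Algebra.smul_def]; ring
    rw [h3, map_mul, Valuation.map_neg, map_pow]
    exact mul_lt_one_of_lt_of_le (hc i) (pow_le_one' hzv i)
  -- factor `s`
  by_contra hcon
  rw [mem_DP, not_exists] at hcon
  have hone : ∀ a : k, P.valuation (z - algebraMap k F a) = 1 := by
    intro a
    refine le_antisymm ?_ (not_lt.mp (hcon a))
    rw [ValuationSubring.valuation_le_one_iff]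
    exact sub_mem hz (hP a)
  have hprod : ∀ t : Multiset k, P.valuation (aeval z (t.map (fun a => X - C a)).prod) = 1 := by
    intro t
    induction t using Multiset.induction_on with
    | empty => simp
    | cons a t ih =>
      rw [Multiset.map_cons, Multiset.prod_cons, map_mul, map_mul, ih, mul_one]
      rw [map_sub, aeval_X, aeval_C]
      exact hone a
  have h1 := (IsAlgClosed.splits s).eq_prod_roots
  rw [h1, map_mul, map_mul, hprod, mul_one, aeval_C] at hsz
  have h2 := const_eq_zero_of_lt hP hsz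
  rw [leadingCoeff_eq_zero] at h2
  exact hs0 h2

end residue

end Pool.Agent.Helper32
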