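import Mathlib
import Pool.Agent.Helper32.AS29

/-!
# Residues, orbit fields
-/

namespace Pool.Agent.Helper32

open Polynomial WithZero IntermediateField
open scoped commutatorElement

set_option linter.unusedSectionVars false

section res

/-- the residue fields of `K` are `k` -/
def ResK (k : Type*) {K : Type*} [Field k] [Field K] [Algebra k K] (x : K) : Prop :=
  ∀ V : ValuationSubring K, (∀ c : k, algebraMap k K c ∈ V) → x ∈ V → V ≠ ⊤ →
    ∀ y ∈ V, ∃ c : k, V.valuation (y - algebraMap k K c) < 1

lemma res_ratFunc {k : Type*} [Field k] [IsAlgClosed k] :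
    ResK (K := RatFunc k) k (RatFunc.X : RatFunc k) := by
  intro V hk hX htop y hy
  -- the point
  obtain ⟨c, hc⟩ : ∃ c : k, ((RatFunc.X : RatFunc k) - algebraMap k (RatFunc k) c)⁻¹ ∉ V := by
    by_contra hcon
    push Not at hcon
    exact htop (lin_ratFunc V hk hX hcon)
  rw [← ValuationSubring.valuation_le_one_iff, not_le, map_inv₀] at hc
  have hxc : V.valuation ((RatFunc.X : RatFunc k) - algebraMap k (RatFunc k) c) < 1 := by
    have h0 : 0 < V.valuation ((RatFunc.X : RatFunc k) - algebraMap k (RatFunc k) c) := by
      rw [zero_lt_iff]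
      intro h0
      rw [h0, inv_zero] at hc
      exact absurd hc (not_lt.mpr zero_le)
    exact (one_lt_inv₀ h0).mp hc
  have hpoly : ∀ q : Polynomial k, algebraMap (Polynomial k) (RatFunc k) q ∈ V := by
    intro q
    induction q using Polynomial.induction_on' with
    | add a b ha hb => rw [map_add]; exact add_mem ha hb
    | monomial m c =>
      rw [← C_mul_X_pow_eq_monomial, map_mul, map_pow, RatFunc.algebraMap_X]
      refine mul_mem ?_ (pow_mem hX m)
      rw [RatFunc.algebraMap_C]
      exact hk c
  have hres : ∀ q : Polynomial k, V.valuation (algebraMap (Polynomial k) (RatFunc k) q -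
      algebraMap k (RatFunc k) (q.eval c)) < 1 := by
    intro q
    obtain ⟨r, hr⟩ := X_sub_C_dvd_sub_C_eval (p := q) (a := c)
    have h1 : algebraMap (Polynomial k) (RatFunc k) q - algebraMap k (RatFunc k) (q.eval c) =
        ((RatFunc.X : RatFunc k) - algebraMap k (RatFunc k) c) *
          algebraMap (Polynomial k) (RatFunc k) r := by
      have := congrArg (algebraMap (Polynomial k) (RatFunc k)) hr
      rw [map_mul, map_sub, map_sub, RatFunc.algebraMap_X, RatFunc.algebraMap_C,
        RatFunc.algebraMap_C] at this
      exact this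
    rw [h1, map_mul]
    exact mul_lt_one_of_lt_of_le hxc ((ValuationSubring.valuation_le_one_iff _ _).mpr (hpoly r))
  have hconst : ∀ a : k, a ≠ 0 → V.valuation (algebraMap k (RatFunc k) a) = 1 := by
    intro a ha
    refine le_antisymm ((ValuationSubring.valuation_le_one_iff _ _).mpr (hk a)) ?_
    by_contra hcon
    exact ha (const_eq_zero_of_lt hk (not_le.mp hcon))
  have hunit : ∀ q : Polynomial k, q.eval c ≠ 0 →
      V.valuation (algebraMap (Polynomial k) (RatFunc k) q) = 1 := by
    intro q hq
    have h1 := hres q
    rw [← hconst _ hq] at h1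
    rw [← hconst _ hq]
    have h2 : algebraMap (Polynomial k) (RatFunc k) q = algebraMap k (RatFunc k) (q.eval c) +
        (algebraMap (Polynomial k) (RatFunc k) q - algebraMap k (RatFunc k) (q.eval c)) := by ring
    rw [h2]
    exact Valuation.map_add_eq_of_lt_left _ h1
  -- coprime representation
  set a := y.num with ha
  set b := y.denom with hb
  have hyab : y = algebraMap (Polynomial k) (RatFunc k) a / algebraMap (Polynomial k) (RatFunc k) b
    := (RatFunc.num_div_denom y).symm
  have hb0 : algebraMap (Polynomial k) (RatFunc k) b ≠ 0 := by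
    rw [ne_eq, IsFractionRing.to_map_eq_zero_iff]
    exact RatFunc.denom_ne_zero y
  have hcop : IsCoprime a b := RatFunc.isCoprime_num_denom y
  by_cases hbc : b.eval c = 0
  · exfalso
    have hac : a.eval c ≠ 0 := by
      intro h0
      obtain ⟨u, w, huw⟩ := hcop
      have := congrArg (eval c) huw
      rw [eval_add, eval_mul, eval_mul, h0, hbc, eval_one] at this
      simp at this
    have h1 : V.valuation y = (V.valuation (algebraMap (Polynomial k) (RatFunc k) b))⁻¹ := by
      rw [hyab, map_div₀, hunit a hac, one_div]
    have h2 : V.valuation (algebraMap (Polynomial k) (RatFunc k) b) < 1 := by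
      have := hres b
      rwa [hbc, map_zero, sub_zero] at this
    have h3 : 0 < V.valuation (algebraMap (Polynomial k) (RatFunc k) b) :=
      zero_lt_iff.mpr ((Valuation.ne_zero_iff _).mpr hb0)
    have h4 : 1 < V.valuation y := by
      rw [h1]
      exact (one_lt_inv₀ h3).mpr h2
    exact absurd ((ValuationSubring.valuation_le_one_iff _ _).mpr hy) (not_le.mpr h4)
  · refine ⟨a.eval c / b.eval c, ?_⟩
    have hbc' : algebraMap k (RatFunc k) (b.eval c) ≠ 0 := by simpa using hbc
    have h1 : y - algebraMap k (RatFunc k) (a.eval c / b.eval c) =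
        ((algebraMap (Polynomial k) (RatFunc k) a - algebraMap k (RatFunc k) (a.eval c)) *
          algebraMap k (RatFunc k) (b.eval c) -
        algebraMap k (RatFunc k) (a.eval c) *
          (algebraMap (Polynomial k) (RatFunc k) b - algebraMap k (RatFunc k) (b.eval c))) /
        (algebraMap (Polynomial k) (RatFunc k) b * algebraMap k (RatFunc k) (b.eval c)) := by
      rw [hyab, map_div₀]
      field_simp
      ring
    rw [h1, map_div₀, map_mul, hunit b hbc, hconst _ hbc, one_mul, div_one]
    refine lt_of_le_of_lt (V.valuation.map_sub _ _) (max_lt ?_ ?_)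
    · rw [map_mul, hconst _ hbc, mul_one]; exact hres a
    · rw [map_mul, mul_comm]
      exact mul_lt_one_of_lt_of_le (hres b) ((ValuationSubring.valuation_le_one_iff _ _).mpr (hk _))

end res

end Pool.Agent.Helper32
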