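import Mathlib
import Pool.Agent.Helper32.AS30

/-!
# Orbit fields
-/

namespace Pool.Agent.Helper32

open Polynomial WithZero IntermediateField
open scoped commutatorElement

set_option linter.unusedSectionVars false

section compare

variable {p : ℕ} [hp : Fact p.Prime] {k K Ω : Type*} [Field k] [Field K]
  [Field Ω] [Algebra k K] [Algebra K Ω] [Algebra k Ω] [IsScalarTower k K Ω] {x : K}

lemma compare_val {E E' : IntermediateField K Ω} (hE : E ≤ E') {n g n' g' : ℕ}
    {v : Valuation E (WithZero (Multiplicative ℤ))}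
    {v' : Valuation E' (WithZero (Multiplicative ℤ))}
    (L : IsLevel p k (algebraMap K E x) n g v) (L' : IsLevel p k (algebraMap K E' x) n' g' v')
    {z : E} {B : ℕ} (hz : v' (inclusion hE z) ≤ exp ((B * p ^ n' : ℕ) : ℤ)) :
    v z ≤ exp ((B * p ^ n : ℕ) : ℤ) := by
  have hpn : ∀ m : ℕ, (0 : ℤ) < (p : ℤ) ^ m := fun m => pow_pos (by exact_mod_cast hp.out.pos) m
  have hxx : inclusion hE (algebraMap K E x) = algebraMap K E' x := rfl
  have hVV := L.unique (v'.valuationSubring.comap (inclusion hE : E →+* E')) (fun c => by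
    rw [ValuationSubring.mem_comap, Valuation.mem_valuationSubring_iff]
    exact L'.v_const_le c) (by
    rw [ValuationSubring.mem_comap, Valuation.mem_valuationSubring_iff]
    change ¬ v' (inclusion hE (algebraMap K E x)) ≤ 1
    rw [hxx, L'.v_x, ← exp_zero, exp_le_exp, not_le]
    exact hpn _)
  have hiff : ∀ y : E, v' (inclusion hE y) ≤ 1 ↔ v y ≤ 1 := by
    intro y
    have h1 : y ∈ v'.valuationSubring.comap (inclusion hE : E →+* E') ↔
      y ∈ v.valuationSubring := by rw [hVV]
    exact h1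
  have hinj : ∀ y : E, y ≠ 0 → inclusion hE y ≠ 0 := fun y hy => by simpa using hy
  have hone : ∀ y : E, v y = 1 → v' (inclusion hE y) = 1 := by
    intro y hy
    have hy0 : y ≠ 0 := by rintro rfl; rw [map_zero] at hy; exact zero_ne_one hy
    refine le_antisymm ((hiff y).mpr hy.le) ?_
    have h1 := (hiff y⁻¹).mpr (by rw [map_inv₀, hy, inv_one])
    rw [map_inv₀, map_inv₀] at h1
    have h2 : 0 < v' (inclusion hE y) := zero_lt_iff.mpr ((Valuation.ne_zero_iff _).mpr (hinj y hy0))
    rwa [inv_le_one₀ h2] at h1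
  obtain ⟨t, ht⟩ := L.v_unif
  have ht0 : t ≠ 0 := by
    intro h0
    rw [h0, map_zero] at ht
    exact exp_ne_zero ht.symm
  obtain ⟨m, hm⟩ : ∃ m : ℤ, v' (inclusion hE t) = exp (-m) := by
    have h1 : v' (inclusion hE t) ≠ 0 := (Valuation.ne_zero_iff _).mpr (hinj t ht0)
    exact ⟨-log (v' (inclusion hE t)), by rw [neg_neg, exp_log h1]⟩
  have hval : ∀ (y : E) (i : ℤ), v y = exp i → v' (inclusion hE y) = exp (m * i) := by
    intro y i hi
    have h1 : v (y * t ^ i) = 1 := by
      rw [map_mul, map_zpow₀, hi, ht, ← exp_zsmul, ← exp_add]; simp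
    have h2 := hone _ h1
    rw [map_mul, map_zpow₀, map_mul, map_zpow₀, hm, ← exp_zsmul] at h2
    have h3 : v' (inclusion hE y) * exp (i • -m) * exp (m * i) = exp (m * i) := by
      rw [h2, one_mul]
    rw [mul_assoc, ← exp_add] at h3
    have h4 : i • -m + m * i = 0 := by simp [mul_comm]
    rw [h4, exp_zero, mul_one] at h3
    exact h3
  have hx := hval _ _ L.v_x
  rw [hxx, L'.v_x, exp_inj] at hx
  have hm0 : 0 < m := by
    by_contra hcon
    rw [not_lt] at hcon
    have h1 := hpn n'
    rw [hx] at h1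
    have h2 := hpn n
    nlinarith
  by_cases hz0 : z = 0
  · subst hz0; simp
  · have hvz : v z ≠ 0 := (Valuation.ne_zero_iff v).mpr hz0
    obtain ⟨i, hi⟩ : ∃ i : ℤ, v z = exp i := ⟨log (v z), (exp_log hvz).symm⟩
    rw [hval z i hi, exp_le_exp] at hz
    rw [hi, exp_le_exp]
    push_cast at hz ⊢
    rw [hx] at hz
    have h1 : m * i ≤ m * (B * (p : ℤ) ^ n) := by linarith [mul_left_comm (B : ℤ) m ((p : ℤ) ^ n)]
    exact le_of_mul_le_mul_left h1 hm0

end compare

section orbit

variable {p : ℕ} [hp : Fact p.Prime] {k K Ω : Type*} [Field k] [IsAlgClosed k] [Field K]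
  [Field Ω] [Algebra k K] [Algebra K Ω] [Algebra k Ω] [IsScalarTower k K Ω]
  [CharP k p] [CharP K p] [CharP Ω p] [Algebra (ZMod p) Ω]
  {x : K} {vK : Valuation K (WithZero (Multiplicative ℤ))}

/-- the orbit of a list under the automorphisms translating `X` -/
def Orb (p : ℕ) [hp : Fact p.Prime] (k : Type*) {Ω : Type*} [Field k] [Field Ω] [Algebra k Ω]
    [CharP k p] (X : Ω) (e : ℕ) (T : List Ω) : Set Ω :=
  {u | ∃ τ ∈ transG p k X e, ∃ z ∈ T, u = τ z}

/-- the field generated by the orbit -/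
def Lh (p : ℕ) [hp : Fact p.Prime] (k : Type*) {K Ω : Type*} [Field k] [Field K] [Field Ω]
    [Algebra K Ω] [Algebra k Ω] [CharP k p] (x : K) (e : ℕ) (T : List Ω) :
    IntermediateField K Ω :=
  IntermediateField.adjoin K (Orb p k (algebraMap K Ω x) e T)

/-- a chain of Artin-Schreier roots -/
def ChainL (p : ℕ) (K : Type*) {Ω : Type*} [Field K] [Field Ω] [Algebra K Ω] : List Ω → Prop
  | [] => True
  | w :: T => w ^ p - w ∈ IntermediateField.adjoin K {z | z ∈ T} ∧ ChainL p K T

variable {e : ℕ}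

lemma Orb_stable {T : List Ω} {X : Ω} {σ : Ω ≃ₐ[k] Ω} (hσ : σ ∈ transG p k X e) {u : Ω}
    (hu : u ∈ Orb p k X e T) : σ u ∈ Orb p k X e T := by
  obtain ⟨τ, hτ, z, hz, rfl⟩ := hu
  exact ⟨σ * τ, mul_mem hσ hτ, z, hz, rfl⟩

lemma Lh_stab (hgen : Gen k Ω x) (htr : Trans k x) (T : List Ω) :
    Stab p k x e (Lh p k x e T) := by
  intro σ hσ z hz
  unfold Lh at *
  induction hz using adjoin_induction with
  | mem z hz => exact subset_adjoin K _ (Orb_stable hσ hz)
  | algebraMap y =>
    obtain ⟨y', hy'⟩ := transG_algebraMap hgen htr hσ y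
    rw [hy']
    exact IntermediateField.algebraMap_mem _ _
  | add y z _ _ hy hz => rw [map_add]; exact add_mem hy hz
  | inv y _ hy => rw [map_inv₀]; exact inv_mem hy
  | mul y z _ _ hy hz => rw [map_mul]; exact mul_mem hy hz

lemma map_adjoin_mem (hgen : Gen k Ω x) (htr : Trans k x) {T : List Ω} {σ : Ω ≃ₐ[k] Ω}
    (hσ : σ ∈ transG p k (algebraMap K Ω x) e) {z : Ω}
    (hz : z ∈ IntermediateField.adjoin K {z | z ∈ T}) : σ z ∈ Lh p k x e T := by
  unfold Lh
  induction hz using adjoin_induction with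
  | mem z hz => exact subset_adjoin K _ ⟨σ, hσ, z, hz, rfl⟩
  | algebraMap y =>
    obtain ⟨y', hy'⟩ := transG_algebraMap hgen htr hσ y
    rw [hy']
    exact IntermediateField.algebraMap_mem _ _
  | add y z _ _ hy hz => rw [map_add]; exact add_mem hy hz
  | inv y _ hy => rw [map_inv₀]; exact inv_mem hy
  | mul y z _ _ hy hz => rw [map_mul]; exact mul_mem hy hz

lemma Lh_mono {T T' : List Ω} (h : ∀ z ∈ T, z ∈ T') : Lh p k x e T ≤ Lh p k x e T' := by
  apply adjoin.mono
  rintro u ⟨τ, hτ, z, hz, rfl⟩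
  exact ⟨τ, hτ, z, h z hz, rfl⟩

lemma Lh_cons (w : Ω) (T : List Ω) : Lh p k x e (w :: T) =
    Lh p k x e T ⊔ IntermediateField.adjoin K (Orb p k (algebraMap K Ω x) e [w]) := by
  unfold Lh
  rw [← adjoin_union]
  congr 1
  ext u
  constructor
  · rintro ⟨τ, hτ, z, hz, rfl⟩
    rw [List.mem_cons] at hz
    rcases hz with rfl | hz
    · exact Or.inr ⟨τ, hτ, z, List.mem_singleton_self z, rfl⟩
    · exact Or.inl ⟨τ, hτ, z, hz, rfl⟩
  · rintro (⟨τ, hτ, z, hz, rfl⟩ | ⟨τ, hτ, z, hz, rfl⟩)
    · exact ⟨τ, hτ, z, List.mem_cons_of_mem _ hz, rfl⟩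
    · rw [List.mem_singleton] at hz
      subst hz
      exact ⟨τ, hτ, z, List.mem_cons_self, rfl⟩

lemma Orb_root (hgen : Gen k Ω x) (htr : Trans k x) {w : Ω} {T : List Ω}
    (hc : ChainL p K (w :: T)) {u : Ω} (hu : u ∈ Orb p k (algebraMap K Ω x) e [w]) :
    u ^ p - u ∈ Lh p k x e T := by
  obtain ⟨τ, hτ, z, hz, rfl⟩ := hu
  rw [List.mem_singleton] at hz
  subst hz
  rw [← map_pow, ← map_sub]
  exact map_adjoin_mem hgen htr hτ hc.1

lemma Orb_subset_Mj (he : 0 < e) {J : ℕ} {X : Ω} {T : List Ω} (hT : ∀ z ∈ T, z ∈ Mj p X e J) :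
    ∀ u ∈ Orb p k X e T, u ∈ Mj p X e J := by
  rintro u ⟨τ, hτ, z, hz, rfl⟩
  exact transG_mem_Mj he hτ J (hT z hz)

lemma exists_basis_sub [IsAlgClosed Ω] (he : 0 < e) {J : ℕ} {X : Ω} (U : Submodule (ZMod p) Ω)
    (hU : U ≤ Mj p X e J) :
    ∃ S : Finset Ω, U = Submodule.span (ZMod p) (S : Set Ω) ∧ S.card ≤ Nj p e J := by
  classical
  obtain ⟨S₀, hS₀, hc₀⟩ := exists_gen_Mj (p := p) (x := X) he J
  have hfin : Module.Finite (ZMod p) (Mj p X e J) := by
    rw [hS₀]; exact FiniteDimensional.span_finset _ _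
  have hfinU : Module.Finite (ZMod p) U := Submodule.finiteDimensional_of_le hU
  have h1 : Module.finrank (ZMod p) U ≤ Nj p e J := by
    refine (Submodule.finrank_mono hU).trans ?_
    rw [hS₀]
    exact (finrank_span_finset_le_card S₀).trans hc₀
  let b := Module.finBasis (ZMod p) U
  refine ⟨Finset.univ.image (fun i => (b i : Ω)), ?_, ?_⟩
  · have h3 := congrArg (Submodule.map U.subtype) b.span_eq
    rw [Submodule.map_top, Submodule.range_subtype, Submodule.map_span] at h3
    refine h3.symm.trans ?_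
    congr 1
    ext z
    simp
  · refine (Finset.card_image_le).trans ?_
    simpa using h1

lemma adjoin_eq_of_span_eq {S S' : Set Ω} (h : Submodule.span (ZMod p) S =
    Submodule.span (ZMod p) S') : IntermediateField.adjoin K S = IntermediateField.adjoin K S' := by
  have key : ∀ S S' : Set Ω, Submodule.span (ZMod p) S ≤ Submodule.span (ZMod p) S' →
      IntermediateField.adjoin K S ≤ IntermediateField.adjoin K S' := by
    intro S S' h
    rw [adjoin_le_iff]
    intro z hz
    have hz' := h (Submodule.subset_span hz)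
    exact span_le_addSubgroup (IntermediateField.adjoin K S').toSubfield.toAddSubgroup
      (subset_adjoin K S') hz'
  exact le_antisymm (key _ _ h.le) (key _ _ h.ge)

/-- the tower of the orbit field -/
lemma tower_orbit [IsAlgClosed Ω] (h : IsLevel p k x 0 0 vK) (hgen : Gen k Ω x) (htr : Trans k x)
    (he : 0 < e) (J : ℕ) (T : List Ω) (hT : ∀ z ∈ T, z ∈ Mj p (algebraMap K Ω x) e J)
    (hc : ChainL p K T) :
    ∃ (E : IntermediateField K Ω) (n g : ℕ) (v : Valuation E (WithZero (Multiplicative ℤ))),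
      E = Lh p k x e T ∧ n ≤ T.length * Nj p e J ∧ Inv p k x vK (2 ^ J) E n g v := by
  induction T with
  | nil =>
    obtain ⟨v, hv, -⟩ := tower_base (Ω := Ω) h (2 ^ J) he
    refine ⟨⊥, 0, 0, v, ?_, by simp, hv⟩
    symm
    rw [eq_bot_iff, Lh, adjoin_le_iff]
    rintro u ⟨τ, hτ, z, hz, rfl⟩
    simp at hz
  | cons w T ih =>
    obtain ⟨E, n, g, v, hE, hn, I⟩ := ih (fun z hz => hT z (List.mem_cons_of_mem _ hz)) hc.2
    obtain ⟨EJ, N, gJ, vJ, hEJ, -, IJ, hBJ⟩ := tower (Ω := Ω) h J he J le_rfl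
    have hEE : E ≤ EJ := by
      rw [hE, hEJ]
      apply adjoin.mono
      exact fun u hu => Orb_subset_Mj he (fun z hz => hT z (List.mem_cons_of_mem _ hz)) u hu
    -- the span of the orbit of `w`
    obtain ⟨S, hS, hcard⟩ := exists_basis_sub (p := p) he (J := J) (X := algebraMap K Ω x)
      (Submodule.span (ZMod p) (Orb p k (algebraMap K Ω x) e [w])) (by
        rw [Submodule.span_le]
        exact fun u hu => Orb_subset_Mj he (fun z hz => by
          rw [List.mem_singleton] at hz; subst hz; exact hT z List.mem_cons_self) u hu)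
    have hSM : ∀ s ∈ S, s ∈ Mj p (algebraMap K Ω x) e J := by
      intro s hs
      have h1 : s ∈ Submodule.span (ZMod p) (Orb p k (algebraMap K Ω x) e [w]) := by
        rw [hS]; exact Submodule.subset_span hs
      refine (Submodule.span_le.mpr ?_) h1
      exact fun u hu => Orb_subset_Mj he (fun z hz => by
          rw [List.mem_singleton] at hz; subst hz; exact hT z List.mem_cons_self) u hu
    have hSE : ∀ s ∈ S, s ^ p - s ∈ E := by
      intro s hs
      have h1 : s ∈ Submodule.span (ZMod p) (Orb p k (algebraMap K Ω x) e [w]) := by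
        rw [hS]; exact Submodule.subset_span hs
      let H : AddSubgroup Ω :=
        { carrier := {u | u ^ p - u ∈ E}
          zero_mem' := by simp [hp.out.ne_zero]
          add_mem' := by
            intro a b ha hb
            simp only [Set.mem_ofPred_eq] at *
            rw [wp_add]; exact add_mem ha hb
          neg_mem' := by
            intro a ha
            simp only [Set.mem_ofPred_eq] at *
            have h2 : (-a) ^ p - (-a) = -(a ^ p - a) := by
              have h3 := wp_sub (p := p) (0 : Ω) a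
              rw [zero_sub] at h3
              rw [h3]
              simp [hp.out.ne_zero]
            rw [h2]; exact neg_mem ha }
      refine span_le_addSubgroup H ?_ h1
      intro u hu
      change u ^ p - u ∈ E
      rw [hE]
      exact Orb_root hgen htr hc hu
    have hSB : ∀ s ∈ S, s ^ p - s ∈ Bd k x E v (2 * p * 2 ^ J * p ^ n) := by
      intro s hs
      obtain ⟨h1, h2, h3⟩ := hBJ s (hSM s hs)
      have hsE := hSE s hs
      have hincl : inclusion hEE ⟨s ^ p - s, hsE⟩ = (⟨s, h1⟩ : EJ) ^ p - ⟨s, h1⟩ := rfl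
      refine ⟨hsE, ?_, ?_⟩
      · apply mem_Rint_of_map ((inclusion hEE).restrictScalars k)
        change inclusion hEE ⟨s ^ p - s, hsE⟩ ∈ Rint k (algebraMap K EJ x)
        rw [hincl]
        exact sub_mem (pow_mem h2 p) h2
      · have h4 : vJ (inclusion hEE ⟨s ^ p - s, hsE⟩) ≤ exp ((p * 2 ^ J * p ^ N : ℕ) : ℤ) := by
          rw [hincl]
          have h5 : exp ((2 ^ J * p ^ N : ℕ) : ℤ) ^ p = exp ((p * 2 ^ J * p ^ N : ℕ) : ℤ) := by
            rw [← exp_nsmul]; congr 1; push_cast; ring
          refine (vJ.map_sub _ _).trans (max_le ?_ ?_)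
          · rw [map_pow, ← h5]
            exact pow_le_pow_left' h3 p
          · refine h3.trans ?_
            rw [exp_le_exp]
            have h6 : 2 ^ J * p ^ N ≤ p * 2 ^ J * p ^ N := by
              rw [mul_assoc]
              exact Nat.le_mul_of_pos_left _ hp.out.pos
            exact_mod_cast h6
        have h5 := compare_val hEE I.tow.lev IJ.tow.lev h4
        refine h5.trans ?_
        rw [exp_le_exp]
        have h6 : p * 2 ^ J * p ^ n ≤ 2 * p * 2 ^ J * p ^ n := by
          simp only [mul_assoc]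
          exact Nat.le_mul_of_pos_left _ (by norm_num)
        exact_mod_cast h6
    obtain ⟨E', n', g', v', h1, h2, h3, -, -⟩ := I.list (c := 2 ^ J) le_rfl S hSB
    refine ⟨E', n', g', v', ?_, ?_, h3⟩
    · rw [h1, hE, Lh_cons, adjoin_eq_of_span_eq (p := p) hS]
    · rw [List.length_cons, Nat.succ_mul]
      omega

end orbit

end Pool.Agent.Helper32
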