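import Mathlib
import Pool.Agent.Helper32.AS31
import Pool.Agent.Helper32.AS25

/-!
# Genus at least two; other places are moved
-/

namespace Pool.Agent.Helper32

open Polynomial WithZero
open scoped commutatorElement

set_option linter.unusedSectionVars false

section bounds

variable {p : ℕ} [hp : Fact p.Prime] {k F : Type*} [Field k] [Field F] [Algebra k F] [CharP k p]
  {x : F} {n g : ℕ} {v : Valuation F (WithZero (Multiplicative ℤ))}

/-- functions of low pole order in genus at most one -/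
lemma IsLevel.low_genus (L : IsLevel p k x n g v) {G : Subgroup (F ≃ₐ[k] F)}
    (hG : ∀ σ ∈ G, ∃ a : k, σ x = x + algebraMap k F a)
    (hGp : ∀ σ ∈ G, ∃ m : ℕ, σ ^ p ^ m = 1) (hfr : Module.finrank k (F ⧸ Wsub L) ≤ 1) :
    ⁅G, G⁆ = ⊥ ∨ ∃ r₂ ∈ Rint k x, ∃ r₃ ∈ Rint k x, v r₂ = exp (2 : ℤ) ∧ v r₃ = exp (3 : ℤ) ∧
      (∀ y ∈ Rint k x, v y ≤ exp (1 : ℤ) → ∃ c : k, y = algebraMap k F c) ∧
      ∀ σ ∈ ⁅G, G⁆, σ r₂ = r₂ ∧ ∃ κ : k, σ r₃ = r₃ + algebraMap k F κ := by
  obtain ⟨t, ht⟩ := L.v_unif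
  have ht0 : t ≠ 0 := by
    intro h0
    rw [h0, map_zero] at ht
    exact exp_ne_zero ht.symm
  have hval : ∀ σ ∈ G, ∀ z, v (σ z) = v z := by
    intro σ hσ
    obtain ⟨a, ha⟩ := hG σ hσ
    exact aut_val (L.aut_mem ha) ht
  have hwild : ∀ σ ∈ G, ∀ s, v s = exp (-1 : ℤ) → v (σ s - s) ≤ exp (-2 : ℤ) := by
    intro σ hσ s hs
    obtain ⟨m, hm⟩ := hGp σ hσ
    exact L.wild (hval σ hσ) hm hs
  have hR : ∀ σ ∈ G, ∀ y ∈ Rint k x, σ y ∈ Rint k x := by
    intro σ hσ y hy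
    obtain ⟨a, ha⟩ := hG σ hσ
    exact aut_mem_Rint ha hy
  have hle : ⁅G, G⁆ ≤ G := by
    rw [Subgroup.commutator_le]
    intro σ hσ τ hτ
    rw [commutatorElement_def]
    exact mul_mem (mul_mem (mul_mem hσ hτ) (inv_mem hσ)) (inv_mem hτ)
  by_cases hA : ∃ r ∈ Rint k x, v r = exp (1 : ℤ)
  · -- there is a function with a simple pole
    obtain ⟨r, hr, hvr⟩ := hA
    have hr0 : r ≠ 0 := by
      intro h0
      rw [h0, map_zero] at hvr
      exact exp_ne_zero hvr.symm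
    have h1 : ∀ σ ∈ G, ∃ d : k, σ r = r + algebraMap k F d := by
      intro σ hσ
      have h2 := L.wild_mul (hval σ hσ) (hwild σ hσ) hr0
      rw [hvr, ← exp_add] at h2
      obtain ⟨d, hd⟩ := L.R_inter _ (sub_mem (hR σ hσ r hr) hr) (by simpa using h2)
      exact ⟨d, by rw [← hd]; ring⟩
    have h3 : ⁅G, G⁆ = ⊥ := by
      rw [eq_bot_iff, Subgroup.commutator_le]
      intro σ hσ τ hτ
      rw [Subgroup.mem_bot, commutatorElement_eq_one_iff_mul_comm]
      obtain ⟨d, hd⟩ := h1 σ hσ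
      obtain ⟨e, he⟩ := h1 τ hτ
      have hστ := mul_mem hσ hτ
      have hτσ := mul_mem hτ hσ
      have h4 : ((τ * σ)⁻¹ * (σ * τ)) = 1 := by
        have hvr' : v r⁻¹ = exp (-1 : ℤ) := by rw [map_inv₀, hvr, exp_neg]
        refine L.eq_one_of_unif (hval _ (mul_mem (inv_mem hτσ) hστ)) hvr' ?_
        have h5 : (σ * τ) r = (τ * σ) r := by
          rw [AlgEquiv.mul_apply, AlgEquiv.mul_apply, hd, he, map_add, map_add, hd, he,
            AlgEquiv.commutes, AlgEquiv.commutes]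
          ring
        have h6 : ((τ * σ)⁻¹ * (σ * τ)) r = r := by
          rw [AlgEquiv.mul_apply, h5, ← AlgEquiv.mul_apply, inv_mul_cancel]; rfl
        rw [map_inv₀, h6]
      exact (inv_mul_eq_one.mp h4).symm
    exact Or.inl h3
  · -- functions with poles of order two and three
    have hfin := (quot_finite_le L).1
    rw [finrank_le_one_iff] at hfr
    obtain ⟨w₀, hw₀⟩ := hfr
    obtain ⟨c₁, hc₁⟩ := hw₀ (Submodule.Quotient.mk t⁻¹)
    have hvt : v t⁻¹ = exp (1 : ℤ) := by rw [map_inv₀, ht, ← exp_neg]; rfl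
    have hdiff : ∀ {i : ℤ} {f r : F}, 0 < i → v f = exp i → v (f - r) ≤ 1 → v r = exp i := by
      intro i f r hi hf hfr
      have h1 : v (f - r) < v f := by
        refine lt_of_le_of_lt hfr ?_
        rw [hf, ← exp_zero, exp_lt_exp]; exact hi
      have h2 : r = f - (f - r) := by ring
      rw [h2, Valuation.map_sub_eq_of_lt_left _ h1, hf]
    have hc₁0 : c₁ ≠ 0 := by
      rintro rfl
      rw [zero_smul] at hc₁
      have h1 : t⁻¹ ∈ Wsub L := (Submodule.Quotient.mk_eq_zero _).mp hc₁.symm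
      rw [mem_Wsub] at h1
      obtain ⟨r, hr, h2⟩ := h1
      exact hA ⟨r, hr, hdiff one_pos hvt h2⟩
    have hex : ∀ i : ℤ, 1 < i → ∃ r ∈ Rint k x, v r = exp i := by
      intro i hi
      obtain ⟨c, hc⟩ := hw₀ (Submodule.Quotient.mk (t ^ (-i)))
      have hvti : v (t ^ (-i)) = exp i := by
        rw [map_zpow₀, ht, ← exp_zsmul]; simp
      have h1 : t ^ (-i) - (c / c₁) • t⁻¹ ∈ Wsub L := by
        rw [← Submodule.Quotient.mk_eq_zero, Submodule.Quotient.mk_sub, Submodule.Quotient.mk_smul,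
          ← hc, ← hc₁, smul_smul, div_mul_cancel₀ _ hc₁0, sub_self]
      rw [mem_Wsub] at h1
      obtain ⟨r, hr, h2⟩ := h1
      refine ⟨r, hr, ?_⟩
      have h3 : v (t ^ (-i) - (c / c₁) • t⁻¹) = exp i := by
        rw [Valuation.map_sub_eq_of_lt_left, hvti]
        rw [hvti, Algebra.smul_def, map_mul, hvt]
        calc v (algebraMap k F (c / c₁)) * exp (1 : ℤ) ≤ 1 * exp (1 : ℤ) := by
              gcongr
              exact L.v_const_le _
          _ = exp (1 : ℤ) := one_mul _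
          _ < exp i := by rw [exp_lt_exp]; exact hi
      exact hdiff (by omega) h3 h2
    obtain ⟨r₂, hr₂, hv₂⟩ := hex 2 (by norm_num)
    obtain ⟨r₃, hr₃, hv₃⟩ := hex 3 (by norm_num)
    have hne : ∀ {r : F} {i : ℤ}, v r = exp i → r ≠ 0 := by
      intro r i h h0
      rw [h0, map_zero] at h
      exact exp_ne_zero h.symm
    have hsmall : ∀ y ∈ Rint k x, v y ≤ exp (1 : ℤ) → ∃ c : k, y = algebraMap k F c := by
      intro y hy h
      apply L.R_inter y hy
      have h1 : v y < exp (1 : ℤ) := lt_of_le_of_ne h (fun h2 => hA ⟨y, hy, h2⟩)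
      have := le_exp_pred h1
      simpa using this
    have h2 : ∀ σ ∈ G, ∃ d : k, σ r₂ = r₂ + algebraMap k F d := by
      intro σ hσ
      have h3 := L.wild_mul (hval σ hσ) (hwild σ hσ) (hne hv₂)
      rw [hv₂, ← exp_add] at h3
      obtain ⟨d, hd⟩ := hsmall _ (sub_mem (hR σ hσ _ hr₂) hr₂) h3
      exact ⟨d, by rw [← hd]; ring⟩
    have h3 : ∀ σ ∈ G, ∃ e f : k, σ r₃ = r₃ + algebraMap k F e * r₂ + algebraMap k F f := by
      intro σ hσ
      have h4 := L.wild_mul (hval σ hσ) (hwild σ hσ) (hne hv₃)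
      rw [hv₃, ← exp_add] at h4
      obtain ⟨e, he⟩ := L.approx (hne hv₂) (a := σ r₃ - r₃) (by rw [hv₂]; exact h4)
      rw [hv₂] at he
      have h5 : σ r₃ - r₃ - algebraMap k F e * r₂ ∈ Rint k x :=
        sub_mem (sub_mem (hR σ hσ _ hr₃) hr₃) (mul_mem ((Rint k x).algebraMap_mem e) hr₂)
      obtain ⟨f, hf⟩ := hsmall _ h5 (by simpa using le_exp_pred he)
      exact ⟨e, f, by rw [← hf]; ring⟩
    -- the subgroup
    let N : Subgroup (F ≃ₐ[k] F) :=
      { carrier := {c | c r₂ = r₂ ∧ ∃ κ : k, c r₃ = r₃ + algebraMap k F κ}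
        mul_mem' := by
          rintro a b ⟨ha, κ, hκ⟩ ⟨hb, μ, hμ⟩
          refine ⟨by rw [AlgEquiv.mul_apply, hb, ha], κ + μ, ?_⟩
          rw [AlgEquiv.mul_apply, hμ, map_add, hκ, AlgEquiv.commutes, map_add]; ring
        one_mem' := ⟨rfl, 0, by simp⟩
        inv_mem' := by
          rintro a ⟨ha, κ, hκ⟩
          refine ⟨?_, -κ, ?_⟩
          · apply a.injective
            rw [← AlgEquiv.mul_apply, mul_inv_cancel, ha]; rfl
          · apply a.injective
            rw [← AlgEquiv.mul_apply, mul_inv_cancel, map_add, hκ, AlgEquiv.commutes, map_neg]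
            simp }
    have hN : ⁅G, G⁆ ≤ N := by
      rw [Subgroup.commutator_le]
      intro σ hσ τ hτ
      obtain ⟨d, hd⟩ := h2 σ hσ
      obtain ⟨d', hd'⟩ := h2 τ hτ
      obtain ⟨e, f, hef⟩ := h3 σ hσ
      obtain ⟨e', f', hef'⟩ := h3 τ hτ
      have hc : ⁅σ, τ⁆ * (τ * σ) = σ * τ := by rw [commutatorElement_def]; group
      have e1 : ∀ y, ⁅σ, τ⁆ (τ (σ y)) = σ (τ y) := fun y => DFunLike.congr_fun hc y
      have e2 : ⁅σ, τ⁆ r₂ = r₂ := by
        have := e1 r₂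
        simp only [map_add, AlgEquiv.commutes, hd, hd'] at this
        linear_combination this
      refine ⟨e2, e' * d - e * d', ?_⟩
      have := e1 r₃
      rw [hef, hef'] at this
      simp only [map_add, map_mul, AlgEquiv.commutes, hd, hd', hef, hef', e2] at this
      rw [map_sub, map_mul, map_mul]
      linear_combination this
    exact Or.inr ⟨r₂, hr₂, r₃, hr₃, hv₂, hv₃, hsmall, fun σ hσ => hN hσ⟩

/-- in genus at most one the derived group has order at most two -/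
lemma IsLevel.card_comm_le_two (L : IsLevel p k x n g v) {G : Subgroup (F ≃ₐ[k] F)}
    (hG : ∀ σ ∈ G, ∃ a : k, σ x = x + algebraMap k F a)
    (hGp : ∀ σ ∈ G, ∃ m : ℕ, σ ^ p ^ m = 1) (hfr : Module.finrank k (F ⧸ Wsub L) ≤ 1) :
    Nat.card (⁅G, G⁆ : Subgroup (F ≃ₐ[k] F)) ≤ 2 := by
  rcases L.low_genus hG hGp hfr with h0 | ⟨r₂, hr₂, r₃, hr₃, hv₂, hv₃, hsmall, hcomm⟩
  · rw [h0, Subgroup.card_bot]; norm_num
  obtain ⟨t, ht⟩ := L.v_unif
  have hle : ⁅G, G⁆ ≤ G := by
    rw [Subgroup.commutator_le]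
    intro σ hσ τ hτ
    rw [commutatorElement_def]
    exact mul_mem (mul_mem (mul_mem hσ hτ) (inv_mem hσ)) (inv_mem hτ)
  have hval : ∀ σ ∈ G, ∀ z, v (σ z) = v z := by
    intro σ hσ
    obtain ⟨a, ha⟩ := hG σ hσ
    exact aut_val (L.aut_mem ha) ht
  have hne : ∀ {r : F} {i : ℤ}, v r = exp i → r ≠ 0 := by
    intro r i h h0
    rw [h0, map_zero] at h
    exact exp_ne_zero h.symm
  -- one reduction step
  have hred : ∀ (i : ℤ) (y b : F), y ∈ Rint k x → b ∈ Rint k x → v b = exp i → v y ≤ exp i →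
      ∃ a : k, y - algebraMap k F a * b ∈ Rint k x ∧ v (y - algebraMap k F a * b) ≤ exp (i - 1) := by
    intro i y b hy hb hvb hvy
    obtain ⟨a, ha⟩ := L.approx (hne hvb) (a := y) (by rw [hvb]; exact hvy)
    rw [hvb] at ha
    exact ⟨a, sub_mem hy (mul_mem ((Rint k x).algebraMap_mem a) hb), le_exp_pred ha⟩
  obtain ⟨c₀, h0, h0'⟩ := hred 6 (r₃ ^ 2) (r₂ ^ 3) (pow_mem hr₃ 2) (pow_mem hr₂ 3)
    (by rw [map_pow, hv₂, ← exp_nsmul]; rfl) (by rw [map_pow, hv₃, ← exp_nsmul]; exact le_rfl)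
  obtain ⟨a₁, h1, h1'⟩ := hred 5 _ (r₂ * r₃) h0 (mul_mem hr₂ hr₃)
    (by rw [map_mul, hv₂, hv₃, ← exp_add]; rfl) h0'
  obtain ⟨a₂, h2, h2'⟩ := hred 4 _ (r₂ ^ 2) h1 (pow_mem hr₂ 2)
    (by rw [map_pow, hv₂, ← exp_nsmul]; rfl) h1'
  obtain ⟨a₃, h3, h3'⟩ := hred 3 _ r₃ h2 hr₃ hv₃ h2'
  obtain ⟨a₄, h4, h4'⟩ := hred 2 _ r₂ h3 hr₂ hv₂ h3'
  obtain ⟨a₆, h6⟩ := hsmall _ h4 h4'
  choose f κ hκ using fun σ : (⁅G, G⁆ : Subgroup (F ≃ₐ[k] F)) => hcomm σ.1 σ.2
  have hκ2 : ∀ σ : (⁅G, G⁆ : Subgroup (F ≃ₐ[k] F)), κ σ = 0 ∨ κ σ = a₃ := by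
    intro σ
    by_cases hκ0 : κ σ = 0
    · exact Or.inl hκ0
    · right
      have h7 := congrArg (σ : F ≃ₐ[k] F) h6
      simp only [map_sub, map_mul, map_pow, AlgEquiv.commutes, f σ, hκ σ] at h7
      have h8 : algebraMap k F (κ σ) * (2 * r₃ + algebraMap k F (κ σ) - algebraMap k F a₁ * r₂ -
          algebraMap k F a₃) = 0 := by
        linear_combination h7 - h6
      have h9 : 2 * r₃ + algebraMap k F (κ σ) - algebraMap k F a₁ * r₂ - algebraMap k F a₃ = 0 := by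
        rcases mul_eq_zero.mp h8 with h | h
        · exfalso; exact hκ0 ((map_eq_zero _).mp h)
        · exact h
      have hlin : ∀ a b : k, v (algebraMap k F a * r₂ + algebraMap k F b) ≤ exp (2 : ℤ) := by
        intro a b
        refine (v.map_add _ _).trans (max_le ?_ ?_)
        · rw [map_mul, hv₂]
          calc v (algebraMap k F a) * exp (2 : ℤ) ≤ 1 * exp (2 : ℤ) := by
                gcongr; exact L.v_const_le a
            _ = _ := one_mul _
        · refine (L.v_const_le b).trans ?_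
          rw [← exp_zero, exp_le_exp]; norm_num
      have h2k : (2 : k) = 0 := by
        by_contra h2k
        have e1 : algebraMap k F 2 * r₃ = algebraMap k F a₁ * r₂ + algebraMap k F (a₃ - κ σ) := by
          rw [map_sub, map_ofNat]; linear_combination h9
        have e2 : v (algebraMap k F 2 * r₃) = exp (3 : ℤ) := by
          rw [map_mul, L.v_const 2 h2k, one_mul, hv₃]
        rw [e1] at e2
        have e3 := hlin a₁ (a₃ - κ σ)
        rw [e2, exp_le_exp] at e3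
        norm_num at e3
      have h2F : (2 : F) = 0 := by
        have := congrArg (algebraMap k F) h2k
        rwa [map_ofNat, map_zero] at this
      have e4 : algebraMap k F a₁ * r₂ = algebraMap k F (κ σ - a₃) := by
        rw [map_sub]; linear_combination r₃ * h2F - h9
      have ha₁ : a₁ = 0 := by
        by_contra ha₁
        have e5 : v (algebraMap k F a₁ * r₂) = exp (2 : ℤ) := by
          rw [map_mul, L.v_const a₁ ha₁, one_mul, hv₂]
        rw [e4] at e5
        have e6 := L.v_const_le (κ σ - a₃)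
        rw [e5, ← exp_zero, exp_le_exp] at e6
        norm_num at e6
      rw [ha₁, map_zero, zero_mul] at e4
      have e7 := (map_eq_zero _).mp e4.symm
      exact sub_eq_zero.mp e7
  have hinj : Function.Injective κ := by
    intro σ τ hστ
    apply Subtype.ext
    have e1 : ((σ : F ≃ₐ[k] F)⁻¹ * τ) = 1 := by
      have hvs : v (r₂ / r₃) = exp (-1 : ℤ) := by
        rw [map_div₀, hv₂, hv₃, ← exp_sub]; rfl
      refine L.eq_one_of_unif (hval _ (mul_mem (inv_mem (hle σ.2)) (hle τ.2))) hvs ?_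
      have e4 : ∀ y, (τ : F ≃ₐ[k] F) y = (σ : F ≃ₐ[k] F) y →
          ((σ : F ≃ₐ[k] F)⁻¹ * τ) y = y := by
        intro y hy
        rw [AlgEquiv.mul_apply, hy, ← AlgEquiv.mul_apply, inv_mul_cancel]; rfl
      rw [map_div₀, e4 _ (by rw [f, f]), e4 _ (by rw [hκ, hκ, hστ])]
    exact inv_mul_eq_one.mp e1
  classical
  have hcard : Nat.card (⁅G, G⁆ : Subgroup (F ≃ₐ[k] F)) ≤ Nat.card ({0, a₃} : Finset k) := by
    refine Nat.card_le_card_of_injective (fun σ => ⟨κ σ, ?_⟩) ?_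
    · rw [Finset.mem_insert, Finset.mem_singleton]; exact hκ2 σ
    · intro σ τ h
      exact hinj (congrArg (fun z : ({0, a₃} : Finset k) => (z : k)) h)
  refine hcard.trans ?_
  rw [Nat.card_eq_fintype_card, Fintype.card_coe]
  exact Finset.card_le_two

end bounds

end Pool.Agent.Helper32
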