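import Mathlib
import Pool.Agent.Helper32.AS31

/-!
# Other places are moved, for orbit fields
-/

namespace Pool.Agent.Helper32

open Polynomial WithZero IntermediateField
open scoped commutatorElement

set_option linter.unusedSectionVars false

section val

variable {F : Type*} [Field F]

lemma val_lt_one_iff_inv (P : ValuationSubring F) (z : F) :
    P.valuation z < 1 ↔ z = 0 ∨ z⁻¹ ∉ P := by
  by_cases hz : z = 0
  · subst hz; simp
  · have h0 : 0 < P.valuation z := zero_lt_iff.mpr ((Valuation.ne_zero_iff _).mpr hz)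
    rw [← ValuationSubring.valuation_le_one_iff, map_inv₀, not_le, one_lt_inv₀ h0]
    simp [hz]

lemma comap_val_lt_one {K : Type*} [Field K] (f : K →+* F) (P : ValuationSubring F) (y : K) :
    (P.comap f).valuation y < 1 ↔ P.valuation (f y) < 1 := by
  rw [val_lt_one_iff_inv, val_lt_one_iff_inv, ValuationSubring.mem_comap, map_inv₀,
    map_eq_zero]

end val

section moved

variable {p : ℕ} [hp : Fact p.Prime] {k K Ω : Type*} [Field k] [IsAlgClosed k] [Field K]
  [Field Ω] [Algebra k K] [Algebra K Ω] [Algebra k Ω] [IsScalarTower k K Ω]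
  [CharP k p] [CharP K p] [CharP Ω p] [Algebra (ZMod p) Ω]
  {x : K} {e : ℕ}

/-- elements of `Mj` are integral over `k[x]` -/
lemma Mj_integral {X : Ω} (he : 0 < e) (j : ℕ) : ∀ z ∈ Mj p X e j, z ∈ Rint k X := by
  induction j with
  | zero =>
    intro z hz
    have hle : Mj p X e 0 ≤ Submodule.span (ZMod p) ((Vq p Ω e : Set Ω) ∪ {X}) := by
      rw [Mj, Submodule.span_union, Submodule.span_eq]
    refine span_le_addSubgroup (Rint k X).toSubring.toAddSubgroup ?_ (hle hz)
    intro y hy
    change y ∈ Rint k X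
    rcases hy with hy | hy
    · obtain ⟨c, rfl, -⟩ := exists_const_of_pow_eq (k := k) he hy
      exact (Rint k X).algebraMap_mem c
    · rw [Set.mem_singleton_iff] at hy
      rw [hy]
      exact self_mem_Rint X
  | succ j ih =>
    intro z hz
    rw [mem_Mj_succ] at hz
    have h1 := pow_le_subring (Rint k X).toSubring _ ih _ _ hz
    exact mem_Rint_of_wp (p := p) h1

lemma val_integral {F : IntermediateField K Ω} {z : Ω} (hz : z ∈ F)
    (h : z ∈ Rint k (algebraMap K Ω x)) : (⟨z, hz⟩ : F) ∈ Rint k (algebraMap K F x) := by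
  apply mem_Rint_of_map (F.val.restrictScalars k)
  exact h

/-- an automorphism fixing a place other than infinity is trivial -/
lemma moved_orbit (hgen : Gen k Ω x) (htr : Trans k x) (hlin : Lin k x) (hres : ResK k x)
    (he : 0 < e) {J : ℕ} {T : List Ω} (hT : ∀ z ∈ T, z ∈ Mj p (algebraMap K Ω x) e J)
    (hc : ChainL p K T) {F : IntermediateField K Ω} (hF : F = Lh p k x e T)
    [Algebra.IsAlgebraic K F] {P : ValuationSubring F}
    (hP : ∀ c : k, algebraMap k F c ∈ P) (htop : P ≠ ⊤)
    (hx : algebraMap K F x ∈ P) {σ : F ≃ₐ[k] F}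
    (hσ : σ ∈ transG p k (algebraMap K F x) e)
    (hσP : ∀ a, σ a ∈ P ↔ a ∈ P) : σ = 1 := by
  have hCF : CharP F p := charP_of_injective_algebraMap (algebraMap K F).injective p
  have hxD := x_mem_DP hlin hP htop hx
  -- residues of `K`
  have hK : ∀ y : K, algebraMap K F y ∈ P → algebraMap K F y ∈ DP P hP := by
    intro y hy
    obtain ⟨c, hc⟩ := hres (P.comap (algebraMap K F)) (fun c => by
      rw [ValuationSubring.mem_comap, ← IsScalarTower.algebraMap_apply]; exact hP c) hx (by
      intro h0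
      apply htop
      apply eq_top_of_K
      intro y
      have h2 : y ∈ P.comap (algebraMap K F) := by rw [h0]; trivial
      exact h2) y hy
    rw [comap_val_lt_one, map_sub, ← IsScalarTower.algebraMap_apply] at hc
    exact ⟨c, hc⟩
  -- `σ` fixes `x`
  have hσx : σ (algebraMap K F x) = algebraMap K F x := by
    obtain ⟨a, -, ha⟩ := hσ
    have h1 := fixes_sub_lt hσP hxD
    rw [ha, add_sub_cancel_left] at h1
    rw [ha, const_eq_zero_of_lt hP h1, map_zero, add_zero]
  obtain ⟨τ, hτ⟩ := exists_linear hgen F σ hσx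
  have hστ : ∀ z, σ z = τ z := fun z => by rw [← hτ]; rfl
  -- the fixed field
  let Fx : IntermediateField K Ω := IntermediateField.map F.val (IntermediateField.fixedField
    (Subgroup.zpowers τ))
  have hFx : ∀ z : Ω, z ∈ Fx → ∃ h : z ∈ F, σ ⟨z, h⟩ = ⟨z, h⟩ := by
    rintro z ⟨y, hy, rfl⟩
    refine ⟨y.2, ?_⟩
    rw [hστ]
    exact hy ⟨τ, Subgroup.mem_zpowers τ⟩
  have hFx' : ∀ z : Ω, ∀ h : z ∈ F, σ ⟨z, h⟩ = ⟨z, h⟩ → z ∈ Fx := by
    intro z h h1
    refine ⟨⟨z, h⟩, ?_, rfl⟩
    rintro ⟨ρ, hρ⟩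
    obtain ⟨i, rfl⟩ := hρ
    have h2 : τ ∈ MulAction.stabilizer (F ≃ₐ[K] F) (⟨z, h⟩ : F) := by
      rw [MulAction.mem_stabilizer_iff]
      change τ ⟨z, h⟩ = ⟨z, h⟩
      rw [← hστ]; exact h1
    exact Subgroup.zpow_mem _ h2 i
  have key : ∀ T' : List Ω, (∀ z ∈ T', z ∈ T) → ChainL p K T' → Lh p k x e T' ≤ Fx := by
    intro T'
    induction T' with
    | nil =>
      intro _ _
      rw [Lh, adjoin_le_iff]
      rintro u ⟨τ, hτ, z, hz, rfl⟩
      simp at hz
    | cons w T' ih =>
      intro hsub hc'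
      have hIH := ih (fun z hz => hsub z (List.mem_cons_of_mem _ hz)) hc'.2
      rw [Lh_cons, sup_le_iff]
      refine ⟨hIH, ?_⟩
      rw [adjoin_le_iff]
      intro u hu
      have huT : u ∈ Orb p k (algebraMap K Ω x) e T := by
        obtain ⟨τ, hτ, z, hz, rfl⟩ := hu
        rw [List.mem_singleton] at hz
        subst hz
        exact ⟨τ, hτ, z, hsub z List.mem_cons_self, rfl⟩
      have huF : u ∈ F := by rw [hF]; exact subset_adjoin K _ huT
      obtain ⟨h1, h2⟩ := hFx _ (hIH (Orb_root hgen htr hc' hu))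
      set y : F := ⟨u, huF⟩ with hy
      have hyy : y ^ p - y = ⟨u ^ p - u, h1⟩ := rfl
      have h5 : (σ y - y) ^ p = σ y - y := by
        have h6 : σ (y ^ p - y) = y ^ p - y := by rw [hyy]; exact h2
        rw [map_sub, map_pow] at h6
        have h7 := wp_sub (p := p) (σ y) y
        rw [h6, sub_self] at h7
        exact sub_eq_zero.mp h7
      obtain ⟨i, hi⟩ := exists_zmod_of_pow_eq (p := p) h5
      have h6 : σ y - y = algebraMap k F (i.val : k) := by
        rw [hi, map_natCast]
        conv_lhs => rw [← ZMod.natCast_zmod_val i, map_natCast]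
      have hyR : y ∈ Rint k (algebraMap K F x) :=
        val_integral huF (Mj_integral he J u (Orb_subset_Mj he hT u huT))
      have hyP : y ∈ P := Rint_le_valuationSubring P hP hx hyR
      have hyD : y ∈ DP P hP := mem_DP_of_mem hP hK hyP (Algebra.IsAlgebraic.isAlgebraic y)
      have h7 := fixes_sub_lt hσP hyD
      rw [h6] at h7
      have h8 := const_eq_zero_of_lt hP h7
      rw [h8, map_zero] at h6
      exact hFx' u huF (sub_eq_zero.mp h6)
  have hall := key T (fun z hz => hz) hc
  ext z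
  obtain ⟨h1, h2⟩ := hFx z.1 (hall (by rw [← hF]; exact z.2))
  exact congrArg Subtype.val h2

end moved

end Pool.Agent.Helper32
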