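import Mathlib
import Pool.Agent.Helper32.AS33

/-!
# The embedding problem, with fields of definition
-/

namespace Pool.Agent.Helper32

open Polynomial WithZero
open scoped commutatorElement

set_option linter.unusedSectionVars false

/-- a homomorphism of the Galois group with an equivariant family, and with a chain of
Artin-Schreier roots generating the fixed field of the kernel -/
structure LiftedC (p : ℕ) [hp : Fact p.Prime] (k : Type*) {K Ω : Type*} [Field k] [Field K]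
    [Field Ω] [Algebra K Ω] [Algebra k Ω] [CharP k p] [CharP Ω p] [Algebra (ZMod p) Ω] (x : K)
    {Q : Type*} [Group Q] [Fintype Q]
    (ρ : fixG k (algebraMap K Ω x) →* Q) (t : Q → Ω) : Prop where
  equiv : ∀ (σ : fixG k (algebraMap K Ω x)) (q : Q), (σ : Ω ≃ₐ[k] Ω) (t q) = t (ρ σ * q)
  sum : ∑ q, t q = 1
  surj : ∀ q : Q, ∃ d : fixG k (algebraMap K Ω x),
    (d : Ω ≃ₐ[k] Ω) ∈ Dgrp p k (algebraMap K Ω x) ∧ ρ d = q
  good : ∀ q, t q ∈ Good p (algebraMap K Ω x)
  chain : ∃ T : List Ω, (∀ z ∈ T, z ∈ Good p (algebraMap K Ω x)) ∧ ChainL p K T ∧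
    (∀ q, t q ∈ IntermediateField.adjoin K {z | z ∈ T}) ∧
    ∀ σ : fixG k (algebraMap K Ω x), ρ σ = 1 ↔ ∀ z ∈ T, (σ : Ω ≃ₐ[k] Ω) z = z

section step

variable {p : ℕ} [hp : Fact p.Prime] {k K Ω : Type*} [Field k] [IsAlgClosed k] [Field K]
  [Field Ω] [IsAlgClosed Ω] [Algebra k K] [Algebra K Ω] [Algebra k Ω] [IsScalarTower k K Ω]
  [CharP k p] [CharP K p] [CharP Ω p] [Algebra (ZMod p) Ω] {x : K}

/-- the embedding problem is solvable -/
theorem LiftedC.step {Q Q₁ : Type*} [Group Q] [Group Q₁] [Fintype Q] [Fintype Q₁] {π : Q →* Q₁}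
    {ζ : ZMod p → Q} (E : CExt p π ζ) {ρ₁ : fixG k (algebraMap K Ω x) →* Q₁} {t : Q₁ → Ω}
    (L : LiftedC p k x ρ₁ t)
    (hN : ∀ (γ : k) (u : Ω), γ ≠ 0 → u ^ p - u = algebraMap k Ω γ * algebraMap K Ω x ^ (p + 1) →
      ∃ d ∈ Dgrp p k (algebraMap K Ω x), d u ≠ u) :
    ∃ (ρ : fixG k (algebraMap K Ω x) →* Q) (t' : Q → Ω), LiftedC p k x ρ t' := by
  classical
  set ι := algebraMap (ZMod p) Ω with hι
  have hιinj : Function.Injective ι := (algebraMap (ZMod p) Ω).injective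
  obtain ⟨s, hs⟩ : ∃ s : Q₁ → Q, ∀ r, π (s r) = r := ⟨_, Function.surjInv_eq E.surj⟩
  have hζ0 : ζ 0 = 1 := by
    have := E.add 0 0
    rw [add_zero] at this
    exact left_eq_mul.mp this
  -- coordinates
  have hμex : ∀ q, ∃ i, q = ζ i * s (π q) := by
    intro q
    obtain ⟨i, hi⟩ := E.ker (q * (s (π q))⁻¹) (by rw [map_mul, map_inv, hs, mul_inv_cancel])
    exact ⟨i, by rw [← hi]; group⟩
  choose μ hμ using hμex
  have huniq : ∀ {i j r}, ζ i * s r = ζ j * s r → i = j := fun h => E.inj (mul_right_cancel h)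
  have hμ' : ∀ i r, μ (ζ i * s r) = i := by
    intro i r
    have h1 := hμ (ζ i * s r)
    rw [map_mul, E.one, hs, one_mul] at h1
    exact (huniq h1).symm
  have hcex : ∀ a b, ∃ i, s a * s b = ζ i * s (a * b) := by
    intro a b
    refine ⟨μ (s a * s b), ?_⟩
    have h1 := hμ (s a * s b)
    rwa [map_mul, hs, hs] at h1
  choose c hc using hcex
  have hcoc : ∀ a b d, c a b + c (a * b) d = c b d + c a (b * d) := by
    intro a b d
    have h1 : s a * s b * s d = ζ (c a b + c (a * b) d) * s (a * b * d) := by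
      rw [hc, mul_assoc, hc, E.add]; simp only [mul_assoc]
    have h2 : s a * s b * s d = ζ (c b d + c a (b * d)) * s (a * b * d) := by
      rw [mul_assoc, hc, ← mul_assoc, ← E.comm, mul_assoc, hc, E.add, mul_assoc, mul_assoc a b d]
    exact huniq (h1.symm.trans h2)
  -- the cochain `b`
  let b : Q₁ → Ω := fun a => ∑ r, ι (c a r) * t (a * r)
  have hb : ∀ (σ : fixG k (algebraMap K Ω x)) (r : Q₁),
      b (ρ₁ σ) + (σ : Ω ≃ₐ[k] Ω) (b r) - b (ρ₁ σ * r) = ι (c (ρ₁ σ) r) := by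
    intro σ r
    set a := ρ₁ σ with ha
    have h1 : (σ : Ω ≃ₐ[k] Ω) (b r) = ∑ y, ι (c r y) * t (a * (r * y)) := by
      simp only [b, map_sum, map_mul]
      refine Finset.sum_congr rfl fun y _ => ?_
      rw [iota_fix, L.equiv]
    have h2 : b a = ∑ y, ι (c a (r * y)) * t (a * (r * y)) :=
      (Equiv.sum_comp (Equiv.mulLeft r) (fun y => ι (c a y) * t (a * y))).symm
    have h3 : ∑ y, t (a * (r * y)) = 1 := by
      rw [← L.sum, ← Equiv.sum_comp (Equiv.mulLeft (a * r)) t]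
      refine Finset.sum_congr rfl fun y _ => ?_
      exact congrArg t (mul_assoc a r y).symm
    have h4 : b (a * r) = ∑ y, ι (c (a * r) y) * t (a * (r * y)) := by
      refine Finset.sum_congr rfl fun y _ => ?_
      rw [mul_assoc]
    rw [h1, h2, h4, ← Finset.sum_add_distrib, ← Finset.sum_sub_distrib]
    have h5 : ∀ y, ι (c a (r * y)) * t (a * (r * y)) + ι (c r y) * t (a * (r * y)) -
        ι (c (a * r) y) * t (a * (r * y)) = ι (c a r) * t (a * (r * y)) := by
      intro y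
      have h6 := hcoc a r y
      have h7 : ι (c a r) = ι (c r y) + ι (c a (r * y)) - ι (c (a * r) y) := by
        rw [← map_add, ← h6, map_add]; ring
      rw [h7]; ring
    rw [Finset.sum_congr rfl (fun y _ => h5 y), ← Finset.mul_sum, h3, mul_one]
  -- the cocycle `h`
  let h : Q₁ → Ω := fun a => b a ^ p - b a
  have hh : ∀ (σ : fixG k (algebraMap K Ω x)) (r : Q₁), (σ : Ω ≃ₐ[k] Ω) (h r) = h (ρ₁ σ * r) - h (ρ₁ σ) := by
    intro σ r
    have h1 := hb σ r
    have h2 : (σ : Ω ≃ₐ[k] Ω) (b r) = b (ρ₁ σ * r) - b (ρ₁ σ) + ι (c (ρ₁ σ) r) := by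
      rw [← h1]; ring
    simp only [h, map_sub, map_pow]
    rw [h2, wp_add, wp_sub, hι, iota_pow, sub_self, add_zero]
  let f : Ω := ∑ r, h r * t r
  have hf : ∀ σ : fixG k (algebraMap K Ω x), (σ : Ω ≃ₐ[k] Ω) f = f - h (ρ₁ σ) := by
    intro σ
    have h1 : (σ : Ω ≃ₐ[k] Ω) f = ∑ r, (h (ρ₁ σ * r) - h (ρ₁ σ)) * t (ρ₁ σ * r) := by
      simp only [f, map_sum, map_mul]
      refine Finset.sum_congr rfl fun r _ => ?_
      rw [hh, L.equiv]
    have h2 : ∑ r, (h (ρ₁ σ * r) - h (ρ₁ σ)) * t (ρ₁ σ * r) = ∑ r, (h r - h (ρ₁ σ)) * t r :=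
      Equiv.sum_comp (Equiv.mulLeft (ρ₁ σ)) (fun r => (h r - h (ρ₁ σ)) * t r)
    rw [h1, h2]
    simp only [sub_mul]
    rw [Finset.sum_sub_distrib, ← Finset.mul_sum, L.sum, mul_one]
  -- goodness
  have hιgood : ∀ i, ι i ∈ Good p (algebraMap K Ω x) := by
    intro i
    have : ι i = (i.val : Ω) := by
      rw [hι]
      conv_lhs => rw [← ZMod.natCast_zmod_val i, map_natCast]
    rw [this]
    exact natCast_mem _ _
  have hbgood : ∀ a, b a ∈ Good p (algebraMap K Ω x) := fun a =>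
    sum_mem fun r _ => mul_mem (hιgood _) (L.good _)
  have hfgood : f ∈ Good p (algebraMap K Ω x) :=
    sum_mem fun r _ => mul_mem (sub_mem (pow_mem (hbgood _) _) (hbgood _)) (L.good _)
  -- roots
  have hwex : ∀ β : k, ∃ w : Ω, w ^ p - w = f + algebraMap k Ω β * algebraMap K Ω x ^ (p + 1) := fun β =>
    exists_wp_eq _
  choose w hw using hwex
  have hnex : ∀ (β : k) (σ : fixG k (algebraMap K Ω x)), ∃ i : ZMod p,
      ι i = w β - (σ : Ω ≃ₐ[k] Ω) (w β) - b (ρ₁ σ) := by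
    intro β σ
    apply exists_iota
    rw [wp_sub, wp_sub, ← map_pow, ← map_sub, hw, map_add, hf, map_mul, AlgEquiv.commutes, map_pow,
      mem_fixG.mp σ.2]
    simp only [h]
    ring
  choose n hn using hnex
  have hnmul : ∀ β σ τ, n β (σ * τ) = n β σ + n β τ + c (ρ₁ σ) (ρ₁ τ) := by
    intro β σ τ
    apply hιinj
    rw [map_add, map_add, hn, hn, hn, ← hb σ (ρ₁ τ), map_mul, Subgroup.coe_mul, AlgEquiv.mul_apply]
    have h1 : (τ : Ω ≃ₐ[k] Ω) (w β) = w β - b (ρ₁ τ) - ι (n β τ) := by rw [hn]; ring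
    have h2 : (σ : Ω ≃ₐ[k] Ω) ((τ : Ω ≃ₐ[k] Ω) (w β)) =
        (σ : Ω ≃ₐ[k] Ω) (w β) - (σ : Ω ≃ₐ[k] Ω) (b (ρ₁ τ)) - ι (n β τ) := by
      rw [h1, map_sub, map_sub, hι, iota_fix]
    rw [h2, hn]
    ring
  let ρ : k → (fixG k (algebraMap K Ω x) →* Q) := fun β => MonoidHom.mk' (fun σ => ζ (n β σ) * s (ρ₁ σ)) (by
    intro σ τ
    rw [hnmul, map_mul, E.add, E.add]
    calc ζ (n β σ) * ζ (n β τ) * ζ (c (ρ₁ σ) (ρ₁ τ)) * s (ρ₁ σ * ρ₁ τ)
        = ζ (n β σ) * ζ (n β τ) * (ζ (c (ρ₁ σ) (ρ₁ τ)) * s (ρ₁ σ * ρ₁ τ)) := by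
          rw [mul_assoc]
      _ = ζ (n β σ) * ζ (n β τ) * (s (ρ₁ σ) * s (ρ₁ τ)) := by rw [hc]
      _ = ζ (n β σ) * (ζ (n β τ) * s (ρ₁ σ)) * s (ρ₁ τ) := by group
      _ = ζ (n β σ) * (s (ρ₁ σ) * ζ (n β τ)) * s (ρ₁ τ) := by rw [E.comm (n β τ) (s (ρ₁ σ))]
      _ = ζ (n β σ) * s (ρ₁ σ) * (ζ (n β τ) * s (ρ₁ τ)) := by group)
  have hρ : ∀ β σ, ρ β σ = ζ (n β σ) * s (ρ₁ σ) := fun β σ => rfl
  have hπρ : ∀ β σ, π (ρ β σ) = ρ₁ σ := by
    intro β σ
    rw [hρ, map_mul, E.one, hs, one_mul]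
  -- choice of `β`
  obtain ⟨β, ⟨e, he, hβe⟩, hsurj⟩ : ∃ β : k, (∃ e, 0 < e ∧ β ^ p ^ e = β) ∧
      ∀ q : Q, ∃ d : fixG k (algebraMap K Ω x), (d : Ω ≃ₐ[k] Ω) ∈ Dgrp p k (algebraMap K Ω x) ∧ ρ β d = q := by
    by_contra hcon
    push Not at hcon
    -- `n β` factors through `ρ₁` on commutators
    have hfac : ∀ β : k, (∃ e, 0 < e ∧ β ^ p ^ e = β) → ∀ d d' : fixG k (algebraMap K Ω x),
        (d : Ω ≃ₐ[k] Ω) ∈ Dgrp p k (algebraMap K Ω x) → (d' : Ω ≃ₐ[k] Ω) ∈ Dgrp p k (algebraMap K Ω x) → ρ₁ d = ρ₁ d' →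
        n β d = n β d' := by
      intro β hβ d d' hd hd' hdd
      by_contra hne
      obtain ⟨q, hq⟩ := hcon β hβ
      -- the central element
      set i := n β d - n β d' with hi
      have hi0 : i ≠ 0 := sub_ne_zero.mpr hne
      have h1 : ρ β (d * d'⁻¹) = ζ i := by
        have h2 : ρ β d = ζ i * ρ β d' := by
          rw [hρ, hρ, hdd, ← mul_assoc, ← E.add, hi, sub_add_cancel]
        rw [map_mul, map_inv, h2]
        group
      have hpow : ∀ (m : ℕ) (j : ZMod p), ζ j ^ m = ζ (m * j) := by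
        intro m j
        induction m with
        | zero => simp [hζ0]
        | succ m ih => rw [pow_succ, ih, ← E.add]; congr 1; push_cast; ring
      have hz : ∀ j : ZMod p, ∃ δ : fixG k (algebraMap K Ω x), (δ : Ω ≃ₐ[k] Ω) ∈ Dgrp p k (algebraMap K Ω x) ∧ ρ β δ = ζ j := by
        intro j
        refine ⟨(d * d'⁻¹) ^ (j / i).val, ?_, ?_⟩
        · rw [Subgroup.coe_pow, Subgroup.coe_mul, Subgroup.coe_inv]
          exact pow_mem (mul_mem hd (inv_mem hd')) _
        · rw [map_pow, h1, hpow, ZMod.natCast_zmod_val, div_mul_cancel₀ _ hi0]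
      obtain ⟨d₁, hd₁, hd₁'⟩ := L.surj (π q)
      obtain ⟨j, hj⟩ := E.ker (q * (ρ β d₁)⁻¹) (by
        rw [map_mul, map_inv, hπρ, hd₁', mul_inv_cancel])
      obtain ⟨δ, hδ, hδ'⟩ := hz j
      refine hq (δ * d₁) ?_ ?_
      · rw [Subgroup.coe_mul]; exact mul_mem hδ hd₁
      · rw [map_mul, hδ', ← hj]; group
    choose dr hdr hdr' using L.surj
    have hinf : Infinite {a : k // ∃ e, 0 < e ∧ a ^ p ^ e = a} := infinite_alg
    obtain ⟨⟨β, hβ⟩, ⟨β', hβ'⟩, hne, heq⟩ := Finite.exists_ne_map_eq_of_infinite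
      (fun (a : {a : k // ∃ e, 0 < e ∧ a ^ p ^ e = a}) (r : Q₁) => n a.1 (dr r))
    have hne' : β - β' ≠ 0 := by
      intro h0
      apply hne
      apply Subtype.ext
      exact sub_eq_zero.mp h0
    obtain ⟨d, hd, hdu⟩ := hN (β - β') (w β - w β') hne' (by
      rw [wp_sub, hw, hw, map_sub]; ring)
    apply hdu
    have hdf : d ∈ fixG k (algebraMap K Ω x) := Dgrp_le_fixG _ hd
    set d₀ : fixG k (algebraMap K Ω x) := ⟨d, hdf⟩ with hd₀
    have h1 : n β d₀ = n β' d₀ := by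
      rw [hfac β hβ d₀ (dr (ρ₁ d₀)) hd (hdr _) (hdr' _).symm,
        hfac β' hβ' d₀ (dr (ρ₁ d₀)) hd (hdr _) (hdr' _).symm]
      exact congrFun heq (ρ₁ d₀)
    have h2 := hn β d₀
    have h3 := hn β' d₀
    rw [h1, h3] at h2
    rw [map_sub]
    linear_combination h2
  -- the new data
  let W : Q → Ω := fun q => b (π q) - w β + ι (μ q)
  have hW : ∀ (σ : fixG k (algebraMap K Ω x)) (q : Q), (σ : Ω ≃ₐ[k] Ω) (W q) = W (ρ β σ * q) := by
    intro σ q
    have h1 : μ (ρ β σ * q) = n β σ + μ q + c (ρ₁ σ) (π q) := by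
      have h2 : ρ β σ * q = ζ (n β σ + μ q + c (ρ₁ σ) (π q)) * s (ρ₁ σ * π q) := by
        calc ρ β σ * q = ζ (n β σ) * s (ρ₁ σ) * (ζ (μ q) * s (π q)) := by rw [hρ, ← hμ]
          _ = ζ (n β σ) * (s (ρ₁ σ) * ζ (μ q)) * s (π q) := by group
          _ = ζ (n β σ) * (ζ (μ q) * s (ρ₁ σ)) * s (π q) := by rw [E.comm (μ q) (s (ρ₁ σ))]
          _ = ζ (n β σ) * ζ (μ q) * (s (ρ₁ σ) * s (π q)) := by group
          _ = ζ (n β σ) * ζ (μ q) * (ζ (c (ρ₁ σ) (π q)) * s (ρ₁ σ * π q)) := by rw [hc]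
          _ = ζ (n β σ + μ q + c (ρ₁ σ) (π q)) * s (ρ₁ σ * π q) := by
            rw [E.add, E.add, mul_assoc, mul_assoc, mul_assoc]
      rw [h2, hμ']
    have h3 := hb σ (π q)
    have h4 := hn β σ
    simp only [W]
    rw [h1, map_mul, hπρ, map_add, map_sub, hι, iota_fix, ← hι, map_add, map_add, ← h3, h4]
    ring
  have hβgood : algebraMap k Ω β ∈ Good p (algebraMap K Ω x) := by
    apply Good_Vq he
    rw [mem_Vq, ← map_pow, hβe]
  have hwgood : w β ∈ Good p (algebraMap K Ω x) := by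
    apply Good_root
    rw [hw]
    exact add_mem hfgood (mul_mem hβgood (pow_mem Good_x _))
  refine ⟨ρ β, fun q => -(t (π q) * W q ^ (p - 1)), ?_, ?_, hsurj, ?_, ?_⟩
  · intro σ q
    rw [map_neg, map_mul, map_pow, hW, L.equiv, map_mul, hπρ]
  · have e : ∑ q : Q, -(t (π q) * W q ^ (p - 1)) =
        ∑ r : Q₁, ∑ i : ZMod p, -(t r * (b r - w β + ι i) ^ (p - 1)) := by
      rw [← Finset.sum_product']
      symm
      refine Finset.sum_bij' (fun (x : Q₁ × ZMod p) _ => ζ x.2 * s x.1) (fun q _ => (π q, μ q))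
        ?_ ?_ ?_ ?_ ?_
      · intro a _; exact Finset.mem_univ _
      · intro a _; exact Finset.mem_product.mpr ⟨Finset.mem_univ _, Finset.mem_univ _⟩
      · rintro ⟨r, i⟩ _
        simp only [map_mul, E.one, hs, one_mul, hμ']
      · intro q _
        exact (hμ q).symm
      · rintro ⟨r, i⟩ _
        simp only [W, map_mul, E.one, hs, one_mul, hμ']
    rw [e]
    have h1 : ∀ r : Q₁, ∑ i : ZMod p, -(t r * (b r - w β + ι i) ^ (p - 1)) = t r := by
      intro r
      rw [Finset.sum_neg_distrib, ← Finset.mul_sum, hι, sum_add_pow]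
      ring
    rw [Finset.sum_congr rfl (fun r _ => h1 r)]
    exact L.sum
  · intro q
    exact neg_mem (mul_mem (L.good _) (pow_mem (add_mem (sub_mem (hbgood _) hwgood) (hιgood _)) _))
  · obtain ⟨T, hT, hTc, hTt, hTker⟩ := L.chain
    have hιmem : ∀ (A : IntermediateField K Ω) (i : ZMod p), ι i ∈ A := by
      intro A i
      have : ι i = (i.val : Ω) := by
        rw [hι]
        conv_lhs => rw [← ZMod.natCast_zmod_val i, map_natCast]
      rw [this]
      exact _root_.natCast_mem A _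
    have hbmem : ∀ a, b a ∈ IntermediateField.adjoin K {z | z ∈ T} := fun a =>
      sum_mem fun r _ => mul_mem (hιmem _ _) (hTt _)
    have hfmem : f ∈ IntermediateField.adjoin K {z | z ∈ T} :=
      sum_mem fun r _ => mul_mem (sub_mem (pow_mem (hbmem _) _) (hbmem _)) (hTt _)
    have hle : IntermediateField.adjoin K {z | z ∈ T} ≤
        IntermediateField.adjoin K {z | z ∈ w β :: T} :=
      IntermediateField.adjoin.mono K _ _ (fun z hz => List.mem_cons_of_mem _ hz)
    refine ⟨w β :: T, ?_, ⟨?_, hTc⟩, ?_, ?_⟩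
    · intro z hz
      rw [List.mem_cons] at hz
      rcases hz with rfl | hz
      · exact hwgood
      · exact hT z hz
    · rw [hw]
      refine add_mem hfmem (mul_mem ?_ (pow_mem (IntermediateField.algebraMap_mem _ _) _))
      rw [IsScalarTower.algebraMap_apply k K Ω]
      exact IntermediateField.algebraMap_mem _ _
    · intro q
      have h1 : w β ∈ IntermediateField.adjoin K {z | z ∈ w β :: T} :=
        IntermediateField.subset_adjoin K _ List.mem_cons_self
      exact neg_mem (mul_mem (hle (hTt _)) (pow_mem (add_mem (sub_mem (hle (hbmem _)) h1)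
        (hιmem _ _)) _))
    · intro σ
      constructor
      · intro hσ
        have h1 : ρ₁ σ = 1 := by rw [← hπρ β, hσ, map_one]
        have h2 : n β σ = n β 1 := by
          have h3 : ρ β σ = ρ β 1 := by rw [hσ, map_one]
          rw [hρ, hρ, h1, map_one] at h3
          exact huniq h3
        have h3 : (σ : Ω ≃ₐ[k] Ω) (w β) = w β := by
          have h4 := hn β σ
          have h5 := hn β 1
          rw [h2, h5, h1, map_one] at h4
          simp only [Subgroup.coe_one, AlgEquiv.one_apply] at h4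
          linear_combination h4
        intro z hz
        rw [List.mem_cons] at hz
        rcases hz with rfl | hz
        · exact h3
        · exact (hTker σ).mp h1 z hz
      · intro hσ
        have h1 : ρ₁ σ = 1 := (hTker σ).mpr (fun z hz => hσ z (List.mem_cons_of_mem _ hz))
        have h2 : (σ : Ω ≃ₐ[k] Ω) (w β) = w β := hσ _ List.mem_cons_self
        have h3 : n β σ = n β 1 := by
          apply hιinj
          rw [hn, hn, h1, h2, map_one]
          simp
        have h4 : ρ β σ = ρ β 1 := by rw [hρ, hρ, h3, h1, map_one]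
        rw [h4, map_one]

end step

section ind

variable {p : ℕ} [hp : Fact p.Prime] {k K Ω : Type*} [Field k] [IsAlgClosed k] [Field K]
  [Field Ω] [IsAlgClosed Ω] [Algebra k K] [Algebra K Ω] [Algebra k Ω] [IsScalarTower k K Ω]
  [CharP k p] [CharP K p] [CharP Ω p] [Algebra (ZMod p) Ω] {x : K}

theorem exists_liftedC (hN : ∀ (γ : k) (u : Ω), γ ≠ 0 →
      u ^ p - u = algebraMap k Ω γ * algebraMap K Ω x ^ (p + 1) →
      ∃ d ∈ Dgrp p k (algebraMap K Ω x), d u ≠ u) (m : ℕ) :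
    ∀ (Q : Type*) [Group Q] [Fintype Q], Fintype.card Q = p ^ m →
      ∃ (ρ : fixG k (algebraMap K Ω x) →* Q) (t : Q → Ω), LiftedC p k x ρ t := by
  induction m with
  | zero =>
    intro Q _ _ hcard
    rw [pow_zero] at hcard
    have hs : Subsingleton Q := Fintype.card_le_one_iff_subsingleton.mp hcard.le
    refine ⟨1, fun _ => 1, ⟨fun σ q => map_one _, ?_, fun q => ⟨1, one_mem _, Subsingleton.elim _ _⟩,
      fun _ => one_mem _, ⟨[], by simp, trivial, fun q => one_mem _, fun σ => by simp⟩⟩⟩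
    rw [Finset.sum_const, Finset.card_univ, hcard, one_smul]
  | succ m ih =>
    intro Q _ _ hcard
    classical
    have hnat : Nat.card Q = p ^ (m + 1) := by rw [Nat.card_eq_fintype_card, hcard]
    have hP : IsPGroup p Q := IsPGroup.of_card hnat
    have hnt : Nontrivial Q := by
      rw [← Finite.one_lt_card_iff_nontrivial, hnat]
      exact Nat.one_lt_pow (Nat.succ_ne_zero m) hp.out.one_lt
    have hc := hP.center_nontrivial
    have hPc : IsPGroup p (Subgroup.center Q) := hP.to_subgroup _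
    obtain ⟨j, hj⟩ := hPc.exists_card_eq
    have hj0 : j ≠ 0 := by
      rintro rfl
      rw [pow_zero] at hj
      have := Finite.one_lt_card_iff_nontrivial.mpr hc
      omega
    have hdvd : p ∣ Nat.card (Subgroup.center Q) := by rw [hj]; exact dvd_pow_self p hj0
    obtain ⟨z, hz⟩ := exists_prime_orderOf_dvd_card' p hdvd
    set z' : Q := (z : Q) with hz'
    have hzo : orderOf z' = p := by rw [hz', Subgroup.orderOf_coe, hz]
    have hzc : ∀ q, z' * q = q * z' := fun q => (Subgroup.mem_center_iff.mp z.2 q).symm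
    have hnorm : (Subgroup.zpowers z').Normal := by
      constructor
      intro n hn g
      have h1 : Subgroup.zpowers z' ≤ Subgroup.center Q := by
        rw [Subgroup.zpowers_le]; exact z.2
      have h2 : g * n * g⁻¹ = n := by
        have := Subgroup.mem_center_iff.mp (h1 hn) g
        rw [this, mul_assoc, mul_inv_cancel, mul_one]
      rw [h2]; exact hn
    have E := cext_of_central (p := p) hzc hzo
    have hq : Fintype.card (Q ⧸ Subgroup.zpowers z') = p ^ m := by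
      have h1 := Subgroup.card_eq_card_quotient_mul_card_subgroup (Subgroup.zpowers z')
      rw [Nat.card_zpowers, hzo, hnat, pow_succ] at h1
      rw [← Nat.card_eq_fintype_card]
      exact (Nat.eq_of_mul_eq_mul_right hp.out.pos h1).symm
    obtain ⟨ρ₁, t, L⟩ := ih (Q ⧸ Subgroup.zpowers z') hq
    exact L.step E hN

end ind

end Pool.Agent.Helper32
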