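import Mathlib
import Pool.Agent.Helper32.AS34
import Pool.Agent.Helper32.AS32

/-!
# Assembly
-/

namespace Pool.Agent.Helper32

open Polynomial WithZero IntermediateField
open scoped commutatorElement

set_option linter.unusedSectionVars false

section assembly

variable {p : ℕ} [hp : Fact p.Prime] {k K Ω : Type*} [Field k] [IsAlgClosed k] [Field K]
  [Field Ω] [Algebra k K] [Algebra K Ω] [Algebra k Ω] [IsScalarTower k K Ω]
  [CharP k p] [CharP K p] [CharP Ω p] [Algebra (ZMod p) Ω]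
  {x : K} {vK : Valuation K (WithZero (Multiplicative ℤ))} {e : ℕ}

/-- the fields are function fields -/
lemma isFunctionField_of_finite (htrans : Transcendental k x)
    (hgenK : ∀ y : K, y ∈ IntermediateField.adjoin k {x}) (F : IntermediateField K Ω)
    [FiniteDimensional K F] : IsFunctionField k F := by
  refine ⟨algebraMap K F x, ?_, ?_⟩
  · intro h
    apply htrans
    exact (isAlgebraic_algebraMap_iff (algebraMap K F).injective).mp h
  · set A := IntermediateField.adjoin k {algebraMap K F x} with hA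
    have hmem : ∀ y : K, algebraMap K F y ∈ A := by
      intro y
      have h1 := hgenK y
      induction h1 using adjoin_induction with
      | mem z hz =>
        rw [Set.mem_singleton_iff] at hz
        rw [hz]
        exact mem_adjoin_simple_self k _
      | algebraMap c =>
        rw [← IsScalarTower.algebraMap_apply]
        exact IntermediateField.algebraMap_mem _ _
      | add y z _ _ hy hz => rw [map_add]; exact add_mem hy hz
      | inv y _ hy => rw [map_inv₀]; exact inv_mem hy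
      | mul y z _ _ hy hz => rw [map_mul]; exact mul_mem hy hz
    let f : K →+* A := (algebraMap K F).codRestrict A.toSubfield.toSubring hmem
    let _ : Algebra K A := f.toAlgebra
    have : IsScalarTower K A F := IsScalarTower.of_algebraMap_eq (fun y => rfl)
    exact Module.Finite.of_restrictScalars_finite K A F

/-- intertwining on `K` -/
lemma exists_intertwine (hgen : Gen k Ω x) (htr : Trans k x) {F : IntermediateField K Ω}
    {σ : F ≃ₐ[k] F} {a : k} (hσ : σ (algebraMap K F x) = algebraMap K F x + algebraMap k F a) :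
    ∃ τ : K ≃ₐ[k] K, τ x = x + algebraMap k K a ∧
      ∀ y, σ (algebraMap K F y) = algebraMap K F (τ y) := by
  obtain ⟨τ, hτ⟩ := htr a
  refine ⟨τ, hτ, ?_⟩
  have hs : IsScalarTower k F Ω := isScalarTower_kE F
  have h1 : ((IsScalarTower.toAlgHom k F Ω).comp (σ : F →ₐ[k] F)).comp
      (IsScalarTower.toAlgHom k K F) = ((IsScalarTower.toAlgHom k F Ω).comp
      (IsScalarTower.toAlgHom k K F)).comp (τ : K →ₐ[k] K) := by
    apply hgen
    change ((σ (algebraMap K F x) : F) : Ω) = ((algebraMap K F (τ x) : F) : Ω)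
    rw [hσ, hτ, map_add, ← IsScalarTower.algebraMap_apply]
  intro y
  apply Subtype.ext
  exact DFunLike.congr_fun h1 y

/-- conjugation of a homomorphism of `fixG` by a translation -/
lemma exists_conj {X : Ω} {Q : Type*} [Group Q] (ρ : fixG k X →* Q) {τ : Ω ≃ₐ[k] Ω}
    (hτ : τ ∈ transG p k X e) :
    ∃ ρ' : fixG k X →* Q, ∀ (σ : fixG k X) (δ : fixG k X),
      (δ : Ω ≃ₐ[k] Ω) = τ⁻¹ * σ * τ → ρ' σ = ρ δ := by
  have hmem : ∀ σ : fixG k X, τ⁻¹ * σ * τ ∈ fixG k X := by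
    intro σ
    obtain ⟨a, -, ha⟩ := hτ
    rw [mem_fixG]
    have h1 : (σ : Ω ≃ₐ[k] Ω) (τ X) = τ X := by
      rw [ha, map_add, AlgEquiv.commutes, mem_fixG.mp σ.2]
    rw [AlgEquiv.mul_apply, AlgEquiv.mul_apply, h1, ← AlgEquiv.mul_apply, inv_mul_cancel]
    rfl
  refine ⟨MonoidHom.mk' (fun σ => ρ ⟨τ⁻¹ * σ * τ, hmem σ⟩) ?_, ?_⟩
  · intro a b
    rw [← map_mul]
    congr 1
    apply Subtype.ext
    change τ⁻¹ * ((a : Ω ≃ₐ[k] Ω) * (b : Ω ≃ₐ[k] Ω)) * τ = (τ⁻¹ * a * τ) * (τ⁻¹ * b * τ)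
    group
  · intro σ δ h
    change ρ ⟨τ⁻¹ * σ * τ, hmem σ⟩ = ρ δ
    congr 1
    exact Subtype.ext h.symm

end assembly

section main

variable {p : ℕ} [hp : Fact p.Prime] {k K Ω : Type*} [Field k] [IsAlgClosed k] [Field K]
  [Field Ω] [Algebra k K] [Algebra K Ω] [Algebra k Ω] [IsScalarTower k K Ω]
  [CharP k p] [CharP K p] [CharP Ω p] [Algebra (ZMod p) Ω]
  {x : K} {vK : Valuation K (WithZero (Multiplicative ℤ))} {e : ℕ}

lemma fixG_algebraMap (hgen : Gen k Ω x) {σ : Ω ≃ₐ[k] Ω}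
    (hσ : σ ∈ fixG k (algebraMap K Ω x)) (y : K) :
    σ (algebraMap K Ω y) = algebraMap K Ω y := by
  have h1 : (σ : Ω →ₐ[k] Ω).comp (IsScalarTower.toAlgHom k K Ω) =
      IsScalarTower.toAlgHom k K Ω := by
    apply hgen
    exact hσ
  exact DFunLike.congr_fun h1 y

/-- the homomorphisms of the second ramification group -/
lemma exists_family [IsAlgClosure K Ω] (hgen : Gen k Ω x) (htr : Trans k x) {Q : Type*} [Group Q] {T : List Ω}
    {F : IntermediateField K Ω} (hF : F = Lh p k x e T) (hstab : Stab p k x e F)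
    (ρ : fixG k (algebraMap K Ω x) →* Q)
    (hker : ∀ σ : fixG k (algebraMap K Ω x), ρ σ = 1 ↔ ∀ z ∈ T, (σ : Ω ≃ₐ[k] Ω) z = z)
    (hsurj : ∀ q, ∃ d : fixG k (algebraMap K Ω x), (d : Ω ≃ₐ[k] Ω) ∈
      ⁅transG p k (algebraMap K Ω x) e, transG p k (algebraMap K Ω x) e⁆ ∧ ρ d = q) :
    ∃ φ : {a : k // a ^ p ^ e = a} → (fixG k (algebraMap K F x) →* Q),
      (∀ a q, ∃ h : fixG k (algebraMap K F x), (h : F ≃ₐ[k] F) ∈
        ⁅transG p k (algebraMap K F x) e, transG p k (algebraMap K F x) e⁆ ∧ φ a h = q) ∧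
      ∀ h : fixG k (algebraMap K F x), (∀ a, φ a h = 1) → h = 1 := by
  have hTF : ∀ τ ∈ transG p k (algebraMap K Ω x) e, ∀ z ∈ T, τ z ∈ F := by
    intro τ hτ z hz
    rw [hF]
    exact subset_adjoin K _ ⟨τ, hτ, z, hz, rfl⟩
  choose τ hτ hτX using fun a : {a : k // a ^ p ^ e = a} => exists_lift_trans (Ω := Ω) htr a.2
  choose ρ' hρ' using fun a => exists_conj ρ (hτ a)
  have hconj : ∀ (a : {a : k // a ^ p ^ e = a}) (σ : fixG k (algebraMap K Ω x)), (τ a)⁻¹ * σ * τ a ∈ fixG k (algebraMap K Ω x) := by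
    intro a σ
    rw [mem_fixG]
    have h1 : (σ : Ω ≃ₐ[k] Ω) (τ a (algebraMap K Ω x)) = τ a (algebraMap K Ω x) := by
      rw [hτX, map_add, AlgEquiv.commutes, mem_fixG.mp σ.2]
    rw [AlgEquiv.mul_apply, AlgEquiv.mul_apply, h1, ← AlgEquiv.mul_apply, inv_mul_cancel]
    rfl
  have hdesc : ∀ a, ∃ ρF : fixG k (algebraMap K F x) →* Q, ∀ (σ : fixG k (algebraMap K Ω x))
      (h : fixG k (algebraMap K F x)), (∀ z : F, (((h : F ≃ₐ[k] F) z : F) : Ω) =
        (σ : Ω ≃ₐ[k] Ω) z) → ρF h = ρ' a σ := by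
    intro a
    apply exists_descend F (ρ' a)
    intro σ hσ
    rw [hρ' a σ ⟨_, hconj a σ⟩ rfl, hker]
    intro z hz
    change ((τ a)⁻¹ * σ * τ a) z = z
    rw [AlgEquiv.mul_apply, AlgEquiv.mul_apply, hσ _ (hTF _ (hτ a) z hz), ← AlgEquiv.mul_apply,
      inv_mul_cancel]
    rfl
  choose φ hφ using hdesc
  refine ⟨φ, ?_, ?_⟩
  · intro a q
    obtain ⟨d, hd, hdq⟩ := hsurj q
    have hd' : τ a * d * (τ a)⁻¹ ∈ ⁅transG p k (algebraMap K Ω x) e, transG p k (algebraMap K Ω x) e⁆ := by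
      have h1 := (Subgroup.commutator_def (transG p k (algebraMap K Ω x) e) (transG p k (algebraMap K Ω x) e))
      -- conjugation preserves the commutator subgroup
      have h2 : (τ a) * (d : Ω ≃ₐ[k] Ω) * (τ a)⁻¹ = ⁅τ a, (d : Ω ≃ₐ[k] Ω)⁆ * d := by
        rw [commutatorElement_def]; group
      rw [h2]
      have h3 : (d : Ω ≃ₐ[k] Ω) ∈ transG p k (algebraMap K Ω x) e := fixG_le_transG _ e d.2
      exact mul_mem (Subgroup.commutator_mem_commutator (hτ a) h3) hd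
    obtain ⟨h, hh, hhd⟩ := hstab.commutator_restrict hd'
    have hdf : τ a * d * (τ a)⁻¹ ∈ fixG k (algebraMap K Ω x) := commutator_transG_le _ e hd'
    have hhf : h ∈ fixG k (algebraMap K F x) := commutator_transG_le _ e hh
    refine ⟨⟨h, hhf⟩, hh, ?_⟩
    rw [hφ a ⟨_, hdf⟩ ⟨h, hhf⟩ hhd, hρ' a ⟨_, hdf⟩ d ?_, hdq]
    change (d : Ω ≃ₐ[k] Ω) = (τ a)⁻¹ * (τ a * d * (τ a)⁻¹) * τ a
    group
  · intro h hh
    obtain ⟨σ, hσ⟩ := exists_extend F (h : F ≃ₐ[k] F)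
    have hσf : σ ∈ fixG k (algebraMap K Ω x) := by
      rw [mem_fixG]
      have h1 := hσ (algebraMap K F x)
      rw [mem_fixG.mp h.2] at h1
      exact h1.symm
    -- `σ` fixes the orbit
    have horb : ∀ u ∈ Orb p k (algebraMap K Ω x) e T, σ u = u := by
      rintro u ⟨τ', hτ', z, hz, rfl⟩
      obtain ⟨a, ha, hτ'X⟩ := hτ'
      set δ : fixG k (algebraMap K Ω x) := ⟨_, hconj ⟨a, ha⟩ ⟨σ, hσf⟩⟩ with hδ
      have h1 : ρ δ = 1 := by
        rw [← hρ' ⟨a, ha⟩ ⟨σ, hσf⟩ δ rfl, ← hφ ⟨a, ha⟩ ⟨σ, hσf⟩ h hσ]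
        exact hh _
      have hγ : (τ ⟨a, ha⟩)⁻¹ * τ' ∈ fixG k (algebraMap K Ω x) := by
        rw [mem_fixG, AlgEquiv.mul_apply, hτ'X, ← hτX ⟨a, ha⟩, ← AlgEquiv.mul_apply,
          inv_mul_cancel]
        rfl
      set γ : fixG k (algebraMap K Ω x) := ⟨_, hγ⟩ with hγd
      have h2 : ρ (γ⁻¹ * δ * γ) = 1 := by
        rw [map_mul, map_mul, h1, mul_one, map_inv, inv_mul_cancel]
      have h3 := (hker _).mp h2 z hz
      have h4 : (δ : Ω ≃ₐ[k] Ω) ((γ : Ω ≃ₐ[k] Ω) z) = (γ : Ω ≃ₐ[k] Ω) z := by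
        have h5 : ((γ⁻¹ * δ * γ : fixG k (algebraMap K Ω x)) : Ω ≃ₐ[k] Ω) z =
            (γ : Ω ≃ₐ[k] Ω)⁻¹ ((δ : Ω ≃ₐ[k] Ω) ((γ : Ω ≃ₐ[k] Ω) z)) := rfl
        rw [h5] at h3
        have h6 := congrArg (γ : Ω ≃ₐ[k] Ω) h3
        rw [← AlgEquiv.mul_apply, mul_inv_cancel] at h6
        exact h6
      have h5 : (δ : Ω ≃ₐ[k] Ω) ((γ : Ω ≃ₐ[k] Ω) z) = (τ ⟨a, ha⟩)⁻¹ (σ (τ' z)) := by
        change ((τ ⟨a, ha⟩)⁻¹ * σ * τ ⟨a, ha⟩) (((τ ⟨a, ha⟩)⁻¹ * τ') z) = _
        have h6 : ((τ ⟨a, ha⟩)⁻¹ * σ * τ ⟨a, ha⟩) * ((τ ⟨a, ha⟩)⁻¹ * τ') =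
            (τ ⟨a, ha⟩)⁻¹ * (σ * τ') := by group
        have h7 := DFunLike.congr_fun h6 z
        exact h7
      have h6 : (γ : Ω ≃ₐ[k] Ω) z = (τ ⟨a, ha⟩)⁻¹ (τ' z) := rfl
      rw [h5, h6] at h4
      exact (τ ⟨a, ha⟩)⁻¹.injective h4
    have hall : ∀ z ∈ F, σ z = z := by
      intro z hz
      rw [hF] at hz
      unfold Lh at hz
      induction hz using adjoin_induction with
      | mem z hz => exact horb z hz
      | algebraMap y =>
        exact fixG_algebraMap hgen hσf y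
      | add y z _ _ hy hz => rw [map_add, hy, hz]
      | inv y _ hy => rw [map_inv₀, hy]
      | mul y z _ _ hy hz => rw [map_mul, hy, hz]
    apply Subtype.ext
    ext z
    exact (hσ z).trans (hall z.1 z.2)

end main

end Pool.Agent.Helper32
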