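import Mathlib
import Pool.Agent.Helper32.AS35

/-!
# The main construction
-/

namespace Pool.Agent.Helper32

open Polynomial WithZero IntermediateField
open scoped commutatorElement

set_option linter.unusedSectionVars false

section main

variable {p : ℕ} [hp : Fact p.Prime] {k K Ω : Type*} [Field k] [IsAlgClosed k] [Field K]
  [Field Ω] [Algebra k K] [Algebra K Ω] [Algebra k Ω] [IsScalarTower k K Ω]
  [CharP k p] [CharP K p] [CharP Ω p] [Algebra (ZMod p) Ω] [IsAlgClosure K Ω]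
  [Algebra (Polynomial k) K] [IsFractionRing (Polynomial k) K] [IsScalarTower k (Polynomial k) K]
  {x : K} {vK : Valuation K (WithZero (Multiplicative ℤ))}

theorem main_construction (hbase : IsLevel p k x 0 0 vK) (hgen : Gen k Ω x) (htr : Trans k x)
    (hlin : Lin k x) (hres : ResK k x) (hX : x = algebraMap (Polynomial k) K X)
    (htrans : Transcendental k x) (hgenK : ∀ y : K, y ∈ IntermediateField.adjoin k {x})
    (Q : Type*) [Group Q] [Finite Q] (hQ : IsPGroup p Q) (hQ2 : 2 < Nat.card Q) (M : ℕ) :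
    ∃ (F : IntermediateField K Ω) (G : Subgroup (F ≃ₐ[k] F)) (P : Place k F),
      IsFunctionField k F ∧ 2 ≤ genus k F ∧ Finite G ∧ IsPGroup p G ∧
      2 * p * genus k F < (p - 1) * Nat.card G ∧ M * genus k F < Nat.card G ∧
      (∀ σ ∈ G, FixesPlace σ P) ∧
      (∀ σ ∈ G, σ ≠ 1 → ∀ P' : Place k F, FixesPlace σ P' → P' = P) ∧
      ∃ (m : ℕ) (Φ : ramGroup G P 2 →* (Fin m → Q)), 0 < m ∧ Function.Injective Φ ∧
        ∀ i, Function.Surjective (fun σ => Φ σ i) := by
  classical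
  have hΩ : IsAlgClosed Ω := IsAlgClosure.isAlgClosed K
  have hfQ : Fintype Q := Fintype.ofFinite Q
  have hN : ∀ (γ : k) (u : Ω), γ ≠ 0 →
      u ^ p - u = algebraMap k Ω γ * algebraMap K Ω x ^ (p + 1) →
      ∃ d ∈ Dgrp p k (algebraMap K Ω x), d u ≠ u :=
    fun γ u hγ hu => exists_not_fixed hbase hgen htr hγ hu
  obtain ⟨m, hm⟩ := hQ.exists_card_eq
  rw [Nat.card_eq_fintype_card] at hm
  obtain ⟨ρ, t, L⟩ := exists_liftedC (p := p) (k := k) (Ω := Ω) (x := x) hN m Q hm
  obtain ⟨T, hTgood, hTc, -, hker⟩ := L.chain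
  obtain ⟨e₁, J, he₁, hT₁⟩ := Good_finset (p := p) (x := algebraMap K Ω x) T.toFinset
    (fun z hz => hTgood z (by simpa using hz))
  -- the commutators
  choose d hd hdρ using L.surj
  choose eq heq hdeq using fun q => Dgrp_exists (algebraMap K Ω x) (hd q)
  set e₀ := e₁ * ∏ q, eq q with he₀
  have he₀pos : 0 < e₀ := Nat.mul_pos he₁ (Finset.prod_pos (fun q _ => heq q))
  -- choice of the size
  obtain ⟨D, hD⟩ := Nj_le p J
  obtain ⟨e, he, hdvd, hlarge⟩ := exists_large p ((2 + M) * p * 2 ^ J * T.length) D e₀ he₀pos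
  have hT : ∀ z ∈ T, z ∈ Mj p (algebraMap K Ω x) e J := fun z hz =>
    Mj_mono_e ((dvd_mul_right e₁ _).trans hdvd) J (hT₁ z (by simpa using hz))
  have hsurj : ∀ q, ∃ d : fixG k (algebraMap K Ω x), (d : Ω ≃ₐ[k] Ω) ∈
      ⁅transG p k (algebraMap K Ω x) e, transG p k (algebraMap K Ω x) e⁆ ∧ ρ d = q := by
    intro q
    have h1 : eq q ∣ e := by
      refine ((Finset.dvd_prod_of_mem eq (Finset.mem_univ q)).trans (dvd_mul_left _ e₁)).trans ?_
      exact hdvd
    exact ⟨d q, Subgroup.commutator_mono (transG_mono _ h1) (transG_mono _ h1) (hdeq q), hdρ q⟩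
  -- the field
  obtain ⟨F, n, g, v, hF, hn, I⟩ := tower_orbit (Ω := Ω) hbase hgen htr he J T hT hTc
  have hstab : Stab p k x e F := by rw [hF]; exact Lh_stab hgen htr T
  have hfd : FiniteDimensional K F := I.tow.fin
  have hsep : Algebra.IsSeparable K F := I.tow.sep
  have Lv := I.tow.lev
  set G := transG p k (algebraMap K F x) e with hG
  have hcard : Nat.card G = p ^ e * p ^ n := by
    rw [hG, hstab.card hgen htr he, I.tow.fr]
  have hfinG : Finite G := by
    apply Nat.finite_of_card_ne_zero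
    rw [hcard]
    exact mul_ne_zero (pow_ne_zero _ hp.out.ne_zero) (pow_ne_zero _ hp.out.ne_zero)
  have hpG : IsPGroup p G := IsPGroup.of_card (n := e + n) (by rw [hcard, pow_add])
  have hGx : ∀ σ ∈ G, ∃ a : k, σ (algebraMap K F x) = algebraMap K F x + algebraMap k F a := by
    rintro σ ⟨a, -, ha⟩
    exact ⟨a, ha⟩
  have hGp : ∀ σ ∈ G, ∃ m : ℕ, σ ^ p ^ m = 1 := by
    intro σ hσ
    obtain ⟨m, hm⟩ := hpG ⟨σ, hσ⟩
    exact ⟨m, congrArg Subtype.val hm⟩
  have hmem : ∀ σ ∈ G, ∀ z, v (σ z) ≤ 1 ↔ v z ≤ 1 := by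
    intro σ hσ
    obtain ⟨a, ha⟩ := hGx σ hσ
    exact Lv.aut_mem ha
  -- the genus
  obtain ⟨hR1, hR2⟩ := Rint_and_partial_fractions (k := k) (K := K) (F := F)
    (x := algebraMap K F x) (by rw [hX])
  have hgenus : genus k F = Module.finrank k (F ⧸ Wsub Lv) := genus_eq Lv hR1 hR2
  have hgle : genus k F ≤ g := by rw [hgenus]; exact (quot_finite_le Lv).2
  -- the second ramification group
  have hram : ramGroup G Lv.place 2 ≤ fixG k (algebraMap K F x) := by
    intro σ hσ
    obtain ⟨h1, h2, h3⟩ := Lv.mem_ramGroup.mp hσ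
    obtain ⟨a, ha⟩ := hGx σ h1
    obtain ⟨τ, hτ, hστ⟩ := exists_intertwine hgen htr ha
    have h4 := I.tow.ram_two_fix hbase hστ hτ (fun z hz => by
      have := h3 z hz
      norm_num at this
      exact this)
    rw [mem_fixG, ha, h4, map_zero, add_zero]
  have hcomm : ⁅G, G⁆ ≤ ramGroup G Lv.place 2 := Lv.commutator_le hGx hGp
  obtain ⟨φ, hφ1, hφ2⟩ := exists_family hgen htr hF hstab ρ hker hsurj
  -- genus at least two
  have hg2 : 2 ≤ genus k F := by
    by_contra hcon
    have h1 : Module.finrank k (F ⧸ Wsub Lv) ≤ 1 := by rw [← hgenus]; omega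
    have h2 := Lv.card_comm_le_two hGx hGp h1
    have hle : ⁅G, G⁆ ≤ G := by
      rw [Subgroup.commutator_le]
      intro σ hσ τ hτ
      rw [commutatorElement_def]
      exact mul_mem (mul_mem (mul_mem hσ hτ) (inv_mem hσ)) (inv_mem hτ)
    have hfinC : Finite (⁅G, G⁆ : Subgroup (F ≃ₐ[k] F)) :=
      Finite.of_injective (Subgroup.inclusion hle) (Subgroup.inclusion_injective hle)
    have h3 : Function.Surjective (fun h : (⁅G, G⁆ : Subgroup (F ≃ₐ[k] F)) =>
        φ ⟨0, by simp [hp.out.ne_zero]⟩ ⟨h.1, hram (hcomm h.2)⟩) := by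
      intro q
      obtain ⟨h, hh, hhq⟩ := hφ1 ⟨0, by simp [hp.out.ne_zero]⟩ q
      exact ⟨⟨h.1, hh⟩, hhq⟩
    have h4 := Nat.card_le_card_of_surjective _ h3
    omega
  have hmain : (2 + M) * p * 2 ^ J * n < p ^ e := by
    refine lt_of_le_of_lt ?_ hlarge
    calc (2 + M) * p * 2 ^ J * n ≤ (2 + M) * p * 2 ^ J * (T.length * Nj p e J) := by gcongr
      _ ≤ (2 + M) * p * 2 ^ J * (T.length * (e + 2) ^ D) := by gcongr; exact hD e
      _ = (2 + M) * p * 2 ^ J * T.length * (e + 2) ^ D := by ring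
  have hp1 : 0 < p - 1 := by have := hp.out.two_le; omega
  have hpn : 0 < p ^ n := pow_pos hp.out.pos n
  have hgb : genus k F ≤ n * 2 ^ J * (p - 1) * p ^ n := hgle.trans I.bound
  refine ⟨F, G, Lv.place, isFunctionField_of_finite htrans hgenK F, hg2, hfinG, hpG, ?_, ?_, ?_, ?_,
    ?_⟩
  · -- condition (N)
    rw [hcard]
    have h1 : 2 * p * 2 ^ J * n < p ^ e := by
      refine lt_of_le_of_lt ?_ hmain
      gcongr
      omega
    calc 2 * p * genus k F ≤ 2 * p * (n * 2 ^ J * (p - 1) * p ^ n) := by gcongr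
      _ = (2 * p * 2 ^ J * n) * ((p - 1) * p ^ n) := by ring
      _ < p ^ e * ((p - 1) * p ^ n) := by
          exact Nat.mul_lt_mul_of_pos_right h1 (Nat.mul_pos hp1 hpn)
      _ = (p - 1) * (p ^ e * p ^ n) := by ring
  · rw [hcard]
    have h1 : M * (p - 1) * 2 ^ J * n < p ^ e := by
      refine lt_of_le_of_lt ?_ hmain
      gcongr
      · omega
      · omega
    calc M * genus k F ≤ M * (n * 2 ^ J * (p - 1) * p ^ n) := by gcongr
      _ = (M * (p - 1) * 2 ^ J * n) * p ^ n := by ring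
      _ < p ^ e * p ^ n := Nat.mul_lt_mul_of_pos_right h1 hpn
  · intro σ hσ a
    exact hmem σ hσ a
  · intro σ hσ hne P' hP'
    by_contra hPP
    apply hne
    have hx : algebraMap K F x ∈ P'.1 := by
      by_contra hx
      exact hPP (Subtype.ext (Lv.unique P'.1 P'.2.1 hx))
    exact moved_orbit hgen htr hlin hres he hT hTc hF P'.2.1 P'.2.2 hx hσ hP'
  · -- the embedding in a power
    have hfinI : Finite {a : k // a ^ p ^ e = a} := by
      apply Nat.finite_of_card_ne_zero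
      rw [card_roots_k he]
      exact pow_ne_zero _ hp.out.ne_zero
    obtain ⟨N, ⟨ε⟩⟩ := Finite.exists_equiv_fin {a : k // a ^ p ^ e = a}
    let ψ : Fin N → (ramGroup G Lv.place 2 →* Q) := fun i =>
      (φ (ε.symm i)).comp (Subgroup.inclusion hram)
    have hN0 : 0 < N := by
      rw [Nat.pos_iff_ne_zero]
      rintro rfl
      exact (ε ⟨0, by simp [hp.out.ne_zero]⟩).elim0
    refine ⟨N, MonoidHom.pi ψ, hN0, ?_, ?_⟩
    · rw [injective_iff_map_eq_one]
      intro σ hσ
      have h1 : ∀ a, φ a (Subgroup.inclusion hram σ) = 1 := by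
        intro a
        have h3 : φ (ε.symm (ε a)) (Subgroup.inclusion hram σ) = 1 := congrFun hσ (ε a)
        rwa [Equiv.symm_apply_apply] at h3
      have h2 := hφ2 _ h1
      apply Subtype.ext
      exact congrArg (fun z : fixG k (algebraMap K F x) => z.1) h2
    · intro i q
      obtain ⟨h, hh, hhq⟩ := hφ1 (ε.symm i) q
      exact ⟨⟨h.1, hcomm hh⟩, hhq⟩

end main

end Pool.Agent.Helper32
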